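import Pool.Agent.H545R2.SegGraph

set_option autoImplicit false

/-! The gadget: rows (ladders) read a bit, leaves are covered by the rows or by the hub. -/

namespace Pool.Agent.H545R2

theorem bool_eq_not {s g : Bool} (h : ¬ s = g) : s = !g := by
  cases s <;> cases g <;> simp_all

/-- Segments of the gadget. -/
inductive Sg (b r l : ℕ) (L : Type) where
  | col (i : Fin b) (x : Fin (3 * r + 1))
  | link (i : Fin b) (t : Fin (l + 1)) (s : Bool)
  | leaf (a : L)
  | fin
  deriving DecidableEq

/-- The segments as a sum type. -/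
def sgEquiv (b r l : ℕ) (L : Type) :
    Sg b r l L ≃ ((Fin b × Fin (3 * r + 1)) ⊕ (Fin b × Fin (l + 1) × Bool)) ⊕ (L ⊕ Unit) where
  toFun := fun s => match s with
    | .col i x => Sum.inl (Sum.inl (i, x))
    | .link i t s => Sum.inl (Sum.inr (i, t, s))
    | .leaf a => Sum.inr (Sum.inl a)
    | .fin => Sum.inr (Sum.inr ())
  invFun := fun s => match s with
    | Sum.inl (Sum.inl (i, x)) => .col i x
    | Sum.inl (Sum.inr (i, t, s)) => .link i t s
    | Sum.inr (Sum.inl a) => .leaf a
    | Sum.inr (Sum.inr ()) => .fin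
  left_inv := by rintro (_ | _ | _ | _) <;> rfl
  right_inv := by rintro ((_ | _) | (_ | _)) <;> rfl

instance (b r l : ℕ) (L : Type) [Fintype L] : Fintype (Sg b r l L) :=
  Fintype.ofEquiv _ (sgEquiv b r l L).symm

theorem card_sg (b r l : ℕ) (L : Type) [Fintype L] :
    Fintype.card (Sg b r l L) = b * (3 * r + 1) + b * (2 * (l + 1)) + (Fintype.card L + 1) := by
  rw [Fintype.card_congr (sgEquiv b r l L)]
  simp only [Fintype.card_sum, Fintype.card_prod, Fintype.card_fin, Fintype.card_bool,
    Fintype.card_unit]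
  ring

/-- The connections between ports. -/
inductive GR {b r l : ℕ} {L : Type} (atl : Fin b → Fin r → Option (L × Bool))
    (ok : Fin b → ℕ → Bool → Prop) (hs he : L → Prop) (hh : L → L → Prop) (se : Prop) :
    Sg b r l L × Bool → Sg b r l L × Bool → Prop
  | rail (i : Fin b) (x y : Fin (3 * r + 1)) (s t : Bool) : x.val + 1 = y.val →
      t = xor s (decide (x.val % 3 = 2)) → GR atl ok hs he hh se (.col i x, s) (.col i y, t)
  | first (i : Fin b) (x : Fin (3 * r + 1)) (t : Fin (l + 1)) (s : Bool) : x.val = 0 → t.val = l →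
      GR atl ok hs he hh se (.link i t s, true) (.col i x, s)
  | dd (i i' : Fin b) (t t' : Fin (l + 1)) (s : Bool) : t.val = l → t'.val = 0 →
      i'.val = i.val + 1 → GR atl ok hs he hh se (.link i t s, true) (.link i' t' false, false)
  | ddf (i : Fin b) (t : Fin (l + 1)) (s : Bool) : t.val = l → i.val + 1 = b →
      GR atl ok hs he hh se (.link i t s, true) (.fin, false)
  | last (i : Fin b) (x : Fin (3 * r + 1)) (t : Fin (l + 1)) (s : Bool) : x.val = 3 * r →
      t.val = 0 → GR atl ok hs he hh se (.col i x, s) (.link i t true, false)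
  | unit (i : Fin b) (t t' : Fin (l + 1)) (s s' : Bool) : t.val + 1 = t'.val →
      ok i t.val (xor s s') → GR atl ok hs he hh se (.link i t s, true) (.link i t' s', false)
  | att0 (i : Fin b) (k : Fin r) (x : Fin (3 * r + 1)) (a : L) (m : Bool) :
      atl i k = some (a, m) → x.val = 3 * k.val + 1 →
      GR atl ok hs he hh se (.col i x, m) (.leaf a, false)
  | att1 (i : Fin b) (k : Fin r) (x : Fin (3 * r + 1)) (a : L) (m : Bool) :
      atl i k = some (a, m) → x.val = 3 * k.val + 2 →
      GR atl ok hs he hh se (.leaf a, true) (.col i x, m)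
  | hubS (a : L) : hs a → GR atl ok hs he hh se (.fin, true) (.leaf a, false)
  | hubL (a a' : L) : hh a a' → GR atl ok hs he hh se (.leaf a, true) (.leaf a', false)
  | hubE (a : L) (i : Fin b) (t : Fin (l + 1)) : he a → i.val = 0 → t.val = 0 →
      GR atl ok hs he hh se (.leaf a, true) (.link i t false, false)
  | sE (i : Fin b) (t : Fin (l + 1)) : se → i.val = 0 → t.val = 0 →
      GR atl ok hs he hh se (.fin, true) (.link i t false, false)

/-- The strand started at `false` is at height `strand z t` at level `t`. -/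
def strand (z : ℕ → Bool) : ℕ → Bool
  | 0 => false
  | t + 1 => xor (strand z t) (z t)

/-- symmetric closure of `GR` -/
def CC {b r l : ℕ} {L : Type} (atl : Fin b → Fin r → Option (L × Bool))
    (ok : Fin b → ℕ → Bool → Prop) (hs he : L → Prop) (hh : L → L → Prop) (se : Prop)
    (p q : Sg b r l L × Bool) : Prop :=
  GR atl ok hs he hh se p q ∨ GR atl ok hs he hh se q p

section forward

variable {b r l : ℕ} {L : Type} {atl : Fin b → Fin r → Option (L × Bool)}
    {ok : Fin b → ℕ → Bool → Prop} {hs he : L → Prop} {hh : L → L → Prop} {se : Prop}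

theorem nb_sep {i : Fin b} {x : Fin (3 * r + 1)} {s : Bool} {q : Sg b r l L × Bool}
    (hx : x.val % 3 = 0) (h : CC atl ok hs he hh se (.col i x, s) q) :
    (∃ t : Fin (l + 1), t.val = l ∧ x.val = 0 ∧ q = (.link i t s, true)) ∨
    (∃ y : Fin (3 * r + 1), y.val + 1 = x.val ∧ q = (.col i y, !s)) ∨
    (∃ y : Fin (3 * r + 1), x.val + 1 = y.val ∧ q = (.col i y, s)) ∨
    (∃ t : Fin (l + 1), t.val = 0 ∧ x.val = 3 * r ∧ q = (.link i t true, false)) := by
  rcases h with h | h
  · cases h with
    | rail i x y s t h1 h2 =>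
      right; right; left
      refine ⟨y, h1, ?_⟩
      rw [h2]; simp [hx]
    | last i x t s h1 h2 =>
      right; right; right
      exact ⟨t, h2, h1, rfl⟩
    | att0 i k x a m h1 h2 => omega
  · cases h with
    | rail i x y s t h1 h2 =>
      right; left
      refine ⟨x, h1, ?_⟩
      rw [h2]
      have : x.val % 3 = 2 := by omega
      simp [this]
    | first i x t s h1 h2 =>
      left
      exact ⟨t, h2, h1, rfl⟩
    | att1 i k x a m h1 h2 => omega

theorem nb_one {i : Fin b} {x : Fin (3 * r + 1)} {s : Bool} {q : Sg b r l L × Bool}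
    (hx : x.val % 3 = 1) (h : CC atl ok hs he hh se (.col i x, s) q) :
    (∃ y : Fin (3 * r + 1), y.val + 1 = x.val ∧ q = (.col i y, s)) ∨
    (∃ y : Fin (3 * r + 1), x.val + 1 = y.val ∧ q = (.col i y, s)) ∨
    (∃ (k : Fin r) (a : L), atl i k = some (a, s) ∧ x.val = 3 * k.val + 1 ∧
      q = (.leaf a, false)) := by
  rcases h with h | h
  · cases h with
    | rail i x y s t h1 h2 =>
      right; left
      refine ⟨y, h1, ?_⟩
      rw [h2]; simp [hx]
    | last i x t s h1 h2 => omega
    | att0 i k x a m h1 h2 =>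
      right; right
      exact ⟨k, a, h1, h2, rfl⟩
  · cases h with
    | rail i x y s t h1 h2 =>
      left
      refine ⟨x, h1, ?_⟩
      rw [h2]
      have : ¬ x.val % 3 = 2 := by omega
      simp [this]
    | first i x t s h1 h2 => omega
    | att1 i k x a m h1 h2 => omega

theorem nb_two {i : Fin b} {x : Fin (3 * r + 1)} {s : Bool} {q : Sg b r l L × Bool}
    (hx : x.val % 3 = 2) (h : CC atl ok hs he hh se (.col i x, s) q) :
    (∃ y : Fin (3 * r + 1), y.val + 1 = x.val ∧ q = (.col i y, s)) ∨
    (∃ y : Fin (3 * r + 1), x.val + 1 = y.val ∧ q = (.col i y, !s)) ∨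
    (∃ (k : Fin r) (a : L), atl i k = some (a, s) ∧ x.val = 3 * k.val + 2 ∧
      q = (.leaf a, true)) := by
  rcases h with h | h
  · cases h with
    | rail i x y s t h1 h2 =>
      right; left
      refine ⟨y, h1, ?_⟩
      rw [h2]; simp [hx]
    | last i x t s h1 h2 => omega
    | att0 i k x a m h1 h2 => omega
  · cases h with
    | rail i x y s t h1 h2 =>
      left
      refine ⟨x, h1, ?_⟩
      rw [h2]
      have : ¬ x.val % 3 = 2 := by omega
      simp [this]
    | first i x t s h1 h2 => omega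
    | att1 i k x a m h1 h2 =>
      right; right
      exact ⟨k, a, h1, h2, rfl⟩

theorem nb_link_last {i : Fin b} {t : Fin (l + 1)} {s : Bool} {q : Sg b r l L × Bool}
    (ht : t.val = l) (h : CC atl ok hs he hh se (.link i t s, true) q) :
    (∃ x : Fin (3 * r + 1), x.val = 0 ∧ q = (.col i x, s)) ∨
    (∃ (i' : Fin b) (t' : Fin (l + 1)), i'.val = i.val + 1 ∧ t'.val = 0 ∧
      q = (.link i' t' false, false)) ∨
    (i.val + 1 = b ∧ q = (.fin, false)) := by
  rcases h with h | h
  · cases h with
    | first i x t s h1 h2 => left; exact ⟨x, h1, rfl⟩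
    | dd i i' t t' s h1 h2 h3 => right; left; exact ⟨i', t', h3, h2, rfl⟩
    | ddf i t s h1 h2 => right; right; exact ⟨h2, rfl⟩
    | unit i t t' s s' h1 h2 => exfalso; have := t'.isLt; omega
  · cases h

theorem nb_link_mid {i : Fin b} {t : Fin (l + 1)} {s : Bool} {q : Sg b r l L × Bool}
    (ht : t.val < l) (h : CC atl ok hs he hh se (.link i t s, true) q) :
    ∃ (t' : Fin (l + 1)) (s' : Bool), t.val + 1 = t'.val ∧ ok i t.val (xor s s') ∧
      q = (.link i t' s', false) := by
  rcases h with h | h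
  · cases h with
    | first i x t s h1 h2 => omega
    | dd i i' t t' s h1 h2 h3 => omega
    | ddf i t s h1 h2 => omega
    | unit i t t' s s' h1 h2 => exact ⟨t', s', h1, h2, rfl⟩
  · cases h

/-- neighbours of the exit port of row `i` -/
theorem nb_exit_link {i' : Fin b} {t' : Fin (l + 1)} {q : Sg b r l L × Bool}
    (ht : t'.val = 0) (hi : 0 < i'.val) (h : CC atl ok hs he hh se (.link i' t' false, false) q) :
    ∃ (i : Fin b) (t : Fin (l + 1)) (s : Bool), i'.val = i.val + 1 ∧ t.val = l ∧
      q = (.link i t s, true) := by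
  rcases h with h | h
  · cases h
  · cases h with
    | dd i i' t t' s h1 h2 h3 => exact ⟨i, t, s, h3, h1, rfl⟩
    | unit i t t' s s' h1 h2 => omega
    | hubE a i t h1 h2 h3 => omega
    | sE i t h1 h2 h3 => omega

theorem nb_exit_fin {q : Sg b r l L × Bool}
    (h : CC atl ok hs he hh se (.fin, false) q) :
    ∃ (i : Fin b) (t : Fin (l + 1)) (s : Bool), i.val + 1 = b ∧ t.val = l ∧
      q = (.link i t s, true) := by
  rcases h with h | h
  · cases h
  · cases h with
    | ddf i t s h1 h2 => exact ⟨i, t, s, h2, h1, rfl⟩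

theorem nb_leaf_false {a : L} {q : Sg b r l L × Bool}
    (h : CC atl ok hs he hh se (.leaf a, false) q) :
    (∃ (i : Fin b) (k : Fin r) (x : Fin (3 * r + 1)) (m : Bool), atl i k = some (a, m) ∧
      x.val = 3 * k.val + 1 ∧ q = (.col i x, m)) ∨
    (hs a ∧ q = (.fin, true)) ∨ (∃ a', hh a' a ∧ q = (.leaf a', true)) := by
  rcases h with h | h
  · cases h
  · cases h with
    | att0 i k x a m h1 h2 => left; exact ⟨i, k, x, m, h1, h2, rfl⟩
    | hubS a h1 => right; left; exact ⟨h1, rfl⟩
    | hubL a a' h1 => right; right; exact ⟨a, h1, rfl⟩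

theorem nb_leaf_true {a : L} {q : Sg b r l L × Bool}
    (h : CC atl ok hs he hh se (.leaf a, true) q) :
    (∃ (i : Fin b) (k : Fin r) (x : Fin (3 * r + 1)) (m : Bool), atl i k = some (a, m) ∧
      x.val = 3 * k.val + 2 ∧ q = (.col i x, m)) ∨
    (he a ∧ ∃ (i : Fin b) (t : Fin (l + 1)), i.val = 0 ∧ t.val = 0 ∧
      q = (.link i t false, false)) ∨ (∃ a', hh a a' ∧ q = (.leaf a', false)) := by
  rcases h with h | h
  · cases h with
    | att1 i k x a m h1 h2 => left; exact ⟨i, k, x, m, h1, h2, rfl⟩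
    | hubE a i t h1 h2 h3 => right; left; exact ⟨h1, i, t, h2, h3, rfl⟩
    | hubL a a' h1 => right; right; exact ⟨a', h1, rfl⟩
  · cases h

/-- A valid matching of ports. -/
structure Matching (atl : Fin b → Fin r → Option (L × Bool))
    (ok : Fin b → ℕ → Bool → Prop) (hs he : L → Prop) (hh : L → L → Prop) (se : Prop)
    (ν : Sg b r l L × Bool → Sg b r l L × Bool) : Prop where
  inv : ∀ p, ν (ν p) = p
  adj : ∀ p, CC atl ok hs he hh se p (ν p)
  conn : ∀ X : Set (Sg b r l L × Bool), X.Nonempty → (∀ p ∈ X, ν p ∈ X) →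
    (∀ p ∈ X, flipP p ∈ X) → X = Set.univ

variable {ν : Sg b r l L × Bool → Sg b r l L × Bool}

theorem Matching.inj (hν : Matching atl ok hs he hh se ν) {p q : Sg b r l L × Bool}
    (h : ν p = ν q) : p = q := by
  rw [← hν.inv p, h, hν.inv]

theorem Matching.eq_comm' (hν : Matching atl ok hs he hh se ν) {p q : Sg b r l L × Bool}
    (h : ν p = q) : ν q = p := by
  rw [← h, hν.inv]

/-- the first step: the mode of a row -/
theorem Matching.mode0 (hν : Matching atl ok hs he hh se ν) (i : Fin b) (t : Fin (l + 1))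
    (ht : t.val = l) (x : Fin (3 * r + 1)) (hx : x.val = 0) :
    ∃ g : Bool, ν (.link i t g, true) = (.col i x, g) ∧
      (∀ x' s, ν (.link i t (!g), true) ≠ (.col i x', s)) ∧
      (∀ j k s, ν (.link i t (!g), true) = (.link j k s, false) → j.val = i.val + 1 ∧ k.val = 0 ∧ s = false) := by
  -- the exit port
  obtain ⟨D, hD1, hD2, hD3⟩ : ∃ D : Sg b r l L × Bool,
      (∀ s q, CC atl ok hs he hh se (.link i t s, true) q → q = (.col i x, s) ∨ q = D) ∧
      (∃ s, ν D = (.link i t s, true)) ∧ (∀ s, D ≠ (.col i x, s)) ∧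
      (∀ x' s, D ≠ (.col i x', s)) ∧
      (∀ j k s, D = (.link j k s, false) → j.val = i.val + 1 ∧ k.val = 0 ∧ s = false) := by
    by_cases hi : i.val + 1 < b
    · refine ⟨(.link ⟨i.val + 1, hi⟩ ⟨0, by omega⟩ false, false), ?_, ?_, by simp, by simp, ?_⟩
      · intro s q hq
        rcases nb_link_last ht hq with ⟨x', h1, rfl⟩ | ⟨i', t', h1, h2, rfl⟩ | ⟨h1, rfl⟩
        · left
          have : x' = x := by ext; omega
          rw [this]
        · right
          have e1 : i' = ⟨i.val + 1, hi⟩ := by ext; simpa using h1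
          have e2 : t' = ⟨0, by omega⟩ := by ext; simpa using h2
          rw [e1, e2]
        · omega
      · have := hν.adj (.link ⟨i.val + 1, hi⟩ ⟨0, by omega⟩ false, false)
        obtain ⟨i1, t1, s, h1, h2, h3⟩ := nb_exit_link rfl (by simp) this
        have e1 : i1 = i := by ext; simp at h1; omega
        have e2 : t1 = t := by ext; omega
        exact ⟨s, by rw [h3, e1, e2]⟩
      · intro j k s h
        simp only [Prod.mk.injEq, Sg.link.injEq] at h
        obtain ⟨⟨rfl, rfl, rfl⟩, _⟩ := h
        simp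
    · have hi' : i.val + 1 = b := by have := i.isLt; omega
      refine ⟨(.fin, false), ?_, ?_, by simp, by simp, by simp⟩
      · intro s q hq
        rcases nb_link_last ht hq with ⟨x', h1, rfl⟩ | ⟨i', t', h1, h2, rfl⟩ | ⟨h1, rfl⟩
        · left
          have : x' = x := by ext; omega
          rw [this]
        · exfalso; have := i'.isLt; omega
        · right; rfl
      · have := hν.adj (.fin, false)
        obtain ⟨i1, t1, s, h1, h2, h3⟩ := nb_exit_fin this
        have e1 : i1 = i := by ext; omega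
        have e2 : t1 = t := by ext; omega
        exact ⟨s, by rw [h3, e1, e2]⟩
  obtain ⟨s, hs'⟩ := hD2
  obtain ⟨hD3, hD4, hD5⟩ := hD3
  refine ⟨!s, ?_, ?_, ?_⟩
  · rcases hD1 _ _ (hν.adj (.link i t (!s), true)) with h | h
    · exact h
    · exfalso
      have := hν.eq_comm' h
      rw [hs'] at this
      simp at this
  · intro x' s' h
    rw [Bool.not_not, hν.eq_comm' hs'] at h
    exact hD4 _ _ h
  · intro j k s' h
    rw [Bool.not_not, hν.eq_comm' hs'] at h
    exact hD5 _ _ _ h

/-- two columns both of whose ports are matched with each other -/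
theorem Matching.no_short (hν : Matching atl ok hs he hh se ν) (i : Fin b)
    (x y : Fin (3 * r + 1)) (h : ∀ s, ∃ s', ν (.col i x, s) = (.col i y, s'))
    (h' : ∀ s, ∃ s', ν (.col i y, s) = (.col i x, s')) : False := by
  have := hν.conn {p | p.1 = .col i x ∨ p.1 = .col i y} ⟨(.col i x, true), by simp⟩ ?_ ?_
  · have h1 : ((.fin, true) : Sg b r l L × Bool) ∈ {p : Sg b r l L × Bool | p.1 = .col i x ∨ p.1 = .col i y} := by
      rw [this]; trivial
    simp at h1
  · rintro ⟨m, s⟩ (hp | hp)
    · simp only at hp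
      subst hp
      obtain ⟨s', hs'⟩ := h s
      rw [hs']; right; rfl
    · simp only at hp
      subst hp
      obtain ⟨s', hs'⟩ := h' s
      rw [hs']; left; rfl
  · rintro ⟨m, s⟩ hp
    exact hp

/-- state of a row at the separator `3k`: `(3k, g)` goes left and `(3k, !g)` goes right -/
def RowSt (ν : Sg b r l L × Bool → Sg b r l L × Bool) (i : Fin b) (g : Bool) (k : ℕ) : Prop :=
  ∀ x : Fin (3 * r + 1), x.val = 3 * k →
    ((x.val = 0 ∧ ∀ t : Fin (l + 1), t.val = l → ν (.col i x, g) = (.link i t g, true)) ∨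
      (∃ y : Fin (3 * r + 1), y.val + 1 = x.val ∧ ν (.col i x, g) = (.col i y, !g))) ∧
    ((∃ y : Fin (3 * r + 1), x.val + 1 = y.val ∧ ν (.col i x, !g) = (.col i y, !g)) ∨
      (∃ t : Fin (l + 1), t.val = 0 ∧ x.val = 3 * r ∧ ν (.col i x, !g) = (.link i t true, false)))

/-- what happens at the position `k` of a row -/
def PosSt (atl : Fin b → Fin r → Option (L × Bool))
    (ν : Sg b r l L × Bool → Sg b r l L × Bool) (i : Fin b) (g : Bool) (k : Fin r) : Prop :=
  ∀ x x1 x2 x3 : Fin (3 * r + 1), x.val = 3 * k.val → x1.val = x.val + 1 → x2.val = x.val + 2 →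
    x3.val = x.val + 3 →
    ν (.col i x1, !g) = (.col i x, !g) ∧ ν (.col i x2, !g) = (.col i x3, g) ∧
    ((ν (.col i x1, g) = (.col i x2, g) ∧ ν (.col i x2, g) = (.col i x1, g)) ∨
      ∃ a, atl i k = some (a, g) ∧ ν (.col i x1, g) = (.leaf a, false) ∧
        ν (.col i x2, g) = (.leaf a, true))

theorem Matching.row_step (hν : Matching atl ok hs he hh se ν) (i : Fin b) (g : Bool) (k : Fin r)
    (h : RowSt ν i g k.val) : RowSt ν i g (k.val + 1) ∧ PosSt atl ν i g k := by
  have hk := k.isLt
  obtain ⟨x, hx⟩ : ∃ x : Fin (3 * r + 1), x.val = 3 * k.val := ⟨⟨3 * k.val, by omega⟩, rfl⟩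
  obtain ⟨x1, hx1⟩ : ∃ x1 : Fin (3 * r + 1), x1.val = 3 * k.val + 1 := ⟨⟨3 * k.val + 1, by omega⟩, rfl⟩
  obtain ⟨x2, hx2⟩ : ∃ x2 : Fin (3 * r + 1), x2.val = 3 * k.val + 2 := ⟨⟨3 * k.val + 2, by omega⟩, rfl⟩
  obtain ⟨x3, hx3⟩ : ∃ x3 : Fin (3 * r + 1), x3.val = 3 * k.val + 3 := ⟨⟨3 * k.val + 3, by omega⟩, rfl⟩
  obtain ⟨hl, hr⟩ := h x hx
  -- (x, !g) goes to (x1, !g)
  have h0 : ν (.col i x, !g) = (.col i x1, !g) := by
    rcases hr with ⟨y, hy, h⟩ | ⟨t, _, h, _⟩
    · have : y = x1 := by ext; omega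
      rw [this] at h; exact h
    · omega
  have h0' := hν.eq_comm' h0
  -- (x, g) does not go to x1
  have hxg : ∀ s, ν (.col i x, g) ≠ (.col i x1, s) := by
    intro s hs'
    rcases hl with ⟨_, h⟩ | ⟨y, hy, h⟩
    · rw [h ⟨l, by omega⟩ rfl] at hs'
      simp at hs'
    · rw [h] at hs'
      simp only [Prod.mk.injEq, Sg.col.injEq] at hs'
      obtain ⟨⟨_, e⟩, _⟩ := hs'
      rw [e] at hy; omega
  -- neighbours of (x1, g)
  have n1 : ν (.col i x1, g) = (.col i x2, g) ∨
      ∃ a, atl i k = some (a, g) ∧ ν (.col i x1, g) = (.leaf a, false) := by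
    rcases nb_one (by omega) (hν.adj (.col i x1, g)) with ⟨y, hy, h⟩ | ⟨y, hy, h⟩ | ⟨k', a, h1, h2, h⟩
    · exfalso
      have : y = x := by ext; omega
      rw [this] at h
      exact hxg _ (hν.eq_comm' h)
    · left
      have : y = x2 := by ext; omega
      rw [this] at h; exact h
    · right
      have : k' = k := by ext; omega
      rw [this] at h1
      exact ⟨a, h1, h⟩
  -- neighbours of (x2, !g)
  have n2 : ν (.col i x2, !g) = (.col i x3, g) ∨
      ∃ a, atl i k = some (a, !g) ∧ ν (.col i x2, !g) = (.leaf a, true) := by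
    rcases nb_two (by omega) (hν.adj (.col i x2, !g)) with ⟨y, hy, h⟩ | ⟨y, hy, h⟩ | ⟨k', a, h1, h2, h⟩
    · exfalso
      have : y = x1 := by ext; omega
      rw [this] at h
      have := hν.eq_comm' h
      rw [h0'] at this
      simp only [Prod.mk.injEq, Sg.col.injEq] at this
      obtain ⟨⟨_, e⟩, _⟩ := this
      rw [e] at hx; omega
    · left
      have : y = x3 := by ext; omega
      rw [this] at h
      simpa using h
    · right
      have : k' = k := by ext; omega
      rw [this] at h1
      exact ⟨a, h1, h⟩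
  -- separator x3
  have n3 : ∀ s, ν (.col i x3, s) = (.col i x2, !s) ∨
      (∃ y : Fin (3 * r + 1), x3.val + 1 = y.val ∧ ν (.col i x3, s) = (.col i y, s)) ∨
      (∃ t : Fin (l + 1), t.val = 0 ∧ x3.val = 3 * r ∧ ν (.col i x3, s) = (.link i t true, false)) := by
    intro s
    rcases nb_sep (by omega) (hν.adj (.col i x3, s)) with ⟨t, _, h, _⟩ | ⟨y, hy, h⟩ | h | h
    · omega
    · left
      have : y = x2 := by ext; omega
      rw [this] at h; exact h
    · right; left; exact h
    · right; right; exact h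
  have notboth : ¬ ∀ s, ν (.col i x3, s) = (.col i x2, !s) := by
    intro h
    refine hν.no_short i x3 x2 (fun s => ⟨_, h s⟩) (fun s => ⟨!s, ?_⟩)
    have := hν.eq_comm' (h (!s))
    simpa using this
  have notboth' : ∃ s, ν (.col i x3, s) = (.col i x2, !s) := by
    by_contra hcon
    push Not at hcon
    have hR : ∀ s, (∃ y : Fin (3 * r + 1), x3.val + 1 = y.val ∧ ν (.col i x3, s) = (.col i y, s)) ∨
      (∃ t : Fin (l + 1), t.val = 0 ∧ x3.val = 3 * r ∧ ν (.col i x3, s) = (.link i t true, false)) := by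
      intro s
      rcases n3 s with h | h
      · exact absurd h (hcon s)
      · exact h
    by_cases hlast : x3.val = 3 * r
    · have hR' : ∀ s, ∃ t : Fin (l + 1), t.val = 0 ∧ ν (.col i x3, s) = (.link i t true, false) := by
        intro s
        rcases hR s with ⟨y, hy, _⟩ | ⟨t, h1, _, h⟩
        · exfalso; have := y.isLt; omega
        · exact ⟨t, h1, h⟩
      obtain ⟨t, ht, h⟩ := hR' true
      obtain ⟨t', ht', h'⟩ := hR' false
      have e : t = t' := by ext; omega
      rw [e] at h
      have := hν.inj (h.trans h'.symm)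
      simp at this
    · have hx3lt := x3.isLt
      obtain ⟨x4, hx4⟩ : ∃ x4 : Fin (3 * r + 1), x4.val = x3.val + 1 := ⟨⟨x3.val + 1, by omega⟩, rfl⟩
      have hR' : ∀ s, ν (.col i x3, s) = (.col i x4, s) := by
        intro s
        rcases hR s with ⟨y, hy, h⟩ | ⟨t, h1, h2, h⟩
        · have : y = x4 := by ext; omega
          rw [this] at h; exact h
        · exact absurd h2 hlast
      exact hν.no_short i x3 x4 (fun s => ⟨_, hR' s⟩) (fun s => ⟨s, hν.eq_comm' (hR' s)⟩)
  -- (x3, g) goes left
  have hleft : ν (.col i x3, g) = (.col i x2, !g) := by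
    by_contra hcon
    have hcon' : ν (.col i x3, !g) = (.col i x2, g) := by
      obtain ⟨s, hs'⟩ := notboth'
      by_cases e : s = g
      · rw [e] at hs'; exact absurd hs' hcon
      · have : s = !g := bool_eq_not ‹¬ s = g›
        rw [this] at hs'
        simpa using hs'
    rcases n1 with h | ⟨a, ha, h⟩
    · have := (hν.eq_comm' h).symm.trans (hν.eq_comm' hcon')
      simp only [Prod.mk.injEq, Sg.col.injEq] at this
      obtain ⟨⟨_, e⟩, _⟩ := this
      rw [e] at hx1; omega
    · rcases n2 with h' | ⟨a', ha', h'⟩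
      · exact hcon (hν.eq_comm' h')
      · rw [ha] at ha'
        simp at ha'
  have hright : (∃ y : Fin (3 * r + 1), x3.val + 1 = y.val ∧ ν (.col i x3, !g) = (.col i y, !g)) ∨
      (∃ t : Fin (l + 1), t.val = 0 ∧ x3.val = 3 * r ∧ ν (.col i x3, !g) = (.link i t true, false)) := by
    rcases n3 (!g) with h | h
    · exfalso
      apply notboth
      intro s
      by_cases e : s = g
      · rw [e]; exact hleft
      · have : s = !g := bool_eq_not ‹¬ s = g›
        rw [this]; exact h
    · exact h
  constructor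
  · intro x' hx'
    have e : x' = x3 := by ext; omega
    rw [e]
    exact ⟨Or.inr ⟨x2, by omega, hleft⟩, hright⟩
  · intro y y1 y2 y3 hy hy1 hy2 hy3
    have e : y = x := by ext; omega
    have e1 : y1 = x1 := by ext; omega
    have e2 : y2 = x2 := by ext; omega
    have e3 : y3 = x3 := by ext; omega
    rw [e, e1, e2, e3]
    refine ⟨h0', hν.eq_comm' hleft, ?_⟩
    rcases n1 with h | ⟨a, ha, h⟩
    · left; exact ⟨h, hν.eq_comm' h⟩
    · right
      refine ⟨a, ha, h, ?_⟩
      rcases nb_two (by omega) (hν.adj (.col i x2, g)) with ⟨z, hz, h'⟩ | ⟨z, hz, h'⟩ | ⟨k', a', h1, h2, h'⟩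
      · exfalso
        have : z = x1 := by ext; omega
        rw [this] at h'
        have := hν.eq_comm' h'
        rw [h] at this
        simp at this
      · exfalso
        have : z = x3 := by ext; omega
        rw [this] at h'
        have h'' := hν.eq_comm' h'
        rcases hright with ⟨y, hy, h3⟩ | ⟨t, _, _, h3⟩
        · rw [h3] at h''
          simp only [Prod.mk.injEq, Sg.col.injEq] at h''
          obtain ⟨⟨_, e⟩, _⟩ := h''
          rw [e] at hy; omega
        · rw [h3] at h''
          simp at h''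
      · have : k' = k := by ext; omega
        rw [this, ha] at h1
        simp only [Option.some.injEq, Prod.mk.injEq, and_true] at h1
        rw [h1]; exact h'

theorem Matching.row_all (hν : Matching atl ok hs he hh se ν) (i : Fin b) (g : Bool)
    (h0 : ∀ (t : Fin (l + 1)) (x : Fin (3 * r + 1)), t.val = l → x.val = 0 →
      ν (.link i t g, true) = (.col i x, g) ∧ ∀ x' s, ν (.link i t (!g), true) ≠ (.col i x', s)) :
    (∀ k, k ≤ r → RowSt ν i g k) ∧ ∀ k, PosSt atl ν i g k := by
  have key : ∀ k, k ≤ r → RowSt ν i g k := by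
    intro k
    induction k with
    | zero =>
      intro _ x hx
      refine ⟨Or.inl ⟨by omega, fun t ht => hν.eq_comm' (h0 t x ht (by omega)).1⟩, ?_⟩
      rcases nb_sep (by omega) (hν.adj (.col i x, !g)) with ⟨t, ht, _, h⟩ | ⟨y, hy, h⟩ | h | h
      · exfalso
        exact (h0 t x ht (by omega)).2 _ _ (hν.eq_comm' h)
      · omega
      · left; exact h
      · right; exact h
    | succ k ih =>
      intro hk
      exact (hν.row_step i g ⟨k, by omega⟩ (ih (by omega))).1
  exact ⟨key, fun k => (hν.row_step i g k (key k.val (by have := k.isLt; omega))).2⟩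

/-- the states of the units of row `i` -/
theorem Matching.units (hν : Matching atl ok hs he hh se ν) (i : Fin b) :
    ∃ z : ℕ → Bool, (∀ t, t < l → ok i t (z t)) ∧
      ∀ (t t' : Fin (l + 1)) (s : Bool), t.val + 1 = t'.val →
        ν (.link i t s, true) = (.link i t' (xor s (z t.val)), false) := by
  have : ∀ t : ℕ, ∃ zt : Bool, ∀ (ht : t < l), ok i t zt ∧ ∀ s,
      ν (.link i ⟨t, by omega⟩ s, true) = (.link i ⟨t + 1, by omega⟩ (xor s zt), false) := by
    intro t
    by_cases ht : t < l
    · have h1 : ∀ s, ∃ s', ok i t (xor s s') ∧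
          ν (.link i ⟨t, by omega⟩ s, true) = (.link i ⟨t + 1, by omega⟩ s', false) := by
        intro s
        obtain ⟨t', s', h1, h2, h3⟩ := nb_link_mid (t := ⟨t, by omega⟩) ht (hν.adj (.link i ⟨t, by omega⟩ s, true))
        have e : t' = ⟨t + 1, by omega⟩ := by ext; simpa using h1.symm
        rw [e] at h3
        exact ⟨s', h2, h3⟩
      obtain ⟨a, ha1, ha2⟩ := h1 false
      obtain ⟨c, hc1, hc2⟩ := h1 true
      have hac : a ≠ c := by
        rintro rfl
        have := hν.inj (ha2.trans hc2.symm)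
        simp at this
      have hc : c = !a := by cases a <;> cases c <;> simp_all
      refine ⟨a, fun _ => ⟨by simpa using ha1, ?_⟩⟩
      intro s
      cases s
      · simpa using ha2
      · rw [hc2, hc]; simp
    · exact ⟨false, fun h => absurd h ht⟩
  choose z hz using this
  refine ⟨z, fun t ht => (hz t ht).1, ?_⟩
  intro t t' s h
  have ht : t.val < l := by have := t'.isLt; omega
  have e : t = ⟨t.val, by omega⟩ := rfl
  have e' : t' = ⟨t.val + 1, by omega⟩ := by ext; simp [h]
  rw [e']
  exact (hz t.val ht).2 s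

/-- **Forward direction**: from a matching one reads off a truth assignment. -/
theorem Matching.main (hν : Matching atl ok hs he hh se ν) :
    ∃ z : Fin b → ℕ → Bool, (∀ i t, t < l → ok i t (z i t)) ∧
      ∀ a : L, (∃ i k, atl i k = some (a, strand (z i) l)) ∨
        (((hs a ∧ ν (.leaf a, false) = (.fin, true)) ∨
            ∃ a', hh a' a ∧ ν (.leaf a, false) = (.leaf a', true)) ∧
          ((he a ∧ ∃ (i : Fin b) (t : Fin (l + 1)), i.val = 0 ∧ t.val = 0 ∧
              ν (.leaf a, true) = (.link i t false, false)) ∨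
            ∃ a', hh a a' ∧ ν (.leaf a, true) = (.leaf a', false))) := by
  have hz : ∀ i : Fin b, ∃ z : ℕ → Bool, (∀ t, t < l → ok i t (z t)) ∧
      ∀ (t t' : Fin (l + 1)) (s : Bool), t.val + 1 = t'.val →
        ν (.link i t s, true) = (.link i t' (xor s (z t.val)), false) := fun i => hν.units i
  choose z hzok hzν using hz
  -- the mode of each row is the parity
  have hmode : ∀ i : Fin b, ∀ k : Fin r, PosSt atl ν i (strand (z i) l) k := by
    intro i
    obtain ⟨tl, htl⟩ : ∃ t : Fin (l + 1), t.val = l := ⟨⟨l, by omega⟩, rfl⟩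
    obtain ⟨t0, ht0⟩ : ∃ t : Fin (l + 1), t.val = 0 := ⟨⟨0, by omega⟩, rfl⟩
    obtain ⟨x0, hx0⟩ : ∃ x : Fin (3 * r + 1), x.val = 0 := ⟨⟨0, by omega⟩, rfl⟩
    obtain ⟨g, hg1, hg2, _⟩ := hν.mode0 i tl htl x0 hx0
    have hrow := hν.row_all i g (fun t x ht hx => by
      have e1 : t = tl := by ext; omega
      have e2 : x = x0 := by ext; omega
      rw [e1, e2]; exact ⟨hg1, hg2⟩)
    by_cases hgs : strand (z i) l = g
    · rw [hgs]; exact hrow.2
    exfalso
    have hgs' : g = !(strand (z i) l) := bool_eq_not (fun h => hgs h.symm)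
    let X : Set (Sg b r l L × Bool) := {p | (∃ x, p.1 = .col i x) ∨
      (∃ t : Fin (l + 1), p.1 = .link i t (!(strand (z i) t.val))) ∨
      (∃ a, p.1 = .leaf a ∧ (∃ x s, ν (.leaf a, false) = (.col i x, s)) ∧
        (∃ x s, ν (.leaf a, true) = (.col i x, s)))}
    have hXu := hν.conn X ⟨(.col i x0, true), Or.inl ⟨x0, rfl⟩⟩ ?_ ?_
    · have h1 : ((.fin, true) : Sg b r l L × Bool) ∈ X := by rw [hXu]; trivial
      rcases h1 with ⟨x, h⟩ | ⟨t, h⟩ | ⟨a, h, _⟩ <;> simp at h
    · rintro ⟨m, s⟩ (⟨x, h⟩ | ⟨t, h⟩ | ⟨a, h, h1, h2⟩)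
      · -- columns
        simp only at h
        subst h
        have hx3 : x.val % 3 = 0 ∨ x.val % 3 = 1 ∨ x.val % 3 = 2 := by omega
        have hxlt := x.isLt
        rcases hx3 with hm | hm | hm
        · obtain ⟨hl, hr⟩ := hrow.1 (x.val / 3) (by omega) x (by omega)
          by_cases hsg : s = g
          · rw [hsg]
            rcases hl with ⟨_, h⟩ | ⟨y, _, h⟩
            · rw [h tl htl]
              right; left
              refine ⟨tl, ?_⟩
              simp only [htl]
              rw [hgs']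
            · rw [h]; left; exact ⟨y, rfl⟩
          · have : s = !g := bool_eq_not ‹¬ s = g›
            rw [this]
            rcases hr with ⟨y, _, h⟩ | ⟨t, ht, _, h⟩
            · rw [h]; left; exact ⟨y, rfl⟩
            · rw [h]; right; left
              refine ⟨t, ?_⟩
              simp only [ht]
              rfl
        · obtain ⟨y0, hy0⟩ : ∃ y : Fin (3 * r + 1), y.val = x.val - 1 := ⟨⟨x.val - 1, by omega⟩, rfl⟩
          obtain ⟨y2, hy2⟩ : ∃ y : Fin (3 * r + 1), y.val = x.val + 1 := ⟨⟨x.val + 1, by omega⟩, rfl⟩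
          obtain ⟨y3, hy3⟩ : ∃ y : Fin (3 * r + 1), y.val = x.val + 2 := ⟨⟨x.val + 2, by omega⟩, rfl⟩
          obtain ⟨p1, p2, p3⟩ := hrow.2 ⟨x.val / 3, by omega⟩ y0 x y2 y3 (by simp; omega) (by omega) (by omega) (by omega)
          by_cases hsg : s = g
          · rw [hsg]
            rcases p3 with ⟨h, _⟩ | ⟨a, ha, h, h'⟩
            · rw [h]; left; exact ⟨_, rfl⟩
            · rw [h]; right; right
              exact ⟨a, rfl, ⟨_, _, hν.eq_comm' h⟩, ⟨_, _, hν.eq_comm' h'⟩⟩
          · have : s = !g := bool_eq_not ‹¬ s = g›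
            rw [this, p1]; left; exact ⟨_, rfl⟩
        · obtain ⟨y0, hy0⟩ : ∃ y : Fin (3 * r + 1), y.val = x.val - 2 := ⟨⟨x.val - 2, by omega⟩, rfl⟩
          obtain ⟨y1, hy1⟩ : ∃ y : Fin (3 * r + 1), y.val = x.val - 1 := ⟨⟨x.val - 1, by omega⟩, rfl⟩
          obtain ⟨y3, hy3⟩ : ∃ y : Fin (3 * r + 1), y.val = x.val + 1 := ⟨⟨x.val + 1, by omega⟩, rfl⟩
          obtain ⟨p1, p2, p3⟩ := hrow.2 ⟨x.val / 3, by omega⟩ y0 y1 x y3 (by simp; omega) (by omega) (by omega) (by omega)
          by_cases hsg : s = g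
          · rw [hsg]
            rcases p3 with ⟨_, h⟩ | ⟨a, ha, h, h'⟩
            · rw [h]; left; exact ⟨_, rfl⟩
            · rw [h']; right; right
              exact ⟨a, rfl, ⟨_, _, hν.eq_comm' h⟩, ⟨_, _, hν.eq_comm' h'⟩⟩
          · have : s = !g := bool_eq_not ‹¬ s = g›
            rw [this, p2]; left; exact ⟨_, rfl⟩
      · -- links
        simp only at h
        subst h
        cases s
        · -- incoming port
          rcases Nat.eq_zero_or_pos t.val with ht | ht
          · have hstr : (!(strand (z i) t.val)) = true := by rw [ht]; rfl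
            rw [hstr]
            obtain ⟨xl, hxl⟩ : ∃ x : Fin (3 * r + 1), x.val = 3 * r := ⟨⟨3 * r, by omega⟩, rfl⟩
            obtain ⟨_, hr⟩ := hrow.1 r le_rfl xl hxl
            rcases hr with ⟨y, hy, _⟩ | ⟨t', ht', _, h⟩
            · exfalso; have := y.isLt; omega
            · have e : t' = t := by ext; omega
              rw [e] at h
              rw [hν.eq_comm' h]; left; exact ⟨_, rfl⟩
          · obtain ⟨t', ht'⟩ : ∃ t' : Fin (l + 1), t'.val = t.val - 1 := ⟨⟨t.val - 1, by omega⟩, rfl⟩
            have h := hzν i t' t (!(strand (z i) t'.val)) (by omega)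
            have e : xor (!(strand (z i) t'.val)) (z i t'.val) = !(strand (z i) t.val) := by
              have : t.val = t'.val + 1 := by omega
              rw [this]
              show _ = !(xor _ _)
              cases strand (z i) t'.val <;> cases z i t'.val <;> rfl
            rw [e] at h
            rw [hν.eq_comm' h]
            right; left; exact ⟨t', rfl⟩
        · -- outgoing port
          by_cases ht : t.val = l
          · have e : t = tl := by ext; omega
            rw [e, htl, ← hgs', hg1]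
            left; exact ⟨_, rfl⟩
          · have htlt := t.isLt
            obtain ⟨t', ht'⟩ : ∃ t' : Fin (l + 1), t'.val = t.val + 1 := ⟨⟨t.val + 1, by omega⟩, rfl⟩
            rw [hzν i t t' _ (by omega)]
            right; left
            refine ⟨t', ?_⟩
            have e : xor (!(strand (z i) t.val)) (z i t.val) = !(strand (z i) t'.val) := by
              rw [ht']
              show _ = !(xor _ _)
              cases strand (z i) t.val <;> cases z i t.val <;> rfl
            simp only [e]
      · -- leaves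
        simp only at h
        subst h
        cases s
        · obtain ⟨x, s, h⟩ := h1
          rw [h]; left; exact ⟨_, rfl⟩
        · obtain ⟨x, s, h⟩ := h2
          rw [h]; left; exact ⟨_, rfl⟩
    · rintro ⟨m, s⟩ hp
      exact hp
  refine ⟨z, hzok, ?_⟩
  intro a
  -- if a port of the leaf is matched with a row then the leaf is covered
  have hA : ∀ (i : Fin b) (k : Fin r) (x : Fin (3 * r + 1)) (m : Bool), atl i k = some (a, m) →
      x.val = 3 * k.val + 1 → ν (.leaf a, false) = (.col i x, m) →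
      ∃ i k, atl i k = some (a, strand (z i) l) := by
    intro i k x m h1 h2 h3
    have hk := k.isLt
    obtain ⟨y0, hy0⟩ : ∃ y : Fin (3 * r + 1), y.val = x.val - 1 := ⟨⟨x.val - 1, by omega⟩, rfl⟩
    obtain ⟨y2, hy2⟩ : ∃ y : Fin (3 * r + 1), y.val = x.val + 1 := ⟨⟨x.val + 1, by omega⟩, rfl⟩
    obtain ⟨y3, hy3⟩ : ∃ y : Fin (3 * r + 1), y.val = x.val + 2 := ⟨⟨x.val + 2, by omega⟩, rfl⟩
    obtain ⟨p1, p2, p3⟩ := hmode i k y0 x y2 y3 (by omega) (by omega) (by omega) (by omega)
    by_cases hm : m = strand (z i) l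
    · exact ⟨i, k, by rw [h1, hm]⟩
    · exfalso
      have : m = !(strand (z i) l) := bool_eq_not hm
      rw [this] at h3
      have := (hν.eq_comm' h3).symm.trans p1
      simp at this
  have hB : ∀ (i : Fin b) (k : Fin r) (x : Fin (3 * r + 1)) (m : Bool), atl i k = some (a, m) →
      x.val = 3 * k.val + 2 → ν (.leaf a, true) = (.col i x, m) →
      ∃ i k, atl i k = some (a, strand (z i) l) := by
    intro i k x m h1 h2 h3
    have hk := k.isLt
    obtain ⟨y0, hy0⟩ : ∃ y : Fin (3 * r + 1), y.val = x.val - 2 := ⟨⟨x.val - 2, by omega⟩, rfl⟩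
    obtain ⟨y1, hy1⟩ : ∃ y : Fin (3 * r + 1), y.val = x.val - 1 := ⟨⟨x.val - 1, by omega⟩, rfl⟩
    obtain ⟨y3, hy3⟩ : ∃ y : Fin (3 * r + 1), y.val = x.val + 1 := ⟨⟨x.val + 1, by omega⟩, rfl⟩
    obtain ⟨p1, p2, p3⟩ := hmode i k y0 y1 x y3 (by omega) (by omega) (by omega) (by omega)
    by_cases hm : m = strand (z i) l
    · exact ⟨i, k, by rw [h1, hm]⟩
    · exfalso
      have : m = !(strand (z i) l) := bool_eq_not hm
      rw [this] at h3
      have := (hν.eq_comm' h3).symm.trans p2
      simp at this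
  rcases nb_leaf_false (hν.adj (.leaf a, false)) with ⟨i, k, x, m, h1, h2, h3⟩ | h | h
  · left; exact hA i k x m h1 h2 h3
  · rcases nb_leaf_true (hν.adj (.leaf a, true)) with ⟨i, k, x, m, h1, h2, h3⟩ | h' | h'
    · left; exact hB i k x m h1 h2 h3
    · right; exact ⟨Or.inl h, Or.inl h'⟩
    · right; exact ⟨Or.inl h, Or.inr h'⟩
  · rcases nb_leaf_true (hν.adj (.leaf a, true)) with ⟨i, k, x, m, h1, h2, h3⟩ | h' | h'
    · left; exact hB i k x m h1 h2 h3
    · right; exact ⟨Or.inr h, Or.inl h'⟩
    · right; exact ⟨Or.inr h, Or.inr h'⟩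

end forward

end Pool.Agent.H545R2
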