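import Pool.Agent.H545R2.GadgetBack

set_option autoImplicit false

/-! A refined form of the forward direction of the gadget theorem. -/

namespace Pool.Agent.H545R2

section forward

variable {b r l : ℕ} {L : Type} {atl : Fin b → Fin r → Option (L × Bool)}
    {ok : Fin b → ℕ → Bool → Prop} {hs he : L → Prop} {hh : L → L → Prop} {se : Prop}
    {ν : Sg b r l L × Bool → Sg b r l L × Bool}

/-- from a matching one reads off a truth assignment -/
theorem Matching.modes (hν : Matching atl ok hs he hh se ν) :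
    ∃ z : Fin b → ℕ → Bool, (∀ i t, t < l → ok i t (z i t)) ∧
      ∀ i : Fin b, ∀ k : Fin r, PosSt atl ν i (strand (z i) l) k := by
  have hz : ∀ i : Fin b, ∃ z : ℕ → Bool, (∀ t, t < l → ok i t (z t)) ∧
      ∀ (t t' : Fin (l + 1)) (s : Bool), t.val + 1 = t'.val →
        ν (.link i t s, true) = (.link i t' (xor s (z t.val)), false) := fun i => hν.units i
  choose z hzok hzν using hz
  -- the mode of each row is the parity
  have hmode : ∀ i : Fin b, ∀ k : Fin r, PosSt atl ν i (strand (z i) l) k := by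
    intro i
    obtain ⟨tl, htl⟩ : ∃ t : Fin (l + 1), t.val = l := ⟨⟨l, by omega⟩, rfl⟩
    obtain ⟨t0, ht0⟩ : ∃ t : Fin (l + 1), t.val = 0 := ⟨⟨0, by omega⟩, rfl⟩
    obtain ⟨x0, hx0⟩ : ∃ x : Fin (3 * r + 1), x.val = 0 := ⟨⟨0, by omega⟩, rfl⟩
    obtain ⟨g, hg1, hg2, _⟩ := hν.mode0 i tl htl x0 hx0
    have hrow := hν.row_all i g (fun t x ht hx => by
      have e1 : t = tl := by ext; omega
      have e2 : x = x0 := by ext; omega
      rw [e1, e2]; exact ⟨hg1, hg2⟩)
    by_cases hgs : strand (z i) l = g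
    · rw [hgs]; exact hrow.2
    exfalso
    have hgs' : g = !(strand (z i) l) := bool_eq_not (fun h => hgs h.symm)
    let X : Set (Sg b r l L × Bool) := {p | (∃ x, p.1 = .col i x) ∨
      (∃ t : Fin (l + 1), p.1 = .link i t (!(strand (z i) t.val))) ∨
      (∃ a, p.1 = .leaf a ∧ (∃ x s, ν (.leaf a, false) = (.col i x, s)) ∧
        (∃ x s, ν (.leaf a, true) = (.col i x, s)))}
    have hXu := hν.conn X ⟨(.col i x0, true), Or.inl ⟨x0, rfl⟩⟩ ?_ ?_
    · have h1 : ((.fin, true) : Sg b r l L × Bool) ∈ X := by rw [hXu]; trivial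
      rcases h1 with ⟨x, h⟩ | ⟨t, h⟩ | ⟨a, h, _⟩ <;> simp at h
    · rintro ⟨m, s⟩ (⟨x, h⟩ | ⟨t, h⟩ | ⟨a, h, h1, h2⟩)
      · -- columns
        simp only at h
        subst h
        have hx3 : x.val % 3 = 0 ∨ x.val % 3 = 1 ∨ x.val % 3 = 2 := by omega
        have hxlt := x.isLt
        rcases hx3 with hm | hm | hm
        · obtain ⟨hl, hr⟩ := hrow.1 (x.val / 3) (by omega) x (by omega)
          by_cases hsg : s = g
          · rw [hsg]
            rcases hl with ⟨_, h⟩ | ⟨y, _, h⟩
            · rw [h tl htl]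
              right; left
              refine ⟨tl, ?_⟩
              simp only [htl]
              rw [hgs']
            · rw [h]; left; exact ⟨y, rfl⟩
          · have : s = !g := bool_eq_not ‹¬ s = g›
            rw [this]
            rcases hr with ⟨y, _, h⟩ | ⟨t, ht, _, h⟩
            · rw [h]; left; exact ⟨y, rfl⟩
            · rw [h]; right; left
              refine ⟨t, ?_⟩
              simp only [ht]
              rfl
        · obtain ⟨y0, hy0⟩ : ∃ y : Fin (3 * r + 1), y.val = x.val - 1 := ⟨⟨x.val - 1, by omega⟩, rfl⟩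
          obtain ⟨y2, hy2⟩ : ∃ y : Fin (3 * r + 1), y.val = x.val + 1 := ⟨⟨x.val + 1, by omega⟩, rfl⟩
          obtain ⟨y3, hy3⟩ : ∃ y : Fin (3 * r + 1), y.val = x.val + 2 := ⟨⟨x.val + 2, by omega⟩, rfl⟩
          obtain ⟨p1, p2, p3⟩ := hrow.2 ⟨x.val / 3, by omega⟩ y0 x y2 y3 (by simp; omega) (by omega) (by omega) (by omega)
          by_cases hsg : s = g
          · rw [hsg]
            rcases p3 with ⟨h, _⟩ | ⟨a, ha, h, h'⟩
            · rw [h]; left; exact ⟨_, rfl⟩
            · rw [h]; right; right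
              exact ⟨a, rfl, ⟨_, _, hν.eq_comm' h⟩, ⟨_, _, hν.eq_comm' h'⟩⟩
          · have : s = !g := bool_eq_not ‹¬ s = g›
            rw [this, p1]; left; exact ⟨_, rfl⟩
        · obtain ⟨y0, hy0⟩ : ∃ y : Fin (3 * r + 1), y.val = x.val - 2 := ⟨⟨x.val - 2, by omega⟩, rfl⟩
          obtain ⟨y1, hy1⟩ : ∃ y : Fin (3 * r + 1), y.val = x.val - 1 := ⟨⟨x.val - 1, by omega⟩, rfl⟩
          obtain ⟨y3, hy3⟩ : ∃ y : Fin (3 * r + 1), y.val = x.val + 1 := ⟨⟨x.val + 1, by omega⟩, rfl⟩
          obtain ⟨p1, p2, p3⟩ := hrow.2 ⟨x.val / 3, by omega⟩ y0 y1 x y3 (by simp; omega) (by omega) (by omega) (by omega)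
          by_cases hsg : s = g
          · rw [hsg]
            rcases p3 with ⟨_, h⟩ | ⟨a, ha, h, h'⟩
            · rw [h]; left; exact ⟨_, rfl⟩
            · rw [h']; right; right
              exact ⟨a, rfl, ⟨_, _, hν.eq_comm' h⟩, ⟨_, _, hν.eq_comm' h'⟩⟩
          · have : s = !g := bool_eq_not ‹¬ s = g›
            rw [this, p2]; left; exact ⟨_, rfl⟩
      · -- links
        simp only at h
        subst h
        cases s
        · -- incoming port
          rcases Nat.eq_zero_or_pos t.val with ht | ht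
          · have hstr : (!(strand (z i) t.val)) = true := by rw [ht]; rfl
            rw [hstr]
            obtain ⟨xl, hxl⟩ : ∃ x : Fin (3 * r + 1), x.val = 3 * r := ⟨⟨3 * r, by omega⟩, rfl⟩
            obtain ⟨_, hr⟩ := hrow.1 r le_rfl xl hxl
            rcases hr with ⟨y, hy, _⟩ | ⟨t', ht', _, h⟩
            · exfalso; have := y.isLt; omega
            · have e : t' = t := by ext; omega
              rw [e] at h
              rw [hν.eq_comm' h]; left; exact ⟨_, rfl⟩
          · obtain ⟨t', ht'⟩ : ∃ t' : Fin (l + 1), t'.val = t.val - 1 := ⟨⟨t.val - 1, by omega⟩, rfl⟩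
            have h := hzν i t' t (!(strand (z i) t'.val)) (by omega)
            have e : xor (!(strand (z i) t'.val)) (z i t'.val) = !(strand (z i) t.val) := by
              have : t.val = t'.val + 1 := by omega
              rw [this]
              show _ = !(xor _ _)
              cases strand (z i) t'.val <;> cases z i t'.val <;> rfl
            rw [e] at h
            rw [hν.eq_comm' h]
            right; left; exact ⟨t', rfl⟩
        · -- outgoing port
          by_cases ht : t.val = l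
          · have e : t = tl := by ext; omega
            rw [e, htl, ← hgs', hg1]
            left; exact ⟨_, rfl⟩
          · have htlt := t.isLt
            obtain ⟨t', ht'⟩ : ∃ t' : Fin (l + 1), t'.val = t.val + 1 := ⟨⟨t.val + 1, by omega⟩, rfl⟩
            rw [hzν i t t' _ (by omega)]
            right; left
            refine ⟨t', ?_⟩
            have e : xor (!(strand (z i) t.val)) (z i t.val) = !(strand (z i) t'.val) := by
              rw [ht']
              show _ = !(xor _ _)
              cases strand (z i) t.val <;> cases z i t.val <;> rfl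
            simp only [e]
      · -- leaves
        simp only at h
        subst h
        cases s
        · obtain ⟨x, s, h⟩ := h1
          rw [h]; left; exact ⟨_, rfl⟩
        · obtain ⟨x, s, h⟩ := h2
          rw [h]; left; exact ⟨_, rfl⟩
    · rintro ⟨m, s⟩ hp
      exact hp
  exact ⟨z, hzok, hmode⟩

/-- both ports of a leaf are matched with a row, or both with the hub -/
theorem Matching.sides (hν : Matching atl ok hs he hh se ν) {z : Fin b → ℕ → Bool}
    (hmode : ∀ i : Fin b, ∀ k : Fin r, PosSt atl ν i (strand (z i) l) k) (a : L) :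
    (∃ i k, atl i k = some (a, strand (z i) l)) ∧
        (∃ (i : Fin b) (x : Fin (3 * r + 1)) (s : Bool), ν (.leaf a, false) = (.col i x, s)) ∧
        (∃ (i : Fin b) (x : Fin (3 * r + 1)) (s : Bool), ν (.leaf a, true) = (.col i x, s)) ∨
      (((hs a ∧ ν (.leaf a, false) = (.fin, true)) ∨
            ∃ a', hh a' a ∧ ν (.leaf a, false) = (.leaf a', true)) ∧
          ((he a ∧ ∃ (i : Fin b) (t : Fin (l + 1)), i.val = 0 ∧ t.val = 0 ∧
              ν (.leaf a, true) = (.link i t false, false)) ∨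
            ∃ a', hh a a' ∧ ν (.leaf a, true) = (.leaf a', false))) := by
  have hA : ∀ (i : Fin b) (k : Fin r) (x : Fin (3 * r + 1)) (m : Bool), atl i k = some (a, m) →
      x.val = 3 * k.val + 1 → ν (.leaf a, false) = (.col i x, m) →
      (∃ i k, atl i k = some (a, strand (z i) l)) ∧
      ∃ (i : Fin b) (x : Fin (3 * r + 1)) (s : Bool), ν (.leaf a, true) = (.col i x, s) := by
    intro i k x m h1 h2 h3
    have hk := k.isLt
    obtain ⟨y0, hy0⟩ : ∃ y : Fin (3 * r + 1), y.val = x.val - 1 := ⟨⟨x.val - 1, by omega⟩, rfl⟩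
    obtain ⟨y2, hy2⟩ : ∃ y : Fin (3 * r + 1), y.val = x.val + 1 := ⟨⟨x.val + 1, by omega⟩, rfl⟩
    obtain ⟨y3, hy3⟩ : ∃ y : Fin (3 * r + 1), y.val = x.val + 2 := ⟨⟨x.val + 2, by omega⟩, rfl⟩
    obtain ⟨p1, p2, p3⟩ := hmode i k y0 x y2 y3 (by omega) (by omega) (by omega) (by omega)
    by_cases hm : m = strand (z i) l
    · refine ⟨⟨i, k, by rw [h1, hm]⟩, ?_⟩
      rw [← hm] at p3
      rcases p3 with ⟨h, _⟩ | ⟨a', ha', h, h'⟩
      · have := (hν.eq_comm' h3).symm.trans h
        simp at this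
      · have e := (hν.eq_comm' h3).symm.trans h
        simp only [Prod.mk.injEq, Sg.leaf.injEq, and_true] at e
        rw [← e] at h'
        exact ⟨i, y2, m, hν.eq_comm' h'⟩
    · exfalso
      have : m = !(strand (z i) l) := bool_eq_not hm
      rw [this] at h3
      have := (hν.eq_comm' h3).symm.trans p1
      simp at this
  have hB : ∀ (i : Fin b) (k : Fin r) (x : Fin (3 * r + 1)) (m : Bool), atl i k = some (a, m) →
      x.val = 3 * k.val + 2 → ν (.leaf a, true) = (.col i x, m) →
      (∃ i k, atl i k = some (a, strand (z i) l)) ∧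
      ∃ (i : Fin b) (x : Fin (3 * r + 1)) (s : Bool), ν (.leaf a, false) = (.col i x, s) := by
    intro i k x m h1 h2 h3
    have hk := k.isLt
    obtain ⟨y0, hy0⟩ : ∃ y : Fin (3 * r + 1), y.val = x.val - 2 := ⟨⟨x.val - 2, by omega⟩, rfl⟩
    obtain ⟨y1, hy1⟩ : ∃ y : Fin (3 * r + 1), y.val = x.val - 1 := ⟨⟨x.val - 1, by omega⟩, rfl⟩
    obtain ⟨y3, hy3⟩ : ∃ y : Fin (3 * r + 1), y.val = x.val + 1 := ⟨⟨x.val + 1, by omega⟩, rfl⟩
    obtain ⟨p1, p2, p3⟩ := hmode i k y0 y1 x y3 (by omega) (by omega) (by omega) (by omega)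
    by_cases hm : m = strand (z i) l
    · refine ⟨⟨i, k, by rw [h1, hm]⟩, ?_⟩
      rw [← hm] at p3
      rcases p3 with ⟨_, h⟩ | ⟨a', ha', h, h'⟩
      · have := (hν.eq_comm' h3).symm.trans h
        simp at this
      · have e := (hν.eq_comm' h3).symm.trans h'
        simp only [Prod.mk.injEq, Sg.leaf.injEq, and_true] at e
        rw [← e] at h
        exact ⟨i, y1, m, hν.eq_comm' h⟩
    · exfalso
      have : m = !(strand (z i) l) := bool_eq_not hm
      rw [this] at h3
      have := (hν.eq_comm' h3).symm.trans p2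
      simp at this
  rcases nb_leaf_false (hν.adj (.leaf a, false)) with ⟨i, k, x, m, h1, h2, h3⟩ | h | h
  · left
    obtain ⟨g1, g2⟩ := hA i k x m h1 h2 h3
    exact ⟨g1, ⟨i, x, m, h3⟩, g2⟩
  · rcases nb_leaf_true (hν.adj (.leaf a, true)) with ⟨i, k, x, m, h1, h2, h3⟩ | h' | h'
    · left
      obtain ⟨g1, g2⟩ := hB i k x m h1 h2 h3
      exact ⟨g1, g2, ⟨i, x, m, h3⟩⟩
    · right; exact ⟨Or.inl h, Or.inl h'⟩
    · right; exact ⟨Or.inl h, Or.inr h'⟩
  · rcases nb_leaf_true (hν.adj (.leaf a, true)) with ⟨i, k, x, m, h1, h2, h3⟩ | h' | h'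
    · left
      obtain ⟨g1, g2⟩ := hB i k x m h1 h2 h3
      exact ⟨g1, g2, ⟨i, x, m, h3⟩⟩
    · right; exact ⟨Or.inr h, Or.inl h'⟩
    · right; exact ⟨Or.inr h, Or.inr h'⟩

end forward

end Pool.Agent.H545R2
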