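import Pool.Agent.H545R2.Gadget

set_option autoImplicit false
set_option linter.unusedSectionVars false

/-! The gadget, backward direction: a satisfying assignment gives a Hamiltonian cycle. -/

namespace Pool.Agent.H545R2

/-! ### Lists -/

theorem head?_flatMap_ne {α β : Type*} (T : List α) (f : α → List β) (h : ∀ a ∈ T, f a ≠ []) :
    (T.flatMap f).head? = T.head?.bind (fun a => (f a).head?) := by
  cases T with
  | nil => rfl
  | cons a T =>
    have := h a (by simp)
    cases hf : f a with
    | nil => exact absurd hf this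
    | cons x xs => simp [hf]

theorem getLast?_flatMap_ne {α β : Type*} (T : List α) (f : α → List β) (h : ∀ a ∈ T, f a ≠ []) :
    (T.flatMap f).getLast? = T.getLast?.bind (fun a => (f a).getLast?) := by
  induction T using List.reverseRecOn with
  | nil => rfl
  | append_singleton T a ih =>
    have := h a (by simp)
    rw [List.flatMap_append, List.getLast?_append, List.getLast?_append]
    simp only [List.flatMap_cons, List.flatMap_nil, List.append_nil, List.getLast?_singleton,
      Option.some_or, Option.bind_some]
    rw [List.getLast?_eq_getLast_of_ne_nil this]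
    rfl

theorem isChain_flatMap {α β : Type*} {R : β → β → Prop} (T : List α) (f : α → List β)
    (h1 : ∀ a ∈ T, (f a).IsChain R) (h2 : ∀ a ∈ T, f a ≠ [])
    (h3 : T.IsChain (fun a b => ∀ x ∈ (f a).getLast?, ∀ y ∈ (f b).head?, R x y)) :
    (T.flatMap f).IsChain R := by
  induction T with
  | nil => simp
  | cons a T ih =>
    rw [List.flatMap_cons, List.isChain_append]
    rw [List.isChain_cons] at h3
    refine ⟨h1 a (by simp), ih (fun b hb => h1 b (by simp [hb])) (fun b hb => h2 b (by simp [hb])) h3.2, ?_⟩
    intro x hx y hy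
    rw [head?_flatMap_ne _ _ (fun b hb => h2 b (by simp [hb]))] at hy
    simp only [Option.mem_def, Option.bind_eq_some_iff] at hy
    obtain ⟨b, hb, hy⟩ := hy
    exact h3.1 b (by simpa using hb) x hx y (by simpa using hy)

theorem finRange_chain (n : ℕ) : (List.finRange n).IsChain (fun i j => i.val + 1 = j.val) := by
  rw [List.isChain_iff_getElem]
  intro i hi
  simp

theorem finRange_head? (n : ℕ) (i : Fin n) (h : i ∈ (List.finRange n).head?) : i.val = 0 := by
  cases n with
  | zero => exact i.elim0
  | succ n =>
    rw [List.finRange_succ] at h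
    simp at h
    rw [← h]; rfl

theorem finRange_getLast? (n : ℕ) (i : Fin n) (h : i ∈ (List.finRange n).getLast?) :
    i.val + 1 = n := by
  have hn : 0 < n := i.pos
  rw [List.getLast?_eq_getElem?, List.getElem?_eq_getElem (by simp; omega)] at h
  simp only [List.getElem_finRange, Option.mem_def, Option.some.injEq] at h
  rw [← h]; simp; omega

section back

variable {b r l : ℕ} {L : Type} [DecidableEq L] {atl : Fin b → Fin r → Option (L × Bool)}
    {ok : Fin b → ℕ → Bool → Prop} {hs he : L → Prop} {hh : L → L → Prop} {se : Prop}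

/-- consecutive elements of a tour -/
def Nx (atl : Fin b → Fin r → Option (L × Bool))
    (ok : Fin b → ℕ → Bool → Prop) (hs he : L → Prop) (hh : L → L → Prop) (se : Prop)
    (p q : Sg b r l L × Bool) : Prop :=
  GR atl ok hs he hh se (flipP p) q ∨ GR atl ok hs he hh se q (flipP p)

/-- tour of a strand -/
def strandL (l : ℕ) (L : Type) (b r : ℕ) (z : Fin b → ℕ → Bool) (i : Fin b) (s0 : Bool) :
    List (Sg b r l L × Bool) :=
  (List.finRange (l + 1)).map (fun t => (.link i t (xor s0 (strand (z i) t.val)), false))

/-- detour at position `k` -/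
def detL (l : ℕ) (atl : Fin b → Fin r → Option (L × Bool)) (cov : L → Option (Fin b × Fin r)) (i : Fin b) (k : Fin r) :
    List (Sg b r l L × Bool) :=
  match atl i k with
  | some (a, _) => if cov a = some (i, k) then [(.leaf a, false)] else []
  | none => []

/-- tour of the `k`-th block of a ladder -/
def blkL (l : ℕ) (atl : Fin b → Fin r → Option (L × Bool)) (cov : L → Option (Fin b × Fin r)) (s : Bool)
    (i : Fin b) (k : Fin r) : List (Sg b r l L × Bool) :=
  (.col i ⟨3 * k.val, by omega⟩, s) :: (.col i ⟨3 * k.val + 1, by omega⟩, !s) ::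
    (detL l atl cov i k ++ [(.col i ⟨3 * k.val + 2, by omega⟩, s)])

/-- tour of a ladder -/
def ladL (l : ℕ) (atl : Fin b → Fin r → Option (L × Bool)) (cov : L → Option (Fin b × Fin r)) (s : Bool)
    (i : Fin b) : List (Sg b r l L × Bool) :=
  (List.finRange r).flatMap (blkL l atl cov s i) ++ [(.col i ⟨3 * r, by omega⟩, s)]

/-- tour of a row -/
def rowL (l : ℕ) (atl : Fin b → Fin r → Option (L × Bool)) (cov : L → Option (Fin b × Fin r))
    (z : Fin b → ℕ → Bool) (i : Fin b) : List (Sg b r l L × Bool) :=
  strandL l L b r z i false ++ (ladL l atl cov (strand (z i) l) i ++ strandL l L b r z i true)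

/-- the whole tour -/
def tourL (l : ℕ) (atl : Fin b → Fin r → Option (L × Bool)) (cov : L → Option (Fin b × Fin r))
    (z : Fin b → ℕ → Bool) (hub : List L) : List (Sg b r l L × Bool) :=
  (List.finRange b).flatMap (rowL l atl cov z) ++ ((.fin, false) :: hub.map (fun a => (.leaf a, false)))

theorem strandL_head (z : Fin b → ℕ → Bool) (i : Fin b) (s0 : Bool) (p : Sg b r l L × Bool)
    (h : p ∈ (strandL l L b r z i s0).head?) : ∃ t : Fin (l + 1), t.val = 0 ∧ p = (.link i t s0, false) := by
  unfold strandL at h
  rw [List.head?_map] at h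
  simp only [Option.mem_def, Option.map_eq_some_iff] at h
  obtain ⟨t, ht, rfl⟩ := h
  have := finRange_head? _ t (by simpa using ht)
  refine ⟨t, this, ?_⟩
  rw [this]; simp [strand]

theorem strandL_last (z : Fin b → ℕ → Bool) (i : Fin b) (s0 : Bool) (p : Sg b r l L × Bool)
    (h : p ∈ (strandL l L b r z i s0).getLast?) :
    ∃ t : Fin (l + 1), t.val = l ∧ p = (.link i t (xor s0 (strand (z i) l)), false) := by
  unfold strandL at h
  rw [List.getLast?_map] at h
  simp only [Option.mem_def, Option.map_eq_some_iff] at h
  obtain ⟨t, ht, rfl⟩ := h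
  have := finRange_getLast? _ t (by simpa using ht)
  have h' : t.val = l := by omega
  exact ⟨t, h', by rw [h']⟩

theorem strandL_ne (z : Fin b → ℕ → Bool) (i : Fin b) (s0 : Bool) :
    strandL l L b r z i s0 ≠ [] := by
  unfold strandL
  intro h
  have := congrArg List.length h
  simp at this

theorem strandL_chain (z : Fin b → ℕ → Bool) (hz : ∀ i t, t < l → ok i t (z i t)) (i : Fin b) (s0 : Bool) :
    (strandL l L b r z i s0).IsChain (Nx atl ok hs he hh se) := by
  unfold strandL
  rw [List.isChain_map]
  refine (finRange_chain (l + 1)).imp ?_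
  intro t t' h
  left
  show GR atl ok hs he hh se (_, true) _
  refine GR.unit i t t' _ _ h ?_
  have e : xor (xor s0 (strand (z i) t.val)) (xor s0 (strand (z i) t'.val)) = z i t.val := by
    rw [← h]
    show xor _ (xor s0 (xor _ _)) = _
    cases s0 <;> cases strand (z i) t.val <;> cases z i t.val <;> rfl
  rw [e]
  exact hz i t.val (by have := t'.isLt; omega)

theorem mem_detL (cov : L → Option (Fin b × Fin r)) (i : Fin b) (k : Fin r)
    (p : Sg b r l L × Bool) : p ∈ detL l atl cov i k ↔
      ∃ a m, atl i k = some (a, m) ∧ cov a = some (i, k) ∧ p = (.leaf a, false) := by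
  unfold detL
  cases h : atl i k with
  | none => simp
  | some am =>
    obtain ⟨a, m⟩ := am
    simp only
    split_ifs with h1
    · simp only [List.mem_cons, List.not_mem_nil, or_false]
      constructor
      · intro h; exact ⟨a, m, rfl, h1, h⟩
      · rintro ⟨a', m', h2, _, h3⟩
        simp only [Option.some.injEq, Prod.mk.injEq] at h2
        rw [h3, h2.1]
    · simp only [List.not_mem_nil, false_iff]
      rintro ⟨a', m', h2, h3, _⟩
      simp only [Option.some.injEq, Prod.mk.injEq] at h2
      rw [h2.1] at h1; exact h1 h3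

theorem detL_cases (cov : L → Option (Fin b × Fin r)) (i : Fin b) (k : Fin r) :
    (detL l atl cov i k = []) ∨
      ∃ a m, atl i k = some (a, m) ∧ cov a = some (i, k) ∧ detL l atl cov i k = [(.leaf a, false)] := by
  unfold detL
  cases h : atl i k with
  | none => left; rfl
  | some am =>
    obtain ⟨a, m⟩ := am
    simp only
    split_ifs with h1
    · right; exact ⟨a, m, rfl, h1, rfl⟩
    · left; rfl

theorem blkL_chain (cov : L → Option (Fin b × Fin r)) (s : Bool) (i : Fin b) (k : Fin r)
    (hcs : ∀ a m, cov a = some (i, k) → atl i k = some (a, m) → m = s) :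
    (blkL l atl cov s i k).IsChain (Nx atl ok hs he hh se) := by
  have hk := k.isLt
  have e1 : Nx atl ok hs he hh se ((.col i ⟨3 * k.val, by omega⟩, s) : Sg b r l L × Bool)
      (.col i ⟨3 * k.val + 1, by omega⟩, !s) := by
    left
    refine GR.rail i _ _ _ _ rfl ?_
    simp
  have e2 : Nx atl ok hs he hh se ((.col i ⟨3 * k.val + 1, by omega⟩, !s) : Sg b r l L × Bool)
      (.col i ⟨3 * k.val + 2, by omega⟩, s) := by
    left
    show GR atl ok hs he hh se (_, !(!s)) _
    rw [Bool.not_not]
    refine GR.rail i _ _ _ _ rfl ?_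
    simp
  unfold blkL
  rcases detL_cases (l := l) (atl := atl) cov i k with h | ⟨a, m, h1, h2, h⟩
  · rw [h]
    simp only [List.nil_append]
    rw [List.isChain_cons_cons, List.isChain_cons_cons]
    exact ⟨e1, e2, by simp⟩
  · rw [h]
    have hm := hcs a m h2 h1
    subst hm
    simp only [List.singleton_append]
    rw [List.isChain_cons_cons, List.isChain_cons_cons, List.isChain_cons_cons]
    refine ⟨e1, ?_, ?_, by simp⟩
    · left
      show GR atl ok hs he hh se (_, !(!m)) _
      rw [Bool.not_not]
      exact GR.att0 i k _ a m h1 rfl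
    · left
      show GR atl ok hs he hh se (_, true) _
      exact GR.att1 i k _ a m h1 rfl

theorem ladL_chain (cov : L → Option (Fin b × Fin r)) (s : Bool) (i : Fin b)
    (hcs : ∀ k a m, cov a = some (i, k) → atl i k = some (a, m) → m = s) :
    (ladL l atl cov s i).IsChain (Nx atl ok hs he hh se) := by
  unfold ladL
  rw [List.isChain_append]
  have hstep : ∀ (k : Fin r) (x : Fin (3 * r + 1)), x.val = 3 * k.val + 3 →
      ∀ p ∈ (blkL l atl cov s i k).getLast?, Nx atl ok hs he hh se p (.col i x, s) := by
    intro k x hx p hp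
    unfold blkL at hp
    rw [← List.cons_append, ← List.cons_append, List.getLast?_append] at hp
    simp only [List.getLast?_singleton, Option.some_or, Option.mem_def, Option.some.injEq] at hp
    subst hp
    left
    refine GR.rail i _ _ _ _ (by simp [hx]) ?_
    have : (3 * k.val + 2) % 3 = 2 := by omega
    simp [this]
  refine ⟨?_, by simp, ?_⟩
  · apply isChain_flatMap
    · intro k _
      exact blkL_chain cov s i k (hcs k)
    · intro k _; simp [blkL]
    · refine (finRange_chain r).imp ?_
      intro k k' hk p hp q hq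
      unfold blkL at hq
      simp only [List.head?_cons, Option.mem_def, Option.some.injEq] at hq
      subst hq
      exact hstep k _ (by simp; omega) p hp
  · intro p hp q hq
    simp only [List.head?_cons, Option.mem_def, Option.some.injEq] at hq
    subst hq
    rw [getLast?_flatMap_ne _ _ (by intro k _; simp [blkL])] at hp
    simp only [Option.mem_def, Option.bind_eq_some_iff] at hp
    obtain ⟨k, hk, hp⟩ := hp
    have hk' := finRange_getLast? r k (by simpa using hk)
    exact hstep k _ (by simp; omega) p (by simpa using hp)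

theorem ladL_head (cov : L → Option (Fin b × Fin r)) (s : Bool) (i : Fin b)
    (p : Sg b r l L × Bool) (h : p ∈ (ladL l atl cov s i).head?) :
    ∃ x : Fin (3 * r + 1), x.val = 0 ∧ p = (.col i x, s) := by
  unfold ladL at h
  rcases Nat.eq_zero_or_pos r with hr | hr
  · subst hr
    simp only [List.finRange_zero, List.flatMap_nil, List.nil_append, List.head?_cons,
      Option.mem_def, Option.some.injEq] at h
    exact ⟨_, rfl, h.symm⟩
  · rw [List.head?_append, head?_flatMap_ne _ _ (by intro k _; simp [blkL])] at h
    obtain ⟨r', rfl⟩ : ∃ r', r = r' + 1 := ⟨r - 1, by omega⟩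
    rw [List.finRange_succ] at h
    simp only [List.head?_cons, Option.bind_some, blkL, Option.some_or, Option.mem_def,
      Option.some.injEq] at h
    exact ⟨_, rfl, h.symm⟩

theorem rowL_head (cov : L → Option (Fin b × Fin r)) (z : Fin b → ℕ → Bool) (i : Fin b)
    (p : Sg b r l L × Bool) (h : p ∈ (rowL l atl cov z i).head?) :
    ∃ t : Fin (l + 1), t.val = 0 ∧ p = (.link i t false, false) := by
  unfold rowL at h
  rw [List.head?_append] at h
  cases hs : (strandL l L b r z i false).head? with
  | none => exact absurd (List.head?_eq_none_iff.1 hs) (strandL_ne z i false)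
  | some q =>
    rw [hs] at h
    simp only [Option.some_or, Option.mem_def, Option.some.injEq] at h
    subst h
    exact strandL_head z i false q hs

theorem rowL_last (cov : L → Option (Fin b × Fin r)) (z : Fin b → ℕ → Bool) (i : Fin b)
    (p : Sg b r l L × Bool) (h : p ∈ (rowL l atl cov z i).getLast?) :
    ∃ t : Fin (l + 1), t.val = l ∧ p = (.link i t (!(strand (z i) l)), false) := by
  unfold rowL at h
  rw [List.getLast?_append, List.getLast?_append] at h
  cases hs : (strandL l L b r z i true).getLast? with
  | none => exact absurd (List.getLast?_eq_none_iff.1 hs) (strandL_ne z i true)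
  | some q =>
    rw [hs] at h
    simp only [Option.some_or, Option.mem_def, Option.some.injEq] at h
    subst h
    obtain ⟨t, ht, h⟩ := strandL_last z i true q hs
    exact ⟨t, ht, by rw [h]; simp⟩

theorem rowL_ne (cov : L → Option (Fin b × Fin r)) (z : Fin b → ℕ → Bool) (i : Fin b) :
    rowL l atl cov z i ≠ [] := by
  unfold rowL
  intro h
  exact strandL_ne (l := l) (L := L) (r := r) z i false (List.append_eq_nil_iff.1 h).1

theorem rowL_chain (cov : L → Option (Fin b × Fin r)) (z : Fin b → ℕ → Bool)
    (hz : ∀ i t, t < l → ok i t (z i t)) (i : Fin b)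
    (hcs : ∀ k a m, cov a = some (i, k) → atl i k = some (a, m) → m = strand (z i) l) :
    (rowL l atl cov z i).IsChain (Nx atl ok hs he hh se) := by
  unfold rowL
  rw [List.isChain_append, List.isChain_append]
  refine ⟨strandL_chain z hz i false, ⟨ladL_chain cov _ i hcs, strandL_chain z hz i true, ?_⟩, ?_⟩
  · intro p hp q hq
    obtain ⟨t, ht, rfl⟩ := strandL_head z i true q hq
    unfold ladL at hp
    rw [List.getLast?_append] at hp
    simp only [List.getLast?_singleton, Option.some_or, Option.mem_def, Option.some.injEq] at hp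
    subst hp
    left
    exact GR.last i _ t _ rfl ht
  · intro p hp q hq
    obtain ⟨t, ht, rfl⟩ := strandL_last z i false p hp
    rw [List.head?_append] at hq
    have : ∃ x : Fin (3 * r + 1), x.val = 0 ∧ q = (.col i x, strand (z i) l) := by
      apply ladL_head (l := l) (atl := atl) cov
      cases hla : (ladL l atl cov (strand (z i) l) i).head? with
      | none => simp [ladL] at hla
      | some q' => rw [hla] at hq; exact hq
    obtain ⟨x, hx, rfl⟩ := this
    left
    show GR atl ok hs he hh se (_, true) _
    have e : xor false (strand (z i) l) = strand (z i) l := by simp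
    rw [e]
    exact GR.first i x t _ hx ht

theorem mem_strandL (z : Fin b → ℕ → Bool) (i : Fin b) (s0 : Bool) (m : Sg b r l L) :
    m ∈ (strandL l L b r z i s0).map Prod.fst ↔
      ∃ t : Fin (l + 1), m = .link i t (xor s0 (strand (z i) t.val)) := by
  unfold strandL
  rw [List.map_map]
  simp only [List.mem_map, List.mem_finRange, true_and, Function.comp]
  exact ⟨fun ⟨t, h⟩ => ⟨t, h.symm⟩, fun ⟨t, h⟩ => ⟨t, h.symm⟩⟩

theorem mem_blkL (cov : L → Option (Fin b × Fin r)) (s : Bool) (i : Fin b) (k : Fin r)
    (hcov : ∀ a, cov a = some (i, k) → ∃ m, atl i k = some (a, m)) (m : Sg b r l L) :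
    m ∈ (blkL l atl cov s i k).map Prod.fst ↔
      (∃ x : Fin (3 * r + 1), x.val / 3 = k.val ∧ m = .col i x) ∨
      (∃ a, cov a = some (i, k) ∧ m = .leaf a) := by
  have hk := k.isLt
  unfold blkL
  simp only [List.map_cons, List.map_append, List.map_nil, List.mem_cons, List.mem_append,
    List.not_mem_nil, or_false]
  constructor
  · rintro (h | h | h | h)
    · left; exact ⟨_, by simp, h⟩
    · left; exact ⟨_, by simp; omega, h⟩
    · right
      rw [List.mem_map] at h
      obtain ⟨p, hp, rfl⟩ := h
      rw [mem_detL] at hp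
      obtain ⟨a, m, _, h2, rfl⟩ := hp
      exact ⟨a, h2, rfl⟩
    · left; exact ⟨_, by simp; omega, h⟩
  · rintro (⟨x, hx, rfl⟩ | ⟨a, ha, rfl⟩)
    · have : x.val = 3 * k.val ∨ x.val = 3 * k.val + 1 ∨ x.val = 3 * k.val + 2 := by omega
      rcases this with h | h | h
      · left; congr 1; ext; exact h
      · right; left; congr 1; ext; exact h
      · right; right; right; congr 1; ext; exact h
    · right; right; left
      rw [List.mem_map]
      obtain ⟨m, hm⟩ := hcov a ha
      exact ⟨(.leaf a, false), (mem_detL _ _ _ _).2 ⟨a, m, hm, ha, rfl⟩, rfl⟩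

theorem blkL_nodup (cov : L → Option (Fin b × Fin r)) (s : Bool) (i : Fin b) (k : Fin r) :
    ((blkL l atl cov s i k).map Prod.fst).Nodup := by
  unfold blkL
  rcases detL_cases (l := l) (atl := atl) cov i k with h | ⟨a, m, h1, h2, h⟩ <;> rw [h] <;> simp

theorem mem_ladL (cov : L → Option (Fin b × Fin r)) (s : Bool) (i : Fin b)
    (hcov : ∀ k a, cov a = some (i, k) → ∃ m, atl i k = some (a, m)) (m : Sg b r l L) :
    m ∈ (ladL l atl cov s i).map Prod.fst ↔
      (∃ x : Fin (3 * r + 1), m = .col i x) ∨ (∃ a k, cov a = some (i, k) ∧ m = .leaf a) := by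
  unfold ladL
  rw [List.map_append, List.mem_append, List.map_flatMap, List.mem_flatMap]
  simp only [List.map_cons, List.map_nil, List.mem_cons, List.not_mem_nil, or_false,
    List.mem_finRange, true_and]
  constructor
  · rintro (⟨k, h⟩ | h)
    · rw [mem_blkL cov s i k (hcov k)] at h
      rcases h with ⟨x, _, h⟩ | ⟨a, ha, h⟩
      · left; exact ⟨x, h⟩
      · right; exact ⟨a, k, ha, h⟩
    · left; exact ⟨_, h⟩
  · rintro (⟨x, rfl⟩ | ⟨a, k, ha, rfl⟩)
    · by_cases hx : x.val = 3 * r
      · right; congr 1; ext; exact hx
      · left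
        have := x.isLt
        refine ⟨⟨x.val / 3, by omega⟩, ?_⟩
        rw [mem_blkL cov s i _ (hcov _)]
        left; exact ⟨x, rfl, rfl⟩
    · left
      refine ⟨k, ?_⟩
      rw [mem_blkL cov s i _ (hcov _)]
      right; exact ⟨a, ha, rfl⟩

theorem ladL_nodup (cov : L → Option (Fin b × Fin r)) (s : Bool) (i : Fin b)
    (hcov : ∀ k a, cov a = some (i, k) → ∃ m, atl i k = some (a, m)) :
    ((ladL l atl cov s i).map Prod.fst).Nodup := by
  unfold ladL
  rw [List.map_append, List.nodup_append, List.map_flatMap, List.nodup_flatMap]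
  refine ⟨⟨fun k _ => blkL_nodup cov s i k, ?_⟩, by simp, ?_⟩
  · refine (List.nodup_finRange r).imp ?_
    intro k k' hkk
    rw [Function.onFun, List.disjoint_left]
    intro m hm hm'
    rw [mem_blkL cov s i k (hcov k)] at hm
    rw [mem_blkL cov s i k' (hcov k')] at hm'
    apply hkk
    rcases hm with ⟨x, hx, rfl⟩ | ⟨a, ha, rfl⟩ <;> rcases hm' with ⟨x', hx', h⟩ | ⟨a', ha', h⟩
    · simp only [Sg.col.injEq, true_and] at h
      ext; rw [← hx, ← hx', h]
    · simp at h
    · simp at h
    · simp only [Sg.leaf.injEq] at h
      rw [h, ha'] at ha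
      simpa using ha.symm
  · intro m hm m' hm' hmm
    subst hmm
    rw [List.mem_flatMap] at hm
    obtain ⟨k, _, hm⟩ := hm
    rw [mem_blkL cov s i k (hcov k)] at hm
    simp only [List.map_cons, List.map_nil, List.mem_cons, List.not_mem_nil, or_false] at hm'
    subst hm'
    rcases hm with ⟨x, hx, h⟩ | ⟨a, ha, h⟩
    · simp only [Sg.col.injEq, true_and] at h
      rw [← h] at hx
      simp at hx
      have := k.isLt
      omega
    · simp at h

theorem mem_rowL (cov : L → Option (Fin b × Fin r)) (z : Fin b → ℕ → Bool) (i : Fin b)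
    (hcov : ∀ k a, cov a = some (i, k) → ∃ m, atl i k = some (a, m)) (m : Sg b r l L) :
    m ∈ (rowL l atl cov z i).map Prod.fst ↔
      (∃ (t : Fin (l + 1)) (s : Bool), m = .link i t s) ∨ (∃ x : Fin (3 * r + 1), m = .col i x) ∨
      (∃ a k, cov a = some (i, k) ∧ m = .leaf a) := by
  unfold rowL
  rw [List.map_append, List.mem_append, List.map_append, List.mem_append, mem_strandL, mem_strandL,
    mem_ladL cov _ i hcov]
  constructor
  · rintro (⟨t, h⟩ | h | ⟨t, h⟩)
    · left; exact ⟨t, _, h⟩
    · right; exact h
    · left; exact ⟨t, _, h⟩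
  · rintro (⟨t, s, rfl⟩ | h)
    · by_cases hs : s = strand (z i) t.val
      · left; exact ⟨t, by rw [hs]; simp⟩
      · right; right
        refine ⟨t, ?_⟩
        rw [bool_eq_not hs]; simp
    · right; left; exact h

theorem rowL_nodup (cov : L → Option (Fin b × Fin r)) (z : Fin b → ℕ → Bool) (i : Fin b)
    (hcov : ∀ k a, cov a = some (i, k) → ∃ m, atl i k = some (a, m)) :
    ((rowL l atl cov z i).map Prod.fst).Nodup := by
  have hst : ∀ s0, ((strandL l L b r z i s0).map Prod.fst).Nodup := by
    intro s0
    unfold strandL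
    rw [List.map_map]
    apply (List.nodup_finRange (l + 1)).map
    intro t t' h
    simp only [Function.comp, Sg.link.injEq, true_and] at h
    exact h.1
  unfold rowL
  rw [List.map_append, List.map_append, List.nodup_append, List.nodup_append]
  refine ⟨hst false, ⟨ladL_nodup cov _ i hcov, hst true, ?_⟩, ?_⟩
  · intro m hm m' hm' h
    subst h
    rw [mem_ladL cov _ i hcov] at hm
    rw [mem_strandL] at hm'
    obtain ⟨t, rfl⟩ := hm'
    rcases hm with ⟨x, h⟩ | ⟨a, k, _, h⟩ <;> simp at h
  · intro m hm m' hm' h
    subst h
    rw [mem_strandL] at hm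
    rw [List.mem_append, mem_ladL cov _ i hcov, mem_strandL] at hm'
    obtain ⟨t, rfl⟩ := hm
    rcases hm' with (⟨x, h⟩ | ⟨a, k, _, h⟩) | ⟨t', h⟩
    · simp at h
    · simp at h
    · simp only [Sg.link.injEq, true_and] at h
      obtain ⟨rfl, h⟩ := h
      simp at h

variable [Fintype L]

/-- **Backward direction.** -/
theorem gadget_back (hb : 0 < b) (zf : ℕ) (z : Fin b → ℕ → Bool)
    (hz : ∀ i t, t < l → ok i t (z i t)) (hub : List L) (hubnd : hub.Nodup)
    (cov : L → Option (Fin b × Fin r))
    (hcov : ∀ a i k, cov a = some (i, k) → atl i k = some (a, strand (z i) l))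
    (hnone : ∀ a, cov a = none ↔ a ∈ hub)
    (hubc : hub.IsChain hh) (hubs : ∀ a ∈ hub.head?, hs a) (hube : ∀ a ∈ hub.getLast?, he a)
    (hubn : hub = [] → se) :
    (segGraph (GR atl ok hs he hh se) (.fin : Sg b r l L) zf).IsHamiltonian := by
  have hcov1 : ∀ i k a, cov a = some (i, k) → ∃ m, atl i k = some (a, m) :=
    fun i k a h => ⟨_, hcov a i k h⟩
  have hcov2 : ∀ i k a m, cov a = some (i, k) → atl i k = some (a, m) → m = strand (z i) l := by
    intro i k a m h1 h2
    have := hcov a i k h1
    rw [h2] at this
    simpa using this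
  have hhubc : ((.fin, false) :: hub.map (fun a => ((.leaf a, false) : Sg b r l L × Bool))).IsChain
      (Nx atl ok hs he hh se) := by
    rw [List.isChain_cons]
    refine ⟨?_, ?_⟩
    · intro y hy
      rw [List.head?_map] at hy
      simp only [Option.mem_def, Option.map_eq_some_iff] at hy
      obtain ⟨a, ha, rfl⟩ := hy
      left
      exact GR.hubS a (hubs a ha)
    · rw [List.isChain_map]
      refine hubc.imp ?_
      intro a a' h
      left
      exact GR.hubL a a' h
  apply seg_hamiltonian (tourL l atl cov z hub)
  · -- chain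
    show (tourL l atl cov z hub).IsChain (Nx atl ok hs he hh se)
    unfold tourL
    rw [List.isChain_append]
    refine ⟨?_, hhubc, ?_⟩
    · apply isChain_flatMap
      · intro i _
        exact rowL_chain cov z hz i (hcov2 i)
      · intro i _; exact rowL_ne cov z i
      · refine (finRange_chain b).imp ?_
        intro i i' hi p hp q hq
        obtain ⟨t, ht, rfl⟩ := rowL_last cov z i p hp
        obtain ⟨t', ht', rfl⟩ := rowL_head cov z i' q hq
        left
        exact GR.dd i i' t t' _ ht ht' hi.symm
    · intro p hp q hq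
      simp only [List.head?_cons, Option.mem_def, Option.some.injEq] at hq
      subst hq
      rw [getLast?_flatMap_ne _ _ (by intro i _; exact rowL_ne cov z i)] at hp
      simp only [Option.mem_def, Option.bind_eq_some_iff] at hp
      obtain ⟨i, hi, hp⟩ := hp
      obtain ⟨t, ht, rfl⟩ := rowL_last cov z i p (by simpa using hp)
      left
      exact GR.ddf i t _ ht (finRange_getLast? b i (by simpa using hi))
  · -- nodup
    unfold tourL
    rw [List.map_append, List.nodup_append, List.map_flatMap, List.nodup_flatMap]
    refine ⟨⟨fun i _ => rowL_nodup cov z i (hcov1 i), ?_⟩, ?_, ?_⟩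
    · refine (List.nodup_finRange b).imp ?_
      intro i i' hii
      rw [Function.onFun, List.disjoint_left]
      intro m hm hm'
      rw [mem_rowL cov z i (hcov1 i)] at hm
      rw [mem_rowL cov z i' (hcov1 i')] at hm'
      apply hii
      rcases hm with ⟨t, s, rfl⟩ | ⟨x, rfl⟩ | ⟨a, k, ha, rfl⟩ <;>
        rcases hm' with ⟨t', s', h⟩ | ⟨x', h⟩ | ⟨a', k', ha', h⟩
      · simp only [Sg.link.injEq] at h; exact h.1
      · simp at h
      · simp at h
      · simp at h
      · simp only [Sg.col.injEq] at h; exact h.1
      · simp at h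
      · simp at h
      · simp at h
      · simp only [Sg.leaf.injEq] at h
        rw [h, ha'] at ha
        simp only [Option.some.injEq, Prod.mk.injEq] at ha
        exact ha.1.symm
    · rw [List.map_cons, List.map_map, List.nodup_cons]
      refine ⟨by simp, ?_⟩
      apply hubnd.map
      intro a a' h
      simpa using h
    · intro m hm m' hm' h
      subst h
      rw [List.mem_flatMap] at hm
      obtain ⟨i, _, hm⟩ := hm
      rw [mem_rowL cov z i (hcov1 i)] at hm
      rw [List.map_cons, List.map_map, List.mem_cons, List.mem_map] at hm'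
      rcases hm with ⟨t, s, rfl⟩ | ⟨x, rfl⟩ | ⟨a, k, ha, rfl⟩ <;> rcases hm' with h | ⟨a', ha', h⟩ <;>
        simp at h
      subst h
      have := (hnone a').2 ha'
      rw [this] at ha
      simp at ha
  · -- all segments
    intro m
    unfold tourL
    rw [List.map_append, List.mem_append, List.map_flatMap, List.mem_flatMap, List.map_cons,
      List.map_map, List.mem_cons, List.mem_map]
    cases m with
    | col i x =>
      left
      refine ⟨i, List.mem_finRange i, ?_⟩
      rw [mem_rowL cov z i (hcov1 i)]
      right; left; exact ⟨x, rfl⟩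
    | link i t s =>
      left
      refine ⟨i, List.mem_finRange i, ?_⟩
      rw [mem_rowL cov z i (hcov1 i)]
      left; exact ⟨t, s, rfl⟩
    | leaf a =>
      cases hc : cov a with
      | none =>
        right; right
        exact ⟨a, (hnone a).1 hc, rfl⟩
      | some ik =>
        obtain ⟨i, k⟩ := ik
        left
        refine ⟨i, List.mem_finRange i, ?_⟩
        rw [mem_rowL cov z i (hcov1 i)]
        right; right; exact ⟨a, k, hc, rfl⟩
    | fin => right; left; rfl
  · -- orientation of the segment with fillers
    intro p hp hpf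
    unfold tourL at hp
    rw [List.mem_append, List.mem_flatMap, List.mem_cons, List.mem_map] at hp
    rcases hp with ⟨i, _, hp⟩ | rfl | ⟨a, _, rfl⟩
    · exfalso
      have : p.1 ∈ (rowL l atl cov z i).map Prod.fst := List.mem_map_of_mem hp
      rw [mem_rowL cov z i (hcov1 i), hpf] at this
      rcases this with ⟨t, s, h⟩ | ⟨x, h⟩ | ⟨a, k, _, h⟩ <;> simp at h
    · rfl
    · rfl
  · -- closing
    intro p hp q hq
    have hq' : ∃ t : Fin (l + 1), t.val = 0 ∧ q = (.link ⟨0, hb⟩ t false, false) := by
      unfold tourL at hq
      obtain ⟨b', rfl⟩ : ∃ b', b = b' + 1 := ⟨b - 1, by omega⟩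
      rw [List.head?_append, head?_flatMap_ne _ _ (by intro i _; exact rowL_ne cov z i),
        List.finRange_succ] at hq
      simp only [List.head?_cons, Option.bind_some] at hq
      cases hr : (rowL l atl cov z 0).head? with
      | none => exact absurd (List.head?_eq_none_iff.1 hr) (rowL_ne cov z 0)
      | some q' =>
        rw [hr] at hq
        simp only [Option.some_or, Option.mem_def, Option.some.injEq] at hq
        subst hq
        exact rowL_head cov z 0 q' hr
    obtain ⟨t, ht, rfl⟩ := hq'
    unfold tourL at hp
    rw [List.getLast?_append, List.getLast?_cons] at hp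
    simp only [Option.some_or, Option.mem_def, Option.some.injEq] at hp
    subst hp
    cases hub with
    | nil =>
      left
      exact GR.sE _ t (hubn rfl) rfl ht
    | cons a hub' =>
      have hla : ∃ a', (a :: hub').getLast? = some a' := by
        cases h : (a :: hub').getLast? with
        | none => simp at h
        | some a' => exact ⟨a', rfl⟩
      obtain ⟨a', ha'⟩ := hla
      rw [List.getLast?_map, ha']
      simp only [Option.map_some, Option.getD_some]
      left
      exact GR.hubE a' _ t (hube a' ha') rfl ht

end back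

end Pool.Agent.H545R2
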