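import Mathlib

set_option autoImplicit false

/-! Hamiltonian cycles as cyclic permutations and as lists. -/

namespace Pool.Agent.H545R2

open SimpleGraph

theorem exists_perm_of_isHamiltonian {V : Type*} [Fintype V] [DecidableEq V] {G : SimpleGraph V}
    (hcard : 3 ≤ Fintype.card V) (h : G.IsHamiltonian) :
    ∃ σ : Equiv.Perm V, (∀ v, G.Adj v (σ v)) ∧ (∀ v, σ (σ v) ≠ v) ∧
      (∀ X : Set V, X.Nonempty → (∀ v ∈ X, σ v ∈ X) → X = Set.univ) := by
  obtain ⟨a, p, hp⟩ := h (by omega)
  have hnil : ¬ p.Nil := hp.isCycle.not_nil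
  have hT := hp.isHamiltonian_tail
  have hlen : p.tail.support.length = Fintype.card V := hT.length_support
  set N := Fintype.card V with hN
  obtain ⟨M, hM⟩ : ∃ M, N = M + 3 := ⟨N - 3, by omega⟩
  let e0 := hT.getVertEquiv
  let e : Fin (M + 3) ≃ V := (finCongr (by rw [hlen, hM])).trans e0
  have he : ∀ i : Fin (M + 3), e i = p.tail.getVert i.val := by
    intro i
    simp [e, e0]
  have hlt : p.tail.length = M + 2 := by
    have := hT.length_eq
    omega
  let σ : Equiv.Perm V := e.symm.trans ((finRotate (M + 3)).trans e)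
  have hσ : ∀ i : Fin (M + 3), σ (e i) = e (i + 1) := by
    intro i
    simp [σ]
  refine ⟨σ, ?_, ?_, ?_⟩
  · intro v
    obtain ⟨i, rfl⟩ := e.surjective v
    rw [hσ, he, he]
    rcases Nat.lt_or_ge (i.val + 1) (M + 3) with hi | hi
    · have : (i + 1 : Fin (M + 3)).val = i.val + 1 := by
        rw [Fin.val_add_one_of_lt']
        exact hi
      rw [this]
      exact p.tail.adj_getVert_succ (by omega)
    · have hi2 : i.val = M + 2 := by omega
      have : (i + 1 : Fin (M + 3)).val = 0 := by
        have : i = Fin.last (M + 2) := by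
          ext; simp [hi2]
        rw [this]; simp
      rw [this, hi2, Walk.getVert_zero]
      have : p.tail.getVert (M + 2) = a := by
        rw [← hlt]; exact Walk.getVert_length _
      rw [this]
      exact p.adj_snd hnil
  · intro v
    obtain ⟨i, rfl⟩ := e.surjective v
    rw [hσ, hσ]
    intro hh
    have := e.injective hh
    have h2 : (i + 1 + 1 : Fin (M+3)) - i = 0 := by rw [this]; simp
    have h3 : (i + 1 + 1 : Fin (M+3)) - i = 1 + 1 := by
      rw [add_assoc, add_sub_cancel_left]
    rw [h3] at h2
    have h4 := congrArg Fin.val h2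
    rw [Fin.val_add] at h4
    have h1 : ((1 : Fin (M+3)) : ℕ) = 1 := by
      rw [Fin.val_one']
      exact Nat.mod_eq_of_lt (by omega)
    rw [h1, Fin.val_zero, Nat.mod_eq_of_lt (by omega)] at h4
    omega
  · intro X hX hcl
    obtain ⟨v, hv⟩ := hX
    obtain ⟨i, rfl⟩ := e.surjective v
    have key : ∀ k : ℕ, e (i + (Fin.ofNat (M+3) k)) ∈ X := by
      intro k
      induction k with
      | zero => simpa using hv
      | succ k ih =>
        have := hcl _ ih
        rw [hσ] at this
        have h1 : i + Fin.ofNat (M+3) k + 1 = i + Fin.ofNat (M+3) (k+1) := by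
          rw [add_assoc]
          congr 1
          ext
          simp [Fin.val_add, Fin.ofNat]
        rwa [h1] at this
    ext w
    simp only [Set.mem_univ, iff_true]
    obtain ⟨j, rfl⟩ := e.surjective w
    have := key (j - i).val
    simpa using this

theorem isHamiltonian_of_list {V : Type*} [Fintype V] [DecidableEq V] {G : SimpleGraph V}
    (L : List V) (hnd : L.Nodup) (hmem : ∀ v, v ∈ L) (hlen : 3 ≤ L.length)
    (hchain : L.IsChain G.Adj)
    (hclose : ∀ x ∈ L.getLast?, ∀ y ∈ L.head?, G.Adj x y) : G.IsHamiltonian := by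
  intro _
  have hne : L ≠ [] := by rintro rfl; simp at hlen
  let q := Walk.ofSupport (G := G) L hne hchain
  have hsup : q.support = L := Walk.support_ofSupport hne hchain
  have hadj : G.Adj (L.getLast hne) (L.head hne) :=
    hclose _ (by simp [List.getLast?_eq_getLast_of_ne_nil hne]) _ (by simp [List.head?_eq_some_head hne])
  refine ⟨L.getLast hne, Walk.cons hadj q, ?_⟩
  have hqp : q.IsPath := by
    rw [Walk.isPath_def, hsup]; exact hnd
  have hqH : q.IsHamiltonian := hqp.isHamiltonian_of_mem (by rw [hsup]; exact hmem)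
  have hcyc : (Walk.cons hadj q).IsCycle := by
    rw [Walk.cons_isCycle_iff]
    refine ⟨hqp, ?_⟩
    intro hmem'
    have hl : q.length = L.length - 1 := Walk.length_ofSupport hne hchain
    -- an edge between the ends of a path of length ≥ 2 is not on the path
    have : q.length = 1 := by
      have h2 : s(L.head hne, L.getLast hne) ∈ q.edges := by
        rw [Sym2.eq_swap]; exact hmem'
      exact hqp.length_eq_one_of_mem_edges h2
    omega
  refine ⟨hcyc, ?_⟩
  intro x
  have := hqH x
  simpa [Walk.tail_cons] using this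

end Pool.Agent.H545R2
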