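import Pool.Agent.H545R2.KInst

set_option autoImplicit false
set_option linter.unusedSectionVars false

/-! The group of edge sets acts on the gadget graphs. -/

namespace Pool.Agent.H545R2.K

open Finset

variable {M : ℕ} (π : Fin 35 → Equiv.Perm (Fin M))

/-- action on rows -/
def actR (y : Ed M → ZMod 2) (ρ : Rw M) : Rw M := (ρ.1, ρ.2 + y ρ.1)

/-- translation of the leaves of a node -/
def dl (y : Ed M → ZMod 2) (v : Nd M) : ZMod 2 × ZMod 2 :=
  (y (esl π v 1) + y (esl π v 2), y (esl π v 1))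

/-- action on leaves -/
def actL (y : Ed M → ZMod 2) : Lf M → Lf M
  | Sum.inl (v, l) => Sum.inl (v, l + dl π y v)
  | Sum.inr e => Sum.inr e

/-- action on segments -/
def actS (y : Ed M → ZMod 2) : Sgm M → Sgm M
  | .col ρ x => .col (actR y ρ) x
  | .lft ρ => .lft (actR y ρ)
  | .rgt ρ => .rgt (actR y ρ)
  | .leaf a => .leaf (actL π y a)
  | .fin => .fin

/-- action on vertices -/
def actV {z : ℕ} (y : Ed M → ZMod 2) : SegV (Sgm M) z → SegV (Sgm M) z
  | Sum.inl (m, o) => Sum.inl (actS π y m, o)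
  | Sum.inr j => Sum.inr j

theorem actR_actR (y : Ed M → ZMod 2) (ρ : Rw M) : actR y (actR y ρ) = ρ := by
  rcases ρ with ⟨e, σ⟩
  simp only [actR, Prod.mk.injEq, true_and]
  rw [add_assoc, CharTwo.add_self_eq_zero, add_zero]

theorem actL_actL (y : Ed M → ZMod 2) (a : Lf M) : actL π y (actL π y a) = a := by
  rcases a with ⟨v, l⟩ | e
  · simp only [actL, Sum.inl.injEq, Prod.mk.injEq, true_and]
    rw [add_assoc]
    have : dl π y v + dl π y v = 0 := by
      apply Prod.ext
      · exact CharTwo.add_self_eq_zero _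
      · exact CharTwo.add_self_eq_zero _
    rw [this, add_zero]
  · rfl

theorem actS_actS (y : Ed M → ZMod 2) (m : Sgm M) : actS π y (actS π y m) = m := by
  cases m with
  | col ρ x => simp only [actS, actR_actR]
  | lft ρ => simp only [actS, actR_actR]
  | rgt ρ => simp only [actS, actR_actR]
  | leaf a => simp only [actS, actL_actL]
  | fin => rfl

theorem actV_actV {z : ℕ} (y : Ed M → ZMod 2) (m : SegV (Sgm M) z) :
    actV π y (actV π y m) = m := by
  rcases m with ⟨m, o⟩ | j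
  · simp only [actV, actS_actS]
  · rfl

theorem ww_act : ∀ (b y0 y1 y2 : ZMod 2) (l : ZMod 2 × ZMod 2) (s : Fin 3),
    ww (b + (y0 + y1 + y2) + 1) (l + (y1 + y2, y1)) s =
      ww (b + 1) l s + (![y0, y1, y2] : Fin 3 → ZMod 2) s := by
  unfold ww
  decide

theorem LV_act {β : Nd M → ZMod 2} (y : Ed M → ZMod 2) {ρ : Rw M} {k : Fin 7} {a : Lf M}
    (h : LV π β ρ k a) : LV π (β + bd π y) (actR y ρ) k (actL π y a) := by
  cases h with
  | mu e σ k hk => exact LV.mu _ _ _ hk
  | node e σ b k v s l h1 h2 h3 =>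
    refine LV.node e _ b k v s _ h1 ?_ h3
    have hes : esl π v s = e := by
      unfold esl
      rw [← h1, kapInv_kap]
    have h4 := ww_act (β v) (y (esl π v 0)) (y (esl π v 1)) (y (esl π v 2)) l s
    have h5 : (β + bd π y) v = β v + (y (esl π v 0) + y (esl π v 1) + y (esl π v 2)) := by
      rw [Pi.add_apply]
      unfold bd
      rw [Fin.sum_univ_three]
    have h6 : (![y (esl π v 0), y (esl π v 1), y (esl π v 2)] : Fin 3 → ZMod 2) s = y (esl π v s) := by
      fin_cases s <;> rfl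
    rw [h5]
    unfold dl
    rw [h4, h2, h6, hes]

theorem GR_act {β : Nd M → ZMod 2} (y : Ed M → ZMod 2) {p q : Sgm M × Bool}
    (h : Sym.GR sdF (LV π β) p q) :
    Sym.GR sdF (LV π (β + bd π y)) (actS π y p.1, p.2) (actS π y q.1, q.2) := by
  cases h with
  | rail i x x' s t h1 h2 => exact Sym.GR.rail _ _ _ _ _ h1 h2
  | first i x s h1 => exact Sym.GR.first _ _ _ h1
  | last i x s h1 => exact Sym.GR.last _ _ _ h1
  | att0 i k x a m h1 h2 h3 => exact Sym.GR.att0 _ k _ _ _ (LV_act π y h1) h2 h3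
  | att1 i k x a m h1 h2 h3 => exact Sym.GR.att1 _ k _ _ _ (LV_act π y h1) h2 h3
  | conn i i' => exact Sym.GR.conn _ _
  | connS i => exact Sym.GR.connS _
  | connE i => exact Sym.GR.connE _

theorem SegRel_act {β : Nd M → ZMod 2} {z : ℕ} (y : Ed M → ZMod 2) {u w : SegV (Sgm M) z}
    (h : SegRel (Sym.GR sdF (LV π β)) Sym.Sg.fin z u w) :
    SegRel (Sym.GR sdF (LV π (β + bd π y))) Sym.Sg.fin z (actV π y u) (actV π y w) := by
  cases h with
  | port m m' b b' h1 => exact SegRel.port _ _ _ _ (GR_act π y h1)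
  | mid m b h1 =>
    refine SegRel.mid _ _ ?_
    rintro ⟨h2, h3⟩
    apply h1
    refine ⟨?_, h3⟩
    rw [← actS_actS π y m, h2]
    rfl
  | midf j h1 => exact SegRel.midf j h1
  | ff j j' h1 => exact SegRel.ff j j' h1
  | fp j h1 => exact SegRel.fp j h1

theorem GG_act' {β : Nd M → ZMod 2} {z : ℕ} (y : Ed M → ZMod 2) {u w : SegV (Sgm M) z}
    (h : (GG π β z).Adj u w) : (GG π (β + bd π y) z).Adj (actV π y u) (actV π y w) := by
  unfold GG segGraph at h ⊢
  rw [SimpleGraph.fromRel_adj] at h ⊢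
  obtain ⟨h1, h2⟩ := h
  refine ⟨?_, ?_⟩
  · intro h
    apply h1
    rw [← actV_actV π y u, h, actV_actV]
  · rcases h2 with h2 | h2
    · left; exact SegRel_act π y h2
    · right; exact SegRel_act π y h2

theorem GG_act {β : Nd M → ZMod 2} {z : ℕ} (y : Ed M → ZMod 2) (u w : SegV (Sgm M) z) :
    (GG π (β + bd π y) z).Adj (actV π y u) (actV π y w) ↔ (GG π β z).Adj u w := by
  constructor
  · intro h
    have h' := GG_act' π y h
    rw [actV_actV, actV_actV] at h'
    have e : β + bd π y + bd π y = β := by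
      ext v
      simp only [Pi.add_apply]
      rw [add_assoc, CharTwo.add_self_eq_zero, add_zero]
    rwa [e] at h'
  · exact GG_act' π y

/-- Edges distinguishing two charges at one node: they touch a leaf of that node. -/
theorem GG_diff' {β β' : Nd M → ZMod 2} {z : ℕ} (v : Nd M) (hβ : ∀ v', v' ≠ v → β' v' = β v')
    {u w : SegV (Sgm M) z} (h : (GG π β z).Adj u w) (h' : ¬ (GG π β' z).Adj u w) :
    (∃ l b ρ x c, u = Sum.inl (.leaf (Sum.inl (v, l)), some b) ∧ w = Sum.inl (.col ρ x, some c)) ∨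
    (∃ l b ρ x c, w = Sum.inl (.leaf (Sum.inl (v, l)), some b) ∧ u = Sum.inl (.col ρ x, some c)) := by
  unfold GG segGraph at h h'
  rw [SimpleGraph.fromRel_adj] at h h'
  obtain ⟨h1, h2⟩ := h
  have hLV : ∀ ρ k a, LV π β ρ k a → ¬ LV π β' ρ k a → ∃ l, a = Sum.inl (v, l) := by
    intro ρ k a h3 h4
    cases h3 with
    | mu e σ k hk => exact absurd (LV.mu e σ k hk) h4
    | node e σ b k v' s l h5 h6 h7 =>
      by_cases hv : v' = v
      · subst hv; exact ⟨l, rfl⟩
      · exfalso
        apply h4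
        refine LV.node e σ b k v' s l h5 ?_ h7
        rw [hβ v' hv]; exact h6
  have hGR : ∀ p q, Sym.GR sdF (LV π β) p q → ¬ Sym.GR sdF (LV π β') p q →
      (∃ l b ρ x c, p = (.leaf (Sum.inl (v, l)), b) ∧ q = ((.col ρ x : Sgm M), c)) ∨
      (∃ l b ρ x c, q = (.leaf (Sum.inl (v, l)), b) ∧ p = ((.col ρ x : Sgm M), c)) := by
    intro p q h3 h4
    cases h3 with
    | rail i x x' s t h1 h2 => exact absurd (Sym.GR.rail _ _ _ _ _ h1 h2) h4
    | first i x s h1 => exact absurd (Sym.GR.first _ _ _ h1) h4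
    | last i x s h1 => exact absurd (Sym.GR.last _ _ _ h1) h4
    | att0 i k x a m h1 h2 h3 =>
      right
      obtain ⟨l, rfl⟩ := hLV _ _ _ h1 (fun h5 => h4 (Sym.GR.att0 _ k _ _ _ h5 h2 h3))
      exact ⟨l, _, _, _, _, rfl, rfl⟩
    | att1 i k x a m h1 h2 h3 =>
      left
      obtain ⟨l, rfl⟩ := hLV _ _ _ h1 (fun h5 => h4 (Sym.GR.att1 _ k _ _ _ h5 h2 h3))
      exact ⟨l, _, _, _, _, rfl, rfl⟩
    | conn i i' => exact absurd (Sym.GR.conn _ _) h4
    | connS i => exact absurd (Sym.GR.connS _) h4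
    | connE i => exact absurd (Sym.GR.connE _) h4
  have hSeg : ∀ u w, SegRel (Sym.GR sdF (LV π β)) Sym.Sg.fin z u w →
      ¬ SegRel (Sym.GR sdF (LV π β')) Sym.Sg.fin z u w →
      (∃ l b ρ x c, u = Sum.inl (.leaf (Sum.inl (v, l)), some b) ∧ w = Sum.inl (.col ρ x, some c)) ∨
      (∃ l b ρ x c, w = Sum.inl (.leaf (Sum.inl (v, l)), some b) ∧ u = Sum.inl (.col ρ x, some c)) := by
    intro u w h3 h4
    cases h3 with
    | port m m' b b' h1 =>
      rcases hGR _ _ h1 (fun h5 => h4 (SegRel.port _ _ _ _ h5)) with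
        ⟨l, b, ρ, x, c, h5, h6⟩ | ⟨l, b, ρ, x, c, h5, h6⟩
      · left
        simp only [Prod.mk.injEq] at h5 h6
        exact ⟨l, b, ρ, x, c, by rw [h5.1, h5.2], by rw [h6.1, h6.2]⟩
      · right
        simp only [Prod.mk.injEq] at h5 h6
        exact ⟨l, b, ρ, x, c, by rw [h5.1, h5.2], by rw [h6.1, h6.2]⟩
    | mid m b h1 => exact absurd (SegRel.mid _ _ h1) h4
    | midf j h1 => exact absurd (SegRel.midf j h1) h4
    | ff j j' h1 => exact absurd (SegRel.ff j j' h1) h4
    | fp j h1 => exact absurd (SegRel.fp j h1) h4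
  rcases h2 with h2 | h2
  · exact hSeg u w h2 (fun h3 => h' ⟨h1, Or.inl h3⟩)
  · exact (hSeg w u h2 (fun h3 => h' ⟨h1, Or.inr h3⟩)).symm

theorem GG_diff {β β' : Nd M → ZMod 2} {z : ℕ} (v : Nd M) (hβ : ∀ v', v' ≠ v → β' v' = β v')
    {u w : SegV (Sgm M) z} (h : ¬ ((GG π β z).Adj u w ↔ (GG π β' z).Adj u w)) :
    (∃ l b ρ x c, u = Sum.inl (.leaf (Sum.inl (v, l)), some b) ∧ w = Sum.inl (.col ρ x, some c)) ∨
    (∃ l b ρ x c, w = Sum.inl (.leaf (Sum.inl (v, l)), some b) ∧ u = Sum.inl (.col ρ x, some c)) := by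
  by_cases h1 : (GG π β z).Adj u w
  · by_cases h2 : (GG π β' z).Adj u w
    · exact absurd (by simp [h1, h2]) h
    · exact GG_diff' π v hβ h1 h2
  · by_cases h2 : (GG π β' z).Adj u w
    · exact GG_diff' π v (fun v' hv' => (hβ v' hv').symm) h2 h1
    · exact absurd (by simp [h1, h2]) h

/-- An action fixing an edge distinguishing two charges at `v` has trivial boundary at `v`. -/
theorem act_fixes {β β' : Nd M → ZMod 2} {z : ℕ} (v : Nd M) (hβ : ∀ v', v' ≠ v → β' v' = β v')
    {u w : SegV (Sgm M) z} (h : ¬ ((GG π β z).Adj u w ↔ (GG π β' z).Adj u w))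
    (y : Ed M → ZMod 2) (heq : s(actV π y u, actV π y w) = s(u, w)) : bd π y v = 0 := by
  obtain ⟨hl, hc⟩ : dl π y v = 0 ∧ y (esl π v 0) = 0 := by
    have key : ∀ (l : ZMod 2 × ZMod 2) (b : Bool) (ρ : Rw M) (x : Fin (3 * 7 + 1)) (c : Bool),
        (¬ ((GG π β z).Adj (Sum.inl (.leaf (Sum.inl (v, l)), some b)) (Sum.inl (.col ρ x, some c)) ↔
          (GG π β' z).Adj (Sum.inl (.leaf (Sum.inl (v, l)), some b)) (Sum.inl (.col ρ x, some c)))) →
        ρ.1 = esl π v 0 := by
      intro l b ρ x c hne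
      by_contra hρ
      apply hne
      have hLV : ∀ k, LV π β ρ k (Sum.inl (v, l)) ↔ LV π β' ρ k (Sum.inl (v, l)) := by
        have aux : ∀ (γ γ' : Nd M → ZMod 2) k, LV π γ ρ k (Sum.inl (v, l)) →
            LV π γ' ρ k (Sum.inl (v, l)) := by
          intro γ γ' k h1
          cases h1 with
          | node e σ b k v s l h5 h6 h7 =>
            refine LV.node e σ b k v s l h5 ?_ h7
            have hs : s ≠ 0 := by
              rintro rfl
              apply hρ
              unfold esl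
              rw [← h5, kapInv_kap]
            rw [← h6]
            unfold ww
            fin_cases s
            · exact absurd rfl hs
            · rfl
            · rfl
        exact fun k => ⟨aux _ _ k, aux _ _ k⟩
      have hGR : ∀ p q, p = ((.leaf (Sum.inl (v, l)) : Sgm M), b) → q = ((.col ρ x : Sgm M), c) →
          ((Sym.GR sdF (LV π β) p q ↔ Sym.GR sdF (LV π β') p q) ∧
          (Sym.GR sdF (LV π β) q p ↔ Sym.GR sdF (LV π β') q p)) := by
        intro p q hp hq
        subst hp hq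
        refine ⟨⟨?_, ?_⟩, ⟨?_, ?_⟩⟩
        · intro h1
          cases h1 with
          | att1 i k x a m h1 h2 h3 => exact Sym.GR.att1 _ k _ _ _ ((hLV k).1 h1) h2 h3
        · intro h1
          cases h1 with
          | att1 i k x a m h1 h2 h3 => exact Sym.GR.att1 _ k _ _ _ ((hLV k).2 h1) h2 h3
        · intro h1
          cases h1 with
          | att0 i k x a m h1 h2 h3 => exact Sym.GR.att0 _ k _ _ _ ((hLV k).1 h1) h2 h3
        · intro h1
          cases h1 with
          | att0 i k x a m h1 h2 h3 => exact Sym.GR.att0 _ k _ _ _ ((hLV k).2 h1) h2 h3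
      obtain ⟨hg1, hg2⟩ := hGR _ _ rfl rfl
      unfold GG segGraph
      rw [SimpleGraph.fromRel_adj, SimpleGraph.fromRel_adj]
      have hS : ∀ γ : Nd M → ZMod 2, (SegRel (Sym.GR sdF (LV π γ)) Sym.Sg.fin z
          (Sum.inl (.leaf (Sum.inl (v, l)), some b)) (Sum.inl (.col ρ x, some c)) ↔
            Sym.GR sdF (LV π γ) ((.leaf (Sum.inl (v, l)) : Sgm M), b) (.col ρ x, c)) ∧
          (SegRel (Sym.GR sdF (LV π γ)) Sym.Sg.fin z
          (Sum.inl (.col ρ x, some c)) (Sum.inl (.leaf (Sum.inl (v, l)), some b)) ↔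
            Sym.GR sdF (LV π γ) ((.col ρ x : Sgm M), c) (.leaf (Sum.inl (v, l)), b)) := by
        intro γ
        refine ⟨⟨?_, SegRel.port _ _ _ _⟩, ⟨?_, SegRel.port _ _ _ _⟩⟩
        · intro h1
          cases h1 with
          | port m m' b b' h1 => exact h1
        · intro h1
          cases h1 with
          | port m m' b b' h1 => exact h1
      rw [(hS β).1, (hS β).2, (hS β').1, (hS β').2, hg1, hg2]
    rw [Sym2.eq_iff] at heq
    rcases GG_diff π v hβ h with ⟨l, b, ρ, x, c, rfl, rfl⟩ | ⟨l, b, ρ, x, c, rfl, rfl⟩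
    · have hρ := key l b ρ x c h
      rcases heq with ⟨h1, h2⟩ | ⟨h1, _⟩
      · simp only [actV, actS, actL, Sum.inl.injEq, Prod.mk.injEq, Sym.Sg.leaf.injEq, true_and,
          and_true, Sym.Sg.col.injEq] at h1 h2
        refine ⟨by simpa using h1, ?_⟩
        have h3 := congrArg Prod.snd h2
        simp only [actR, add_eq_left] at h3
        rw [← hρ]; exact h3
      · simp [actV, actS] at h1
    · have hρ := key l b ρ x c (by
        intro hiff
        apply h
        rw [SimpleGraph.adj_comm, hiff, SimpleGraph.adj_comm])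
      rcases heq with ⟨h2, h1⟩ | ⟨h1, _⟩
      · simp only [actV, actS, actL, Sum.inl.injEq, Prod.mk.injEq, Sym.Sg.leaf.injEq, true_and,
          and_true, Sym.Sg.col.injEq] at h1 h2
        refine ⟨by simpa using h1, ?_⟩
        have h3 := congrArg Prod.snd h2
        simp only [actR, add_eq_left] at h3
        rw [← hρ]; exact h3
      · simp [actV, actS] at h1
  unfold bd
  rw [Fin.sum_univ_three]
  have h1 := congrArg Prod.fst hl
  have h2 := congrArg Prod.snd hl
  simp only [dl, Prod.fst_zero, Prod.snd_zero] at h1 h2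
  rw [hc, zero_add]
  exact h1

end Pool.Agent.H545R2.K
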