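import Pool.Agent.H545R2.Expand

set_option autoImplicit false
set_option linter.unusedSectionVars false

/-! The base graph: a cubic multigraph in which deleting few places leaves a giant component. -/

namespace Pool.Agent.H545R2.K

open Finset

/-- Nodes of the base graph: `M` clusters with 140 nodes each. -/
abbrev Nd (M : ℕ) := Fin M × Fin 140

/-- Edges of the base graph: cluster cycles, and 35 doubled joining permutations. -/
abbrev Ed (M : ℕ) := (Fin M × Fin 140) ⊕ (Fin M × (Fin 35 × Bool))

/-- the first 70 places of a cluster -/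
def lowF (j : Fin 35) (t : Bool) : Fin 140 := ⟨2 * j.val + t.toNat, by cases t <;> simp <;> omega⟩

/-- the last 70 places of a cluster -/
def highF (j : Fin 35) (t : Bool) : Fin 140 :=
  ⟨70 + 2 * j.val + t.toNat, by cases t <;> simp <;> omega⟩

variable {M : ℕ} (π : Fin 35 → Equiv.Perm (Fin M))

/-- the two ends of an edge: a node and one of its three slots -/
def kap : Ed M × Bool → Nd M × Fin 3
  | (Sum.inl (i, s), false) => ((i, s), 0)
  | (Sum.inl (i, s), true) => ((i, s + 1), 1)
  | (Sum.inr (i, (j, t)), false) => ((i, lowF j t), 2)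
  | (Sum.inr (i, (j, t)), true) => ((π j i, highF j t), 2)

/-- the inverse of `kap` -/
def kapInv : Nd M × Fin 3 → Ed M × Bool
  | ((i, s), 0) => (Sum.inl (i, s), false)
  | ((i, s), 1) => (Sum.inl (i, s - 1), true)
  | ((i, s), 2) => if h : s.val < 70 then
      (Sum.inr (i, (⟨s.val / 2, by omega⟩, decide (s.val % 2 = 1))), false)
      else (Sum.inr ((π ⟨(s.val - 70) / 2, by omega⟩).symm i,
        (⟨(s.val - 70) / 2, by omega⟩, decide (s.val % 2 = 1))), true)

theorem kapInv_kap (p : Ed M × Bool) : kapInv π (kap π p) = p := by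
  rcases p with ⟨(⟨i, s⟩ | ⟨i, ⟨j, t⟩⟩), b⟩
  · cases b
    · rfl
    · simp [kap, kapInv]
  · have hj := j.isLt
    cases b
    · have h : (lowF j t).val < 70 := by simp only [lowF]; cases t <;> simp <;> omega
      have e1 : (⟨(lowF j t).val / 2, by omega⟩ : Fin 35) = j := by
        ext; simp only [lowF]; cases t <;> simp <;> omega
      have e2 : decide ((lowF j t).val % 2 = 1) = t := by
        simp only [lowF]; cases t <;> simp <;> omega
      simp only [kap, kapInv, dif_pos h, e1, e2]
    · have h : ¬ (highF j t).val < 70 := by simp only [highF]; cases t <;> simp <;> omega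
      have e1 : (⟨((highF j t).val - 70) / 2, by have := (highF j t).isLt; omega⟩ : Fin 35) = j := by
        ext; simp only [highF]; cases t <;> simp <;> omega
      have e2 : decide ((highF j t).val % 2 = 1) = t := by
        simp only [highF]; cases t <;> simp <;> omega
      simp only [kap, kapInv, dif_neg h, e1, e2, Equiv.symm_apply_apply]

theorem kap_kapInv (p : Nd M × Fin 3) : kap π (kapInv π p) = p := by
  rcases p with ⟨⟨i, s⟩, c⟩
  have hc : c = 0 ∨ c = 1 ∨ c = 2 := by
    have := c.isLt
    rcases c with ⟨c, hc⟩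
    interval_cases c
    · left; rfl
    · right; left; rfl
    · right; right; rfl
  rcases hc with rfl | rfl | rfl
  · rfl
  · simp [kap, kapInv]
  · have hs := s.isLt
    by_cases h : s.val < 70
    · have e : lowF ⟨s.val / 2, by omega⟩ (decide (s.val % 2 = 1)) = s := by
        ext; simp only [lowF]
        by_cases h1 : s.val % 2 = 1 <;> simp [h1] <;> omega
      simp only [kapInv, dif_pos h, kap, e]
    · have e : highF ⟨(s.val - 70) / 2, by omega⟩ (decide (s.val % 2 = 1)) = s := by
        ext; simp only [highF]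
        by_cases h1 : s.val % 2 = 1 <;> simp [h1] <;> omega
      simp only [kapInv, dif_neg h, kap, Equiv.apply_symm_apply, e]

/-- `kap` as an equivalence -/
def kapE : Ed M × Bool ≃ Nd M × Fin 3 where
  toFun := kap π
  invFun := kapInv π
  left_inv := kapInv_kap π
  right_inv := kap_kapInv π

/-- the edge at a slot -/
def esl (v : Nd M) (s : Fin 3) : Ed M := (kapInv π (v, s)).1

/-- the boundary of a set of edges, modulo two -/
def bd (y : Ed M → ZMod 2) (v : Nd M) : ZMod 2 := ∑ s : Fin 3, y (esl π v s)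

theorem bd_add (y y' : Ed M → ZMod 2) : bd π (y + y') = bd π y + bd π y' := by
  ext v
  simp [bd, Finset.sum_add_distrib]

theorem bd_zero : bd π (0 : Ed M → ZMod 2) = 0 := by
  ext v
  simp [bd]

theorem bd_sum (y : Ed M → ZMod 2) : ∑ v, bd π y v = 0 := by
  unfold bd
  have h1 : ∑ v : Nd M, ∑ s : Fin 3, y (esl π v s) = ∑ p : Nd M × Fin 3, y (esl π p.1 p.2) := by
    exact (Fintype.sum_prod_type (fun p : Nd M × Fin 3 => y (esl π p.1 p.2))).symm
  rw [h1]
  have h2 : ∑ p : Nd M × Fin 3, y (esl π p.1 p.2) = ∑ q : Ed M × Bool, y q.1 := by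
    apply Fintype.sum_equiv (kapE π).symm
    intro p
    rfl
  rw [h2, Fintype.sum_prod_type]
  apply Finset.sum_eq_zero
  intro e _
  simp only [Fintype.sum_bool]
  exact CharTwo.add_self_eq_zero _

theorem bd_single (e : Ed M) :
    bd π (Pi.single e 1) = Pi.single (kap π (e, false)).1 1 + Pi.single (kap π (e, true)).1 1 := by
  ext v
  unfold bd
  have h1 : ∀ s : Fin 3, (Pi.single e (1 : ZMod 2) : Ed M → ZMod 2) (esl π v s) =
      (if (v, s) = kap π (e, false) then 1 else 0) + (if (v, s) = kap π (e, true) then 1 else 0) := by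
    intro s
    rcases hq : kapInv π (v, s) with ⟨e', b⟩
    have hk : kap π (e', b) = (v, s) := by rw [← hq, kap_kapInv]
    have hes : esl π v s = e' := by unfold esl; rw [hq]
    rw [hes]
    by_cases he : e' = e
    · subst he
      rw [Pi.single_eq_same]
      cases b
      · rw [if_pos hk.symm, if_neg, add_zero]
        intro h
        have := (kapE π).injective (show kapE π (e', false) = kapE π (e', true) from hk.trans h)
        simp at this
      · rw [if_neg, if_pos hk.symm, zero_add]
        intro h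
        have := (kapE π).injective (show kapE π (e', true) = kapE π (e', false) from hk.trans h)
        simp at this
    · rw [Pi.single_eq_of_ne he, if_neg, if_neg, add_zero]
      · intro h
        have := (kapE π).injective (show kapE π (e', b) = kapE π (e, true) from hk.trans h)
        simp only [Prod.mk.injEq] at this
        exact he this.1
      · intro h
        have := (kapE π).injective (show kapE π (e', b) = kapE π (e, false) from hk.trans h)
        simp only [Prod.mk.injEq] at this
        exact he this.1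
  simp only [h1, Finset.sum_add_distrib, Pi.add_apply]
  have h2 : ∀ q : Nd M × Fin 3, (∑ s : Fin 3, if (v, s) = q then (1 : ZMod 2) else 0) =
      (Pi.single q.1 1 : Nd M → ZMod 2) v := by
    rintro ⟨u, t⟩
    by_cases hu : v = u
    · subst hu
      rw [Pi.single_eq_same]
      simp
    · rw [Pi.single_eq_of_ne hu]
      simp [hu]
  rw [h2, h2]

/-- the edges of the support of `y` join good clusters -/
def Adm (Gd : Finset (Fin M)) (y : Ed M → ZMod 2) : Prop :=
  ∀ e, y e ≠ 0 → ∀ b, (kap π (e, b)).1.1 ∈ Gd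

/-- two nodes are joined by a path in the good part -/
def Rel (Gd : Finset (Fin M)) (v v' : Nd M) : Prop :=
  ∃ y : Ed M → ZMod 2, Adm π Gd y ∧ bd π y = Pi.single v 1 + Pi.single v' 1

theorem Rel.refl (Gd : Finset (Fin M)) (v : Nd M) : Rel π Gd v v := by
  refine ⟨0, fun e he => absurd rfl he, ?_⟩
  rw [bd_zero]
  ext u
  simp only [Pi.zero_apply, Pi.add_apply]
  exact (CharTwo.add_self_eq_zero _).symm

variable {π}

theorem Rel.symm {Gd : Finset (Fin M)} {v v' : Nd M} (h : Rel π Gd v v') : Rel π Gd v' v := by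
  obtain ⟨y, h1, h2⟩ := h
  exact ⟨y, h1, by rw [h2, add_comm]⟩

theorem Adm.add {Gd : Finset (Fin M)} {y y' : Ed M → ZMod 2} (h : Adm π Gd y)
    (h' : Adm π Gd y') : Adm π Gd (y + y') := by
  intro e he b
  by_cases h1 : y e = 0
  · have h2 : y' e ≠ 0 := by
      intro h2
      apply he
      simp [h1, h2]
    exact h' e h2 b
  · exact h e h1 b

theorem Rel.trans {Gd : Finset (Fin M)} {v v' v'' : Nd M} (h : Rel π Gd v v')
    (h' : Rel π Gd v' v'') : Rel π Gd v v'' := by
  obtain ⟨y, h1, h2⟩ := h
  obtain ⟨y', h1', h2'⟩ := h'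
  refine ⟨y + y', h1.add h1', ?_⟩
  rw [bd_add, h2, h2']
  ext u
  simp only [Pi.add_apply]
  have := CharTwo.add_self_eq_zero ((Pi.single v' 1 : Nd M → ZMod 2) u)
  linear_combination this

theorem Rel.edge {Gd : Finset (Fin M)} (e : Ed M) (h : ∀ b, (kap π (e, b)).1.1 ∈ Gd) :
    Rel π Gd (kap π (e, false)).1 (kap π (e, true)).1 := by
  refine ⟨Pi.single e 1, ?_, bd_single π e⟩
  intro e' he' b
  by_cases he : e' = e
  · rw [he]; exact h b
  · rw [Pi.single_eq_of_ne he] at he'
    exact absurd rfl he'

theorem Rel.cluster {Gd : Finset (Fin M)} {i : Fin M} (hi : i ∈ Gd) (s s' : Fin 140) :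
    Rel π Gd (i, s) (i, s') := by
  have key : ∀ k : ℕ, Rel π Gd (i, 0) (i, Fin.ofNat 140 k) := by
    intro k
    induction k with
    | zero => exact Rel.refl π Gd _
    | succ k ih =>
      refine ih.trans ?_
      have h := Rel.edge (π := π) (Gd := Gd) (Sum.inl (i, Fin.ofNat 140 k)) (by
        intro b; cases b <;> exact hi)
      have e : (Fin.ofNat 140 k) + 1 = Fin.ofNat 140 (k + 1) := by
        ext
        simp [Fin.val_add, Fin.ofNat]
      simp only [kap] at h
      rw [e] at h
      exact h
  have key' : ∀ s : Fin 140, Rel π Gd (i, 0) (i, s) := by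
    intro s
    have h := key s.val
    have e : Fin.ofNat 140 s.val = s := by ext; simp [Fin.ofNat]
    rwa [e] at h
  exact (key' s).symm.trans (key' s')

theorem Rel.joined {Gd : Finset (Fin M)} {i : Fin M} (j : Fin 35) (hi : i ∈ Gd)
    (hi' : π j i ∈ Gd) : Rel π Gd (i, 0) (π j i, 0) := by
  have h := Rel.edge (π := π) (Gd := Gd) (Sum.inr (i, (j, false))) (by
    intro b; cases b
    · exact hi
    · exact hi')
  simp only [kap] at h
  exact (Rel.cluster hi _ _).trans (h.trans (Rel.cluster hi' _ _))

/-- a giant component of the good part -/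
theorem exists_giant
    (hπ : ∀ A B : Finset (Fin M), M ≤ 5 * A.card → M ≤ 5 * B.card → ∃ j, ∃ a ∈ A, π j a ∈ B)
    (hM : 0 < M) (Gd : Finset (Fin M)) (hGd : 19 * M ≤ 20 * Gd.card) :
    ∃ C ⊆ Gd, 3 * M < 4 * C.card ∧ ∀ i ∈ C, ∀ i' ∈ C, ∀ s s', Rel π Gd (i, s) (i', s') := by
  classical
  let Fam : Finset (Finset (Fin M)) := Gd.powerset.filter (fun A =>
    5 * A.card < M ∧ ∀ i ∈ A, ∀ i' ∈ Gd, Rel π Gd (i, 0) (i', 0) → i' ∈ A)
  have hne : Fam.Nonempty := ⟨∅, by simp [Fam, hM]⟩
  obtain ⟨A, hA, hmax⟩ := Finset.exists_max_image Fam Finset.card hne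
  simp only [Fam, Finset.mem_filter, Finset.mem_powerset] at hA hmax
  obtain ⟨hAG, hA5, hAc⟩ := hA
  have hex : (Gd \ A).Nonempty := by
    rw [Finset.nonempty_iff_ne_empty, Ne, Finset.sdiff_eq_empty_iff_subset]
    intro h
    have := Finset.card_le_card h
    omega
  obtain ⟨i, hi⟩ := hex
  rw [Finset.mem_sdiff] at hi
  let C := Gd.filter (fun i' => Rel π Gd (i, 0) (i', 0))
  have hiC : i ∈ C := by simp only [C, Finset.mem_filter]; exact ⟨hi.1, Rel.refl π Gd _⟩
  have hCG : C ⊆ Gd := Finset.filter_subset _ _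
  have hACG : A ∪ C ⊆ Gd := Finset.union_subset hAG hCG
  have hclosed : ∀ i ∈ A ∪ C, ∀ i' ∈ Gd, Rel π Gd (i, 0) (i', 0) → i' ∈ A ∪ C := by
    intro a ha a' ha' hr
    rw [Finset.mem_union] at ha ⊢
    rcases ha with ha | ha
    · left; exact hAc a ha a' ha' hr
    · right
      simp only [C, Finset.mem_filter] at ha ⊢
      exact ⟨ha', ha.2.trans hr⟩
  have hlt : A.card < (A ∪ C).card := by
    apply Finset.card_lt_card
    rw [Finset.ssubset_iff_subset_ne]
    refine ⟨Finset.subset_union_left, ?_⟩
    intro h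
    apply hi.2
    rw [h]
    exact Finset.mem_union_right _ hiC
  have hbig : M ≤ 5 * (A ∪ C).card := by
    by_contra hcon
    have := hmax (A ∪ C) ⟨hACG, by omega, hclosed⟩
    omega
  have hD : 5 * (Gd \ (A ∪ C)).card < M := by
    by_contra hcon
    obtain ⟨j, a, ha, hja⟩ := hπ (A ∪ C) (Gd \ (A ∪ C)) hbig (by omega)
    rw [Finset.mem_sdiff] at hja
    exact hja.2 (hclosed a ha _ hja.1 (Rel.joined j (hACG ha) hja.1))
  have hsum := Finset.card_sdiff_add_card_eq_card hACG
  have hun := Finset.card_union_le A C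
  have hE : 5 * (Gd \ C).card < M := by
    by_contra hcon
    obtain ⟨j, a, ha, hja⟩ := hπ C (Gd \ C) (by omega) (by omega)
    rw [Finset.mem_sdiff] at hja
    apply hja.2
    have h1 := Rel.joined (π := π) (Gd := Gd) j (hCG ha) hja.1
    simp only [C, Finset.mem_filter] at ha ⊢
    exact ⟨hja.1, ha.2.trans h1⟩
  have hsum2 := Finset.card_sdiff_add_card_eq_card hCG
  refine ⟨C, hCG, by omega, ?_⟩
  intro a ha a' ha' s s'
  simp only [C, Finset.mem_filter] at ha ha'
  exact (Rel.cluster ha.1 s 0).trans ((ha.2.symm.trans ha'.2).trans (Rel.cluster ha'.1 0 s'))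

end Pool.Agent.H545R2.K
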