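import Mathlib

set_option autoImplicit false

/-! Rotations of blocks of four points, a counting lemma and a duality lemma. -/

namespace Pool.Agent.H545R2.K

open Finset

/-- the Klein four-group -/
abbrev V4 := ZMod 2 × ZMod 2

/-- rotations of the nonzero elements of the Klein four-group -/
def rot (k : ZMod 3) (l : V4) : V4 :=
  if k = 0 then l else if k = 1 then (l.2, l.1 + l.2) else (l.1 + l.2, l.1)

theorem rot_add : ∀ (k : ZMod 3) (l l' : V4), rot k (l + l') = rot k l + rot k l' := by
  unfold rot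
  decide

theorem rot_zero : ∀ (k : ZMod 3), rot k 0 = 0 := by
  unfold rot
  decide

theorem rot_inj : ∀ (k : ZMod 3), Function.Injective (rot k) := by
  unfold Function.Injective rot
  decide

theorem rot_count_aux : ∀ (p q : ZMod 2), (p ≠ 0 ∨ q ≠ 0) → ∀ τ : V4, τ ≠ 0 → ∀ (x : ZMod 3)
    (c : ZMod 2), (univ.filter (fun a : ZMod 3 =>
      p * (rot (x + a) τ).1 + q * (rot (x + a) τ).2 = c)).card ≤ 2 := by
  unfold rot
  decide

theorem dual_V4 (f : V4 →ₗ[ZMod 2] ZMod 2) (l : V4) : f l = f (1, 0) * l.1 + f (0, 1) * l.2 := by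
  have h : l = l.1 • ((1, 0) : V4) + l.2 • ((0, 1) : V4) := by
    ext <;> simp
  conv_lhs => rw [h]
  rw [map_add, map_smul, map_smul, smul_eq_mul, smul_eq_mul]
  ring

/-- a nonzero functional vanishes at most ... times on rotations of a nonzero vector -/
theorem rot_count (f : V4 →ₗ[ZMod 2] ZMod 2) (hf : f ≠ 0) (τ : V4) (hτ : τ ≠ 0) (x : ZMod 3)
    (c : ZMod 2) : (univ.filter (fun a : ZMod 3 => f (rot (x + a) τ) = c)).card ≤ 2 := by
  have h : f (1, 0) ≠ 0 ∨ f (0, 1) ≠ 0 := by
    by_contra hcon
    push Not at hcon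
    apply hf
    ext1
    all_goals
      ext
      rw [LinearMap.comp_apply]
      simp [hcon.1, hcon.2]
  refine le_trans (le_of_eq ?_) (rot_count_aux _ _ h τ hτ x c)
  congr 1
  apply Finset.filter_congr
  intro a _
  rw [dual_V4 f (rot (x + a) τ)]

/-- Counting lemma: independent tests. -/
theorem count_pass {B ι : Type*} [Fintype B] [DecidableEq B] [DecidableEq ι] (T : Finset ι)
    (bt : ι → B) (h : ι → B → ZMod 3 → ZMod 2)
    (hc : ∀ t ∈ T, ∀ t' ∈ T, t ≠ t' → ∀ k k', h t' (bt t) k = h t' (bt t) k')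
    (hv : ∀ t ∈ T, ∀ x c, (univ.filter (fun a : ZMod 3 => h t (bt t) (x + a) = c)).card ≤ 2) :
    (univ.filter (fun R : B → ZMod 3 => ∀ t ∈ T, ∑ b, h t b (R b) = 0)).card * 3 ^ T.card ≤
      2 ^ T.card * 3 ^ Fintype.card B := by
  induction T using Finset.induction_on with
  | empty =>
    rw [Finset.card_empty, pow_zero, pow_zero, mul_one, one_mul]
    refine le_trans (Finset.card_filter_le _ _) ?_
    rw [Finset.card_univ, Fintype.card_fun, ZMod.card]
  | insert t T ht ih =>
    have ih' := ih (fun a ha b hb => hc a (Finset.mem_insert_of_mem ha) b (Finset.mem_insert_of_mem hb))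
      (fun a ha => hv a (Finset.mem_insert_of_mem ha))
    set S := univ.filter (fun R : B → ZMod 3 => ∀ t ∈ T, ∑ b, h t b (R b) = 0) with hS
    set S' := univ.filter (fun R : B → ZMod 3 => ∀ t' ∈ insert t T, ∑ b, h t' b (R b) = 0) with hS'
    have hmem : ∀ R, R ∈ S ↔ ∀ t ∈ T, ∑ b, h t b (R b) = 0 := by intro R; simp [hS]
    have hmem' : ∀ R, R ∈ S' ↔ (R ∈ S ∧ ∑ b, h t b (R b) = 0) := by
      intro R
      rw [hmem, hS', Finset.mem_filter, Finset.forall_mem_insert]
      simp only [Finset.mem_univ, true_and]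
      tauto
    -- the shift
    have hshift : ∀ (R : B → ZMod 3) (a : ZMod 3), R + Pi.single (bt t) a ∈ S ↔ R ∈ S := by
      intro R a
      rw [hmem, hmem]
      have : ∀ t' ∈ T, ∑ b, h t' b ((R + Pi.single (bt t) a : B → ZMod 3) b) = ∑ b, h t' b (R b) := by
        intro t' ht'
        apply Finset.sum_congr rfl
        intro b _
        by_cases hb : b = bt t
        · subst hb
          apply hc t (Finset.mem_insert_self _ _) t' (Finset.mem_insert_of_mem ht')
          rintro rfl
          exact ht ht'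
        · rw [Pi.add_apply, Pi.single_eq_of_ne hb, add_zero]
      constructor
      · intro h1 t' ht'
        rw [← this t' ht']; exact h1 t' ht'
      · intro h1 t' ht'
        rw [this t' ht']; exact h1 t' ht'
    have h3 : S'.card * 3 ≤ 2 * S.card := by
      have e1 : ∀ a : ZMod 3, S'.card =
          (S.filter (fun R => ∑ b, h t b ((R + Pi.single (bt t) a : B → ZMod 3) b) = 0)).card := by
        intro a
        symm
        refine Finset.card_bij' (fun R _ => R + Pi.single (bt t) a)
          (fun R _ => R - Pi.single (bt t) a) ?_ ?_ ?_ ?_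
        · intro R hR
          rw [Finset.mem_filter] at hR
          rw [hmem', hshift]
          exact hR
        · intro R hR
          rw [hmem'] at hR
          rw [Finset.mem_filter, ← hshift _ a, sub_add_cancel]
          exact hR
        · intro R _
          simp
        · intro R _
          simp
      have e2 : S'.card * 3 = ∑ a : ZMod 3,
          (S.filter (fun R => ∑ b, h t b ((R + Pi.single (bt t) a : B → ZMod 3) b) = 0)).card := by
        rw [← Finset.sum_congr rfl (fun a _ => e1 a), Finset.sum_const, Finset.card_univ, ZMod.card,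
          smul_eq_mul, mul_comm]
      have e3 : ∑ a : ZMod 3,
          (S.filter (fun R => ∑ b, h t b ((R + Pi.single (bt t) a : B → ZMod 3) b) = 0)).card =
          ∑ R ∈ S, (univ.filter (fun a : ZMod 3 =>
            ∑ b, h t b ((R + Pi.single (bt t) a : B → ZMod 3) b) = 0)).card := by
        simp only [Finset.card_filter]
        rw [Finset.sum_comm]
      rw [e2, e3]
      calc ∑ R ∈ S, (univ.filter (fun a : ZMod 3 =>
            ∑ b, h t b ((R + Pi.single (bt t) a : B → ZMod 3) b) = 0)).card ≤ ∑ R ∈ S, 2 := by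
            apply Finset.sum_le_sum
            intro R _
            refine le_trans (Finset.card_le_card ?_) (hv t (Finset.mem_insert_self _ _) (R (bt t))
              (- ∑ b ∈ univ.erase (bt t), h t b (R b)))
            intro a ha
            simp only [Finset.mem_filter, Finset.mem_univ, true_and] at ha ⊢
            rw [← Finset.add_sum_erase _ _ (Finset.mem_univ (bt t))] at ha
            rw [Pi.add_apply, Pi.single_eq_same] at ha
            have hr : ∑ b ∈ univ.erase (bt t), h t b ((R + Pi.single (bt t) a : B → ZMod 3) b) =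
                ∑ b ∈ univ.erase (bt t), h t b (R b) := by
              apply Finset.sum_congr rfl
              intro b hb
              rw [Pi.add_apply, Pi.single_eq_of_ne (Finset.ne_of_mem_erase hb), add_zero]
            rw [hr] at ha
            exact eq_neg_of_add_eq_zero_left ha
        _ = 2 * S.card := by rw [Finset.sum_const, smul_eq_mul, mul_comm]
    rw [Finset.card_insert_of_notMem ht, pow_succ, pow_succ]
    calc S'.card * (3 ^ T.card * 3) = (S'.card * 3) * 3 ^ T.card := by ring
      _ ≤ (2 * S.card) * 3 ^ T.card := Nat.mul_le_mul_right _ h3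
      _ = 2 * (S.card * 3 ^ T.card) := by ring
      _ ≤ 2 * (2 ^ T.card * 3 ^ Fintype.card B) := Nat.mul_le_mul_left _ ih'
      _ = 2 ^ T.card * 2 * 3 ^ Fintype.card B := by ring

/-- Duality lemma. -/
theorem duality {Y A C : Type*} [AddCommGroup Y] [Module (ZMod 2) Y] [AddCommGroup A]
    [Module (ZMod 2) A] [AddCommGroup C] [Module (ZMod 2) C]
    (W : Submodule (ZMod 2) A) (f : Y →ₗ[ZMod 2] A) (d : Y →ₗ[ZMod 2] C) (n : C)
    (h : ¬ ∃ y, f y ∈ W ∧ d y = n) :
    ∃ χ ∈ W.dualAnnihilator, ∃ z : C →ₗ[ZMod 2] ZMod 2, z n ≠ 0 ∧ ∀ y, χ (f y) = z (d y) := by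
  have h1 : ((0 : A ⧸ W), n) ∉ LinearMap.range ((W.mkQ.comp f).prod d) := by
    rintro ⟨y, hy⟩
    apply h
    refine ⟨y, ?_, congrArg Prod.snd hy⟩
    have := congrArg Prod.fst hy
    rw [← Submodule.Quotient.mk_eq_zero]
    exact this
  obtain ⟨g, hg1, hg2⟩ := Submodule.exists_le_ker_of_notMem h1
  refine ⟨(g.comp (LinearMap.inl (ZMod 2) (A ⧸ W) C)).comp W.mkQ, ?_, g.comp (LinearMap.inr (ZMod 2) (A ⧸ W) C), ?_, ?_⟩
  · rw [Submodule.mem_dualAnnihilator]
    intro w hw
    have : W.mkQ w = 0 := (Submodule.Quotient.mk_eq_zero W).2 hw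
    rw [LinearMap.comp_apply, this, map_zero]
  · exact hg1
  · intro y
    have h2 := hg2 ⟨y, rfl⟩
    rw [LinearMap.mem_ker] at h2
    have h3 : ((W.mkQ.comp f).prod d) y = LinearMap.inl (ZMod 2) (A ⧸ W) C (W.mkQ (f y)) +
        LinearMap.inr (ZMod 2) (A ⧸ W) C (d y) := by
      simp
    rw [h3, map_add] at h2
    have h4 := CharTwo.add_self_eq_zero (g (LinearMap.inr (ZMod 2) (A ⧸ W) C (d y)))
    show g (LinearMap.inl (ZMod 2) (A ⧸ W) C (W.mkQ (f y))) = g (LinearMap.inr (ZMod 2) (A ⧸ W) C (d y))
    linear_combination h2 - h4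

/-- A subgroup of small index has a small annihilator. -/
theorem card_annihilator {A Gt : Type*} [AddCommGroup A] [Module (ZMod 2) A] [Finite A]
    [Fintype Gt] (W : Submodule (ZMod 2) A) (F : A → Gt) (hF : ∀ a a', F a = F a' → a - a' ∈ W) :
    Nat.card W.dualAnnihilator ≤ Fintype.card Gt := by
  have h1 : Nat.card W.dualAnnihilator = Nat.card (Module.Dual (ZMod 2) (A ⧸ W)) :=
    Nat.card_congr (W.dualQuotEquivDualAnnihilator).toEquiv.symm
  have : Finite (A ⧸ W) := Finite.of_surjective W.mkQ (Submodule.mkQ_surjective W)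
  have : Module.Finite (ZMod 2) (A ⧸ W) := Module.Finite.of_finite
  have : Finite (Module.Dual (ZMod 2) (A ⧸ W)) := Module.finite_of_finite (ZMod 2)
  have h2 : Nat.card (Module.Dual (ZMod 2) (A ⧸ W)) = Nat.card (A ⧸ W) := by
    rw [Module.natCard_eq_pow_finrank (K := ZMod 2), Module.natCard_eq_pow_finrank (K := ZMod 2) (V := A ⧸ W),
      Subspace.dual_finrank_eq]
  rw [h1, h2, ← Nat.card_eq_fintype_card (α := Gt)]
  apply Nat.card_le_card_of_injective (fun q : A ⧸ W => F q.out)
  intro q q' hq
  have h3 := hF _ _ hq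
  have h4 : (Submodule.Quotient.mk q.out : A ⧸ W) = Submodule.Quotient.mk q'.out :=
    (Submodule.Quotient.eq W).2 h3
  simpa using h4

end Pool.Agent.H545R2.K
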