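import Pool.Agent.H545R2.KMain

set_option autoImplicit false
set_option linter.unusedSectionVars false

/-! Symmetrization of a network on blocks of four vertices. -/

namespace Pool.Agent.H545R2.K

open Finset

section symmetrize

variable {V : Type*} {Gt : Type*} [Fintype Gt] [DecidableEq Gt] {r : ℕ}

/-- Gates of the symmetrized network. -/
abbrev SG (Gt : Type*) (r : ℕ) := ((Fin r → V4) × Option Gt) ⊕ Unit

/-- The symmetrized network: the disjunction of all copies of the network under the permutations
of the blocks. -/
noncomputable def symNet (N : Net V Gt) (blk : Fin r × V4 ↪ V) : Net V (SG Gt r) where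
  inp := fun x => match x with
    | Sum.inl (γ, some g) => (N.inp g).map (Sym2.map (bp blk γ))
    | _ => none
  w := fun x x' => match x, x' with
    | Sum.inl (γ, some h), Sum.inl (γ', some g) => if γ = γ' then N.w h g else 0
    | Sum.inl (γ, some h), Sum.inl (γ', none) => if γ = γ' ∧ h = N.out then 1 else 0
    | Sum.inl (_, none), Sum.inr () => 1
    | _, _ => 0
  F := fun x k => match x with
    | Sum.inl (_, some g) => N.F g k
    | Sum.inl (_, none) => decide (k < 1)
    | Sum.inr () => decide (k < Fintype.card (Fin r → V4))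
  out := Sum.inr ()
  rank := fun x => match x with
    | Sum.inl (_, some g) => N.rank g
    | Sum.inl (_, none) => N.rank N.out + 1
    | Sum.inr () => N.rank N.out + 2
  acyc := by
    rintro (⟨γ, _ | h⟩ | _) (⟨γ', _ | g⟩ | _) hw <;> simp only [lt_irrefl] at hw ⊢
    · omega
    · split_ifs at hw with hc
      · rw [hc.2]; omega
      · omega
    · split_ifs at hw with hc
      · exact N.acyc _ _ hw
      · omega

variable (N : Net V Gt) (blk : Fin r × V4 ↪ V)

theorem symNet_sum_some (γ : Fin r → V4) (g : Gt) (f : SG Gt r → ℕ) :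
    ∑ x, (symNet N blk).w x (Sum.inl (γ, some g)) * f x =
      ∑ h, N.w h g * f (Sum.inl (γ, some h)) := by
  rw [Fintype.sum_sum_type, Fintype.sum_prod_type]
  simp only [Fintype.sum_option, symNet, zero_mul, zero_add, Finset.sum_const_zero, add_zero]
  rw [Finset.sum_eq_single γ]
  · simp
  · intro γ' _ hne
    apply Finset.sum_eq_zero
    intro h _
    rw [if_neg hne, zero_mul]
  · intro h
    exact absurd (Finset.mem_univ _) h

theorem symNet_sum_none (γ : Fin r → V4) (f : SG Gt r → ℕ) :
    ∑ x, (symNet N blk).w x (Sum.inl (γ, none)) * f x = f (Sum.inl (γ, some N.out)) := by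
  rw [Fintype.sum_sum_type, Fintype.sum_prod_type]
  simp only [Fintype.sum_option, symNet, zero_mul, zero_add, Finset.sum_const_zero, add_zero]
  rw [Finset.sum_eq_single γ]
  · rw [Finset.sum_eq_single N.out]
    · simp
    · intro h _ hne
      simp [hne]
    · intro h
      exact absurd (Finset.mem_univ _) h
  · intro γ' _ hne
    apply Finset.sum_eq_zero
    intro h _
    rw [if_neg (fun h => hne h.1), zero_mul]
  · intro h
    exact absurd (Finset.mem_univ _) h

theorem symNet_sum_out (f : SG Gt r → ℕ) :
    ∑ x, (symNet N blk).w x (Sum.inr ()) * f x = ∑ γ, f (Sum.inl (γ, none)) := by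
  rw [Fintype.sum_sum_type, Fintype.sum_prod_type]
  simp [Fintype.sum_option, symNet]

theorem symNet_nand (hN : N.IsNand) : (symNet N blk).IsNand := by
  rintro (⟨γ, _ | g⟩ | _) hg k
  · have := symNet_sum_none N blk γ (fun _ => 1)
    simp only [mul_one] at this
    rw [this]
    rfl
  · have := symNet_sum_some N blk γ g (fun _ => 1)
    simp only [mul_one] at this
    rw [this]
    apply hN
    simpa [symNet] using hg
  · have := symNet_sum_out N blk (fun _ => 1)
    simp only [mul_one] at this
    rw [this]
    simp [symNet]

theorem symNet_val (G : SimpleGraph V) (γ : Fin r → V4) (g : Gt) :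
    (symNet N blk).val G (Sum.inl (γ, some g)) = N.val (G.comap (bp blk γ)) g := by
  have key : ∀ n, ∀ g, N.rank g = n →
      (symNet N blk).val G (Sum.inl (γ, some g)) = N.val (G.comap (bp blk γ)) g := by
    intro n
    induction n using Nat.strong_induction_on with
    | _ n ih =>
      intro g hg
      cases hi : N.inp g with
      | some e =>
        have hi' : (symNet N blk).inp (Sum.inl (γ, some g)) = some (Sym2.map (bp blk γ) e) := by
          show (N.inp g).map _ = _
          rw [hi]; rfl
        rw [Bool.eq_iff_iff, Net.val_some _ _ hi', Net.val_some _ _ hi]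
        induction e with
        | h u w => rfl
      | none =>
        have hi' : (symNet N blk).inp (Sum.inl (γ, some g)) = none := by
          show (N.inp g).map _ = _
          rw [hi]; rfl
        rw [Net.val_none _ _ hi', Net.val_none _ _ hi, symNet_sum_some]
        show N.F g _ = N.F g _
        congr 1
        apply Finset.sum_congr rfl
        intro h _
        by_cases hw : 0 < N.w h g
        · rw [ih (N.rank h) (by rw [← hg]; exact N.acyc _ _ hw) h rfl]
        · have : N.w h g = 0 := by omega
          rw [this, zero_mul, zero_mul]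
  exact key _ g rfl

theorem comap_ham {V : Type*} [Fintype V] [DecidableEq V] (G : SimpleGraph V)
    (p : Equiv.Perm V) : (G.comap p).IsHamiltonian ↔ G.IsHamiltonian := by
  constructor
  · exact ham_of_hom (G := G.comap p) (H := G) ⟨p, fun {a b} h => h⟩ p.bijective
  · refine ham_of_hom (G := G) (H := G.comap p) ⟨p.symm, fun {a b} h => ?_⟩ p.symm.bijective
    show G.Adj (p (p.symm a)) (p (p.symm b))
    rwa [Equiv.apply_symm_apply, Equiv.apply_symm_apply]

theorem symNet_ham {V : Type*} [Fintype V] [DecidableEq V] (N : Net V Gt)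
    (blk : Fin r × V4 ↪ V)
    (hham : ∀ G : SimpleGraph V, N.val G N.out = true ↔ G.IsHamiltonian) (G : SimpleGraph V) :
    (symNet N blk).val G (symNet N blk).out = true ↔ G.IsHamiltonian := by
  classical
  have h1 : ∀ γ, (symNet N blk).val G (Sum.inl (γ, none)) = !decide (G.IsHamiltonian) := by
    intro γ
    rw [Net.val_none _ _ rfl, symNet_sum_none, symNet_val]
    have h2 : N.val (G.comap (bp blk γ)) N.out = decide (G.IsHamiltonian) := by
      rw [Bool.eq_iff_iff, hham, comap_ham, decide_eq_true_eq]
    rw [h2]
    show decide ((decide (G.IsHamiltonian)).toNat < 1) = _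
    by_cases h : G.IsHamiltonian <;> simp [h]
  have h0 : (symNet N blk).out = Sum.inr () := rfl
  rw [h0, Net.val_none _ _ rfl, symNet_sum_out]
  show decide (_ < Fintype.card (Fin r → V4)) = true ↔ _
  simp only [h1]
  rw [Finset.sum_const, Finset.card_univ, decide_eq_true_eq]
  have hpos : 0 < Fintype.card (Fin r → V4) := Fintype.card_pos
  by_cases h : G.IsHamiltonian
  · simp only [h, decide_true, Bool.not_true, Bool.toNat_false, smul_eq_mul, mul_zero, hpos]
  · simp [h]

theorem symNet_sym [DecidableEq V] (blk : Fin r → (Fin 4 ↪ V))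
    (hd : Pairwise fun i j => Disjoint (Set.range (blk i)) (Set.range (blk j))) (i : Fin r) :
    (symNet N (blkE blk hd)).SymOn (blk i) := by
  classical
  have key : ∀ δ : Fin r → V4, ∃ φ, (symNet N (blkE blk hd)).IsAut (bp (blkE blk hd) δ) φ := by
    intro δ
    let φ : Equiv.Perm (SG Gt r) :=
      Equiv.sumCongr (Equiv.prodCongr (Equiv.addLeft δ) (Equiv.refl _)) (Equiv.refl _)
    refine ⟨φ, ?_, ?_, ?_, ?_⟩
    · rintro (⟨γ, _ | g⟩ | _)
      · rfl
      · show (N.inp g).map (Sym2.map (bp (blkE blk hd) (δ + γ))) =
          ((N.inp g).map (Sym2.map (bp (blkE blk hd) γ))).map (Sym2.map (bp (blkE blk hd) δ))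
        rw [Option.map_map, bp_add]
        congr 1
        ext e
        rw [Function.comp_apply, Sym2.map_map]
        rfl
      · rfl
    · rintro (⟨γ, _ | h⟩ | _) (⟨γ', _ | g⟩ | _)
      · rfl
      · rfl
      · rfl
      · show (if δ + γ = δ + γ' ∧ h = N.out then 1 else 0) = if γ = γ' ∧ h = N.out then 1 else 0
        simp only [add_right_inj]
      · show (if δ + γ = δ + γ' then N.w h g else 0) = if γ = γ' then N.w h g else 0
        simp only [add_right_inj]
      · rfl
      · rfl
      · rfl
      · rfl
    · rintro (⟨γ, _ | g⟩ | _) <;> rfl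
    · rfl
  refine ⟨?_, ?_⟩
  · rw [← bp_single_a blk hd i]
    exact key _
  · rw [← bp_single_b blk hd i]
    exact key _

theorem card_SG : Fintype.card (SG Gt r) = 4 ^ r * (Fintype.card Gt + 1) + 1 := by
  have h1 : Fintype.card V4 = 4 := by simp
  unfold SG
  rw [Fintype.card_sum, Fintype.card_prod, Fintype.card_fun, Fintype.card_option, Fintype.card_fin,
    h1, Fintype.card_unit]

end symmetrize

end Pool.Agent.H545R2.K
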