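import Pool.Agent.H545R2.GadgetBack

set_option autoImplicit false
set_option linter.unusedSectionVars false

/-! A gadget with rows of free mode whose order is free. -/

namespace Pool.Agent.H545R2.Sym

open Pool.Agent.H545R2

/-- Segments of the gadget. -/
inductive Sg (Row : Type) (r : ℕ) (L : Type) where
  | col (ρ : Row) (x : Fin (3 * r + 1))
  | lft (ρ : Row)
  | rgt (ρ : Row)
  | leaf (a : L)
  | fin
  deriving DecidableEq

/-- The segments as a sum type. -/
def sgEquiv (Row : Type) (r : ℕ) (L : Type) :
    Sg Row r L ≃ ((Row × Fin (3 * r + 1)) ⊕ (Row ⊕ Row)) ⊕ (L ⊕ Unit) where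
  toFun := fun s => match s with
    | .col i x => Sum.inl (Sum.inl (i, x))
    | .lft i => Sum.inl (Sum.inr (Sum.inl i))
    | .rgt i => Sum.inl (Sum.inr (Sum.inr i))
    | .leaf a => Sum.inr (Sum.inl a)
    | .fin => Sum.inr (Sum.inr ())
  invFun := fun s => match s with
    | Sum.inl (Sum.inl (i, x)) => .col i x
    | Sum.inl (Sum.inr (Sum.inl i)) => .lft i
    | Sum.inl (Sum.inr (Sum.inr i)) => .rgt i
    | Sum.inr (Sum.inl a) => .leaf a
    | Sum.inr (Sum.inr ()) => .fin
  left_inv := by rintro (_ | _ | _ | _ | _) <;> rfl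
  right_inv := by rintro ((_ | (_ | _)) | (_ | _)) <;> rfl

instance (Row : Type) (r : ℕ) (L : Type) [Fintype Row] [Fintype L] : Fintype (Sg Row r L) :=
  Fintype.ofEquiv _ (sgEquiv Row r L).symm

theorem card_sg (Row : Type) (r : ℕ) (L : Type) [Fintype Row] [Fintype L] :
    Fintype.card (Sg Row r L) = Fintype.card Row * (3 * r + 3) + (Fintype.card L + 1) := by
  rw [Fintype.card_congr (sgEquiv Row r L)]
  simp only [Fintype.card_sum, Fintype.card_prod, Fintype.card_fin, Fintype.card_unit]
  ring

/-- The connections between ports. -/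
inductive GR {Row : Type} {r : ℕ} {L : Type} (sd : Row → Fin r → Bool)
    (lv : Row → Fin r → L → Prop) : Sg Row r L × Bool → Sg Row r L × Bool → Prop
  | rail (i : Row) (x y : Fin (3 * r + 1)) (s t : Bool) : x.val + 1 = y.val →
      t = xor s (decide (x.val % 3 = 2)) → GR sd lv (.col i x, s) (.col i y, t)
  | first (i : Row) (x : Fin (3 * r + 1)) (s : Bool) : x.val = 0 →
      GR sd lv (.lft i, true) (.col i x, s)
  | last (i : Row) (x : Fin (3 * r + 1)) (s : Bool) : x.val = 3 * r →
      GR sd lv (.col i x, s) (.rgt i, false)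
  | att0 (i : Row) (k : Fin r) (x : Fin (3 * r + 1)) (a : L) (m : Bool) :
      lv i k a → sd i k = m → x.val = 3 * k.val + 1 →
      GR sd lv (.col i x, m) (.leaf a, false)
  | att1 (i : Row) (k : Fin r) (x : Fin (3 * r + 1)) (a : L) (m : Bool) :
      lv i k a → sd i k = m → x.val = 3 * k.val + 2 →
      GR sd lv (.leaf a, true) (.col i x, m)
  | conn (i i' : Row) : GR sd lv (.rgt i, true) (.lft i', false)
  | connS (i : Row) : GR sd lv (.fin, true) (.lft i, false)
  | connE (i : Row) : GR sd lv (.rgt i, true) (.fin, false)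

/-- symmetric closure of `GR` -/
def CC {Row : Type} {r : ℕ} {L : Type} (sd : Row → Fin r → Bool)
    (lv : Row → Fin r → L → Prop) (p q : Sg Row r L × Bool) : Prop :=
  GR sd lv p q ∨ GR sd lv q p

section forward

variable {Row : Type} {r : ℕ} {L : Type} {sd : Row → Fin r → Bool} {lv : Row → Fin r → L → Prop}

theorem nb_sep {i : Row} {x : Fin (3 * r + 1)} {s : Bool} {q : Sg Row r L × Bool}
    (hx : x.val % 3 = 0) (h : CC sd lv (.col i x, s) q) :
    (x.val = 0 ∧ q = (.lft i, true)) ∨
    (∃ y : Fin (3 * r + 1), y.val + 1 = x.val ∧ q = (.col i y, !s)) ∨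
    (∃ y : Fin (3 * r + 1), x.val + 1 = y.val ∧ q = (.col i y, s)) ∨
    (x.val = 3 * r ∧ q = (.rgt i, false)) := by
  rcases h with h | h
  · cases h with
    | rail i x y s t h1 h2 =>
      right; right; left
      refine ⟨y, h1, ?_⟩
      rw [h2]; simp [hx]
    | last i x s h1 => right; right; right; exact ⟨h1, rfl⟩
    | att0 i k x a m h1 h2 h3 => omega
  · cases h with
    | rail i x y s t h1 h2 =>
      right; left
      refine ⟨x, h1, ?_⟩
      rw [h2]
      have : x.val % 3 = 2 := by omega
      simp [this]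
    | first i x s h1 => left; exact ⟨h1, rfl⟩
    | att1 i k x a m h1 h2 h3 => omega

theorem nb_one {i : Row} {x : Fin (3 * r + 1)} {s : Bool} {q : Sg Row r L × Bool}
    (hx : x.val % 3 = 1) (h : CC sd lv (.col i x, s) q) :
    (∃ y : Fin (3 * r + 1), y.val + 1 = x.val ∧ q = (.col i y, s)) ∨
    (∃ y : Fin (3 * r + 1), x.val + 1 = y.val ∧ q = (.col i y, s)) ∨
    (∃ (k : Fin r) (a : L), lv i k a ∧ sd i k = s ∧ x.val = 3 * k.val + 1 ∧
      q = (.leaf a, false)) := by
  rcases h with h | h
  · cases h with
    | rail i x y s t h1 h2 =>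
      right; left
      refine ⟨y, h1, ?_⟩
      rw [h2]; simp [hx]
    | last i x s h1 => omega
    | att0 i k x a m h1 h2 h3 => right; right; exact ⟨k, a, h1, h2, h3, rfl⟩
  · cases h with
    | rail i x y s t h1 h2 =>
      left
      refine ⟨x, h1, ?_⟩
      rw [h2]
      have : ¬ x.val % 3 = 2 := by omega
      simp [this]
    | first i x s h1 => omega
    | att1 i k x a m h1 h2 h3 => omega

theorem nb_two {i : Row} {x : Fin (3 * r + 1)} {s : Bool} {q : Sg Row r L × Bool}
    (hx : x.val % 3 = 2) (h : CC sd lv (.col i x, s) q) :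
    (∃ y : Fin (3 * r + 1), y.val + 1 = x.val ∧ q = (.col i y, s)) ∨
    (∃ y : Fin (3 * r + 1), x.val + 1 = y.val ∧ q = (.col i y, !s)) ∨
    (∃ (k : Fin r) (a : L), lv i k a ∧ sd i k = s ∧ x.val = 3 * k.val + 2 ∧
      q = (.leaf a, true)) := by
  rcases h with h | h
  · cases h with
    | rail i x y s t h1 h2 =>
      right; left
      refine ⟨y, h1, ?_⟩
      rw [h2]; simp [hx]
    | last i x s h1 => omega
    | att0 i k x a m h1 h2 h3 => omega
  · cases h with
    | rail i x y s t h1 h2 =>
      left
      refine ⟨x, h1, ?_⟩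
      rw [h2]
      have : ¬ x.val % 3 = 2 := by omega
      simp [this]
    | first i x s h1 => omega
    | att1 i k x a m h1 h2 h3 => right; right; exact ⟨k, a, h1, h2, h3, rfl⟩

theorem nb_lft {i : Row} {q : Sg Row r L × Bool} (h : CC sd lv (.lft i, true) q) :
    ∃ (x : Fin (3 * r + 1)) (s : Bool), x.val = 0 ∧ q = (.col i x, s) := by
  rcases h with h | h
  · cases h with
    | first i x s h1 => exact ⟨x, s, h1, rfl⟩
  · cases h

theorem nb_leaf_false {a : L} {q : Sg Row r L × Bool} (h : CC sd lv (.leaf a, false) q) :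
    ∃ (i : Row) (k : Fin r) (x : Fin (3 * r + 1)) (m : Bool), lv i k a ∧ sd i k = m ∧
      x.val = 3 * k.val + 1 ∧ q = (.col i x, m) := by
  rcases h with h | h
  · cases h
  · cases h with
    | att0 i k x a m h1 h2 h3 => exact ⟨i, k, x, m, h1, h2, h3, rfl⟩

/-- A valid matching of ports. -/
structure Matching (sd : Row → Fin r → Bool) (lv : Row → Fin r → L → Prop)
    (ν : Sg Row r L × Bool → Sg Row r L × Bool) : Prop where
  inv : ∀ p, ν (ν p) = p
  adj : ∀ p, CC sd lv p (ν p)
  conn : ∀ X : Set (Sg Row r L × Bool), X.Nonempty → (∀ p ∈ X, ν p ∈ X) →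
    (∀ p ∈ X, flipP p ∈ X) → X = Set.univ

variable {ν : Sg Row r L × Bool → Sg Row r L × Bool}

theorem Matching.inj (hν : Matching sd lv ν) {p q : Sg Row r L × Bool}
    (h : ν p = ν q) : p = q := by
  rw [← hν.inv p, h, hν.inv]

theorem Matching.eq_comm' (hν : Matching sd lv ν) {p q : Sg Row r L × Bool}
    (h : ν p = q) : ν q = p := by
  rw [← h, hν.inv]

theorem Matching.no_short (hν : Matching sd lv ν) (i : Row)
    (x y : Fin (3 * r + 1)) (h : ∀ s, ∃ s', ν (.col i x, s) = (.col i y, s'))
    (h' : ∀ s, ∃ s', ν (.col i y, s) = (.col i x, s')) : False := by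
  have := hν.conn {p | p.1 = .col i x ∨ p.1 = .col i y} ⟨(.col i x, true), by simp⟩ ?_ ?_
  · have h1 : ((.fin, true) : Sg Row r L × Bool) ∈ {p : Sg Row r L × Bool | p.1 = .col i x ∨ p.1 = .col i y} := by
      rw [this]; trivial
    simp at h1
  · rintro ⟨m, s⟩ (hp | hp)
    · simp only at hp
      subst hp
      obtain ⟨s', hs'⟩ := h s
      rw [hs']; right; rfl
    · simp only at hp
      subst hp
      obtain ⟨s', hs'⟩ := h' s
      rw [hs']; left; rfl
  · rintro ⟨m, s⟩ hp
    exact hp

/-- state of a row at the separator `3k`: `(3k, g)` goes left and `(3k, !g)` goes right -/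
def RowSt (ν : Sg Row r L × Bool → Sg Row r L × Bool) (i : Row) (g : Bool) (k : ℕ) : Prop :=
  ∀ x : Fin (3 * r + 1), x.val = 3 * k →
    ((x.val = 0 ∧ ν (.col i x, g) = (.lft i, true)) ∨
      (∃ y : Fin (3 * r + 1), y.val + 1 = x.val ∧ ν (.col i x, g) = (.col i y, !g))) ∧
    ((∃ y : Fin (3 * r + 1), x.val + 1 = y.val ∧ ν (.col i x, !g) = (.col i y, !g)) ∨
      (x.val = 3 * r ∧ ν (.col i x, !g) = (.rgt i, false)))

theorem Matching.row_step (hν : Matching sd lv ν) (i : Row) (g : Bool) (k : Fin r)
    (h : RowSt ν i g k.val) : RowSt ν i g (k.val + 1) ∧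
      ∀ x1 : Fin (3 * r + 1), x1.val = 3 * k.val + 1 → ∀ a, ν (.col i x1, !g) ≠ (.leaf a, false) := by
  have hk := k.isLt
  obtain ⟨x, hx⟩ : ∃ x : Fin (3 * r + 1), x.val = 3 * k.val := ⟨⟨3 * k.val, by omega⟩, rfl⟩
  obtain ⟨x1, hx1⟩ : ∃ x1 : Fin (3 * r + 1), x1.val = 3 * k.val + 1 := ⟨⟨3 * k.val + 1, by omega⟩, rfl⟩
  obtain ⟨x2, hx2⟩ : ∃ x2 : Fin (3 * r + 1), x2.val = 3 * k.val + 2 := ⟨⟨3 * k.val + 2, by omega⟩, rfl⟩
  obtain ⟨x3, hx3⟩ : ∃ x3 : Fin (3 * r + 1), x3.val = 3 * k.val + 3 := ⟨⟨3 * k.val + 3, by omega⟩, rfl⟩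
  obtain ⟨hl, hr⟩ := h x hx
  have h0 : ν (.col i x, !g) = (.col i x1, !g) := by
    rcases hr with ⟨y, hy, h⟩ | ⟨h, _⟩
    · have : y = x1 := by ext; omega
      rw [this] at h; exact h
    · omega
  have h0' := hν.eq_comm' h0
  have hxg : ∀ s, ν (.col i x, g) ≠ (.col i x1, s) := by
    intro s hs'
    rcases hl with ⟨_, h⟩ | ⟨y, hy, h⟩
    · rw [h] at hs'
      simp at hs'
    · rw [h] at hs'
      simp only [Prod.mk.injEq, Sg.col.injEq] at hs'
      obtain ⟨⟨_, e⟩, _⟩ := hs'
      rw [e] at hy; omega
  have n1 : ν (.col i x1, g) = (.col i x2, g) ∨ sd i k = g := by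
    rcases nb_one (by omega) (hν.adj (.col i x1, g)) with ⟨y, hy, h⟩ | ⟨y, hy, h⟩ | ⟨k', a, h1, h2, h3, h⟩
    · exfalso
      have : y = x := by ext; omega
      rw [this] at h
      exact hxg _ (hν.eq_comm' h)
    · left
      have : y = x2 := by ext; omega
      rw [this] at h; exact h
    · right
      have : k' = k := by ext; omega
      rw [this] at h2
      exact h2
  have n2 : ν (.col i x2, !g) = (.col i x3, g) ∨ sd i k = !g := by
    rcases nb_two (by omega) (hν.adj (.col i x2, !g)) with ⟨y, hy, h⟩ | ⟨y, hy, h⟩ | ⟨k', a, h1, h2, h3, h⟩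
    · exfalso
      have : y = x1 := by ext; omega
      rw [this] at h
      have := hν.eq_comm' h
      rw [h0'] at this
      simp only [Prod.mk.injEq, Sg.col.injEq] at this
      obtain ⟨⟨_, e⟩, _⟩ := this
      rw [e] at hx; omega
    · left
      have : y = x3 := by ext; omega
      rw [this] at h
      simpa using h
    · right
      have : k' = k := by ext; omega
      rw [this] at h2
      exact h2
  have n3 : ∀ s, ν (.col i x3, s) = (.col i x2, !s) ∨
      (∃ y : Fin (3 * r + 1), x3.val + 1 = y.val ∧ ν (.col i x3, s) = (.col i y, s)) ∨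
      (x3.val = 3 * r ∧ ν (.col i x3, s) = (.rgt i, false)) := by
    intro s
    rcases nb_sep (by omega) (hν.adj (.col i x3, s)) with ⟨h, _⟩ | ⟨y, hy, h⟩ | h | h
    · omega
    · left
      have : y = x2 := by ext; omega
      rw [this] at h; exact h
    · right; left; exact h
    · right; right; exact h
  have notboth : ¬ ∀ s, ν (.col i x3, s) = (.col i x2, !s) := by
    intro h
    refine hν.no_short i x3 x2 (fun s => ⟨_, h s⟩) (fun s => ⟨!s, ?_⟩)
    have := hν.eq_comm' (h (!s))
    simpa using this
  have notboth' : ∃ s, ν (.col i x3, s) = (.col i x2, !s) := by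
    by_contra hcon
    push Not at hcon
    have hR : ∀ s, (∃ y : Fin (3 * r + 1), x3.val + 1 = y.val ∧ ν (.col i x3, s) = (.col i y, s)) ∨
      (x3.val = 3 * r ∧ ν (.col i x3, s) = (.rgt i, false)) := by
      intro s
      rcases n3 s with h | h
      · exact absurd h (hcon s)
      · exact h
    by_cases hlast : x3.val = 3 * r
    · have hR' : ∀ s, ν (.col i x3, s) = (.rgt i, false) := by
        intro s
        rcases hR s with ⟨y, hy, _⟩ | ⟨_, h⟩
        · exfalso; have := y.isLt; omega
        · exact h
      have := hν.inj ((hR' true).trans (hR' false).symm)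
      simp at this
    · have hx3lt := x3.isLt
      obtain ⟨x4, hx4⟩ : ∃ x4 : Fin (3 * r + 1), x4.val = x3.val + 1 := ⟨⟨x3.val + 1, by omega⟩, rfl⟩
      have hR' : ∀ s, ν (.col i x3, s) = (.col i x4, s) := by
        intro s
        rcases hR s with ⟨y, hy, h⟩ | ⟨h2, h⟩
        · have : y = x4 := by ext; omega
          rw [this] at h; exact h
        · exact absurd h2 hlast
      exact hν.no_short i x3 x4 (fun s => ⟨_, hR' s⟩) (fun s => ⟨s, hν.eq_comm' (hR' s)⟩)
  have hleft : ν (.col i x3, g) = (.col i x2, !g) := by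
    by_contra hcon
    have hcon' : ν (.col i x3, !g) = (.col i x2, g) := by
      obtain ⟨s, hs'⟩ := notboth'
      by_cases e : s = g
      · rw [e] at hs'; exact absurd hs' hcon
      · have : s = !g := bool_eq_not e
        rw [this] at hs'
        simpa using hs'
    rcases n1 with h | h
    · have := (hν.eq_comm' h).symm.trans (hν.eq_comm' hcon')
      simp only [Prod.mk.injEq, Sg.col.injEq] at this
      obtain ⟨⟨_, e⟩, _⟩ := this
      rw [e] at hx1; omega
    · rcases n2 with h' | h'
      · exact hcon (hν.eq_comm' h')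
      · rw [h] at h'
        simp at h'
  have hright : (∃ y : Fin (3 * r + 1), x3.val + 1 = y.val ∧ ν (.col i x3, !g) = (.col i y, !g)) ∨
      (x3.val = 3 * r ∧ ν (.col i x3, !g) = (.rgt i, false)) := by
    rcases n3 (!g) with h | h
    · exfalso
      apply notboth
      intro s
      by_cases e : s = g
      · rw [e]; exact hleft
      · have : s = !g := bool_eq_not e
        rw [this]; exact h
    · exact h
  constructor
  · intro x' hx'
    have e : x' = x3 := by ext; omega
    rw [e]
    exact ⟨Or.inr ⟨x2, by omega, hleft⟩, hright⟩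
  · intro y1 hy1 a ha
    have e1 : y1 = x1 := by ext; omega
    rw [e1, h0'] at ha
    simp at ha

theorem Matching.row_all (hν : Matching sd lv ν) (i : Row) :
    ∃ g : Bool, ∀ (k : Fin r) (x1 : Fin (3 * r + 1)), x1.val = 3 * k.val + 1 →
      ∀ a, ν (.col i x1, !g) ≠ (.leaf a, false) := by
  obtain ⟨x0, g, hx0, h⟩ := nb_lft (hν.adj (.lft i, true))
  refine ⟨g, ?_⟩
  have key : ∀ k, k ≤ r → RowSt ν i g k := by
    intro k
    induction k with
    | zero =>
      intro _ x hx
      have e : x = x0 := by ext; omega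
      rw [e]
      refine ⟨Or.inl ⟨by omega, hν.eq_comm' h⟩, ?_⟩
      rcases nb_sep (by omega) (hν.adj (.col i x0, !g)) with ⟨_, h'⟩ | ⟨y, hy, h'⟩ | h' | h'
      · exfalso
        have := (hν.eq_comm' h).trans h'.symm
        have := hν.inj this
        simp at this
      · omega
      · left; exact h'
      · right; exact h'
    | succ k ih =>
      intro hk
      exact (hν.row_step i g ⟨k, by omega⟩ (ih (by omega))).1
  intro k
  exact (hν.row_step i g k (key k.val (by have := k.isLt; omega))).2

/-- **Forward direction.** -/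
theorem Matching.main (hν : Matching sd lv ν) :
    ∃ g : Row → Bool, ∀ a : L, ∃ i k, lv i k a ∧ sd i k = g i := by
  choose g hg using hν.row_all
  refine ⟨g, ?_⟩
  intro a
  obtain ⟨i, k, x, m, h1, h2, h3, h4⟩ := nb_leaf_false (hν.adj (.leaf a, false))
  refine ⟨i, k, h1, ?_⟩
  by_contra hcon
  have hm : m = !(g i) := bool_eq_not (fun h => hcon (h2.trans h))
  rw [hm] at h4
  exact hg i k x h3 a (hν.eq_comm' h4)

end forward

section back

variable {Row : Type} [DecidableEq Row] {r : ℕ} {L : Type} [DecidableEq L]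
  {sd : Row → Fin r → Bool} {lv : Row → Fin r → L → Prop}

/-- consecutive elements of a tour -/
def Nx (sd : Row → Fin r → Bool) (lv : Row → Fin r → L → Prop)
    (p q : Sg Row r L × Bool) : Prop :=
  GR sd lv (flipP p) q ∨ GR sd lv q (flipP p)

/-- detour at position `k` -/
noncomputable def detL (cov : L → Row × Fin r) (i : Row) (k : Fin r) :
    List (Sg Row r L × Bool) :=
  open Classical in if h : ∃ a, cov a = (i, k) then [(.leaf h.choose, false)] else []

theorem detL_cases (cov : L → Row × Fin r) (i : Row) (k : Fin r) :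
    (detL cov i k = [] ∧ ∀ a, cov a ≠ (i, k)) ∨
      ∃ a, cov a = (i, k) ∧ detL cov i k = [(.leaf a, false)] := by
  unfold detL
  split_ifs with h
  · right; exact ⟨h.choose, h.choose_spec, rfl⟩
  · left; exact ⟨rfl, fun a ha => h ⟨a, ha⟩⟩

/-- tour of the `k`-th block of a ladder -/
noncomputable def blkL (cov : L → Row × Fin r) (s : Bool) (i : Row) (k : Fin r) :
    List (Sg Row r L × Bool) :=
  (.col i ⟨3 * k.val, by omega⟩, s) :: (.col i ⟨3 * k.val + 1, by omega⟩, !s) ::
    (detL cov i k ++ [(.col i ⟨3 * k.val + 2, by omega⟩, s)])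

/-- tour of a ladder -/
noncomputable def ladL (cov : L → Row × Fin r) (s : Bool) (i : Row) : List (Sg Row r L × Bool) :=
  (List.finRange r).flatMap (blkL cov s i) ++ [(.col i ⟨3 * r, by omega⟩, s)]

/-- tour of a row -/
noncomputable def rowL (cov : L → Row × Fin r) (g : Row → Bool) (i : Row) : List (Sg Row r L × Bool) :=
  (.lft i, false) :: (ladL cov (g i) i ++ [(.rgt i, false)])

theorem blkL_chain (cov : L → Row × Fin r) (s : Bool) (i : Row) (k : Fin r)
    (hcs : ∀ a, cov a = (i, k) → lv i k a ∧ sd i k = s) :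
    (blkL cov s i k).IsChain (Nx sd lv) := by
  have hk := k.isLt
  have e1 : Nx sd lv ((.col i ⟨3 * k.val, by omega⟩, s) : Sg Row r L × Bool)
      (.col i ⟨3 * k.val + 1, by omega⟩, !s) := by
    left
    refine GR.rail i _ _ _ _ rfl ?_
    simp
  have e2 : Nx sd lv ((.col i ⟨3 * k.val + 1, by omega⟩, !s) : Sg Row r L × Bool)
      (.col i ⟨3 * k.val + 2, by omega⟩, s) := by
    left
    show GR sd lv (_, !(!s)) _
    rw [Bool.not_not]
    refine GR.rail i _ _ _ _ rfl ?_
    simp
  unfold blkL
  rcases detL_cases cov i k with ⟨h, _⟩ | ⟨a, h2, h⟩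
  · rw [h]
    simp only [List.nil_append]
    rw [List.isChain_cons_cons, List.isChain_cons_cons]
    exact ⟨e1, e2, by simp⟩
  · rw [h]
    obtain ⟨h3, h4⟩ := hcs a h2
    simp only [List.singleton_append]
    rw [List.isChain_cons_cons, List.isChain_cons_cons, List.isChain_cons_cons]
    refine ⟨e1, ?_, ?_, by simp⟩
    · left
      show GR sd lv (_, !(!s)) _
      rw [Bool.not_not]
      exact GR.att0 i k _ a s h3 h4 rfl
    · left
      show GR sd lv (_, true) _
      exact GR.att1 i k _ a s h3 h4 rfl

theorem ladL_chain (cov : L → Row × Fin r) (s : Bool) (i : Row)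
    (hcs : ∀ k a, cov a = (i, k) → lv i k a ∧ sd i k = s) :
    (ladL cov s i).IsChain (Nx sd lv) := by
  unfold ladL
  rw [List.isChain_append]
  have hstep : ∀ (k : Fin r) (x : Fin (3 * r + 1)), x.val = 3 * k.val + 3 →
      ∀ p ∈ (blkL cov s i k).getLast?, Nx sd lv p (.col i x, s) := by
    intro k x hx p hp
    unfold blkL at hp
    rw [← List.cons_append, ← List.cons_append, List.getLast?_append] at hp
    simp only [List.getLast?_singleton, Option.some_or, Option.mem_def, Option.some.injEq] at hp
    subst hp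
    left
    refine GR.rail i _ _ _ _ (by simp [hx]) ?_
    have : (3 * k.val + 2) % 3 = 2 := by omega
    simp [this]
  refine ⟨?_, by simp, ?_⟩
  · apply isChain_flatMap
    · intro k _
      exact blkL_chain cov s i k (hcs k)
    · intro k _; simp [blkL]
    · refine (finRange_chain r).imp ?_
      intro k k' hk p hp q hq
      unfold blkL at hq
      simp only [List.head?_cons, Option.mem_def, Option.some.injEq] at hq
      subst hq
      exact hstep k _ (by simp; omega) p hp
  · intro p hp q hq
    simp only [List.head?_cons, Option.mem_def, Option.some.injEq] at hq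
    subst hq
    rw [getLast?_flatMap_ne _ _ (by intro k _; simp [blkL])] at hp
    simp only [Option.mem_def, Option.bind_eq_some_iff] at hp
    obtain ⟨k, hk, hp⟩ := hp
    have hk' := finRange_getLast? r k (by simpa using hk)
    exact hstep k _ (by simp; omega) p (by simpa using hp)

theorem ladL_head (cov : L → Row × Fin r) (s : Bool) (i : Row)
    (p : Sg Row r L × Bool) (h : p ∈ (ladL cov s i).head?) :
    ∃ x : Fin (3 * r + 1), x.val = 0 ∧ p = (.col i x, s) := by
  unfold ladL at h
  rcases Nat.eq_zero_or_pos r with hr | hr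
  · subst hr
    simp only [List.finRange_zero, List.flatMap_nil, List.nil_append, List.head?_cons,
      Option.mem_def, Option.some.injEq] at h
    exact ⟨_, rfl, h.symm⟩
  · rw [List.head?_append, head?_flatMap_ne _ _ (by intro k _; simp [blkL])] at h
    obtain ⟨r', rfl⟩ : ∃ r', r = r' + 1 := ⟨r - 1, by omega⟩
    rw [List.finRange_succ] at h
    simp only [List.head?_cons, Option.bind_some, blkL, Option.some_or, Option.mem_def,
      Option.some.injEq] at h
    exact ⟨_, rfl, h.symm⟩

theorem rowL_chain (cov : L → Row × Fin r) (g : Row → Bool) (i : Row)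
    (hcs : ∀ k a, cov a = (i, k) → lv i k a ∧ sd i k = g i) :
    (rowL cov g i).IsChain (Nx sd lv) := by
  unfold rowL
  rw [List.isChain_cons, List.isChain_append]
  refine ⟨?_, ladL_chain cov _ i hcs, by simp, ?_⟩
  · intro q hq
    rw [List.head?_append] at hq
    have : ∃ x : Fin (3 * r + 1), x.val = 0 ∧ q = (.col i x, g i) := by
      apply ladL_head cov
      cases hla : (ladL cov (g i) i).head? with
      | none => simp [ladL] at hla
      | some q' => rw [hla] at hq; exact hq
    obtain ⟨x, hx, rfl⟩ := this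
    left
    exact GR.first i x _ hx
  · intro p hp q hq
    simp only [List.head?_cons, Option.mem_def, Option.some.injEq] at hq
    subst hq
    unfold ladL at hp
    rw [List.getLast?_append] at hp
    simp only [List.getLast?_singleton, Option.some_or, Option.mem_def, Option.some.injEq] at hp
    subst hp
    left
    exact GR.last i _ _ rfl

theorem mem_blkL (cov : L → Row × Fin r) (s : Bool) (i : Row) (k : Fin r)
    (hinj : Function.Injective cov) (m : Sg Row r L) :
    m ∈ (blkL cov s i k).map Prod.fst ↔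
      (∃ x : Fin (3 * r + 1), x.val / 3 = k.val ∧ m = .col i x) ∨
      (∃ a, cov a = (i, k) ∧ m = .leaf a) := by
  have hk := k.isLt
  unfold blkL
  simp only [List.map_cons, List.map_append, List.map_nil, List.mem_cons, List.mem_append,
    List.not_mem_nil, or_false]
  have hdet : m ∈ (detL cov i k).map Prod.fst ↔ ∃ a, cov a = (i, k) ∧ m = .leaf a := by
    rcases detL_cases cov i k with ⟨h, h'⟩ | ⟨a, h2, h⟩
    · rw [h]
      simp only [List.map_nil, List.not_mem_nil, false_iff]
      rintro ⟨a, ha, _⟩
      exact h' a ha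
    · rw [h]
      simp only [List.map_cons, List.map_nil, List.mem_cons, List.not_mem_nil, or_false]
      constructor
      · intro h; exact ⟨a, h2, h⟩
      · rintro ⟨a', ha', h⟩
        rw [h, hinj (ha'.trans h2.symm)]
  rw [hdet]
  constructor
  · rintro (h | h | h | h)
    · left; exact ⟨_, by simp, h⟩
    · left; exact ⟨_, by simp; omega, h⟩
    · right; exact h
    · left; exact ⟨_, by simp; omega, h⟩
  · rintro (⟨x, hx, rfl⟩ | h)
    · have : x.val = 3 * k.val ∨ x.val = 3 * k.val + 1 ∨ x.val = 3 * k.val + 2 := by omega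
      rcases this with h | h | h
      · left; congr 1; ext; exact h
      · right; left; congr 1; ext; exact h
      · right; right; right; congr 1; ext; exact h
    · right; right; left; exact h

theorem blkL_nodup (cov : L → Row × Fin r) (s : Bool) (i : Row) (k : Fin r) :
    ((blkL cov s i k).map Prod.fst).Nodup := by
  unfold blkL
  rcases detL_cases cov i k with ⟨h, _⟩ | ⟨a, h2, h⟩ <;> rw [h] <;> simp

theorem mem_ladL (cov : L → Row × Fin r) (s : Bool) (i : Row)
    (hinj : Function.Injective cov) (m : Sg Row r L) :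
    m ∈ (ladL cov s i).map Prod.fst ↔
      (∃ x : Fin (3 * r + 1), m = .col i x) ∨ (∃ a k, cov a = (i, k) ∧ m = .leaf a) := by
  unfold ladL
  rw [List.map_append, List.mem_append, List.map_flatMap, List.mem_flatMap]
  simp only [List.map_cons, List.map_nil, List.mem_cons, List.not_mem_nil, or_false,
    List.mem_finRange, true_and]
  constructor
  · rintro (⟨k, h⟩ | h)
    · rw [mem_blkL cov s i k hinj] at h
      rcases h with ⟨x, _, h⟩ | ⟨a, ha, h⟩
      · left; exact ⟨x, h⟩
      · right; exact ⟨a, k, ha, h⟩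
    · left; exact ⟨_, h⟩
  · rintro (⟨x, rfl⟩ | ⟨a, k, ha, rfl⟩)
    · by_cases hx : x.val = 3 * r
      · right; congr 1; ext; exact hx
      · left
        have := x.isLt
        refine ⟨⟨x.val / 3, by omega⟩, ?_⟩
        rw [mem_blkL cov s i _ hinj]
        left; exact ⟨x, rfl, rfl⟩
    · left
      refine ⟨k, ?_⟩
      rw [mem_blkL cov s i _ hinj]
      right; exact ⟨a, ha, rfl⟩

theorem ladL_nodup (cov : L → Row × Fin r) (s : Bool) (i : Row)
    (hinj : Function.Injective cov) :
    ((ladL cov s i).map Prod.fst).Nodup := by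
  unfold ladL
  rw [List.map_append, List.nodup_append, List.map_flatMap, List.nodup_flatMap]
  refine ⟨⟨fun k _ => blkL_nodup cov s i k, ?_⟩, by simp, ?_⟩
  · refine (List.nodup_finRange r).imp ?_
    intro k k' hkk
    rw [Function.onFun, List.disjoint_left]
    intro m hm hm'
    rw [mem_blkL cov s i k hinj] at hm
    rw [mem_blkL cov s i k' hinj] at hm'
    apply hkk
    rcases hm with ⟨x, hx, rfl⟩ | ⟨a, ha, rfl⟩ <;> rcases hm' with ⟨x', hx', h⟩ | ⟨a', ha', h⟩
    · simp only [Sg.col.injEq, true_and] at h
      ext; rw [← hx, ← hx', h]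
    · simp at h
    · simp at h
    · simp only [Sg.leaf.injEq] at h
      rw [h, ha'] at ha
      simpa using ha.symm
  · intro m hm m' hm' hmm
    subst hmm
    rw [List.mem_flatMap] at hm
    obtain ⟨k, _, hm⟩ := hm
    rw [mem_blkL cov s i k hinj] at hm
    simp only [List.map_cons, List.map_nil, List.mem_cons, List.not_mem_nil, or_false] at hm'
    subst hm'
    rcases hm with ⟨x, hx, h⟩ | ⟨a, ha, h⟩
    · simp only [Sg.col.injEq, true_and] at h
      rw [← h] at hx
      simp at hx
      have := k.isLt
      omega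
    · simp at h

theorem mem_rowL (cov : L → Row × Fin r) (g : Row → Bool) (i : Row)
    (hinj : Function.Injective cov) (m : Sg Row r L) :
    m ∈ (rowL cov g i).map Prod.fst ↔
      m = .lft i ∨ m = .rgt i ∨ (∃ x : Fin (3 * r + 1), m = .col i x) ∨
      (∃ a k, cov a = (i, k) ∧ m = .leaf a) := by
  unfold rowL
  rw [List.map_cons, List.map_append, List.mem_cons, List.mem_append, mem_ladL cov _ i hinj]
  simp only [List.map_cons, List.map_nil, List.mem_cons, List.not_mem_nil, or_false]
  constructor
  · rintro (h | h | h)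
    · exact Or.inl h
    · exact Or.inr (Or.inr h)
    · exact Or.inr (Or.inl h)
  · rintro (h | h | h)
    · exact Or.inl h
    · exact Or.inr (Or.inr h)
    · exact Or.inr (Or.inl h)

theorem rowL_nodup (cov : L → Row × Fin r) (g : Row → Bool) (i : Row)
    (hinj : Function.Injective cov) :
    ((rowL cov g i).map Prod.fst).Nodup := by
  unfold rowL
  rw [List.map_cons, List.map_append, List.nodup_cons, List.nodup_append]
  refine ⟨?_, ladL_nodup cov _ i hinj, by simp, ?_⟩
  · rw [List.mem_append, mem_ladL cov _ i hinj]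
    rintro ((⟨x, h⟩ | ⟨a, k, _, h⟩) | h) <;> simp at h
  · intro m hm m' hm' h
    subst h
    rw [mem_ladL cov _ i hinj] at hm
    simp only [List.map_cons, List.map_nil, List.mem_cons, List.not_mem_nil, or_false] at hm'
    subst hm'
    rcases hm with ⟨x, h⟩ | ⟨a, k, _, h⟩ <;> simp at h

variable [Fintype L] [Fintype Row] [Nonempty Row]

/-- **Backward direction.** -/
theorem gadget_back (zf : ℕ) (g : Row → Bool) (cov : L → Row × Fin r)
    (hinj : Function.Injective cov)
    (hcov : ∀ a i k, cov a = (i, k) → lv i k a ∧ sd i k = g i) :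
    (segGraph (GR sd lv) (.fin : Sg Row r L) zf).IsHamiltonian := by
  classical
  have hne : ∀ i, rowL cov g i ≠ [] := by intro i; simp [rowL]
  have hlast : ∀ i, ∀ p ∈ (rowL cov g i).getLast?, p = (.rgt i, false) := by
    intro i p hp
    unfold rowL at hp
    rw [← List.cons_append, List.getLast?_append] at hp
    simp only [List.getLast?_singleton, Option.some_or, Option.mem_def, Option.some.injEq] at hp
    exact hp.symm
  have hhead : ∀ i, ∀ p ∈ (rowL cov g i).head?, p = (.lft i, false) := by
    intro i p hp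
    unfold rowL at hp
    simp only [List.head?_cons, Option.mem_def, Option.some.injEq] at hp
    exact hp.symm
  set rows := (Finset.univ : Finset Row).toList with hrows
  have hrmem : ∀ i, i ∈ rows := by intro i; simp [hrows]
  have hrnd : rows.Nodup := Finset.nodup_toList _
  have hrne : rows ≠ [] := by
    intro h
    obtain ⟨i⟩ := (inferInstance : Nonempty Row)
    have := hrmem i
    rw [h] at this
    simp at this
  apply seg_hamiltonian (rows.flatMap (rowL cov g) ++ [(.fin, false)])
  · show (rows.flatMap (rowL cov g) ++ [((.fin, false) : Sg Row r L × Bool)]).IsChain (Nx sd lv)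
    rw [List.isChain_append]
    refine ⟨?_, by simp, ?_⟩
    · apply isChain_flatMap
      · intro i _
        exact rowL_chain cov g i (fun k a h => hcov a i k h)
      · intro i _; exact hne i
      · refine List.isChain_iff_getElem.2 ?_
        intro j hj p hp q hq
        rw [hlast _ p hp, hhead _ q hq]
        left
        exact GR.conn _ _
    · intro p hp q hq
      simp only [List.head?_cons, Option.mem_def, Option.some.injEq] at hq
      subst hq
      rw [getLast?_flatMap_ne _ _ (by intro i _; exact hne i)] at hp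
      simp only [Option.mem_def, Option.bind_eq_some_iff] at hp
      obtain ⟨i, hi, hp⟩ := hp
      rw [hlast i p (by simpa using hp)]
      left
      exact GR.connE _
  · rw [List.map_append, List.nodup_append, List.map_flatMap, List.nodup_flatMap]
    refine ⟨⟨fun i _ => rowL_nodup cov g i hinj, ?_⟩, by simp, ?_⟩
    · refine hrnd.imp ?_
      intro i i' hii
      rw [Function.onFun, List.disjoint_left]
      intro m hm hm'
      rw [mem_rowL cov g i hinj] at hm
      rw [mem_rowL cov g i' hinj] at hm'
      apply hii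
      rcases hm with rfl | rfl | ⟨x, rfl⟩ | ⟨a, k, ha, rfl⟩ <;>
        rcases hm' with h | h | ⟨x', h⟩ | ⟨a', k', ha', h⟩ <;> simp at h
      · exact h
      · exact h
      · exact h.1
      · rw [h, ha'] at ha
        simp only [Prod.mk.injEq] at ha
        exact ha.1.symm
    · intro m hm m' hm' h
      subst h
      rw [List.mem_flatMap] at hm
      obtain ⟨i, _, hm⟩ := hm
      rw [mem_rowL cov g i hinj] at hm
      simp only [List.map_cons, List.map_nil, List.mem_cons, List.not_mem_nil, or_false] at hm'
      subst hm'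
      rcases hm with h | h | ⟨x, h⟩ | ⟨a, k, ha, h⟩ <;> simp at h
  · intro m
    rw [List.map_append, List.mem_append, List.map_flatMap, List.mem_flatMap]
    simp only [List.map_cons, List.map_nil, List.mem_cons, List.not_mem_nil, or_false]
    cases m with
    | col i x =>
      left; exact ⟨i, hrmem i, (mem_rowL cov g i hinj _).2 (Or.inr (Or.inr (Or.inl ⟨x, rfl⟩)))⟩
    | lft i => left; exact ⟨i, hrmem i, (mem_rowL cov g i hinj _).2 (Or.inl rfl)⟩
    | rgt i => left; exact ⟨i, hrmem i, (mem_rowL cov g i hinj _).2 (Or.inr (Or.inl rfl))⟩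
    | leaf a =>
      left
      rcases hc : cov a with ⟨i, k⟩
      exact ⟨i, hrmem i, (mem_rowL cov g i hinj _).2 (Or.inr (Or.inr (Or.inr ⟨a, k, hc, rfl⟩)))⟩
    | fin => right; rfl
  · intro p hp hpf
    rw [List.mem_append, List.mem_flatMap, List.mem_singleton] at hp
    rcases hp with ⟨i, _, hp⟩ | rfl
    · exfalso
      have : p.1 ∈ (rowL cov g i).map Prod.fst := List.mem_map_of_mem hp
      rw [mem_rowL cov g i hinj, hpf] at this
      rcases this with h | h | ⟨x, h⟩ | ⟨a, k, _, h⟩ <;> simp at h
    · rfl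
  · intro p hp q hq
    rw [List.getLast?_append] at hp
    simp only [List.getLast?_singleton, Option.some_or, Option.mem_def, Option.some.injEq] at hp
    subst hp
    rw [List.head?_append, head?_flatMap_ne _ _ (by intro i _; exact hne i)] at hq
    cases hr : rows with
    | nil => exact absurd hr hrne
    | cons i rs =>
      rw [hr] at hq
      simp only [List.head?_cons, Option.bind_some] at hq
      have : q = (.lft i, false) := by
        apply hhead i q
        cases hh : (rowL cov g i).head? with
        | none => exact absurd (List.head?_eq_none_iff.1 hh) (hne i)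
        | some q' => rw [hh] at hq; exact hq
      rw [this]
      left
      exact GR.connS i

end back

end Pool.Agent.H545R2.Sym
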