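import Pool.Agent.H545R2.KBase
import Pool.Agent.H545R2.SymGadget

set_option autoImplicit false
set_option linter.unusedSectionVars false

/-! The gadget graphs encoding systems of parity constraints on the base graph. -/

namespace Pool.Agent.H545R2.K

open Finset

/-- Rows of the gadget: two rails for each edge. -/
abbrev Rw (M : ℕ) := Ed M × ZMod 2

/-- Leaves of the gadget. -/
abbrev Lf (M : ℕ) := (Nd M × (ZMod 2 × ZMod 2)) ⊕ Ed M

/-- Segments of the gadget. -/
abbrev Sgm (M : ℕ) := Sym.Sg (Rw M) 7 (Lf M)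

instance (M : ℕ) : DecidableEq (Sgm M) := Sym.instDecidableEqSg

/-- Rail at which the leaf attaches in each position of a row. -/
def sdF {M : ℕ} : Rw M → Fin 7 → Bool := fun _ k => decide (k.val ≠ 0)

/-- The forbidden local patterns. -/
def ww (b : ZMod 2) (l : ZMod 2 × ZMod 2) : Fin 3 → ZMod 2 := ![l.1 + b, l.2, l.1 + l.2]

variable {M : ℕ} (π : Fin 35 → Equiv.Perm (Fin M))

/-- Attachments of leaves. -/
inductive LV (β : Nd M → ZMod 2) : Rw M → Fin 7 → Lf M → Prop
  | mu (e : Ed M) (σ : ZMod 2) (k : Fin 7) : k.val = 0 → LV β (e, σ) k (Sum.inr e)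
  | node (e : Ed M) (σ : ZMod 2) (b : Bool) (k : Fin 7) (v : Nd M) (s : Fin 3)
      (l : ZMod 2 × ZMod 2) : kap π (e, b) = (v, s) → ww (β v + 1) l s = σ →
      (k.val = (if b then 4 else 2) ∨ k.val = (if b then 5 else 3)) →
      LV β (e, σ) k (Sum.inl (v, l))

/-- The gadget graph. -/
def GG (β : Nd M → ZMod 2) (z : ℕ) : SimpleGraph (SegV (Sgm M) z) :=
  segGraph (Sym.GR sdF (LV π β)) Sym.Sg.fin z

theorem node_dec : ∀ b x0 x1 x2 : ZMod 2,
    (∀ l : ZMod 2 × ZMod 2, ∃ s : Fin 3, ww (b + 1) l s = (![x0, x1, x2] : Fin 3 → ZMod 2) s + 1) →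
    x0 + x1 + x2 = b := by
  unfold ww
  decide

theorem zmod2_ne {a b : ZMod 2} (h : a ≠ b) : a = b + 1 := by
  revert a b
  decide

theorem forward (β : Nd M → ZMod 2) (z : ℕ) (h : (GG π β z).IsHamiltonian) :
    ∑ v, β v = 0 := by
  classical
  have h3 : 3 ≤ Fintype.card (SegV (Sgm M) z) := by
    have : 3 ≤ Fintype.card (Sgm M × Option Bool) := by
      rw [Fintype.card_prod, Sym.card_sg]
      have : Fintype.card (Option Bool) = 3 := rfl
      rw [this]
      omega
    unfold SegV
    rw [Fintype.card_sum]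
    omega
  obtain ⟨ν, h1, h2, h4⟩ := seg_matching h3 h
  have hν : Sym.Matching sdF (LV π β) ν := ⟨h1, h2, h4⟩
  obtain ⟨g, hg⟩ := hν.main
  have hx : ∀ e : Ed M, ∃ σ, g (e, σ) = false := by
    intro e
    obtain ⟨i, k, h5, h6⟩ := hg (Sum.inr e)
    cases h5 with
    | mu e σ k hk =>
      refine ⟨σ, ?_⟩
      rw [← h6]
      simp [sdF, hk]
  choose x hx using hx
  have hx' : ∀ e σ, g (e, σ) = true → σ = x e + 1 := by
    intro e σ hσ
    apply zmod2_ne
    intro h
    rw [h, hx] at hσ
    simp at hσ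
  have hb : ∀ v, bd π x v = β v := by
    intro v
    have h7 := node_dec (β v) (x (esl π v 0)) (x (esl π v 1)) (x (esl π v 2)) ?_
    · unfold bd
      rw [Fin.sum_univ_three]
      exact h7
    · intro l
      obtain ⟨i, k, h5, h6⟩ := hg (Sum.inl (v, l))
      cases h5 with
      | node e σ b k v s l h8 h9 h10 =>
        refine ⟨s, ?_⟩
        rw [h9]
        have hk : k.val ≠ 0 := by
          cases b <;> simp at h10 <;> omega
        have hgt : g (e, σ) = true := by
          rw [← h6]; simp [sdF, hk]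
        have hes : esl π v s = e := by
          unfold esl
          rw [← h8, kapInv_kap]
        have : (![x (esl π v 0), x (esl π v 1), x (esl π v 2)] : Fin 3 → ZMod 2) s = x (esl π v s) := by
          fin_cases s <;> rfl
        rw [this, hes]
        exact hx' e σ hgt
  calc ∑ v, β v = ∑ v, bd π x v := by simp only [hb]
    _ = 0 := bd_sum π x

/-- the slot covering a leaf -/
def fs (l : ZMod 2 × ZMod 2) : Fin 3 := if l.1 = 0 then 0 else if l.2 = 1 then 1 else 2

/-- the index covering a leaf -/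
def fi (l : ZMod 2 × ZMod 2) : ℕ := if l = (0, 1) then 1 else 0

theorem fs_spec : ∀ l : ZMod 2 × ZMod 2, ww (0 + 1) l (fs l) = 1 := by
  unfold ww fs
  decide

theorem fs_inj : ∀ l l' : ZMod 2 × ZMod 2, fs l = fs l' → fi l = fi l' → l = l' := by
  unfold fs fi
  decide

theorem fi_le (l : ZMod 2 × ZMod 2) : fi l ≤ 1 := by
  unfold fi; split_ifs <;> omega

/-- the covering of the leaves -/
def cov : Lf M → Rw M × Fin 7
  | Sum.inr e => ((e, 0), 0)
  | Sum.inl (v, l) => (((kapInv π (v, fs l)).1, 1),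
      ⟨(if (kapInv π (v, fs l)).2 then 4 else 2) + fi l, by
        have := fi_le l
        split_ifs <;> omega⟩)

theorem cov_inj : Function.Injective (cov π) := by
  rintro (⟨v, l⟩ | e) (⟨v', l'⟩ | e') h
  · simp only [cov, Prod.mk.injEq, Fin.mk.injEq] at h
    obtain ⟨⟨h1, _⟩, h2⟩ := h
    have h3 := fi_le l
    have h3' := fi_le l'
    have hb : (kapInv π (v, fs l)).2 = (kapInv π (v', fs l')).2 ∧ fi l = fi l' := by
      cases hb : (kapInv π (v, fs l)).2 <;> cases hb' : (kapInv π (v', fs l')).2 <;>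
        simp only [hb, hb', Bool.false_eq_true, if_false, if_true] at h2 <;>
        first
        | exact ⟨rfl, by omega⟩
        | omega
    have h4 : kapInv π (v, fs l) = kapInv π (v', fs l') := Prod.ext h1 hb.1
    have h5 : (v, fs l) = (v', fs l') := by
      rw [← kap_kapInv π (v, fs l), h4, kap_kapInv]
    simp only [Prod.mk.injEq] at h5
    rw [h5.1, fs_inj l l' h5.2 hb.2]
  · exfalso
    simp only [cov, Prod.mk.injEq] at h
    have := h.2
    rw [Fin.ext_iff] at this
    simp only [Fin.val_zero] at this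
    split_ifs at this <;> omega
  · exfalso
    simp only [cov, Prod.mk.injEq] at h
    have := h.2
    rw [Fin.ext_iff] at this
    simp only [Fin.val_zero] at this
    split_ifs at this <;> omega
  · simp only [cov, Prod.mk.injEq] at h
    rw [h.1.1]

theorem backward (hM : 0 < M) (z : ℕ) : (GG π (0 : Nd M → ZMod 2) z).IsHamiltonian := by
  classical
  have : Nonempty (Rw M) := ⟨(Sum.inl (⟨0, hM⟩, 0), 0)⟩
  apply Sym.gadget_back z (fun ρ => decide (ρ.2 ≠ 0)) (cov π) (cov_inj π)
  rintro (⟨v, l⟩ | e) i k h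
  · simp only [cov, Prod.mk.injEq] at h
    obtain ⟨h1, h2⟩ := h
    subst h1 h2
    have hk : kap π (kapInv π (v, fs l)) = (v, fs l) := kap_kapInv π _
    refine ⟨?_, ?_⟩
    · refine LV.node _ _ (kapInv π (v, fs l)).2 _ v (fs l) l hk ?_ ?_
      · show ww ((0 : Nd M → ZMod 2) v + 1) l (fs l) = 1
        rw [Pi.zero_apply]
        exact fs_spec l
      · have h3 := fi_le l
        simp only
        split_ifs <;> omega
    · simp only [sdF]
      have h3 := fi_le l
      have : (1 : ZMod 2) ≠ 0 := by decide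
      simp only [this, ne_eq, not_false_eq_true, decide_true, decide_eq_true_eq]
      split_ifs <;> omega
  · simp only [cov, Prod.mk.injEq] at h
    obtain ⟨h1, h2⟩ := h
    subst h1 h2
    exact ⟨LV.mu e 0 0 rfl, by simp [sdF]⟩

end Pool.Agent.H545R2.K
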