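import Pool.Agent.H545R2.KPlace

set_option autoImplicit false
set_option linter.unusedSectionVars false

/-! For a good placement, each subgroup with few characters frees more than half of the clusters. -/

namespace Pool.Agent.H545R2.K

open Finset

variable {M : ℕ} (π : Fin 35 → Equiv.Perm (Fin M)) {r : ℕ} (ei : BI M ↪ Fin r)

/-- A character that is trivial on cycles and touches few clusters comes from a function which
is constant on a giant component. -/
theorem giant_of_char
    (hπ : ∀ A B : Finset (Fin M), M ≤ 5 * A.card → M ≤ 5 * B.card → ∃ j, ∃ a ∈ A, π j a ∈ B)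
    (hM : 0 < M) (R : BI M → ZMod 3) (χ : (Fin r → V4) →ₗ[ZMod 2] ZMod 2)
    (z : (Nd M → ZMod 2) →ₗ[ZMod 2] ZMod 2)
    (hz : ∀ y, χ (iotaR π ei R y) = z (bd π y)) (hR : R ∉ Bad π ei χ) :
    ∃ C : Finset (Fin M), 3 * M < 4 * C.card ∧ ∀ v v' : Nd M, v.1 ∈ C → v'.1 ∈ C →
      z (Pi.single v 1) = z (Pi.single v' 1) := by
  classical
  have hsmall : 20 * (touched π ei χ).card ≤ M := by
    by_contra hcon
    apply hR
    simp only [Bad, Finset.mem_filter, Finset.mem_univ, true_and]
    refine ⟨by omega, ?_⟩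
    intro y hy
    rw [hz, hy, map_zero]
  have hG := Finset.card_sdiff_add_card_eq_card (Finset.subset_univ (touched π ei χ))
  rw [Finset.card_univ, Fintype.card_fin] at hG
  obtain ⟨C, _, hC, hC2⟩ := exists_giant (π := π) hπ hM (univ \ touched π ei χ) (by omega)
  refine ⟨C, hC, ?_⟩
  intro v v' hv hv'
  obtain ⟨y, hy1, hy2⟩ := hC2 v.1 hv v'.1 hv' v.2 v'.2
  have h0 : χ (iotaR π ei R y) = 0 := by
    rw [chi_iota]
    apply Finset.sum_eq_zero
    intro b _
    by_cases hb : comp ei χ b = 0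
    · rw [hb]; rfl
    · have hcl : ∀ i ∈ clus π b, i ∈ touched π ei χ := by
        intro i hi
        simp only [touched, Finset.mem_filter, Finset.mem_univ, true_and]
        exact ⟨b, hb, hi⟩
      have htau : tau π y b = 0 := by
        rcases b with ⟨⟨i', s⟩ | ⟨i', ⟨j, c⟩⟩, q⟩ | ⟨v, o⟩
        · have : y (Sum.inl (i', s)) = 0 := by
            by_contra hne
            have h1 := hy1 _ hne false
            rw [Finset.mem_sdiff] at h1
            exact h1.2 (hcl _ (by simp [clus, kap]))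
          simp only [tau, this]
          rfl
        · have : y (Sum.inr (i', (j, c))) = 0 := by
            by_contra hne
            have h1 := hy1 _ hne false
            rw [Finset.mem_sdiff] at h1
            exact h1.2 (hcl _ (by simp [clus, kap]))
          simp only [tau, this]
          rfl
        · have : ∀ s, y (esl π v s) = 0 := by
            intro s
            by_contra hne
            have h1 := hy1 _ hne (kapInv π (v, s)).2
            have h2 : kap π (esl π v s, (kapInv π (v, s)).2) = (v, s) := by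
              unfold esl
              exact kap_kapInv π (v, s)
            rw [h2, Finset.mem_sdiff] at h1
            exact h1.2 (hcl _ (by simp [clus]))
          simp only [tau, dl, this, add_zero]
          rfl
      rw [htau, rot_zero, map_zero]
  have h1 := hz y
  rw [h0, hy2, map_add] at h1
  have h2 := CharTwo.add_self_eq_zero (z (Pi.single v' 1))
  have h3 : z (Pi.single (v.1, v.2) 1) = z (Pi.single (v'.1, v'.2) 1) := by
    linear_combination (-1 : ZMod 2) * h1 - h2
  exact h3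

/-- three large sets meet -/
theorem three_meet {C C' C'' : Finset (Fin M)} (h : 3 * M < 4 * C.card) (h' : 3 * M < 4 * C'.card)
    (h'' : 3 * M < 4 * C''.card) : ∃ i, i ∈ C ∧ i ∈ C' ∧ i ∈ C'' := by
  classical
  by_contra hcon
  push Not at hcon
  have h1 : (univ : Finset (Fin M)) ⊆ (univ \ C) ∪ ((univ \ C') ∪ (univ \ C'')) := by
    intro i _
    simp only [Finset.mem_union, Finset.mem_sdiff, Finset.mem_univ, true_and]
    by_contra h2
    push Not at h2
    exact hcon i h2.1 h2.2.1 h2.2.2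
  have h2 := le_trans (Finset.card_le_card h1) (le_trans (Finset.card_union_le _ _)
    (Nat.add_le_add_left (Finset.card_union_le _ _) _))
  have e1 := Finset.card_sdiff_add_card_eq_card (Finset.subset_univ C)
  have e2 := Finset.card_sdiff_add_card_eq_card (Finset.subset_univ C')
  have e3 := Finset.card_sdiff_add_card_eq_card (Finset.subset_univ C'')
  rw [Finset.card_univ, Fintype.card_fin] at e1 e2 e3 h2
  omega

/-- **Free clusters.** -/
theorem free_clusters
    (hπ : ∀ A B : Finset (Fin M), M ≤ 5 * A.card → M ≤ 5 * B.card → ∃ j, ∃ a ∈ A, π j a ∈ B)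
    (hM : 0 < M) (R : BI M → ZMod 3) (W : Submodule (ZMod 2) (Fin r → V4))
    (hR : ∀ χ ∈ W.dualAnnihilator, R ∉ Bad π ei χ) :
    ∃ Z : Finset (Fin M), M < 2 * Z.card ∧ ∀ v v' : Nd M, v.1 ∈ Z → v'.1 ∈ Z →
      ∃ y, iotaR π ei R y ∈ W ∧ bd π y = Pi.single v 1 + Pi.single v' 1 := by
  classical
  have : Finite ((Nd M → ZMod 2) →ₗ[ZMod 2] ZMod 2) := Module.finite_of_finite (ZMod 2)
  have : Fintype ((Nd M → ZMod 2) →ₗ[ZMod 2] ZMod 2) := Fintype.ofFinite _
  -- the space of functions
  let D : Set ((Nd M → ZMod 2) →ₗ[ZMod 2] ZMod 2) :=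
    {z | ∃ χ ∈ W.dualAnnihilator, ∀ y, χ (iotaR π ei R y) = z (bd π y)}
  have hDadd : ∀ z ∈ D, ∀ z' ∈ D, z + z' ∈ D := by
    rintro z ⟨χ, h1, h2⟩ z' ⟨χ', h1', h2'⟩
    exact ⟨χ + χ', Submodule.add_mem _ h1 h1', fun y => by
      rw [LinearMap.add_apply, LinearMap.add_apply, h2, h2']⟩
  have hD0 : (0 : (Nd M → ZMod 2) →ₗ[ZMod 2] ZMod 2) ∈ D :=
    ⟨0, Submodule.zero_mem _, fun y => by simp⟩
  have hDg : ∀ z ∈ D, ∃ C : Finset (Fin M), 3 * M < 4 * C.card ∧ ∀ v v' : Nd M, v.1 ∈ C →
      v'.1 ∈ C → z (Pi.single v 1) = z (Pi.single v' 1) := by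
    rintro z ⟨χ, h1, h2⟩
    exact giant_of_char π ei hπ hM R χ z h2 (hR χ h1)
  let D0 : Finset ((Nd M → ZMod 2) →ₗ[ZMod 2] ZMod 2) := univ.filter (fun z => z ∈ D ∧
    ∃ C : Finset (Fin M), 3 * M < 4 * C.card ∧ ∀ v : Nd M, v.1 ∈ C → z (Pi.single v 1) = 0)
  have hmemD0 : ∀ z, z ∈ D0 ↔ (z ∈ D ∧
    ∃ C : Finset (Fin M), 3 * M < 4 * C.card ∧ ∀ v : Nd M, v.1 ∈ C → z (Pi.single v 1) = 0) := by
    intro z; simp [D0]
  have hD0add : ∀ z ∈ D0, ∀ z' ∈ D0, z + z' ∈ D0 := by
    intro z hz z' hz'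
    rw [hmemD0] at hz hz' ⊢
    obtain ⟨h1, C, h2, h3⟩ := hz
    obtain ⟨h1', C', h2', h3'⟩ := hz'
    refine ⟨hDadd z h1 z' h1', ?_⟩
    obtain ⟨C'', h2'', h3''⟩ := hDg _ (hDadd z h1 z' h1')
    refine ⟨C'', h2'', ?_⟩
    obtain ⟨i, hi, hi', hi''⟩ := three_meet h2 h2' h2''
    intro v hv
    rw [h3'' v (i, 0) hv hi'', LinearMap.add_apply, h3 (i, 0) hi, h3' (i, 0) hi', add_zero]
  have h0D0 : (0 : (Nd M → ZMod 2) →ₗ[ZMod 2] ZMod 2) ∈ D0 := by
    rw [hmemD0]
    refine ⟨hD0, univ, ?_, fun v _ => by simp⟩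
    rw [Finset.card_univ, Fintype.card_fin]
    omega
  -- clusters where a function does not vanish
  let nz : ((Nd M → ZMod 2) →ₗ[ZMod 2] ZMod 2) → Finset (Fin M) := fun z =>
    univ.filter (fun i => ∃ s, z (Pi.single (i, s) 1) ≠ 0)
  have hnz : ∀ z ∈ D0, 4 * (nz z).card < M := by
    intro z hz
    rw [hmemD0] at hz
    obtain ⟨_, C, h2, h3⟩ := hz
    have hsub : nz z ⊆ univ \ C := by
      intro i hi
      simp only [nz, Finset.mem_filter, Finset.mem_univ, true_and] at hi
      obtain ⟨s, hs⟩ := hi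
      rw [Finset.mem_sdiff]
      exact ⟨Finset.mem_univ _, fun hiC => hs (h3 (i, s) hiC)⟩
    have h4 := Finset.card_le_card hsub
    have h5 := Finset.card_sdiff_add_card_eq_card (Finset.subset_univ C)
    rw [Finset.card_univ, Fintype.card_fin] at h5
    omega
  let U : Finset (Fin M) := D0.biUnion nz
  have hhalf : ∀ i ∈ U, D0.card ≤ 2 * (D0.filter (fun z => i ∈ nz z)).card := by
    intro i hi
    rw [Finset.mem_biUnion] at hi
    obtain ⟨z1, hz1, hi⟩ := hi
    simp only [nz, Finset.mem_filter, Finset.mem_univ, true_and] at hi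
    obtain ⟨s, hs⟩ := hi
    have h1 := Finset.card_filter_add_card_filter_not (s := D0)
      (fun z => z (Pi.single (i, s) 1) = 0)
    have h2 : (D0.filter (fun z => z (Pi.single (i, s) 1) = 0)).card ≤
        (D0.filter (fun z => i ∈ nz z)).card := by
      apply Finset.card_le_card_of_injOn (fun z => z + z1)
      · intro z hz
        simp only [Finset.coe_filter, Set.mem_ofPred_eq] at hz ⊢
        refine ⟨hD0add z hz.1 z1 hz1, ?_⟩
        simp only [nz, Finset.mem_filter, Finset.mem_univ, true_and]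
        refine ⟨s, ?_⟩
        rw [LinearMap.add_apply, hz.2, zero_add]
        exact hs
      · intro z _ z' _ h
        exact add_right_cancel h
    have h3 : (D0.filter (fun z => ¬ z (Pi.single (i, s) 1) = 0)).card ≤
        (D0.filter (fun z => i ∈ nz z)).card := by
      apply Finset.card_le_card
      intro z hz
      rw [Finset.mem_filter] at hz ⊢
      refine ⟨hz.1, ?_⟩
      simp only [nz, Finset.mem_filter, Finset.mem_univ, true_and]
      exact ⟨s, hz.2⟩
    omega
  have hU : 2 * U.card < M := by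
    have h1 : U.card * D0.card ≤ ∑ i ∈ U, 2 * (D0.filter (fun z => i ∈ nz z)).card := by
      rw [← smul_eq_mul, ← Finset.sum_const]
      exact Finset.sum_le_sum hhalf
    have h2 : ∑ i ∈ U, (D0.filter (fun z => i ∈ nz z)).card ≤ ∑ z ∈ D0, (nz z).card := by
      simp only [Finset.card_filter]
      rw [Finset.sum_comm]
      apply Finset.sum_le_sum
      intro z _
      rw [← Finset.card_filter]
      apply Finset.card_le_card
      intro i hi
      rw [Finset.mem_filter] at hi
      exact hi.2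
    have h3 : 4 * ∑ z ∈ D0, (nz z).card < D0.card * M := by
      rw [Finset.mul_sum, ← smul_eq_mul (a := D0.card), ← Finset.sum_const]
      exact Finset.sum_lt_sum_of_nonempty ⟨_, h0D0⟩ hnz
    rw [← Finset.mul_sum] at h1
    have h4 : 2 * U.card * D0.card < M * D0.card := by
      calc 2 * U.card * D0.card = 2 * (U.card * D0.card) := by ring
        _ ≤ 2 * (2 * ∑ i ∈ U, (D0.filter (fun z => i ∈ nz z)).card) := Nat.mul_le_mul_left _ h1
        _ ≤ 2 * (2 * ∑ z ∈ D0, (nz z).card) :=
          Nat.mul_le_mul_left _ (Nat.mul_le_mul_left _ h2)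
        _ = 4 * ∑ z ∈ D0, (nz z).card := by ring
        _ < D0.card * M := h3
        _ = M * D0.card := by ring
    exact lt_of_mul_lt_mul_right h4 (Nat.zero_le _)
  have hZ := Finset.card_sdiff_add_card_eq_card (Finset.subset_univ U)
  rw [Finset.card_univ, Fintype.card_fin] at hZ
  refine ⟨univ \ U, by omega, ?_⟩
  intro v v' hv hv'
  rw [Finset.mem_sdiff] at hv hv'
  have hv0 : ∀ z ∈ D0, ∀ u : Nd M, u.1 ∉ U → z (Pi.single u 1) = 0 := by
    intro z hz u hu
    by_contra hne
    apply hu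
    rw [Finset.mem_biUnion]
    refine ⟨z, hz, ?_⟩
    simp only [nz, Finset.mem_filter, Finset.mem_univ, true_and]
    exact ⟨u.2, hne⟩
  by_contra hcon
  obtain ⟨χ, hχ, z, hz1, hz2⟩ := duality W (iotaR π ei R)
    (AddMonoidHom.toZModLinearMap 2
      { toFun := bd π, map_zero' := bd_zero π, map_add' := bd_add π })
    (Pi.single v 1 + Pi.single v' 1) (by
      rintro ⟨y, h1, h2⟩
      exact hcon ⟨y, h1, h2⟩)
  have hzD : z ∈ D := ⟨χ, hχ, hz2⟩
  obtain ⟨C, hC1, hC2⟩ := hDg z hzD
  have hCne : C.Nonempty := by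
    rw [← Finset.card_pos]
    omega
  obtain ⟨i, hi⟩ := hCne
  rw [map_add] at hz1
  -- the sum functional
  let σ : (Nd M → ZMod 2) →ₗ[ZMod 2] ZMod 2 := AddMonoidHom.toZModLinearMap 2
    { toFun := fun w => ∑ u, w u
      map_zero' := by simp
      map_add' := by intro w w'; simp [Finset.sum_add_distrib] }
  have hσ : ∀ w, σ w = ∑ u, w u := fun w => rfl
  have hσD : σ ∈ D := by
    refine ⟨0, Submodule.zero_mem _, ?_⟩
    intro y
    rw [hσ, bd_sum]
    rfl
  have hσs : ∀ u : Nd M, σ (Pi.single u 1) = 1 := by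
    intro u
    rw [hσ, Finset.sum_pi_single']
    simp
  rcases (show z (Pi.single (i, 0) 1) = 0 ∨ z (Pi.single (i, 0) 1) = 1 by
    generalize z (Pi.single (i, 0) 1) = x
    revert x; decide) with h | h
  · have hzD0 : z ∈ D0 := by
      rw [hmemD0]
      exact ⟨hzD, C, hC1, fun u hu => (hC2 u (i, 0) hu hi).trans h⟩
    apply hz1
    rw [hv0 z hzD0 v hv.2, hv0 z hzD0 v' hv'.2, add_zero]
  · have hzD0 : z + σ ∈ D0 := by
      rw [hmemD0]
      refine ⟨hDadd z hzD σ hσD, C, hC1, fun u hu => ?_⟩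
      rw [LinearMap.add_apply, hσs, (hC2 u (i, 0) hu hi).trans h]
      decide
    apply hz1
    have h1 := hv0 _ hzD0 v hv.2
    have h2 := hv0 _ hzD0 v' hv'.2
    rw [LinearMap.add_apply, hσs] at h1 h2
    have h3 : (1 : ZMod 2) + 1 = 0 := by decide
    linear_combination h1 + h2 - h3

end Pool.Agent.H545R2.K
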