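import Pool.Agent.H545R2.KNet
import Pool.Agent.H545R2.KSpan

set_option autoImplicit false
set_option linter.unusedSectionVars false

/-! Networks for Hamiltonicity symmetric on blocks of four vertices are large. -/

namespace Pool.Agent.H545R2.K

open Finset

/-- The network is symmetric on the block `b` of four vertices: the double transpositions
`(b₀ b₁)(b₂ b₃)` and `(b₀ b₂)(b₁ b₃)` extend to automorphisms of the network. -/
def Net.SymOn {V Gt : Type*} [DecidableEq V] (N : Net V Gt) (b : Fin 4 ↪ V) : Prop :=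
  (∃ φ, N.IsAut (Equiv.swap (b 0) (b 1) * Equiv.swap (b 2) (b 3)) φ) ∧
    ∃ φ, N.IsAut (Equiv.swap (b 0) (b 2) * Equiv.swap (b 1) (b 3)) φ

/-- All gates except the input gates are NAND gates: true if and only if not all incoming wires
are true. -/
def Net.IsNand {V Gt : Type*} [Fintype Gt] (N : Net V Gt) : Prop :=
  ∀ g, N.inp g = none → ∀ k, N.F g k = decide (k < ∑ h, N.w h g)

/-- the coordinates of a block -/
def c4 (l : V4) : Fin 4 :=
  if l = (0, 0) then 0 else if l = (0, 1) then 1 else if l = (1, 0) then 2 else 3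

theorem c4_inj : Function.Injective c4 := by
  unfold Function.Injective c4
  decide

theorem c4_surj : ∀ c : Fin 4, ∃ l, c4 l = c := by
  unfold c4
  decide

section bp

variable {V : Type*} {r : ℕ}

/-- the permutation given by translations of the blocks -/
noncomputable def bp (blk : Fin r × V4 ↪ V) (κ : Fin r → V4) : Equiv.Perm V :=
  Equiv.Perm.viaEmbedding (Equiv.prodShear (Equiv.refl (Fin r))
    (fun j => Equiv.addRight (κ j))) blk

variable (blk : Fin r × V4 ↪ V)

theorem bp_apply (κ : Fin r → V4) (b : Fin r) (l : V4) :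
    bp blk κ (blk (b, l)) = blk (b, l + κ b) := by
  unfold bp
  rw [Equiv.Perm.viaEmbedding_apply]
  rfl

theorem bp_notMem (κ : Fin r → V4) {v : V} (hv : v ∉ Set.range blk) : bp blk κ v = v :=
  Equiv.Perm.viaEmbedding_apply_of_notMem _ _ _ hv

theorem bp_add (κ κ' : Fin r → V4) : bp blk (κ + κ') = bp blk κ * bp blk κ' := by
  ext v
  rw [Equiv.Perm.mul_apply]
  by_cases hv : v ∈ Set.range blk
  · obtain ⟨⟨b, l⟩, rfl⟩ := hv
    rw [bp_apply, bp_apply, bp_apply, Pi.add_apply, add_comm (κ b) (κ' b), add_assoc]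
  · rw [bp_notMem blk _ hv, bp_notMem blk _ hv, bp_notMem blk _ hv]

theorem bp_zero : bp blk (0 : Fin r → V4) = 1 := by
  ext v
  by_cases hv : v ∈ Set.range blk
  · obtain ⟨⟨b, l⟩, rfl⟩ := hv
    rw [bp_apply, Pi.zero_apply, add_zero]
    rfl
  · rw [bp_notMem blk _ hv]
    rfl

end bp

/-- the blocks as one embedding -/
def blkE {V : Type*} {r : ℕ} (blk : Fin r → (Fin 4 ↪ V))
    (hd : Pairwise fun i j => Disjoint (Set.range (blk i)) (Set.range (blk j))) :
    Fin r × V4 ↪ V where
  toFun := fun q => blk q.1 (c4 q.2)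
  inj' := by
    rintro ⟨i, c⟩ ⟨j, c'⟩ h
    simp only at h
    by_cases hij : i = j
    · subst hij
      rw [c4_inj ((blk i).injective h)]
    · exfalso
      exact Set.disjoint_left.1 (hd hij) ⟨c4 c, rfl⟩ ⟨c4 c', h.symm⟩

theorem bp_single_01 {V : Type*} [DecidableEq V] {r : ℕ} (blk : Fin r → (Fin 4 ↪ V))
    (hd : Pairwise fun i j => Disjoint (Set.range (blk i)) (Set.range (blk j))) (i : Fin r)
    (τ : V4) (a b c d : Fin 4) (hab : ∀ l : V4, c4 (l + τ) =
      (Equiv.swap a b * Equiv.swap c d) (c4 l)) :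
    bp (blkE blk hd) (Pi.single i τ) =
      Equiv.swap (blk i a) (blk i b) * Equiv.swap (blk i c) (blk i d) := by
  ext v
  by_cases hv : v ∈ Set.range (blkE blk hd)
  · obtain ⟨⟨j, l⟩, rfl⟩ := hv
    rw [bp_apply]
    by_cases hj : j = i
    · subst hj
      rw [Pi.single_eq_same]
      show blk j (c4 (l + τ)) = _
      rw [hab]
      show _ = (Equiv.swap (blk j a) (blk j b) * Equiv.swap (blk j c) (blk j d)) (blk j (c4 l))
      rw [Equiv.Perm.mul_apply, Equiv.Perm.mul_apply]
      have key : ∀ x y z : Fin 4, Equiv.swap (blk j x) (blk j y) (blk j z) =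
          blk j (Equiv.swap x y z) := by
        intro x y z
        rw [Equiv.swap_apply_def, Equiv.swap_apply_def]
        simp only [(blk j).injective.eq_iff]
        split_ifs <;> rfl
      rw [key, key]
    · rw [Pi.single_eq_of_ne hj, add_zero]
      show blk j (c4 l) = _
      have hne : ∀ x, blk j (c4 l) ≠ blk i x := by
        intro x h
        exact Set.disjoint_left.1 (hd hj) ⟨c4 l, rfl⟩ ⟨x, h.symm⟩
      show _ = (Equiv.swap (blk i a) (blk i b) * Equiv.swap (blk i c) (blk i d)) (blk j (c4 l))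
      rw [Equiv.Perm.mul_apply, Equiv.swap_apply_of_ne_of_ne (hne _) (hne _),
        Equiv.swap_apply_of_ne_of_ne (hne _) (hne _)]
  · rw [bp_notMem _ _ hv]
    have hne : ∀ x, v ≠ blk i x := by
      rintro x rfl
      obtain ⟨l, rfl⟩ := c4_surj x
      exact hv ⟨(i, l), rfl⟩
    rw [Equiv.Perm.mul_apply, Equiv.swap_apply_of_ne_of_ne (hne _) (hne _),
      Equiv.swap_apply_of_ne_of_ne (hne _) (hne _)]

theorem bp_single_a {V : Type*} [DecidableEq V] {r : ℕ} (blk : Fin r → (Fin 4 ↪ V))
    (hd : Pairwise fun i j => Disjoint (Set.range (blk i)) (Set.range (blk j))) (i : Fin r) :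
    bp (blkE blk hd) (Pi.single i (0, 1)) =
      Equiv.swap (blk i 0) (blk i 1) * Equiv.swap (blk i 2) (blk i 3) := by
  apply bp_single_01 blk hd i
  unfold c4; decide

theorem bp_single_b {V : Type*} [DecidableEq V] {r : ℕ} (blk : Fin r → (Fin 4 ↪ V))
    (hd : Pairwise fun i j => Disjoint (Set.range (blk i)) (Set.range (blk j))) (i : Fin r) :
    bp (blkE blk hd) (Pi.single i (1, 0)) =
      Equiv.swap (blk i 0) (blk i 2) * Equiv.swap (blk i 1) (blk i 3) := by
  apply bp_single_01 blk hd i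
  unfold c4; decide

theorem extend_two {A V W : Type*} [Fintype V] [Fintype W] (f : A → V) (g : A → W)
    (hf : Function.Injective f) (hg : Function.Injective g)
    (hc : Fintype.card V = Fintype.card W) : ∃ e : V ≃ W, ∀ a, e (f a) = g a := by
  classical
  obtain ⟨e0⟩ : Nonempty (V ≃ W) := Fintype.card_eq.1 hc
  let h : V → W := fun v => if hv : ∃ a, f a = v then g hv.choose else e0 v
  have hh : ∀ a, h (f a) = g a := by
    intro a
    have hv : ∃ a', f a' = f a := ⟨a, rfl⟩
    simp only [h, dif_pos hv]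
    rw [hf hv.choose_spec]
  have hinj : Set.InjOn h (Set.range f) := by
    rintro _ ⟨a, rfl⟩ _ ⟨a', rfl⟩ haa
    rw [hh, hh] at haa
    rw [hg haa]
  have hmaps : Set.MapsTo h (Set.range f) ((Finset.univ : Finset W) : Set W) := by
    intro v _
    simp
  obtain ⟨e, he⟩ := hmaps.exists_equiv_extend_of_card_eq (by simpa using hc) hinj
  refine ⟨e.trans (Equiv.subtypeUnivEquiv (by simp)), ?_⟩
  intro a
  have := he (f a) ⟨a, rfl⟩
  rw [hh] at this
  exact this

theorem ham_of_hom {V W : Type*} [Fintype V] [DecidableEq V] [Fintype W] [DecidableEq W]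
    {G : SimpleGraph V} {H : SimpleGraph W} (f : G →g H) (hf : Function.Bijective f)
    (h : G.IsHamiltonian) : H.IsHamiltonian := by
  intro hc
  rw [← Fintype.card_of_bijective hf] at hc
  obtain ⟨a, p, hp⟩ := h hc
  exact ⟨f a, p.map f, hp.map hf⟩

theorem card_Sgm (M : ℕ) : Fintype.card (Sgm M) = 10850 * M + 1 := by
  have h2 : Fintype.card (ZMod 2) = 2 := ZMod.card 2
  rw [Sym.card_sg]
  simp only [Fintype.card_sum, Fintype.card_prod, Fintype.card_fin, Fintype.card_bool, h2]
  ring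

/-- pairs of swapped vertices of an edge -/
noncomputable def kd : Fin 36 × ZMod 2 ≃ (Fin 22 ⊕ Bool) × Option Bool :=
  Fintype.equivOfCardEq (by
    have : Fintype.card (Option Bool) = 3 := rfl
    simp [this, ZMod.card])

variable {M : ℕ} (π : Fin 35 → Equiv.Perm (Fin M))

/-- the segments of a row -/
def sgOf (ρ : Rw M) : Fin 22 ⊕ Bool → Sgm M
  | Sum.inl x => .col ρ x
  | Sum.inr false => .lft ρ
  | Sum.inr true => .rgt ρ

/-- the vertices in the blocks -/
noncomputable def iota : BI M × V4 → Sgm M × Option Bool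
  | (Sum.inl (e, b), l) => (sgOf (e, l.2) (kd (b, l.1)).1, (kd (b, l.1)).2)
  | (Sum.inr (v, o), l) => (.leaf (Sum.inl (v, l)), o)

theorem sgOf_inj {ρ ρ' : Rw M} {k k' : Fin 22 ⊕ Bool} (h : sgOf ρ k = sgOf ρ' k') :
    ρ = ρ' ∧ k = k' := by
  rcases k with x | _ | _ <;> rcases k' with x' | _ | _ <;> simp only [sgOf, reduceCtorEq] at h
  · simp only [Sym.Sg.col.injEq] at h
    exact ⟨h.1, by rw [h.2]⟩
  · simp only [Sym.Sg.lft.injEq] at h
    exact ⟨h, rfl⟩
  · simp only [Sym.Sg.rgt.injEq] at h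
    exact ⟨h, rfl⟩

theorem sgOf_ne_leaf (ρ : Rw M) (k : Fin 22 ⊕ Bool) (a : Lf M) : sgOf ρ k ≠ .leaf a := by
  rcases k with x | _ | _ <;> simp [sgOf]

theorem iota_inj : Function.Injective (iota (M := M)) := by
  rintro ⟨⟨e, b⟩ | ⟨v, o⟩, l⟩ ⟨⟨e', b'⟩ | ⟨v', o'⟩, l'⟩ h
  · simp only [iota, Prod.mk.injEq] at h
    obtain ⟨h1, h2⟩ := h
    obtain ⟨h3, h4⟩ := sgOf_inj h1
    simp only [Prod.mk.injEq] at h3
    have h5 := kd.injective (Prod.ext h4 h2)
    simp only [Prod.mk.injEq] at h5
    have h6 : l = l' := Prod.ext h5.2 h3.2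
    rw [h3.1, h5.1, h6]
  · simp only [iota, Prod.mk.injEq] at h
    exact absurd h.1 (sgOf_ne_leaf _ _ _)
  · simp only [iota, Prod.mk.injEq] at h
    exact absurd h.1.symm (sgOf_ne_leaf _ _ _)
  · simp only [iota, Prod.mk.injEq, Sym.Sg.leaf.injEq, Sum.inl.injEq] at h
    rw [h.1.1, h.1.2, h.2]

theorem act_iota (y : Ed M → ZMod 2) (b : BI M) (l : V4) :
    (actS π y (iota (b, l)).1, (iota (b, l)).2) = iota (b, l + tau π y b) := by
  rcases b with ⟨e, b⟩ | ⟨v, o⟩
  · simp only [iota, tau, Prod.fst_add, Prod.snd_add, add_zero, Prod.mk.injEq, and_true]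
    rcases (kd (b, l.1)).1 with x | _ | _ <;> simp [sgOf, actS, actR]
  · simp only [iota, tau, actS, actL]

theorem act_fix (y : Ed M → ZMod 2) (m : Sgm M) (o : Option Bool)
    (h : ∀ b l, iota (b, l) ≠ (m, o)) : actS π y m = m := by
  cases m with
  | col ρ x =>
    exfalso
    apply h (Sum.inl (ρ.1, (kd.symm (Sum.inl x, o)).1)) ((kd.symm (Sum.inl x, o)).2, ρ.2)
    simp [iota, sgOf]
  | lft ρ =>
    exfalso
    apply h (Sum.inl (ρ.1, (kd.symm (Sum.inr false, o)).1)) ((kd.symm (Sum.inr false, o)).2, ρ.2)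
    simp [iota, sgOf]
  | rgt ρ =>
    exfalso
    apply h (Sum.inl (ρ.1, (kd.symm (Sum.inr true, o)).1)) ((kd.symm (Sum.inr true, o)).2, ρ.2)
    simp [iota, sgOf]
  | leaf a =>
    rcases a with ⟨v, l⟩ | e
    · exfalso
      exact h (Sum.inr (v, o)) l rfl
    · rfl
  | fin => rfl

/-- **Networks symmetric on blocks of four vertices are exponentially large.** -/
theorem sym_lower {V : Type*} [Fintype V] [DecidableEq V] {r : ℕ} (blk : Fin r × V4 ↪ V)
    {Gt : Type*} [Fintype Gt] (N : Net V Gt)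
    (hsym : ∀ κ : Fin r → V4, ∃ φ, N.IsAut (bp blk κ) φ)
    (hham : ∀ G : SimpleGraph V, N.val G N.out = true ↔ G.IsHamiltonian) :
    2 ^ (r / 2000000) ≤ Fintype.card Gt := by
  classical
  by_contra hcon
  rw [not_le] at hcon
  set m := r / 2000000 with hmdef
  have hGt : 0 < Fintype.card Gt := Fintype.card_pos_iff.2 ⟨N.out⟩
  have hm0 : 0 < m := by
    rcases Nat.eq_zero_or_pos m with h | h
    · rw [h] at hcon
      simp at hcon
      omega
    · exact h
  obtain ⟨M, hMdef⟩ : ∃ M, M = 240 * m := ⟨_, rfl⟩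
  have hM : 0 < M := by omega
  have hr' : 8200 * M ≤ r := by
    have := Nat.div_mul_le_self r 2000000
    omega
  have hr : 7980 * M ≤ r := by omega
  obtain ⟨π, hπ⟩ := exists_joining M hM
  -- the blocks
  obtain ⟨ei⟩ : Nonempty (BI M ↪ Fin r) := by
    apply Function.Embedding.nonempty_of_card_le
    rw [card_BI, Fintype.card_fin]
    exact hr
  have hVr : 4 * r ≤ Fintype.card V := by
    have h4 : Fintype.card V4 = 4 := by simp
    have := Fintype.card_le_of_embedding blk
    rw [Fintype.card_prod, Fintype.card_fin, h4] at this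
    omega
  obtain ⟨z, hz⟩ : ∃ z, Fintype.card V = (10850 * M + 1) * 3 + z :=
    ⟨Fintype.card V - (10850 * M + 1) * 3, by omega⟩
  have hcard : Fintype.card V = Fintype.card (SegV (Sgm M) z) := by
    have h3 : Fintype.card (Option Bool) = 3 := rfl
    unfold SegV
    rw [Fintype.card_sum, Fintype.card_prod, card_Sgm, h3, Fintype.card_fin]
    exact hz
  -- stabilizers
  let W : Gt → Submodule (ZMod 2) (Fin r → V4) := fun g =>
    { carrier := {κ | ∃ φ, N.IsAut (bp blk κ) φ ∧ φ g = g}
      zero_mem' := ⟨1, by rw [bp_zero]; exact Net.IsAut.one, rfl⟩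
      add_mem' := by
        rintro a b ⟨φ, h1, h2⟩ ⟨ψ, h3, h4⟩
        exact ⟨φ * ψ, by rw [bp_add]; exact h1.mul h3, by
          rw [Equiv.Perm.mul_apply, h4, h2]⟩
      smul_mem' := by
        intro c κ hκ
        have hc : c = 0 ∨ c = 1 := by revert c; decide
        rcases hc with rfl | rfl
        · rw [zero_smul]
          exact ⟨1, by rw [bp_zero]; exact Net.IsAut.one, rfl⟩
        · rw [one_smul]; exact hκ }
  choose φ hφ using hsym
  have hneg : ∀ κ, (bp blk κ)⁻¹ = bp blk (-κ) := by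
    intro κ
    rw [inv_eq_iff_mul_eq_one, ← bp_add, add_neg_cancel, bp_zero]
  have hcardW : ∀ g, Nat.card (W g).dualAnnihilator ≤ Fintype.card Gt := by
    intro g
    apply card_annihilator (W g) (fun κ => (φ κ)⁻¹ g)
    intro a b hab
    refine ⟨φ a * (φ b)⁻¹, ?_, ?_⟩
    · rw [sub_eq_add_neg, bp_add, ← hneg]
      exact (hφ a).mul (hφ b).inv
    · rw [Equiv.Perm.mul_apply, ← hab, perm_apply_inv]
  have hfin : Finite ((Fin r → V4) →ₗ[ZMod 2] ZMod 2) := Module.finite_of_finite (ZMod 2)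
  have hfint : Fintype ((Fin r → V4) →ₗ[ZMod 2] ZMod 2) := Fintype.ofFinite _
  let X : Finset ((Fin r → V4) →ₗ[ZMod 2] ZMod 2) :=
    univ.biUnion (fun g => univ.filter (fun χ => χ ∈ (W g).dualAnnihilator))
  have hX : X.card < 4 ^ m := by
    have h1 : X.card ≤ ∑ g : Gt, Fintype.card Gt := by
      refine le_trans Finset.card_biUnion_le (Finset.sum_le_sum (fun g _ => ?_))
      refine le_trans (le_of_eq ?_) (hcardW g)
      rw [Nat.card_eq_fintype_card, Fintype.card_subtype]
    rw [Finset.sum_const, Finset.card_univ, smul_eq_mul] at h1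
    have h2 : (4 : ℕ) ^ m = 2 ^ m * 2 ^ m := by rw [← mul_pow]; norm_num
    rw [h2]
    exact lt_of_le_of_lt h1 (Nat.mul_lt_mul'' hcon hcon)
  obtain ⟨R, hR⟩ := exists_good π ei m hMdef X hX
  have hR' : ∀ g, ∀ χ ∈ (W g).dualAnnihilator, R ∉ Bad π ei χ := by
    intro g χ hχ
    apply hR
    simp only [X, Finset.mem_biUnion, Finset.mem_univ, true_and, Finset.mem_filter]
    exact ⟨g, hχ⟩
  -- the placement
  obtain ⟨Θ, hΘ⟩ := extend_two (A := BI M × V4) (V := V) (W := SegV (Sgm M) z)
    (fun q => blk (ei q.1, rot (R q.1) q.2)) (fun q => Sum.inl (iota q))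
    (by
      rintro ⟨b, l⟩ ⟨b', l'⟩ h
      have h1 := blk.injective h
      simp only [Prod.mk.injEq] at h1
      have h2 := ei.injective h1.1
      subst h2
      rw [rot_inj _ h1.2])
    (by
      intro q q' h
      exact iota_inj (Sum.inl_injective h)) hcard
  -- the action
  let P : (Ed M → ZMod 2) → Equiv.Perm V := fun y => bp blk (iotaR π ei R y)
  have hPadd : ∀ y y', P (y + y') = P y * P y' := by
    intro y y'
    show bp blk (iotaR π ei R (y + y')) = _
    rw [map_add, bp_add]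
  have hrot_surj : ∀ (k : ZMod 3) (l : V4), ∃ l', rot k l' = l := by
    unfold rot
    decide
  have hΘP : ∀ y x, Θ (P y x) = actV π y (Θ x) := by
    intro y x
    by_cases h : ∃ b l, x = blk (ei b, rot (R b) l)
    · obtain ⟨b, l, rfl⟩ := h
      have h1 : P y (blk (ei b, rot (R b) l)) = blk (ei b, rot (R b) (l + tau π y b)) := by
        show bp blk (iotaR π ei R y) _ = _
        rw [bp_apply, iotaR_apply, rot_add]
      rw [h1]
      have h2 := hΘ (b, l + tau π y b)
      have h3 := hΘ (b, l)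
      simp only at h2 h3
      rw [h2, h3, ← act_iota]
      rfl
    · have h1 : P y x = x := by
        show bp blk (iotaR π ei R y) x = x
        by_cases hx : x ∈ Set.range blk
        · obtain ⟨⟨j, c⟩, rfl⟩ := hx
          rw [bp_apply]
          by_cases hj : ∃ b, ei b = j
          · obtain ⟨b, rfl⟩ := hj
            obtain ⟨l, hl⟩ := hrot_surj (R b) c
            exact absurd ⟨b, l, by rw [hl]⟩ h
          · rw [iotaR_apply' π ei R y j hj, add_zero]
        · exact bp_notMem blk _ hx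
      rw [h1]
      rcases hx : Θ x with ⟨mm, o⟩ | j
      · have h2 : actS π y mm = mm := by
          apply act_fix π y mm o
          intro b l hbl
          apply h
          refine ⟨b, l, Θ.injective ?_⟩
          have h3 := hΘ (b, l)
          simp only at h3
          rw [h3, hbl, hx]
        simp only [actV, h2]
      · rfl
  -- the graphs
  let G : (Nd M → ZMod 2) → SimpleGraph V := fun β => (GG π β z).comap Θ
  have hGiso : ∀ β, (G β).IsHamiltonian ↔ (GG π β z).IsHamiltonian := by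
    intro β
    constructor
    · exact ham_of_hom (G := G β) (H := GG π β z) ⟨Θ, fun {a b} h => h⟩ Θ.bijective
    · refine ham_of_hom (G := GG π β z) (H := G β) ⟨Θ.symm, fun {a b} h => ?_⟩ Θ.symm.bijective
      show (GG π β z).Adj (Θ (Θ.symm a)) (Θ (Θ.symm b))
      rwa [Equiv.apply_symm_apply, Equiv.apply_symm_apply]
  have hmain := main_abstract (N := N) π P hPadd G
    (by
      intro β y u w
      show (GG π (β + bd π y) z).Adj (Θ (P y u)) (Θ (P y w)) ↔ (GG π β z).Adj (Θ u) (Θ w)
      rw [hΘP, hΘP]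
      exact GG_act π y _ _)
    (by
      intro β v u w h y heq
      have h1 : ∀ v', v' ≠ v → (β + Pi.single v 1 : Nd M → ZMod 2) v' = β v' := by
        intro v' hv'
        rw [Pi.add_apply, Pi.single_eq_of_ne hv', add_zero]
      apply act_fixes π v h1 (u := Θ u) (w := Θ w) h y
      rw [← hΘP, ← hΘP]
      have := congrArg (Sym2.map Θ) heq
      simpa using this)
    (by
      intro g
      obtain ⟨Z, hZ1, hZ2⟩ := free_clusters π ei hπ hM R (W g) (hR' g)
      refine ⟨Z, hZ1, ?_⟩
      intro v v' hv hv'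
      obtain ⟨y, ⟨ψ, hψ1, hψ2⟩, hy2⟩ := hZ2 v v' hv hv'
      exact ⟨y, ψ, hy2, hψ1, hψ2⟩)
  obtain ⟨v, hv⟩ := hmain
  have h1 : N.val (G 0) N.out = true := by
    rw [hham, hGiso]
    exact backward π hM z
  rw [h1] at hv
  have h2 := (hham _).1 hv.symm
  rw [hGiso] at h2
  have h3 := forward π _ z h2
  rw [Finset.sum_pi_single'] at h3
  simp at h3

theorem sym_lower' {V : Type*} [Fintype V] [DecidableEq V] {Gt : Type*} [Fintype Gt]
    (N : Net V Gt) (hham : ∀ G : SimpleGraph V, N.val G N.out = true ↔ G.IsHamiltonian)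
    {r : ℕ} (blk : Fin r → (Fin 4 ↪ V))
    (hd : Pairwise fun i j => Disjoint (Set.range (blk i)) (Set.range (blk j)))
    (hsym : ∀ i, N.SymOn (blk i)) :
    2 ^ (r / 2000000) ≤ Fintype.card Gt := by
  classical
  apply sym_lower (blkE blk hd) N _ hham
  let H : AddSubgroup (Fin r → V4) :=
    { carrier := {κ | ∃ φ, N.IsAut (bp (blkE blk hd) κ) φ}
      zero_mem' := ⟨1, by rw [bp_zero]; exact Net.IsAut.one⟩
      add_mem' := by
        rintro a b ⟨φ, h1⟩ ⟨ψ, h3⟩
        exact ⟨φ * ψ, by rw [bp_add]; exact h1.mul h3⟩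
      neg_mem' := by
        rintro a ⟨φ, h1⟩
        refine ⟨φ⁻¹, ?_⟩
        have : bp (blkE blk hd) (-a) = (bp (blkE blk hd) a)⁻¹ := by
          rw [eq_comm, inv_eq_iff_mul_eq_one, ← bp_add, add_neg_cancel, bp_zero]
        rw [this]
        exact h1.inv }
  intro κ
  have hmem : κ ∈ H := by
    apply AddSubgroup.pi_mem_of_single_mem
    intro i
    obtain ⟨h1, h2⟩ := hsym i
    have e1 : Pi.single i ((0, 1) : V4) ∈ H := by
      obtain ⟨φ, hφ⟩ := h1
      exact ⟨φ, by rw [bp_single_a]; exact hφ⟩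
    have e2 : Pi.single i ((1, 0) : V4) ∈ H := by
      obtain ⟨φ, hφ⟩ := h2
      exact ⟨φ, by rw [bp_single_b]; exact hφ⟩
    have h3 : κ i = (0, 0) ∨ κ i = (0, 1) ∨ κ i = (1, 0) ∨ κ i = ((1, 0) : V4) + (0, 1) := by
      generalize κ i = x
      revert x
      decide
    rcases h3 with h | h | h | h
    · rw [h]
      have : Pi.single i ((0, 0) : V4) = (0 : Fin r → V4) := Pi.single_zero i
      rw [this]; exact H.zero_mem
    · rw [h]; exact e1
    · rw [h]; exact e2
    · rw [h, Pi.single_add]; exact H.add_mem e2 e1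
  exact hmem

end Pool.Agent.H545R2.K
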