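import Pool.Agent.H545R2.KBase

set_option autoImplicit false
set_option linter.unusedSectionVars false

/-! Networks whose gates are functions of the number of their true inputs, their automorphisms,
and the main induction. -/

namespace Pool.Agent.H545R2.K

open Finset

theorem perm_apply_inv {α : Type*} (f : Equiv.Perm α) (x : α) : f (f⁻¹ x) = x := by simp

theorem perm_inv_apply {α : Type*} (f : Equiv.Perm α) (x : α) : f⁻¹ (f x) = x := by simp

/-- An acyclic network on the graphs with vertex set `V`, with set of gates `Gt`. -/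
structure Net (V Gt : Type*) where
  /-- the edge variable read by an input gate -/
  inp : Gt → Option (Sym2 V)
  /-- `w h g` is the number of wires from `h` to `g` -/
  w : Gt → Gt → ℕ
  /-- `F g k` is the output of the gate `g` when `k` of its incoming wires are true -/
  F : Gt → ℕ → Bool
  /-- the output gate -/
  out : Gt
  /-- a rank witnessing that the network is acyclic -/
  rank : Gt → ℕ
  acyc : ∀ h g, 0 < w h g → rank h < rank g

variable {V Gt : Type*} [Fintype Gt]

open Classical in
/-- The value of a gate on a graph. -/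
noncomputable def Net.val (N : Net V Gt) (G : SimpleGraph V) (g : Gt) : Bool :=
  match N.inp g with
  | some e => decide (e ∈ G.edgeSet)
  | none => N.F g (∑ h, if _hw : 0 < N.w h g then N.w h g * (N.val G h).toNat else 0)
termination_by N.rank g
decreasing_by exact N.acyc _ _ _hw

theorem Net.val_some (N : Net V Gt) (G : SimpleGraph V) {g : Gt} {e : Sym2 V}
    (h : N.inp g = some e) : (N.val G g = true ↔ e ∈ G.edgeSet) := by
  rw [Net.val]
  simp [h]

theorem Net.val_none (N : Net V Gt) (G : SimpleGraph V) {g : Gt}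
    (h : N.inp g = none) : N.val G g = N.F g (∑ h, N.w h g * (N.val G h).toNat) := by
  rw [Net.val]
  simp only [h]
  congr 1
  apply Finset.sum_congr rfl
  intro k _
  split_ifs with hw
  · rfl
  · have : N.w k g = 0 := by omega
    rw [this, zero_mul]

/-- `φ` is an automorphism of the network extending the permutation `p` of the vertices -/
structure Net.IsAut (N : Net V Gt) (p : Equiv.Perm V) (φ : Equiv.Perm Gt) : Prop where
  inp : ∀ g, N.inp (φ g) = (N.inp g).map (Sym2.map p)
  w : ∀ h g, N.w (φ h) (φ g) = N.w h g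
  F : ∀ g, N.F (φ g) = N.F g
  out : φ N.out = N.out

variable {N : Net V Gt}

omit [Fintype Gt] in
theorem Net.IsAut.one : N.IsAut 1 1 := by
  refine ⟨?_, fun _ _ => rfl, fun _ => rfl, rfl⟩
  intro g
  cases h : N.inp g with
  | none => simp [h]
  | some e => simp [h]

omit [Fintype Gt] in
theorem Net.IsAut.mul {p p' : Equiv.Perm V} {φ φ' : Equiv.Perm Gt} (h : N.IsAut p φ)
    (h' : N.IsAut p' φ') : N.IsAut (p * p') (φ * φ') := by
  refine ⟨?_, ?_, ?_, ?_⟩
  · intro g
    rw [Equiv.Perm.mul_apply, h.inp, h'.inp, Option.map_map]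
    congr 1
    ext e
    rw [Function.comp_apply, Sym2.map_map]
    rfl
  · intro k g
    rw [Equiv.Perm.mul_apply, Equiv.Perm.mul_apply, h.w, h'.w]
  · intro g
    rw [Equiv.Perm.mul_apply, h.F, h'.F]
  · rw [Equiv.Perm.mul_apply, h'.out, h.out]

omit [Fintype Gt] in
theorem Net.IsAut.inv {p : Equiv.Perm V} {φ : Equiv.Perm Gt} (h : N.IsAut p φ) :
    N.IsAut p⁻¹ φ⁻¹ := by
  refine ⟨?_, ?_, ?_, ?_⟩
  · intro g
    have h1 := h.inp (φ⁻¹ g)
    rw [perm_apply_inv] at h1
    rw [h1, Option.map_map]
    have : (Sym2.map (p⁻¹ : Equiv.Perm V)) ∘ (Sym2.map p) = id := by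
      ext e
      rw [Function.comp_apply, Sym2.map_map]
      have : ((p⁻¹ : Equiv.Perm V) : V → V) ∘ p = id := by
        ext x; simp
      rw [this, Sym2.map_id]
    rw [this, Option.map_id]
    rfl
  · intro k g
    rw [← h.w, perm_apply_inv, perm_apply_inv]
  · intro g
    rw [← h.F, perm_apply_inv]
  · rw [Equiv.Perm.inv_eq_iff_eq]
    exact h.out.symm

/-- Isomorphism invariance of evaluation. -/
theorem Net.IsAut.val {p : Equiv.Perm V} {φ : Equiv.Perm Gt} (h : N.IsAut p φ)
    {G G' : SimpleGraph V} (hG : ∀ u w, G'.Adj (p u) (p w) ↔ G.Adj u w) (g : Gt) :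
    N.val G' (φ g) = N.val G g := by
  have key : ∀ n, ∀ g, N.rank g = n → N.val G' (φ g) = N.val G g := by
    intro n
    induction n using Nat.strong_induction_on with
    | _ n ih =>
      intro g hg
      cases hi : N.inp g with
      | some e =>
        have hi' : N.inp (φ g) = some (Sym2.map p e) := by rw [h.inp, hi]; rfl
        rw [Bool.eq_iff_iff, N.val_some G' hi', N.val_some G hi]
        induction e with
        | h u w => exact hG u w
      | none =>
        have hi' : N.inp (φ g) = none := by rw [h.inp, hi]; rfl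
        rw [N.val_none G' hi', N.val_none G hi, h.F]
        congr 1
        rw [← Equiv.sum_comp φ]
        apply Finset.sum_congr rfl
        intro k _
        rw [h.w]
        by_cases hw : 0 < N.w k g
        · rw [ih (N.rank k) (by rw [← hg]; exact N.acyc _ _ hw) k rfl]
        · have : N.w k g = 0 := by omega
          rw [this, zero_mul, zero_mul]
  exact key _ g rfl


variable {M : ℕ} (π : Fin 35 → Equiv.Perm (Fin M))

/-- **Main induction.** -/
theorem main_abstract
    (P : (Ed M → ZMod 2) → Equiv.Perm V)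
    (hPadd : ∀ y y', P (y + y') = P y * P y')
    (G : (Nd M → ZMod 2) → SimpleGraph V)
    (hG : ∀ β y u w, (G (β + bd π y)).Adj (P y u) (P y w) ↔ (G β).Adj u w)
    (hdiff : ∀ β v u w, ¬ ((G β).Adj u w ↔ (G (β + Pi.single v 1)).Adj u w) →
      ∀ y : Ed M → ZMod 2, s(P y u, P y w) = s(u, w) → bd π y v = 0)
    (hsupp : ∀ g, ∃ Z : Finset (Fin M), M < 2 * Z.card ∧ ∀ v v' : Nd M, v.1 ∈ Z → v'.1 ∈ Z →
      ∃ y φ, bd π y = Pi.single v 1 + Pi.single v' 1 ∧ N.IsAut (P y) φ ∧ φ g = g) :
    ∃ v, N.val (G 0) N.out = N.val (G (Pi.single v 1)) N.out := by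
  classical
  -- stabilizers
  let Stab : Gt → Set (Ed M → ZMod 2) := fun g => {y | ∃ φ, N.IsAut (P y) φ ∧ φ g = g}
  have hcomm : ∀ y y', P y * P y' * (P y)⁻¹ = P y' := by
    intro y y'
    rw [← hPadd, add_comm, hPadd, mul_assoc, mul_inv_cancel, mul_one]
  have hcomm' : ∀ y y', (P y)⁻¹ * P y' * P y = P y' := by
    intro y y'
    rw [mul_assoc, ← hPadd, add_comm, hPadd, ← mul_assoc, inv_mul_cancel, one_mul]
  have hStab : ∀ y φ, N.IsAut (P y) φ → ∀ g, Stab (φ g) = Stab g := by
    intro y φ hφ g
    ext y'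
    simp only [Stab, Set.mem_ofPred_eq]
    constructor
    · rintro ⟨ψ, hψ, hψg⟩
      refine ⟨φ⁻¹ * ψ * φ, ?_, ?_⟩
      · have := (hφ.inv.mul hψ).mul hφ
        rwa [hcomm'] at this
      · simp only [Equiv.Perm.mul_apply, hψg, perm_inv_apply]
    · rintro ⟨ψ, hψ, hψg⟩
      refine ⟨φ * ψ * φ⁻¹, ?_, ?_⟩
      · have := (hφ.mul hψ).mul hφ.inv
        rwa [hcomm] at this
      · simp only [Equiv.Perm.mul_apply, perm_inv_apply, hψg]
  -- large sets of clusters
  let OK : Set (Ed M → ZMod 2) → Finset (Fin M) → Prop := fun U Z =>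
    M < 2 * Z.card ∧ ∀ v v' : Nd M, v.1 ∈ Z → v'.1 ∈ Z →
      ∃ y ∈ U, bd π y = Pi.single v 1 + Pi.single v' 1
  have hZf : ∀ U, ∃ Z, (∃ Z, OK U Z) → OK U Z := by
    intro U
    by_cases h : ∃ Z, OK U Z
    · obtain ⟨Z, hZ⟩ := h; exact ⟨Z, fun _ => hZ⟩
    · exact ⟨∅, fun h' => absurd h' h⟩
  choose Zf hZf using hZf
  have hSt : ∀ g, OK (Stab g) (Zf (Stab g)) := by
    intro g
    apply hZf
    obtain ⟨Z, h1, h2⟩ := hsupp g
    refine ⟨Z, h1, ?_⟩
    intro v v' hv hv'
    obtain ⟨y, φ, h3, h4, h5⟩ := h2 v v' hv hv'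
    exact ⟨y, ⟨φ, h4, h5⟩, h3⟩
  have hmeet : ∀ Z Z' : Finset (Fin M), M < 2 * Z.card → M < 2 * Z'.card →
      ∃ i, i ∈ Z ∧ i ∈ Z' := by
    intro Z Z' h h'
    by_contra hcon
    have hd : Disjoint Z Z' := by
      rw [Finset.disjoint_left]
      intro i h1 h2
      exact hcon ⟨i, h1, h2⟩
    have h1 := Finset.card_union_of_disjoint hd
    have h2 := Finset.card_le_univ (Z ∪ Z')
    rw [Fintype.card_fin] at h2
    omega
  -- the induction
  have key : ∀ n, ∀ g, N.rank g = n → ∀ β v, v.1 ∈ Zf (Stab g) →
      N.val (G β) g = N.val (G (β + Pi.single v 1)) g := by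
    intro n
    induction n using Nat.strong_induction_on with
    | _ n ih =>
      intro g hg β v hv
      obtain ⟨hg1, hg2⟩ := hSt g
      cases hi : N.inp g with
      | some e =>
        rw [Bool.eq_iff_iff, N.val_some _ hi, N.val_some _ hi]
        induction e with
        | h u w =>
          by_contra hcon
          have hcon' : ¬ ((G β).Adj u w ↔ (G (β + Pi.single v 1)).Adj u w) := hcon
          obtain ⟨y, ⟨φ, hφ1, hφ2⟩, hy⟩ := hg2 v (v.1, v.2 + 1) hv hv
          have h1 := hφ1.inp g
          rw [hφ2, hi, Option.map_some, Option.some.injEq] at h1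
          have h2 := hdiff β v u w hcon' y h1.symm
          have hne : v ≠ (v.1, v.2 + 1) := by
            intro h
            have h3 := congrArg Prod.snd h
            simp at h3
          rw [hy, Pi.add_apply, Pi.single_eq_same, Pi.single_eq_of_ne hne, add_zero] at h2
          exact absurd h2 (by decide)
      | none =>
        rw [N.val_none _ hi, N.val_none _ hi]
        congr 1
        have hch : ∀ U : Set (Ed M → ZMod 2), ∃ (φ : Equiv.Perm Gt) (y : Ed M → ZMod 2) (u : Nd M),
            OK U (Zf U) → N.IsAut (P y) φ ∧ φ g = g ∧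
              bd π y = Pi.single u 1 + Pi.single v 1 ∧ u.1 ∈ Zf U := by
          intro U
          by_cases hU : OK U (Zf U)
          · obtain ⟨i, hi1, hi2⟩ := hmeet _ _ hg1 hU.1
            obtain ⟨y, ⟨φ, hφ1, hφ2⟩, hy2⟩ := hg2 (i, 0) v hi1 hv
            exact ⟨φ, y, (i, 0), fun _ => ⟨hφ1, hφ2, hy2, hi2⟩⟩
          · exact ⟨1, 0, v, fun h => absurd h hU⟩
        choose φ y u hφ using hch
        have hφ' := fun h => hφ (Stab h) (hSt h)
        let θ : Equiv.Perm Gt :=
          { toFun := fun h => φ (Stab h) h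
            invFun := fun h => (φ (Stab h))⁻¹ h
            left_inv := by
              intro h
              show (φ (Stab (φ (Stab h) h)))⁻¹ (φ (Stab h) h) = h
              rw [hStab _ _ (hφ' h).1 h, perm_inv_apply]
            right_inv := by
              intro h
              show (φ (Stab ((φ (Stab h))⁻¹ h))) ((φ (Stab h))⁻¹ h) = h
              have h1 : Stab ((φ (Stab h))⁻¹ h) = Stab h := by
                have h2 := hStab _ _ (hφ' h).1 ((φ (Stab h))⁻¹ h)
                rw [perm_apply_inv] at h2
                exact h2.symm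
              rw [h1, perm_apply_inv] }
        refine Eq.trans ?_ (Equiv.sum_comp θ _)
        apply Finset.sum_congr rfl
        intro h _
        show _ = N.w (φ (Stab h) h) g * (N.val (G (β + Pi.single v 1)) (φ (Stab h) h)).toNat
        obtain ⟨h1, h2, h3, h4⟩ := hφ' h
        have h5 : N.w (φ (Stab h) h) g = N.w h g := by
          conv_lhs => rw [← h2]
          exact h1.w h g
        rw [h5]
        by_cases hw : 0 < N.w h g
        · have h6 : N.val (G (β + Pi.single v 1)) (φ (Stab h) h) =
              N.val (G (β + Pi.single (u (Stab h)) 1)) h := by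
            apply h1.val
            intro a b
            have h7 := hG (β + Pi.single (u (Stab h)) 1) (y (Stab h)) a b
            have h8 : β + Pi.single (u (Stab h)) 1 + bd π (y (Stab h)) = β + Pi.single v 1 := by
              rw [h3]
              ext x
              simp only [Pi.add_apply]
              have := CharTwo.add_self_eq_zero ((Pi.single (u (Stab h)) 1 : Nd M → ZMod 2) x)
              linear_combination this
            rwa [h8] at h7
          rw [h6, ih (N.rank h) (by rw [← hg]; exact N.acyc _ _ hw) h rfl β _ h4]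
        · have : N.w h g = 0 := by omega
          rw [this, zero_mul, zero_mul]
  -- conclusion
  obtain ⟨i, hi, _⟩ := hmeet _ _ (hSt N.out).1 (hSt N.out).1
  refine ⟨(i, 0), ?_⟩
  have := key _ N.out rfl 0 (i, 0) hi
  rwa [zero_add] at this

end Pool.Agent.H545R2.K
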