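import Pool.Agent.H545R2.KAct
import Pool.Agent.H545R2.KCount

set_option autoImplicit false
set_option linter.unusedSectionVars false

/-! Random placements of the gadget: for a good placement, every small set of characters leaves
most clusters free. -/

namespace Pool.Agent.H545R2.K

open Finset

/-- Blocks used by the gadget. -/
abbrev BI (M : ℕ) := (Ed M × Fin 36) ⊕ (Nd M × Option Bool)

instance (M : ℕ) : DecidableEq (BI M) := instDecidableEqSum

theorem card_BI (M : ℕ) : Fintype.card (BI M) = 7980 * M := by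
  have : Fintype.card (Option Bool) = 3 := rfl
  simp only [Fintype.card_sum, Fintype.card_prod, Fintype.card_fin, Fintype.card_bool, this]
  ring

variable {M : ℕ} (π : Fin 35 → Equiv.Perm (Fin M))

/-- translation of a block -/
def tau (y : Ed M → ZMod 2) : BI M → V4
  | Sum.inl (e, _) => (0, y e)
  | Sum.inr (v, _) => dl π y v

theorem tau_add (y y' : Ed M → ZMod 2) (b : BI M) : tau π (y + y') b = tau π y b + tau π y' b := by
  rcases b with ⟨e, b⟩ | ⟨v, o⟩
  · simp [tau]
  · simp only [tau, dl, Pi.add_apply, Prod.mk_add_mk, Prod.mk.injEq, and_true]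
    ring

theorem tau_zero (b : BI M) : tau π (0 : Ed M → ZMod 2) b = 0 := by
  have := tau_add π 0 0 b
  simpa using this

section place

variable {r : ℕ} (ei : BI M ↪ Fin r) (R : BI M → ZMod 3)

/-- the action of edge sets on the blocks, as a family of translations -/
noncomputable def iotaR : (Ed M → ZMod 2) →ₗ[ZMod 2] (Fin r → V4) :=
  AddMonoidHom.toZModLinearMap 2
    { toFun := fun y => Function.extend ei (fun b => rot (R b) (tau π y b)) 0
      map_zero' := by
        ext1 j
        by_cases hj : ∃ b, ei b = j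
        · obtain ⟨b, rfl⟩ := hj
          rw [ei.injective.extend_apply, tau_zero, rot_zero]
          rfl
        · rw [Function.extend_apply' _ _ _ hj]
      map_add' := by
        intro y y'
        ext1 j
        rw [Pi.add_apply]
        by_cases hj : ∃ b, ei b = j
        · obtain ⟨b, rfl⟩ := hj
          rw [ei.injective.extend_apply, ei.injective.extend_apply, ei.injective.extend_apply,
            tau_add, rot_add]
        · rw [Function.extend_apply' _ _ _ hj, Function.extend_apply' _ _ _ hj,
            Function.extend_apply' _ _ _ hj]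
          simp }

theorem iotaR_apply (y : Ed M → ZMod 2) (b : BI M) :
    iotaR π ei R y (ei b) = rot (R b) (tau π y b) := by
  unfold iotaR
  rw [AddMonoidHom.coe_toZModLinearMap]
  exact ei.injective.extend_apply (fun b => rot (R b) (tau π y b)) 0 b

theorem iotaR_apply' (y : Ed M → ZMod 2) (j : Fin r) (hj : ¬ ∃ b, ei b = j) :
    iotaR π ei R y j = 0 := by
  unfold iotaR
  rw [AddMonoidHom.coe_toZModLinearMap]
  exact Function.extend_apply' (fun b => rot (R b) (tau π y b)) (0 : Fin r → V4) j hj

theorem iotaR_eq_sum (y : Ed M → ZMod 2) :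
    iotaR π ei R y = ∑ b, Pi.single (ei b) (rot (R b) (tau π y b)) := by
  ext1 j
  rw [Finset.sum_apply]
  by_cases hj : ∃ b, ei b = j
  · obtain ⟨b, rfl⟩ := hj
    rw [iotaR_apply, Finset.sum_eq_single b]
    · rw [Pi.single_eq_same]
    · intro b' _ hb
      rw [Pi.single_eq_of_ne]
      intro h
      exact hb (ei.injective h.symm)
    · intro h; exact absurd (Finset.mem_univ _) h
  · rw [iotaR_apply' π ei R y j hj, Finset.sum_eq_zero]
    intro b _
    rw [Pi.single_eq_of_ne]
    rintro rfl
    exact hj ⟨b, rfl⟩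

/-- the component of a character at a block -/
noncomputable def comp (χ : (Fin r → V4) →ₗ[ZMod 2] ZMod 2) (b : BI M) : V4 →ₗ[ZMod 2] ZMod 2 :=
  χ.comp (LinearMap.single (ZMod 2) (fun _ => V4) (ei b))

theorem chi_iota (χ : (Fin r → V4) →ₗ[ZMod 2] ZMod 2) (y : Ed M → ZMod 2) :
    χ (iotaR π ei R y) = ∑ b, comp ei χ b (rot (R b) (tau π y b)) := by
  rw [iotaR_eq_sum, map_sum]
  rfl

/-- Many independent tests are rarely all passed. -/
theorem family {ι : Type*} [DecidableEq ι] (χ : (Fin r → V4) →ₗ[ZMod 2] ZMod 2) (T : Finset ι)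
    (yt : ι → Ed M → ZMod 2) (bt : ι → BI M)
    (h1 : ∀ t ∈ T, comp ei χ (bt t) ≠ 0 ∧ tau π (yt t) (bt t) ≠ 0)
    (h2 : ∀ t ∈ T, ∀ t' ∈ T, t ≠ t' → tau π (yt t') (bt t) = 0) :
    (univ.filter (fun R : BI M → ZMod 3 => ∀ t ∈ T, χ (iotaR π ei R (yt t)) = 0)).card *
      3 ^ T.card ≤ 2 ^ T.card * 3 ^ Fintype.card (BI M) := by
  simp only [chi_iota]
  apply count_pass T bt (fun t b k => comp ei χ b (rot k (tau π (yt t) b)))
  · intro t ht t' ht' hne k k'
    rw [h2 t ht t' ht' hne, rot_zero, rot_zero]
  · intro t ht x c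
    exact rot_count _ (h1 t ht).1 _ (h1 t ht).2 x c

end place

/-! Cycles -/

/-- the cycle of a cluster -/
def cyc1 (i : Fin M) : Ed M → ZMod 2
  | Sum.inl (i', _) => if i' = i then 1 else 0
  | Sum.inr _ => 0

theorem esl_zero (v : Nd M) : esl π v 0 = Sum.inl v := rfl

theorem esl_one (v : Nd M) : esl π v 1 = Sum.inl (v.1, v.2 - 1) := rfl

theorem esl_two (v : Nd M) : ∃ q, esl π v 2 = Sum.inr q := by
  unfold esl
  rcases v with ⟨i, s⟩
  simp only [kapInv]
  split_ifs
  · exact ⟨_, rfl⟩
  · exact ⟨_, rfl⟩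

theorem bd_cyc1 (i : Fin M) : bd π (cyc1 i) = 0 := by
  ext v
  unfold bd
  rw [Fin.sum_univ_three, esl_zero, esl_one]
  obtain ⟨q, hq⟩ := esl_two π v
  rw [hq]
  simp only [cyc1, add_zero, Pi.zero_apply]
  exact CharTwo.add_self_eq_zero _

/-- the short cycle through a pair of joining edges -/
def cyc2 (t : Fin M × Fin 35) : Ed M → ZMod 2 :=
  Pi.single (Sum.inr (t.1, (t.2, false))) 1 + Pi.single (Sum.inr (t.1, (t.2, true))) 1 +
    (Pi.single (Sum.inl (t.1, lowF t.2 false)) 1 + Pi.single (Sum.inl (π t.2 t.1, highF t.2 false)) 1)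

theorem lowF_succ (j : Fin 35) : lowF j false + 1 = lowF j true := by
  have hj := j.isLt
  ext
  simp only [lowF, Fin.val_add, Bool.toNat_false, Bool.toNat_true, add_zero]
  rw [Nat.mod_eq_of_lt]
  · rfl
  · show 2 * j.val + 1 < 140
    omega

theorem highF_succ (j : Fin 35) : highF j false + 1 = highF j true := by
  have hj := j.isLt
  ext
  simp only [highF, Fin.val_add, Bool.toNat_false, Bool.toNat_true, add_zero]
  rw [Nat.mod_eq_of_lt]
  · rfl
  · show 70 + 2 * j.val + 1 < 140
    omega

theorem bd_cyc2 (t : Fin M × Fin 35) : bd π (cyc2 π t) = 0 := by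
  unfold cyc2
  rw [bd_add, bd_add, bd_add, bd_single, bd_single, bd_single, bd_single]
  simp only [kap, lowF_succ, highF_succ]
  ext v
  simp only [Pi.add_apply, Pi.zero_apply]
  have h1 := CharTwo.add_self_eq_zero ((Pi.single (t.1, lowF t.2 false) 1 : Nd M → ZMod 2) v)
  have h2 := CharTwo.add_self_eq_zero ((Pi.single (t.1, lowF t.2 true) 1 : Nd M → ZMod 2) v)
  have h3 := CharTwo.add_self_eq_zero ((Pi.single (π t.2 t.1, highF t.2 false) 1 : Nd M → ZMod 2) v)
  have h4 := CharTwo.add_self_eq_zero ((Pi.single (π t.2 t.1, highF t.2 true) 1 : Nd M → ZMod 2) v)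
  linear_combination h1 + h2 + h3 + h4

/-- the clusters of a block -/
def clus : BI M → Finset (Fin M)
  | Sum.inl (Sum.inl (i, _), _) => {i}
  | Sum.inl (Sum.inr (i, (j, _)), _) => {i, π j i}
  | Sum.inr (v, _) => {v.1}

section touched

variable {r : ℕ} (ei : BI M ↪ Fin r)

open Classical in
/-- the clusters touched by a character -/
noncomputable def touched (χ : (Fin r → V4) →ₗ[ZMod 2] ZMod 2) : Finset (Fin M) :=
  univ.filter (fun i => ∃ b, comp ei χ b ≠ 0 ∧ i ∈ clus π b)

open Classical in
/-- placements which are bad for a character -/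
noncomputable def Bad (χ : (Fin r → V4) →ₗ[ZMod 2] ZMod 2) : Finset (BI M → ZMod 3) :=
  univ.filter (fun R => M < 20 * (touched π ei χ).card ∧
    ∀ y, bd π y = 0 → χ (iotaR π ei R y) = 0)

theorem card_Bad (m : ℕ) (hm : M = 240 * m) (χ : (Fin r → V4) →ₗ[ZMod 2] ZMod 2) :
    (Bad π ei χ).card * 3 ^ (4 * m) ≤ 2 ^ (4 * m) * 3 ^ Fintype.card (BI M) := by
  classical
  by_cases hbig : M < 20 * (touched π ei χ).card
  · -- the two families of tests
    let T1 : Finset (Fin M) := univ.filter (fun i => ∃ b, comp ei χ b ≠ 0 ∧ tau π (cyc1 i) b ≠ 0)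
    let T2 : Finset (Fin M × Fin 35) := univ.filter (fun t => ∃ c q,
      comp ei χ (Sum.inl (Sum.inr (t.1, (t.2, c)), q)) ≠ 0)
    have hsub : touched π ei χ ⊆ T1 ∪ (T2.image Prod.fst ∪ T2.image (fun t => π t.2 t.1)) := by
      intro i hi
      simp only [touched, Finset.mem_filter, Finset.mem_univ, true_and] at hi
      obtain ⟨b, hb1, hb2⟩ := hi
      rw [Finset.mem_union, Finset.mem_union]
      rcases b with ⟨⟨i', s⟩ | ⟨i', ⟨j, c⟩⟩, q⟩ | ⟨v, o⟩
      · left
        simp only [clus, Finset.mem_singleton] at hb2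
        subst hb2
        simp only [T1, Finset.mem_filter, Finset.mem_univ, true_and]
        refine ⟨_, hb1, ?_⟩
        simp [tau, cyc1]
      · right
        have hmem : (i', j) ∈ T2 := by
          simp only [T2, Finset.mem_filter, Finset.mem_univ, true_and]
          exact ⟨c, q, hb1⟩
        simp only [clus, Finset.mem_insert, Finset.mem_singleton] at hb2
        rcases hb2 with rfl | rfl
        · left; exact Finset.mem_image.2 ⟨_, hmem, rfl⟩
        · right; exact Finset.mem_image.2 ⟨_, hmem, rfl⟩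
      · left
        simp only [clus, Finset.mem_singleton] at hb2
        subst hb2
        simp only [T1, Finset.mem_filter, Finset.mem_univ, true_and]
        refine ⟨_, hb1, ?_⟩
        simp only [tau, dl, esl_one]
        obtain ⟨q, hq⟩ := esl_two π v
        rw [hq]
        simp [cyc1]
    have hcard : (touched π ei χ).card ≤ T1.card + (T2.card + T2.card) := by
      refine le_trans (Finset.card_le_card hsub) (le_trans (Finset.card_union_le _ _) ?_)
      refine Nat.add_le_add_left (le_trans (Finset.card_union_le _ _) ?_) _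
      exact Nat.add_le_add Finset.card_image_le Finset.card_image_le
    have hor : 4 * m ≤ T1.card ∨ 4 * m ≤ T2.card := by omega
    rcases hor with h | h
    · obtain ⟨T, hT, hTc⟩ := Finset.exists_subset_card_eq h
      have hT1 : ∀ t ∈ T, ∃ b, comp ei χ b ≠ 0 ∧ tau π (cyc1 t) b ≠ 0 := by
        intro t ht
        have := hT ht
        simpa only [T1, Finset.mem_filter, Finset.mem_univ, true_and] using this
      have hbt : ∀ t : Fin M, ∃ b : BI M, t ∈ T → comp ei χ b ≠ 0 ∧ tau π (cyc1 t) b ≠ 0 := by
        intro t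
        by_cases ht : t ∈ T
        · obtain ⟨b, hb⟩ := hT1 t ht; exact ⟨b, fun _ => hb⟩
        · exact ⟨Sum.inr ((t, 0), none), fun h => absurd h ht⟩
      choose bt hbt using hbt
      have huniq : ∀ (b : BI M) (t t' : Fin M), tau π (cyc1 t) b ≠ 0 → tau π (cyc1 t') b ≠ 0 →
          t = t' := by
        have aux : ∀ (b : BI M) (t : Fin M), tau π (cyc1 t) b ≠ 0 → t ∈ clus π b ∧
            (clus π b).card ≤ 1 := by
          intro b t hb
          rcases b with ⟨⟨i', s⟩ | ⟨i', ⟨j, c⟩⟩, q⟩ | ⟨v, o⟩
          · simp only [tau, cyc1] at hb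
            by_cases h : i' = t
            · subst h; simp [clus]
            · rw [if_neg h] at hb; exact absurd rfl hb
          · simp only [tau, cyc1] at hb; exact absurd rfl hb
          · simp only [tau, dl, esl_one] at hb
            obtain ⟨q, hq⟩ := esl_two π v
            rw [hq] at hb
            simp only [cyc1] at hb
            by_cases h : v.1 = t
            · subst h; simp [clus]
            · rw [if_neg h] at hb; exact absurd rfl hb
        intro b t t' h1 h2
        obtain ⟨h3, h4⟩ := aux b t h1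
        obtain ⟨h5, _⟩ := aux b t' h2
        exact Finset.card_le_one.1 h4 _ h3 _ h5
      have := family π ei χ T cyc1 bt hbt (by
        intro t ht t' ht' hne
        by_contra hcon
        exact hne (huniq (bt t) t t' (hbt t ht).2 hcon))
      rw [hTc] at this
      refine le_trans (Nat.mul_le_mul_right _ (Finset.card_le_card ?_)) this
      intro R hR
      simp only [Bad, Finset.mem_filter, Finset.mem_univ, true_and] at hR ⊢
      intro t _
      exact hR.2 _ (bd_cyc1 π t)
    · obtain ⟨T, hT, hTc⟩ := Finset.exists_subset_card_eq h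
      have hbt : ∀ t : Fin M × Fin 35, ∃ q : Bool × Fin 36, t ∈ T →
          comp ei χ (Sum.inl (Sum.inr (t.1, (t.2, q.1)), q.2)) ≠ 0 := by
        intro t
        by_cases ht : t ∈ T
        · have := hT ht
          simp only [T2, Finset.mem_filter, Finset.mem_univ, true_and] at this
          obtain ⟨c, q, hq⟩ := this
          exact ⟨(c, q), fun _ => hq⟩
        · exact ⟨(false, 0), fun h => absurd h ht⟩
      choose q hq using hbt
      have hval : ∀ t t' : Fin M × Fin 35, ∀ c : Bool,
          cyc2 π t' (Sum.inr (t.1, (t.2, c))) = if t = t' then 1 else 0 := by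
        intro t t' c
        unfold cyc2
        simp only [Pi.add_apply]
        have e1 : (Pi.single (Sum.inl (t'.1, lowF t'.2 false)) 1 : Ed M → ZMod 2)
            (Sum.inr (t.1, (t.2, c))) = 0 := Pi.single_eq_of_ne (by simp) _
        have e2 : (Pi.single (Sum.inl (π t'.2 t'.1, highF t'.2 false)) 1 : Ed M → ZMod 2)
            (Sum.inr (t.1, (t.2, c))) = 0 := Pi.single_eq_of_ne (by simp) _
        rw [e1, e2]
        by_cases h : t = t'
        · subst h
          cases c
          · rw [Pi.single_eq_same, Pi.single_eq_of_ne (by simp)]; simp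
          · rw [Pi.single_eq_same, Pi.single_eq_of_ne (by simp)]; simp
        · have h' : ∀ c', (Sum.inr (t.1, (t.2, c)) : Ed M) ≠ Sum.inr (t'.1, (t'.2, c')) := by
            intro c' heq
            simp only [Sum.inr.injEq, Prod.mk.injEq] at heq
            exact h (Prod.ext heq.1 heq.2.1)
          rw [Pi.single_eq_of_ne (h' _), Pi.single_eq_of_ne (h' _)]
          simp [h]
      have := family π ei χ T (cyc2 π)
        (fun t => Sum.inl (Sum.inr (t.1, (t.2, (q t).1)), (q t).2)) (by
          intro t ht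
          refine ⟨hq t ht, ?_⟩
          simp only [tau]
          rw [hval, if_pos rfl]
          simp) (by
          intro t ht t' ht' hne
          simp only [tau]
          rw [hval, if_neg hne]
          rfl)
      rw [hTc] at this
      refine le_trans (Nat.mul_le_mul_right _ (Finset.card_le_card ?_)) this
      intro R hR
      simp only [Bad, Finset.mem_filter, Finset.mem_univ, true_and] at hR ⊢
      intro t _
      exact hR.2 _ (bd_cyc2 π t)
  · have : Bad π ei χ = ∅ := by
      rw [Finset.eq_empty_iff_forall_notMem]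
      intro R hR
      simp only [Bad, Finset.mem_filter, Finset.mem_univ, true_and] at hR
      exact hbig hR.1
    rw [this]
    simp

/-- A placement good for few characters exists. -/
theorem exists_good (m : ℕ) (hm : M = 240 * m) (X : Finset ((Fin r → V4) →ₗ[ZMod 2] ZMod 2))
    (hX : X.card < 4 ^ m) : ∃ R, ∀ χ ∈ X, R ∉ Bad π ei χ := by
  classical
  by_contra hcon
  push Not at hcon
  have h1 : (univ : Finset (BI M → ZMod 3)) ⊆ X.biUnion (Bad π ei) := by
    intro R _
    obtain ⟨χ, h1, h2⟩ := hcon R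
    exact Finset.mem_biUnion.2 ⟨χ, h1, h2⟩
  have h2 : 3 ^ Fintype.card (BI M) ≤ ∑ χ ∈ X, (Bad π ei χ).card := by
    have := le_trans (Finset.card_le_card h1) Finset.card_biUnion_le
    rwa [Finset.card_univ, Fintype.card_fun, ZMod.card] at this
  have h3 : 3 ^ Fintype.card (BI M) * 3 ^ (4 * m) ≤
      X.card * (2 ^ (4 * m) * 3 ^ Fintype.card (BI M)) := by
    calc 3 ^ Fintype.card (BI M) * 3 ^ (4 * m) ≤ (∑ χ ∈ X, (Bad π ei χ).card) * 3 ^ (4 * m) :=
          Nat.mul_le_mul_right _ h2
      _ = ∑ χ ∈ X, (Bad π ei χ).card * 3 ^ (4 * m) := Finset.sum_mul _ _ _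
      _ ≤ ∑ χ ∈ X, 2 ^ (4 * m) * 3 ^ Fintype.card (BI M) :=
          Finset.sum_le_sum (fun χ _ => card_Bad π ei m hm χ)
      _ = X.card * (2 ^ (4 * m) * 3 ^ Fintype.card (BI M)) := by
          rw [Finset.sum_const, smul_eq_mul]
  have h4 : 3 ^ (4 * m) ≤ X.card * 2 ^ (4 * m) := by
    have hpos : 0 < 3 ^ Fintype.card (BI M) := Nat.pos_of_ne_zero (by positivity)
    refine Nat.le_of_mul_le_mul_left ?_ hpos
    calc 3 ^ Fintype.card (BI M) * 3 ^ (4 * m) ≤ X.card * (2 ^ (4 * m) * 3 ^ Fintype.card (BI M)) := h3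
      _ = 3 ^ Fintype.card (BI M) * (X.card * 2 ^ (4 * m)) := by ring
  have h5 : X.card * 2 ^ (4 * m) < 4 ^ m * 2 ^ (4 * m) :=
    Nat.mul_lt_mul_of_pos_right hX (Nat.pos_of_ne_zero (by positivity))
  have h6 : 4 ^ m * 2 ^ (4 * m) ≤ 3 ^ (4 * m) := by
    rw [pow_mul 2, pow_mul 3, ← mul_pow]
    exact Nat.pow_le_pow_left (by norm_num) m
  omega

end touched

end Pool.Agent.H545R2.K
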