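import Pool.Agent.H545R2.NFam
import Pool.Agent.H560R2.Neg6

set_option autoImplicit false

/-! The chain theorem for Hamiltonicity. -/

namespace Pool.Agent.H545R2.Neg

open Pool.Agent.H545R2 Pool.Agent.H560R2 Pool.Agent.H520R2 Pool.Agent.H520R2.NM

/-- The chain theorem with blocks at prescribed places. -/
theorem ham_chain {F : Type} [Field F] [Fintype F] [DecidableEq F] {n m l1 l2 d lam : ℕ}
    (hd : 1 ≤ d) (hq : Fintype.card F ≤ 2 ^ lam)
    (hq2 : 1024 * lam * (lam + 1) * d ≤ Fintype.card F)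
    (hn : 3 * segP (Fintype.card F) (2 * d) l1 l2 ≤ n)
    (H : SimpleGraph (Fin n)) (en : Fin m → (Fin l1 → Bool) × (Fin l2 → Bool))
    (hen : Function.Injective en)
    (α : (Fin l1 → Bool) × (F × F) → Fin n) (β : (Fin l2 → Bool) × (F × F) → Fin n)
    (hα : Function.Injective α) (hβ : Function.Injective β) (hαβ : ∀ x x', α x ≠ β x')
    (hH : ∀ j e, H.Adj (α ((en j).1, e)) (β ((en j).2, e)))
    {L : Type} (lf : L → SimpleGraph (Fin n) → Bool) (hlf : ∀ l, FreeOutB H d (lf l))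
    {N : ℕ} (C : Circuit L N) (out : Wire L N)
    (hC : ∀ G, out.eval (inp lf G) (C.vals (inp lf G)) = true ↔ G.IsHamiltonian)
    (hsize : C.size + C.fanins.sum < 2 ^ d) :
    ∃ G : ℕ → SimpleGraph (Fin n),
      (∀ i < m, G i ≤ G (i + 1) ∧
        (∀ u v, ¬ H.Adj u v → ((G i).Adj u v ↔ (G (i + 1)).Adj u v)) ∧
        C.probes (inp lf (G i)) ≠ C.probes (inp lf (G (i + 1)))) ∧
      (∀ i ≤ m, ¬ (G i).IsHamiltonian) := by
  classical
  obtain ⟨E, k1, k2, k3, k4⟩ := poly_family (F := F) (D := 2 * d) (by omega) hn H en hen α β hα hβ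
    hαβ hH
  have hf0 : ¬ fPoly (F := F) (2 * d) ∅ := by
    rintro ⟨c, hc⟩
    exact hc 0
  have hfree : ∀ l, FreeOut H d (fun G => lf l G = true) := hlf
  obtain ⟨Y, h1, h2, h3⟩ := chain_gen (m := m) (fPoly (2 * d)) hf0 (id : Fin m → Fin m)
    Function.injective_id (fun y => inp lf (E y)) (by
      intro y y' hyy l
      obtain ⟨S, hS1, hS2, hS3⟩ := hlf l
      show lf l (E y) ≤ lf l (E y')
      rcases hb : lf l (E y) with _ | _
      · exact Bool.false_le _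
      · rw [hS3 (E y) (E y') (fun u v huv => ⟨k2 y y' u v huv, k2 y' y u v huv⟩)
          (fun u v _ h => k1 y y' hyy h) hb])
    C out (fun y => (hC (E y)).trans (k4 y)) (by
      intro y J g hg hgf
      have := mcomp_lower (F := F) d lam hd hq hq2
        (blockBase (fun y => inp lf (E y)) y J)
        (by
          rintro _ ⟨b, hb, rfl⟩
          rcases hb with ⟨c, rfl⟩ | ⟨l, rfl⟩
          · exact ⟨∅, by simp, fun x x' _ h => h⟩
          · exact k3 y J d _ (hfree l)) _ g hg hgf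
      have h5 : 2 * 2 ^ d ≤ 4 ^ d := by
        have : (4 : ℕ) ^ d = 2 ^ d * 2 ^ d := by rw [← mul_pow]; norm_num
        rw [this]
        apply Nat.mul_le_mul_right
        calc 2 = 2 ^ 1 := rfl
          _ ≤ 2 ^ d := Nat.pow_le_pow_right (by norm_num) hd
      omega)
  refine ⟨fun i => E (Y i), fun i hi => ⟨k1 _ _ (h1 i hi), ?_, h2 i hi⟩, fun i hi => ?_⟩
  · intro u v huv
    exact ⟨k2 _ _ u v huv, k2 _ _ u v huv⟩
  · rw [k4]
    push Not
    exact h3 i hi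

/-- size estimate -/
theorem segP_le {q d l1 l2 : ℕ} (hd : 1 ≤ d) (hqd : 1024 * d ≤ q) :
    segP q (2 * d) l1 l2 ≤ (l1 + l2 + 2 * q ^ 4 + 1) *
      (18 * q ^ 8 + 5 + 3 * ((2 ^ l1 + 2 ^ l2) * q ^ 2)) := by
  have e0 : 1024 ≤ q := by omega
  have e1 : 2 * d ≤ q := by omega
  have e2 : 2 * d * q ≤ q ^ 2 := by rw [sq]; exact Nat.mul_le_mul_right _ e1
  have e3 : q * (2 * d) ≤ q ^ 2 := by rw [mul_comm]; exact e2
  have e4 : q * (2 * d) * q ^ 2 ≤ q ^ 4 := by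
    calc q * (2 * d) * q ^ 2 ≤ q ^ 2 * q ^ 2 := Nat.mul_le_mul_right _ e3
      _ = q ^ 4 := by ring
  have e5 : 4 * q ^ 2 ≤ q ^ 4 := by
    calc 4 * q ^ 2 ≤ (q * q) * q ^ 2 := Nat.mul_le_mul_right _ (by nlinarith)
      _ = q ^ 4 := by ring
  have hSt : 2 * d * q + (q * (2 * d) * q ^ 2 + q ^ 2) ≤ 2 * q ^ 4 := by omega
  have e6 : q ^ 4 ≤ q ^ 8 := Nat.pow_le_pow_right (by omega) (by norm_num)
  have e7 : q ≤ q ^ 2 := by rw [sq]; exact Nat.le_mul_self q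
  have hQ : (2 * d * q + (q * (2 * d) * q ^ 2 + q ^ 2)) ^ 2 + (2 * d + (q * (2 * d) + q)) ≤
      4 * q ^ 8 + 3 * q ^ 2 := by
    have : (2 * d * q + (q * (2 * d) * q ^ 2 + q ^ 2)) ^ 2 ≤ (2 * q ^ 4) ^ 2 :=
      Nat.pow_le_pow_left hSt 2
    have e8 : (2 * q ^ 4) ^ 2 = 4 * q ^ 8 := by ring
    omega
  unfold segP segN
  set b := l1 + l2 + (2 * d * q + (q * (2 * d) * q ^ 2 + q ^ 2)) with hb
  set S0 := q ^ 2 + 1 + ((2 * d * q + (q * (2 * d) * q ^ 2 + q ^ 2)) ^ 2 +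
    (2 * d + (q * (2 * d) + q))) + (2 ^ l1 * q ^ 2 + 2 ^ l2 * q ^ 2) with hS0
  have hbb : b + 1 ≤ l1 + l2 + 2 * q ^ 4 + 1 := by omega
  have hS : 3 * S0 + 5 ≤ 18 * q ^ 8 + 5 + 3 * ((2 ^ l1 + 2 ^ l2) * q ^ 2) := by
    have e9 : (2 ^ l1 + 2 ^ l2) * q ^ 2 = 2 ^ l1 * q ^ 2 + 2 ^ l2 * q ^ 2 := by ring
    have e10 : 1 ≤ q ^ 2 := Nat.one_le_pow _ _ (by omega)
    omega
  calc b * (3 * S0 + 1) + b * 4 + (S0 + 1) ≤ (b + 1) * (3 * S0 + 5) := by nlinarith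
    _ ≤ _ := Nat.mul_le_mul hbb hS

end Pool.Agent.H545R2.Neg
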