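import Pool.Agent.H545R2.NEvery

set_option autoImplicit false

/-! Negations can be removed in the pairs of a graph `H` with a small vertex cover. -/

namespace Pool.Agent.H545R2.Neg

open SimpleGraph

section

variable {n : ℕ}

/-- The graph with the pairs of `H` replaced by those in `D`. -/
def rho (H : SimpleGraph (Fin n)) (D : Finset (Sym2 (Fin n))) (G : SimpleGraph (Fin n)) :
    SimpleGraph (Fin n) where
  Adj u v := (G.Adj u v ∧ ¬ H.Adj u v) ∨ (s(u, v) ∈ D ∧ u ≠ v)
  symm := ⟨fun u v h => by
    rcases h with ⟨h1, h2⟩ | ⟨h1, h2⟩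
    · exact Or.inl ⟨h1.symm, fun h => h2 h.symm⟩
    · exact Or.inr ⟨by rw [Sym2.eq_swap]; exact h1, h2.symm⟩⟩
  loopless := ⟨fun u h => by
    rcases h with ⟨h1, _⟩ | ⟨_, h2⟩
    · exact h1.ne rfl
    · exact h2 rfl⟩

theorem ham_iff_rho (H : SimpleGraph (Fin n)) (K : Finset (Fin n))
    (hK : ∀ u v, H.Adj u v → u ∈ K ∨ v ∈ K) (G : SimpleGraph (Fin n)) :
    G.IsHamiltonian ↔ ∃ D : Finset (Sym2 (Fin n)), (∀ e ∈ D, e ∈ H.edgeSet) ∧
      D.card ≤ 2 * K.card ∧ (∀ e ∈ D, e ∈ G.edgeSet) ∧ (rho H D G).IsHamiltonian := by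
  classical
  constructor
  · intro h
    by_cases hc : Fintype.card (Fin n) = 1
    · exact ⟨∅, by simp, by simp, by simp, IsHamiltonian.of_card_eq_one hc⟩
    obtain ⟨a, p, hp⟩ := h hc
    refine ⟨p.edges.toFinset.filter (fun e => e ∈ H.edgeSet), ?_, ?_, ?_, ?_⟩
    · intro e he
      exact (Finset.mem_filter.mp he).2
    · have hsub : p.edges.toFinset.filter (fun e => e ∈ H.edgeSet) ⊆
          K.biUnion (fun v => (Set.toFinite (p.toSubgraph.neighborSet v)).toFinset.image
            (fun w => s(v, w))) := by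
        intro e he
        rw [Finset.mem_filter, List.mem_toFinset] at he
        induction e using Sym2.ind with
        | _ u v =>
          have h1 : p.toSubgraph.Adj u v := Walk.adj_toSubgraph_iff_mem_edges.mpr he.1
          rw [Finset.mem_biUnion]
          rcases hK u v he.2 with hu | hv
          · refine ⟨u, hu, Finset.mem_image.mpr ⟨v, ?_, rfl⟩⟩
            rw [Set.Finite.mem_toFinset]
            exact h1
          · refine ⟨v, hv, Finset.mem_image.mpr ⟨u, ?_, Sym2.eq_swap⟩⟩
            rw [Set.Finite.mem_toFinset]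
            exact h1.symm
      refine (Finset.card_le_card hsub).trans ?_
      rw [mul_comm]
      refine Finset.card_biUnion_le_card_mul K _ 2 (fun v _ => ?_)
      refine Finset.card_image_le.trans ?_
      rw [← Set.ncard_eq_toFinset_card]
      exact (hp.isCycle.ncard_neighborSet_toSubgraph_eq_two (hp.mem_support v)).le
    · intro e he
      exact p.edges_subset_edgeSet (List.mem_toFinset.mp (Finset.mem_filter.mp he).1)
    · intro _
      have htr : ∀ e ∈ p.edges,
          e ∈ (rho H (p.edges.toFinset.filter (fun e => e ∈ H.edgeSet)) G).edgeSet := by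
        intro e he
        have heG := p.edges_subset_edgeSet he
        induction e using Sym2.ind with
        | _ u v =>
          rw [mem_edgeSet] at heG ⊢
          by_cases hH : H.Adj u v
          · right
            refine ⟨?_, heG.ne⟩
            rw [Finset.mem_filter, List.mem_toFinset]
            exact ⟨he, hH⟩
          · left
            exact ⟨heG, hH⟩
      refine ⟨a, p.transfer _ htr, ?_⟩
      rw [Walk.isHamiltonianCycle_iff_isCycle_and_length_eq]
      refine ⟨hp.isCycle.transfer htr, ?_⟩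
      rw [Walk.length_transfer]
      exact hp.length_eq
  · rintro ⟨D, _, _, hD, h⟩
    refine h.mono ?_
    intro u v huv
    rcases huv with ⟨h1, _⟩ | ⟨h1, _⟩
    · exact h1
    · exact hD _ h1

open Classical in
/-- A variable. -/
noncomputable def pairVar (u v : Fin n) : SimpleGraph (Fin n) → Bool :=
  fun G => decide (G.Adj u v)

/-- Variables and constants. -/
def varsConst (n : ℕ) : Set (SimpleGraph (Fin n) → Bool) :=
  {φ | (∃ c, φ = fun _ => c) ∨ ∃ u v, φ = pairVar u v}

theorem bprog_append {X : Type} {B : Set (X → Bool)} {L L' : List (X → Bool)} (h : BProg B L)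
    (h' : BProg B L') : BProg B (L' ++ L) := by
  induction h' with
  | nil => simpa using h
  | cons L' f g op _ hf hg ih =>
    refine BProg.cons _ f g op ih ?_ ?_
    · exact hf.imp id (List.mem_append_left _)
    · exact hg.imp id (List.mem_append_left _)

theorem bprog_map {X : Type} {B : Set (X → Bool)} (e : X → X) (hB : ∀ b ∈ B, b ∘ e ∈ B)
    {L : List (X → Bool)} (h : BProg B L) : BProg B (L.map (fun f => f ∘ e)) := by
  induction h with
  | nil => exact BProg.nil
  | cons L f g op _ hf hg ih =>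
    exact BProg.cons _ (f ∘ e) (g ∘ e) op ih
      (hf.imp (hB f) (List.mem_map_of_mem)) (hg.imp (hB g) (List.mem_map_of_mem))

theorem rho_out (H : SimpleGraph (Fin n)) (D : Finset (Sym2 (Fin n)))
    {G G' : SimpleGraph (Fin n)} (h : ∀ u v, ¬ H.Adj u v → (G.Adj u v ↔ G'.Adj u v)) :
    rho H D G = rho H D G' := by
  ext u v
  show (G.Adj u v ∧ ¬ H.Adj u v) ∨ (s(u, v) ∈ D ∧ u ≠ v) ↔
    (G'.Adj u v ∧ ¬ H.Adj u v) ∨ (s(u, v) ∈ D ∧ u ≠ v)
  by_cases hH : H.Adj u v
  · simp [hH]
  · rw [h u v hH]

theorem vars_rho (H : SimpleGraph (Fin n)) (D : Finset (Sym2 (Fin n))) :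
    ∀ b ∈ varsConst n, b ∘ rho H D ∈ varsConst n := by
  classical
  rintro _ (⟨c, rfl⟩ | ⟨u, v, rfl⟩)
  · exact Or.inl ⟨c, rfl⟩
  · by_cases huv : u = v
    · subst huv
      refine Or.inl ⟨false, ?_⟩
      funext G
      simp [pairVar]
    by_cases hH : H.Adj u v
    · refine Or.inl ⟨decide (s(u, v) ∈ D), ?_⟩
      funext G
      simp only [pairVar, Function.comp]
      rw [decide_eq_decide]
      show (G.Adj u v ∧ ¬ H.Adj u v) ∨ (s(u, v) ∈ D ∧ u ≠ v) ↔ _
      simp [hH, huv]
    · by_cases hD : s(u, v) ∈ D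
      · refine Or.inl ⟨true, ?_⟩
        funext G
        simp only [pairVar, Function.comp]
        rw [decide_eq_true_eq]
        exact Or.inr ⟨hD, huv⟩
      · refine Or.inr ⟨u, v, ?_⟩
        funext G
        simp only [pairVar, Function.comp]
        rw [decide_eq_decide]
        show (G.Adj u v ∧ ¬ H.Adj u v) ∨ (s(u, v) ∈ D ∧ u ≠ v) ↔ _
        simp [hH, hD]

theorem mono_const (H : SimpleGraph (Fin n)) (c : Bool) : MonoIn H (fun _ => c) :=
  fun _ _ _ _ h => h

theorem mono_pairVar (H : SimpleGraph (Fin n)) (u v : Fin n) : MonoIn H (pairVar u v) := by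
  intro G G' h1 _ h
  simp only [pairVar, decide_eq_true_eq] at h ⊢
  exact h1 h

theorem mono_and (H : SimpleGraph (Fin n)) {f g : SimpleGraph (Fin n) → Bool} (hf : MonoIn H f)
    (hg : MonoIn H g) : MonoIn H (fun G => f G && g G) := by
  intro G G' h1 h2 h
  rw [Bool.and_eq_true] at h ⊢
  exact ⟨hf G G' h1 h2 h.1, hg G G' h1 h2 h.2⟩

theorem mono_or (H : SimpleGraph (Fin n)) {f g : SimpleGraph (Fin n) → Bool} (hf : MonoIn H f)
    (hg : MonoIn H g) : MonoIn H (fun G => f G || g G) := by
  intro G G' h1 h2 h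
  rw [Bool.or_eq_true] at h ⊢
  exact h.imp (hf G G' h1 h2) (hg G G' h1 h2)

/-- conjunction with the variables of a list of pairs -/
theorem and_vars (H : SimpleGraph (Fin n)) (D : List (Sym2 (Fin n)))
    (L : List (SimpleGraph (Fin n) → Bool)) (hL : BProg (varsConst n) L)
    (f : SimpleGraph (Fin n) → Bool)
    (hf : f ∈ varsConst n ∨ f ∈ L) (hfm : MonoIn H f) :
    ∃ (L' : List (SimpleGraph (Fin n) → Bool)) (g : SimpleGraph (Fin n) → Bool),
      BProg (varsConst n) (L' ++ L) ∧ L'.length ≤ D.length ∧ (∀ h ∈ L', MonoIn H h) ∧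
      (g ∈ varsConst n ∨ g ∈ L' ++ L) ∧ MonoIn H g ∧
      ∀ G, g G = true ↔ f G = true ∧ ∀ e ∈ D, e ∈ G.edgeSet := by
  induction D with
  | nil => exact ⟨[], f, by simpa using hL, le_rfl, by simp, by simpa using hf, hfm, by simp⟩
  | cons e D ih =>
    obtain ⟨L', g, h1, h2, h3, h4, h5, h6⟩ := ih
    induction e using Sym2.ind with
    | _ u v =>
      refine ⟨(fun G => g G && pairVar u v G) :: L', fun G => g G && pairVar u v G, ?_, ?_, ?_, ?_,
        mono_and H h5 (mono_pairVar H u v), ?_⟩
      · rw [List.cons_append]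
        exact BProg.cons _ g (pairVar u v) (fun a b => a && b) h1 h4 (Or.inl (Or.inr ⟨u, v, rfl⟩))
      · simp only [List.length_cons]; omega
      · intro h hh
        rcases List.mem_cons.mp hh with rfl | hh
        · exact mono_and H h5 (mono_pairVar H u v)
        · exact h3 h hh
      · right
        simp
      · intro G
        rw [Bool.and_eq_true, h6]
        simp only [pairVar, decide_eq_true_eq, List.mem_cons, forall_eq_or_imp, mem_edgeSet]
        constructor
        · rintro ⟨⟨a, b⟩, c⟩; exact ⟨a, c, b⟩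
        · rintro ⟨a, c, b⟩; exact ⟨⟨a, b⟩, c⟩

/-- the whole program for a list of sets `D` -/
theorem or_sets (H : SimpleGraph (Fin n)) (c : ℕ) (f : SimpleGraph (Fin n) → Bool)
    (L0 : List (SimpleGraph (Fin n) → Bool)) (hL0 : BProg (varsConst n) L0)
    (hf : f ∈ varsConst n ∨ f ∈ L0) (DD : List (Finset (Sym2 (Fin n))))
    (hDD : ∀ D ∈ DD, D.card ≤ c) :
    ∃ (L : List (SimpleGraph (Fin n) → Bool)) (g : SimpleGraph (Fin n) → Bool),
      BProg (varsConst n) L ∧ L.length ≤ DD.length * (L0.length + c + 1) ∧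
      (∀ h ∈ L, MonoIn H h) ∧ (g ∈ varsConst n ∨ g ∈ L) ∧ MonoIn H g ∧
      ∀ G, g G = true ↔ ∃ D ∈ DD, f (rho H D G) = true ∧ ∀ e ∈ D, e ∈ G.edgeSet := by
  classical
  induction DD with
  | nil =>
    exact ⟨[], fun _ => false, BProg.nil, by simp, by simp, Or.inl (Or.inl ⟨_, rfl⟩),
      mono_const H _, by simp⟩
  | cons D DD ih =>
    obtain ⟨L, g, h1, h2, h3, h4, h5, h6⟩ := ih (fun D hD => hDD D (List.mem_cons_of_mem _ hD))
    have hconst : ∀ φ : SimpleGraph (Fin n) → Bool, MonoIn H (φ ∘ rho H D) := by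
      intro φ G G' _ k2 k3
      simp only [Function.comp] at k3 ⊢
      rw [← rho_out H D k2]
      exact k3
    have hL1 : BProg (varsConst n) (L0.map (fun f => f ∘ rho H D) ++ L) :=
      bprog_append h1 (bprog_map (rho H D) (vars_rho H D) hL0)
    obtain ⟨L', g', k1, k2, k3, k4, k5, k6⟩ := and_vars H D.toList _ hL1 (f ∘ rho H D) (by
      rcases hf with hf | hf
      · exact Or.inl (vars_rho H D f hf)
      · exact Or.inr (List.mem_append_left _ (List.mem_map_of_mem hf))) (hconst f)
    refine ⟨(fun G => g G || g' G) :: (L' ++ (L0.map (fun f => f ∘ rho H D) ++ L)),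
      fun G => g G || g' G, ?_, ?_, ?_, ?_, mono_or H h5 k5, ?_⟩
    · refine BProg.cons _ g g' (fun a b => a || b) k1 ?_ k4
      rcases h4 with h4 | h4
      · exact Or.inl h4
      · exact Or.inr (List.mem_append_right _ (List.mem_append_right _ h4))
    · have hc := hDD D List.mem_cons_self
      rw [Finset.length_toList] at k2
      simp only [List.length_cons, List.length_append, List.length_map]
      have : (DD.length + 1) * (L0.length + c + 1) =
          DD.length * (L0.length + c + 1) + (L0.length + c + 1) := by ring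
      rw [this]
      omega
    · intro h hh
      rcases List.mem_cons.mp hh with rfl | hh
      · exact mono_or H h5 k5
      · rcases List.mem_append.mp hh with hh | hh
        · exact k3 h hh
        · rcases List.mem_append.mp hh with hh | hh
          · obtain ⟨φ, _, rfl⟩ := List.mem_map.mp hh
            exact hconst φ
          · exact h3 h hh
    · right; exact List.mem_cons_self
    · intro G
      rw [Bool.or_eq_true, h6, k6]
      simp only [Function.comp, Finset.mem_toList, List.mem_cons, exists_eq_or_imp]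
      exact or_comm

/-- number of small subsets -/
theorem card_small {α : Type*} [DecidableEq α] (S : Finset α) (c : ℕ) :
    (S.powerset.filter (fun D => D.card ≤ c)).card ≤ (S.card + 1) ^ c := by
  classical
  let f : (Fin c → Option S) → Finset α := fun g =>
    Finset.univ.biUnion (fun i => match g i with
      | none => ∅
      | some x => {x.1})
  have hsub : S.powerset.filter (fun D => D.card ≤ c) ⊆ Finset.univ.image f := by
    intro D hD
    rw [Finset.mem_filter, Finset.mem_powerset] at hD
    rw [Finset.mem_image]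
    let e := D.equivFin
    refine ⟨fun i => if h : i.val < D.card then some ⟨(e.symm ⟨i.val, h⟩).1,
      hD.1 (e.symm ⟨i.val, h⟩).2⟩ else none, Finset.mem_univ _, ?_⟩
    ext x
    simp only [f, Finset.mem_biUnion, Finset.mem_univ, true_and]
    constructor
    · rintro ⟨i, hi⟩
      by_cases h : i.val < D.card
      · simp only [h, dite_true, Finset.mem_singleton] at hi
        rw [hi]
        exact (e.symm ⟨i.val, h⟩).2
      · simp [h] at hi
    · intro hx
      have hlt : (e ⟨x, hx⟩).val < D.card := (e ⟨x, hx⟩).isLt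
      refine ⟨⟨(e ⟨x, hx⟩).val, lt_of_lt_of_le hlt hD.2⟩, ?_⟩
      simp only [hlt, dite_true, Finset.mem_singleton]
      simp
  refine (Finset.card_le_card hsub).trans (Finset.card_image_le.trans ?_)
  simp [Fintype.card_option]

/-- number of pairs covered by few vertices -/
theorem card_covered (H : SimpleGraph (Fin n)) (K : Finset (Fin n)) (S : Finset (Sym2 (Fin n)))
    (hS : ∀ e ∈ S, e ∈ H.edgeSet) (hK : ∀ u v, H.Adj u v → u ∈ K ∨ v ∈ K) :
    S.card ≤ K.card * n := by
  classical
  have : S ⊆ (K ×ˢ (Finset.univ : Finset (Fin n))).image (fun p => s(p.1, p.2)) := by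
    intro e he
    have := hS e he
    induction e using Sym2.ind with
    | _ u v =>
      rw [Finset.mem_image]
      rcases hK u v this with h | h
      · exact ⟨(u, v), by simp [h], rfl⟩
      · exact ⟨(v, u), by simp [h], Sym2.eq_swap⟩
  refine (Finset.card_le_card this).trans (Finset.card_image_le.trans ?_)
  rw [Finset.card_product, Finset.card_univ, Fintype.card_fin]

/-- The upper bound. -/
theorem cover_upper (H : SimpleGraph (Fin n)) (K : Finset (Fin n))
    (hK : ∀ u v, H.Adj u v → u ∈ K ∨ v ∈ K)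
    (L0 : List (SimpleGraph (Fin n) → Bool)) (hL0 : BProg (varsConst n) L0)
    (f : SimpleGraph (Fin n) → Bool) (hf : f ∈ varsConst n ∨ f ∈ L0)
    (hham : ∀ G, f G = true ↔ G.IsHamiltonian) :
    ∃ (L : List (SimpleGraph (Fin n) → Bool)) (g : SimpleGraph (Fin n) → Bool),
      BProg (varsConst n) L ∧
      L.length ≤ (K.card * n + 1) ^ (2 * K.card) * (L0.length + 2 * K.card + 1) ∧
      (∀ h ∈ L, MonoIn H h) ∧ (g ∈ varsConst n ∨ g ∈ L) ∧
      ∀ G, g G = true ↔ G.IsHamiltonian := by
  classical
  let S : Finset (Sym2 (Fin n)) := Finset.univ.filter (fun e => e ∈ H.edgeSet)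
  let DD := S.powerset.filter (fun D => D.card ≤ 2 * K.card)
  obtain ⟨L, g, h1, h2, h3, h4, h5, h6⟩ := or_sets H (2 * K.card) f L0 hL0 hf DD.toList (by
    intro D hD
    rw [Finset.mem_toList] at hD
    exact (Finset.mem_filter.mp hD).2)
  refine ⟨L, g, h1, ?_, h3, h4, ?_⟩
  · refine h2.trans ?_
    rw [Finset.length_toList]
    apply Nat.mul_le_mul_right
    refine (card_small S _).trans ?_
    apply Nat.pow_le_pow_left
    have := card_covered H K S (fun e he => (Finset.mem_filter.mp he).2) hK
    omega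
  · intro G
    rw [h6, ham_iff_rho H K hK]
    constructor
    · rintro ⟨D, hD, k1, k2⟩
      rw [Finset.mem_toList] at hD
      obtain ⟨hD1, hD2⟩ := Finset.mem_filter.mp hD
      rw [Finset.mem_powerset] at hD1
      exact ⟨D, fun e he => (Finset.mem_filter.mp (hD1 he)).2, hD2, k2, (hham _).mp k1⟩
    · rintro ⟨D, k1, k2, k3, k4⟩
      refine ⟨D, ?_, (hham _).mpr k4, k3⟩
      rw [Finset.mem_toList]
      refine Finset.mem_filter.mpr ⟨?_, k2⟩
      rw [Finset.mem_powerset]
      intro e he
      exact Finset.mem_filter.mpr ⟨Finset.mem_univ _, k1 e he⟩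

end

end Pool.Agent.H545R2.Neg
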