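import Pool.Agent.H545R2.NRect

set_option autoImplicit false

/-! Programs of binary gates all of whose functions are monotone in the pairs of `H`. -/

namespace Pool.Agent.H545R2.Neg

open Pool.Agent.H545R2 Pool.Agent.H560R2 Pool.Agent.H520R2

/-- Circuits of binary gates as straight-line programs: `BProg B L` says that every function in
the list `L` is `op f g` for a Boolean operation `op` of two arguments and two functions `f`, `g`
each of which is in `B` (the inputs of the circuit) or occurs later in the list `L` (an earlier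
gate). The number of gates is the length of `L`. -/
inductive BProg {X : Type} (B : Set (X → Bool)) : List (X → Bool) → Prop
  | nil : BProg B []
  | cons (L : List (X → Bool)) (f g : X → Bool) (op : Bool → Bool → Bool) : BProg B L →
      (f ∈ B ∨ f ∈ L) → (g ∈ B ∨ g ∈ L) → BProg B ((fun x => op (f x) (g x)) :: L)

/-- `φ` is monotone in the pairs of `H`. -/
def MonoIn {n : ℕ} (H : SimpleGraph (Fin n)) (φ : SimpleGraph (Fin n) → Bool) : Prop :=
  ∀ G G' : SimpleGraph (Fin n), G ≤ G' → (∀ u v, ¬ H.Adj u v → (G.Adj u v ↔ G'.Adj u v)) →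
    φ G = true → φ G' = true

theorem monoIn_of_free {n : ℕ} {H : SimpleGraph (Fin n)} {w : ℕ} {φ : SimpleGraph (Fin n) → Bool}
    (h : FreeOutB H w φ) : MonoIn H φ := by
  obtain ⟨S, _, _, h3⟩ := h
  intro G G' h1 h2 h4
  exact h3 G G' h2 (fun u v _ h => h1 h) h4

/-- monotone binary programs on a family of inputs become monotone programs -/
theorem bprog_family {X ι : Type} {B : Set (X → Bool)} (E : Set ι → X)
    (hBm : ∀ b ∈ B, ∀ x x', x ⊆ x' → b (E x) = true → b (E x') = true)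
    {L : List (X → Bool)} (hL : BProg B L)
    (hm : ∀ g ∈ L, ∀ x x', x ⊆ x' → g (E x) = true → g (E x') = true) :
    ∃ L' : List (Set ι → Bool), MProg ({b | (∃ c, b = fun _ => c) ∨ ∃ φ ∈ B, b = φ ∘ E}) L' ∧
      L'.length ≤ L.length ∧
      ∀ g ∈ L, Av ({b | (∃ c, b = fun _ => c) ∨ ∃ φ ∈ B, b = φ ∘ E}) L' (g ∘ E) := by
  induction hL with
  | nil => exact ⟨[], MProg.nil, le_rfl, by simp⟩
  | cons L f g op hL hf hg ih =>
    obtain ⟨L', h1, h2, h3⟩ := ih (fun g hg => hm g (List.mem_cons_of_mem _ hg))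
    have av : ∀ f, (f ∈ B ∨ f ∈ L) →
        Av ({b | (∃ c, b = fun _ => c) ∨ ∃ φ ∈ B, b = φ ∘ E}) L' (f ∘ E) := by
      intro f hf
      rcases hf with hf | hf
      · exact Or.inl (Or.inr ⟨f, hf, rfl⟩)
      · exact h3 f hf
    have mo : ∀ f, (f ∈ B ∨ f ∈ L) → ∀ x x', x ⊆ x' → f (E x) = true → f (E x') = true := by
      intro f hf
      rcases hf with hf | hf
      · exact hBm f hf
      · exact hm f (List.mem_cons_of_mem _ hf)
    have hnew := hm _ (List.mem_cons_self (a := fun x => op (f x) (g x)) (l := L))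
    have hcases := mono_op op (f ∘ E) (g ∘ E) (mo f hf) (mo g hg) hnew
    -- an available function which agrees with the new gate
    have fin : ∀ (L'' : List (Set ι → Bool)) (φ : Set ι → Bool),
        MProg ({b | (∃ c, b = fun _ => c) ∨ ∃ φ ∈ B, b = φ ∘ E}) L'' →
        L''.length ≤ L'.length + 1 →
        (∀ g ∈ L, Av ({b | (∃ c, b = fun _ => c) ∨ ∃ φ ∈ B, b = φ ∘ E}) L'' (g ∘ E)) →
        Av ({b | (∃ c, b = fun _ => c) ∨ ∃ φ ∈ B, b = φ ∘ E}) L'' φ →
        (∀ x, op ((f ∘ E) x) ((g ∘ E) x) = φ x) →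
        ∃ L' : List (Set ι → Bool),
          MProg ({b | (∃ c, b = fun _ => c) ∨ ∃ φ ∈ B, b = φ ∘ E}) L' ∧
          L'.length ≤ ((fun x => op (f x) (g x)) :: L).length ∧
          ∀ g' ∈ ((fun x => op (f x) (g x)) :: L),
            Av ({b | (∃ c, b = fun _ => c) ∨ ∃ φ ∈ B, b = φ ∘ E}) L' (g' ∘ E) := by
      intro L'' φ k1 k2 k3 k4 k5
      refine ⟨L'', k1, ?_, ?_⟩
      · rw [List.length_cons]; omega
      · intro g' hg'
        rcases List.mem_cons.mp hg' with rfl | hg'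
        · have : (fun x => op (f x) (g x)) ∘ E = φ := funext k5
          rw [this]
          exact k4
        · exact k3 g' hg'
    rcases hcases with k | k | k | k | k | k
    · exact fin L' (fun _ => false) h1 (by omega) h3 (Or.inl (Or.inl ⟨_, rfl⟩)) k
    · exact fin L' (fun _ => true) h1 (by omega) h3 (Or.inl (Or.inl ⟨_, rfl⟩)) k
    · exact fin L' (f ∘ E) h1 (by omega) h3 (av f hf) k
    · exact fin L' (g ∘ E) h1 (by omega) h3 (av g hg) k
    · exact fin _ _ (MProg.and h1 (av f hf) (av g hg)) (by simp)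
        (fun g hg => (h3 g hg).cons _) (Or.inr List.mem_cons_self) k
    · exact fin _ _ (MProg.or h1 (av f hf) (av g hg)) (by simp)
        (fun g hg => (h3 g hg).cons _) (Or.inr List.mem_cons_self) k

/-- The lower bound. -/
theorem every_lower (d n : ℕ) (hd : 1 ≤ d)
    (hn : (2 ^ 131 * (Nat.log 2 d + 1) ^ 12 * d ^ 6) ^ 2 ≤ n)
    (H : SimpleGraph (Fin n)) (E : Finset (Fin n × Fin n)) (hE : ∀ e ∈ E, H.Adj e.1 e.2)
    (hEd : ∀ e ∈ E, ∀ f ∈ E, e ≠ f → e.1 ≠ f.1 ∧ e.1 ≠ f.2 ∧ e.2 ≠ f.1 ∧ e.2 ≠ f.2)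
    (hcard : 2 ^ 42 * (Nat.log 2 d + 1) ^ 4 * d ^ 2 ≤ E.card)
    (L : List (SimpleGraph (Fin n) → Bool)) (hL : BProg {φ | FreeOutB H d φ} L)
    (hmono : ∀ g ∈ L, MonoIn H g) (f : SimpleGraph (Fin n) → Bool)
    (hf : FreeOutB H d f ∨ f ∈ L) (hham : ∀ G, f G = true ↔ G.IsHamiltonian) :
    2 ^ d ≤ L.length := by
  classical
  set u := Nat.log 2 d + 1 with hu
  have hu1 : 1 ≤ u := by omega
  obtain ⟨lam, h0, h1, h2⟩ := exists_lam2 d hd
  obtain ⟨F, _, _, _, hq⟩ := exists_field lam h0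
  set q := 2 ^ lam with hqd
  rw [← hu] at h2
  have hlam : 1 ≤ lam := by omega
  have hd4 : 1024 * d ≤ q := by
    refine le_trans ?_ h1
    have : 1 ≤ lam * (lam + 1) := Nat.mul_pos hlam (by omega)
    calc 1024 * d = (1024 * d) * 1 := by ring
      _ ≤ (1024 * d) * (lam * (lam + 1)) := Nat.mul_le_mul_left _ this
      _ = _ := by ring
  have hq6 : q ^ 6 ≤ 2 ^ 126 * u ^ 12 * d ^ 6 := by
    calc q ^ 6 ≤ (2 ^ 21 * u ^ 2 * d) ^ 6 := Nat.pow_le_pow_left h2 6
      _ = _ := by ring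
  have hq2 : q ^ 2 ≤ 2 ^ 42 * u ^ 4 * d ^ 2 := by
    calc q ^ 2 ≤ (2 ^ 21 * u ^ 2 * d) ^ 2 := Nat.pow_le_pow_left h2 2
      _ = _ := by ring
  have hq12 : 1024 * q ^ 12 * 1 ≤ n := by
    refine le_trans ?_ hn
    calc 1024 * q ^ 12 * 1 = (32 * q ^ 6) ^ 2 := by ring
      _ ≤ (32 * (2 ^ 126 * u ^ 12 * d ^ 6)) ^ 2 := by gcongr
      _ = (2 ^ 131 * u ^ 12 * d ^ 6) ^ 2 := by
        have : 32 * (2 ^ 126 * u ^ 12 * d ^ 6) = 2 ^ 131 * u ^ 12 * d ^ 6 := by ring
        rw [this]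
  have hcond : 3 * segP q (2 * d) 0 0 ≤ n := by
    refine size_cond hd hd4 (ell := 1) le_rfl (by omega) (by omega) hq12 ?_
    refine le_trans ?_ hq12
    have e1 : q ^ 6 ≤ q ^ 12 := Nat.pow_le_pow_right (by omega) (by norm_num)
    have e2 : (2 ^ 0 + 2 ^ 0) * (256 * (q ^ 6 * 1)) = 512 * q ^ 6 := by ring
    rw [e2]
    omega
  obtain ⟨g⟩ := Function.Embedding.nonempty_of_card_le (α := F × F) (β := E) (by
    rw [Fintype.card_prod, hq, ← sq, Fintype.card_coe]
    exact hq2.trans hcard)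
  have hdj : ∀ x y : F × F, x ≠ y → (g x).1.1 ≠ (g y).1.1 ∧ (g x).1.1 ≠ (g y).1.2 ∧
      (g x).1.2 ≠ (g y).1.1 ∧ (g x).1.2 ≠ (g y).1.2 := fun x y hxy =>
    hEd _ (g x).2 _ (g y).2 (fun h => hxy (g.injective (Subtype.ext h)))
  obtain ⟨G, k1, k2, k3, k4⟩ := poly_family (F := F) (D := 2 * d) (l1 := 0) (l2 := 0) (m := 1)
    (by omega) (by rw [hq]; exact hcond) H (fun _ => (fun _ => false, fun _ => false))
    (fun i j _ => Subsingleton.elim i j) (fun x => (g x.2).1.1) (fun x => (g x.2).1.2)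
    (fun x x' h => by
      by_contra hne
      have : x.2 ≠ x'.2 := fun h2 => hne (Prod.ext (Subsingleton.elim _ _) h2)
      exact (hdj _ _ this).1 h)
    (fun x x' h => by
      by_contra hne
      have : x.2 ≠ x'.2 := fun h2 => hne (Prod.ext (Subsingleton.elim _ _) h2)
      exact (hdj _ _ this).2.2.2 h)
    (fun x x' h => by
      by_cases h2 : x.2 = x'.2
      · simp only [h2] at h
        exact (hE _ (g x'.2).2).ne h
      · exact (hdj _ _ h2).2.1 h)
    (fun j e => hE _ (g e).2)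
  let Fm : Set (F × F) → SimpleGraph (Fin n) := fun x => G (fun _ => x)
  have hFm : ∀ x x', x ⊆ x' → Fm x ≤ Fm x' := fun x x' h => k1 _ _ (fun _ => h)
  have hFo : ∀ x x' u v, ¬ H.Adj u v → ((Fm x).Adj u v ↔ (Fm x').Adj u v) :=
    fun x x' u v huv => ⟨k2 _ _ u v huv, k2 _ _ u v huv⟩
  have hmonoF : ∀ φ, MonoIn H φ → ∀ x x', x ⊆ x' → φ (Fm x) = true → φ (Fm x') = true :=
    fun φ hφ x x' hx h => hφ _ _ (hFm x x' hx) (hFo x x') h
  obtain ⟨L', m1, m2, m3⟩ := bprog_family Fm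
    (fun b hb => hmonoF b (monoIn_of_free hb)) hL (fun g hg => hmonoF g (hmono g hg))
  have hupd : ∀ x : Set (F × F), Function.update (fun _ : Fin 1 => (∅ : Set (F × F))) 0 x =
      fun _ => x := by
    intro x
    funext j
    rw [Subsingleton.elim j 0, Function.update_self]
  have := mcomp_lower (F := F) d lam hd (by rw [hq]) (by rw [hq]; exact h1)
    ({b | (∃ c, b = fun _ => c) ∨ ∃ φ ∈ {φ | FreeOutB H d φ}, b = φ ∘ Fm})
    (by
      rintro b (⟨c, rfl⟩ | ⟨φ, hφ, rfl⟩)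
      · exact ⟨∅, by simp, fun x x' _ h => h⟩
      · obtain ⟨T, hT, hT2⟩ := k3 (fun _ => ∅) 0 d (fun G => φ G = true) hφ
        refine ⟨T, hT, fun x x' hx h => ?_⟩
        have := hT2 x x' hx
        simp only [hupd] at this
        exact this h)
    L.length (f ∘ Fm) ⟨L', m1, m2, by
      rcases hf with hf | hf
      · exact Or.inl (Or.inr ⟨f, hf, rfl⟩)
      · exact m3 f hf⟩ (fun x => by
      show f (Fm x) = true ↔ _
      rw [hham, k4]
      constructor
      · rintro ⟨_, h⟩; exact h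
      · intro h; exact ⟨0, h⟩)
  have h5 : 2 * 2 ^ d ≤ 4 ^ d := by
    have : (4 : ℕ) ^ d = 2 ^ d * 2 ^ d := by rw [← mul_pow]; norm_num
    rw [this]
    apply Nat.mul_le_mul_right
    calc 2 = 2 ^ 1 := rfl
      _ ≤ 2 ^ d := Nat.pow_le_pow_right (by norm_num) hd
  omega

end Pool.Agent.H545R2.Neg
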