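import Pool.Agent.H545R2.NPlace
import Pool.Agent.H560R2.Neg4

set_option autoImplicit false
set_option linter.unusedSectionVars false

/-! OR of many copies of POLY embedded into Hamiltonicity. -/

namespace Pool.Agent.H545R2.Neg

open Pool.Agent.H545R2 Pool.Agent.H560R2

section csp

variable {St Cl : Type} (cls : St → Cl) (cmp : St → St → Prop)

/-- clauses of the CSP: incompatible pairs, and the classes -/
abbrev CQ : Type := {p : St × St // cls p.1 ≠ cls p.2 ∧ ¬ cmp p.1 p.2} ⊕ Cl

open Classical in
/-- literals of the clauses -/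
noncomputable def clit : CQ cls cmp → St → Option Bool
  | Sum.inl p, τ => if τ = p.1.1 ∨ τ = p.1.2 then some false else none
  | Sum.inr c, τ => if cls τ = c then some true else none

theorem tabSat_iff {s : ℕ} (st : Fin s → St) (Y : Set (Fin s)) :
    TabSat st (clit cls cmp) Y ↔ CspSat cls cmp st Y := by
  classical
  constructor
  · rintro ⟨z, h1, h2⟩
    have hc : ∀ k : Cl, ∃ τ, cls τ = k ∧ z τ = true := by
      intro k
      obtain ⟨τ, hτ⟩ := h1 (Sum.inr k)
      simp only [clit] at hτ
      split_ifs at hτ with h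
      exact ⟨τ, h, (Option.some.inj hτ).symm⟩
    choose σ h3 h4 using hc
    refine ⟨σ, h3, ?_, ?_⟩
    · intro k k' hkk
      by_contra hcon
      have hb : cls (σ k, σ k').1 ≠ cls (σ k, σ k').2 := by
        simp only [h3]
        exact hkk
      obtain ⟨τ, hτ⟩ := h1 (Sum.inl ⟨(σ k, σ k'), hb, hcon⟩)
      simp only [clit] at hτ
      split_ifs at hτ with h
      have hz : z τ = false := (Option.some.inj hτ).symm
      rcases h with h | h
      · rw [h, h4] at hz; simp at hz
      · rw [h, h4] at hz; simp at hz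
    · intro e he
      apply h2
      rw [← he]
      exact h4 _
  · rintro ⟨σ, h1, h2, h3⟩
    refine ⟨fun τ => decide (∃ k, σ k = τ), ?_, ?_⟩
    · rintro (⟨⟨a, b⟩, h4, h5⟩ | c)
      · by_cases ha : ∃ k, σ k = a
        · by_cases hb : ∃ k, σ k = b
          · exfalso
            obtain ⟨k, rfl⟩ := ha
            obtain ⟨k', rfl⟩ := hb
            simp only [h1] at h4
            exact h5 (h2 k k' h4)
          · refine ⟨b, ?_⟩
            simp only [clit, or_true, if_true]
            simp [hb]
        · refine ⟨a, ?_⟩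
          simp only [clit, true_or, if_true]
          simp [ha]
      · refine ⟨σ c, ?_⟩
        simp [clit, h1]
    · intro e he
      rw [decide_eq_true_eq] at he
      obtain ⟨k, hk⟩ := he
      apply h3
      rw [← hk, h1]

theorem card_CQ [Fintype St] [Fintype Cl] :
    Nat.card (CQ cls cmp) ≤ Fintype.card St ^ 2 + Fintype.card Cl := by
  classical
  rw [Nat.card_sum, sq, ← Fintype.card_prod, Nat.card_eq_fintype_card, Nat.card_eq_fintype_card]
  exact Nat.add_le_add (Fintype.card_subtype_le _) le_rfl

end csp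

theorem segN_mono {s l1 l2 nSt nQ nQ' : ℕ} (h : nQ ≤ nQ') :
    segN s l1 l2 nSt nQ ≤ segN s l1 l2 nSt nQ' := by
  unfold segN
  gcongr

section

variable {F : Type} [Field F] [Fintype F] [DecidableEq F]

/-- number of segments used for POLY -/
def segP (q D l1 l2 : ℕ) : ℕ :=
  segN (q ^ 2) l1 l2 (D * q + (q * D * q ^ 2 + q ^ 2))
    ((D * q + (q * D * q ^ 2 + q ^ 2)) ^ 2 + (D + (q * D + q)))

theorem poly_family {n m l1 l2 D : ℕ} (hD : 1 ≤ D)
    (hn : 3 * segP (Fintype.card F) D l1 l2 ≤ n)
    (H : SimpleGraph (Fin n)) (en : Fin m → (Fin l1 → Bool) × (Fin l2 → Bool))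
    (hen : Function.Injective en)
    (α : (Fin l1 → Bool) × (F × F) → Fin n) (β : (Fin l2 → Bool) × (F × F) → Fin n)
    (hα : Function.Injective α) (hβ : Function.Injective β) (hαβ : ∀ x x', α x ≠ β x')
    (hH : ∀ j e, H.Adj (α ((en j).1, e)) (β ((en j).2, e))) :
    ∃ G : (Fin m → Set (F × F)) → SimpleGraph (Fin n),
      (∀ y y', (∀ j, y j ⊆ y' j) → G y ≤ G y') ∧
      (∀ y y' u v, ¬ H.Adj u v → (G y).Adj u v → (G y').Adj u v) ∧
      (∀ y J w (φ : SimpleGraph (Fin n) → Prop), FreeOut H w φ →
        ∃ T : Finset (F × F), T.card ≤ w ∧ LeafOn T (fun X => φ (G (Function.update y J X)))) ∧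
      (∀ y, (G y).IsHamiltonian ↔ ∃ j, fPoly D (y j)) := by
  classical
  set q := Fintype.card F with hq
  let eι : Fin (q ^ 2) ≃ F × F := Fintype.equivOfCardEq (by
    rw [Fintype.card_fin, Fintype.card_prod, sq])
  have hSt : Fintype.card (PSt F D) = D * q + (q * D * q ^ 2 + q ^ 2) := by
    simp [PSt, hq, sq]
  have hCl : Fintype.card (PCl F D) = D + (q * D + q) := by
    simp [PCl, hq]
  have hq0 : 0 < q := Fintype.card_pos
  have hSt0 : 0 < Fintype.card (PSt F D) := by
    rw [hSt]
    have : 0 < q ^ 2 := Nat.pow_pos hq0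
    omega
  let st' : Fin (q ^ 2) → PSt F D := fun e => pst (eι e)
  obtain ⟨G0, g1, g2, g3⟩ := tab_family (n := n) (l1 := l1) (l2 := l2) st'
    (clit (pcls (F := F) (d := D)) pcmp) hSt0 (by
      refine le_trans ?_ hn
      apply Nat.mul_le_mul_left
      unfold segP
      rw [hSt]
      apply segN_mono
      rw [← hSt, ← hCl, ← Nat.card_eq_fintype_card (α := CQ _ _)]
      exact card_CQ _ _)
    (fun x => α (x.1, eι x.2)) (fun x => β (x.1, eι x.2))
    (fun x x' h => by
      have := hα h
      simp only [Prod.mk.injEq, EmbeddingLike.apply_eq_iff_eq] at this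
      exact Prod.ext this.1 this.2)
    (fun x x' h => by
      have := hβ h
      simp only [Prod.mk.injEq, EmbeddingLike.apply_eq_iff_eq] at this
      exact Prod.ext this.1 this.2)
    (fun x x' => hαβ _ _)
  -- the table of a family of inputs
  let T : (Fin m → Set (F × F)) → (Fin l1 → Bool) → (Fin l2 → Bool) → Set (Fin (q ^ 2)) :=
    fun y p r => {e | ∃ j, en j = (p, r) ∧ eι e ∈ y j}
  have hadj : ∀ y p r e, (G0 (T y)).Adj (α (p, e)) (β (r, e)) ↔ ∃ j, en j = (p, r) ∧ e ∈ y j := by
    intro y p r e
    have := g1 (T y) p r (eι.symm e)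
    simp only [Equiv.apply_symm_apply] at this
    rw [this]
    simp [T]
  -- non-variable pairs
  have hother : ∀ y y' u v, (∀ j e, ¬ (u = α ((en j).1, e) ∧ v = β ((en j).2, e)) ∧
      ¬ (v = α ((en j).1, e) ∧ u = β ((en j).2, e))) →
      (G0 (T y)).Adj u v → (G0 (T y')).Adj u v := by
    intro y y' u v huv h
    by_cases hv : ∀ p r (e : Fin (q ^ 2)), ¬ (u = α (p, eι e) ∧ v = β (r, eι e)) ∧
        ¬ (v = α (p, eι e) ∧ u = β (r, eι e))
    · exact g2 _ _ u v hv h
    · exfalso
      push Not at hv
      obtain ⟨p, r, e, hv⟩ := hv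
      by_cases h1 : u = α (p, eι e) ∧ v = β (r, eι e)
      · rw [h1.1, h1.2, hadj] at h
        obtain ⟨j, hj, _⟩ := h
        apply (huv j (eι e)).1
        rw [hj]
        exact h1
      · obtain ⟨h2, h3⟩ := hv (fun h2 h3 => h1 ⟨h2, h3⟩)
        rw [SimpleGraph.adj_comm, h2, h3, hadj] at h
        obtain ⟨j, hj, _⟩ := h
        apply (huv j (eι e)).2
        rw [hj]
        exact ⟨h2, h3⟩
  -- comparison with a condition on variable pairs
  have hcmp : ∀ y y' u v, (∀ j e, (u = α ((en j).1, e) ∧ v = β ((en j).2, e) ∨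
      v = α ((en j).1, e) ∧ u = β ((en j).2, e)) → e ∈ y j → e ∈ y' j) →
      (G0 (T y)).Adj u v → (G0 (T y')).Adj u v := by
    intro y y' u v huv h
    by_cases hv : ∀ j e, ¬ (u = α ((en j).1, e) ∧ v = β ((en j).2, e)) ∧
        ¬ (v = α ((en j).1, e) ∧ u = β ((en j).2, e))
    · exact hother y y' u v hv h
    · push Not at hv
      obtain ⟨j, e, hv⟩ := hv
      by_cases h1 : u = α ((en j).1, e) ∧ v = β ((en j).2, e)
      · have key := huv j e (Or.inl h1)
        rw [h1.1, h1.2, hadj] at h ⊢
        obtain ⟨j', hj', he⟩ := h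
        have := hen hj'
        subst this
        exact ⟨j', rfl, key he⟩
      · obtain ⟨h2, h3⟩ := hv (fun h2 h3 => h1 ⟨h2, h3⟩)
        have key := huv j e (Or.inr ⟨h2, h3⟩)
        rw [SimpleGraph.adj_comm, h2, h3, hadj] at h ⊢
        obtain ⟨j', hj', he⟩ := h
        have := hen hj'
        subst this
        exact ⟨j', rfl, key he⟩
  refine ⟨fun y => G0 (T y), ?_, ?_, ?_, ?_⟩
  · intro y y' hy u v h
    exact hcmp y y' u v (fun j e _ he => hy j he) h
  · intro y y' u v huv h
    refine hother y y' u v ?_ h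
    intro j e
    constructor
    · rintro ⟨rfl, rfl⟩
      exact huv (hH j e)
    · rintro ⟨rfl, rfl⟩
      exact huv (hH j e).symm
  · rintro y J w φ ⟨S, hS1, hS2, hS3⟩
    let pr : F × F → Sym2 (Fin n) := fun e => s(α ((en J).1, e), β ((en J).2, e))
    have hpr : Function.Injective pr := by
      intro e e' h
      have h' : s(α ((en J).1, e), β ((en J).2, e)) = s(α ((en J).1, e'), β ((en J).2, e')) := h
      rw [Sym2.eq_iff] at h'
      rcases h' with ⟨h1, _⟩ | ⟨h1, _⟩
      · have := hα h1
        simpa using this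
      · exact absurd h1 (hαβ _ _)
    refine ⟨S.preimage pr hpr.injOn, ?_, ?_⟩
    · refine le_trans ?_ hS2
      rw [← Finset.card_image_of_injective _ hpr]
      apply Finset.card_le_card
      intro x hx
      obtain ⟨e, he, rfl⟩ := Finset.mem_image.mp hx
      exact Finset.mem_preimage.mp he
    · intro X X' hXX h
      refine hS3 _ _ ?_ ?_ h
      · intro u v huv
        have key : ∀ y y', (G0 (T y)).Adj u v → (G0 (T y')).Adj u v := by
          intro y y' h
          refine hother y y' u v ?_ h
          intro j e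
          constructor
          · rintro ⟨rfl, rfl⟩
            exact huv (hH j e)
          · rintro ⟨rfl, rfl⟩
            exact huv (hH j e).symm
        exact ⟨key _ _, key _ _⟩
      · intro u v huv h
        refine hcmp _ _ u v ?_ h
        intro j e hje he
        by_cases hj : j = J
        · subst hj
          rw [Function.update_self] at he ⊢
          apply hXX e _ he
          rw [Finset.mem_preimage]
          rcases hje with ⟨rfl, rfl⟩ | ⟨rfl, rfl⟩
          · exact huv
          · have : pr e = s(β ((en j).2, e), α ((en j).1, e)) := Sym2.eq_swap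
            rw [this]
            exact huv
        · rw [Function.update_of_ne hj] at he ⊢
          exact he
  · intro y
    rw [g3]
    have hsat : ∀ Y : Set (Fin (q ^ 2)), TabSat st' (clit (pcls (F := F) (d := D)) pcmp) Y ↔
        fPoly D (eι '' Y) := by
      intro Y
      rw [tabSat_iff, ← csp_iff hD]
      constructor
      · rintro ⟨σ, k1, k2, k3⟩
        refine ⟨σ, k1, k2, ?_⟩
        intro e he
        refine ⟨eι.symm e, k3 (eι.symm e) ?_, by simp⟩
        simp only [st', Equiv.apply_symm_apply]
        exact he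
      · rintro ⟨σ, k1, k2, k3⟩
        refine ⟨σ, k1, k2, ?_⟩
        intro e he
        obtain ⟨e', he', h⟩ := k3 (eι e) he
        rw [← eι.injective h]
        exact he'
    constructor
    · rintro ⟨p, r, h⟩
      rw [hsat] at h
      by_cases hj : ∃ j, en j = (p, r)
      · obtain ⟨j, hj⟩ := hj
        refine ⟨j, ?_⟩
        have e1 : eι '' (T y p r) = y j := by
          ext e
          constructor
          · rintro ⟨e', ⟨j', hj', he'⟩, rfl⟩
            have := hen (hj'.trans hj.symm)
            rw [← this]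
            exact he'
          · intro he
            exact ⟨eι.symm e, ⟨j, hj, by simpa using he⟩, by simp⟩
        rw [e1] at h
        exact h
      · exfalso
        have e1 : eι '' (T y p r) = ∅ := by
          rw [Set.image_eq_empty, Set.eq_empty_iff_forall_notMem]
          rintro e ⟨j, hj', _⟩
          exact hj ⟨j, hj'⟩
        rw [e1] at h
        obtain ⟨c, hc⟩ := h
        exact hc 0
    · rintro ⟨j, hj⟩
      refine ⟨(en j).1, (en j).2, ?_⟩
      rw [hsat]
      have e1 : eι '' (T y (en j).1 (en j).2) = y j := by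
        ext e
        constructor
        · rintro ⟨e', ⟨j', hj', he'⟩, rfl⟩
          have := hen hj'
          rw [← this]
          exact he'
        · intro he
          exact ⟨eι.symm e, ⟨j, rfl, by simpa using he⟩, by simp⟩
      rw [e1]
      exact hj

end

end Pool.Agent.H545R2.Neg
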