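import Pool.Agent.H545R2.NEvery

set_option autoImplicit false

/-! Segment graphs with additional edges between the fillers. -/

namespace Pool.Agent.H545R2

open SimpleGraph

/-- the segment graph with additional edges between fillers -/
def segX {M : Type*} (R : M × Bool → M × Bool → Prop) (f : M) (z : ℕ) (EX : SimpleGraph (Fin z)) :
    SimpleGraph (SegV M z) :=
  segGraph R f z ⊔ EX.map Sum.inr

section forward

variable {M : Type*} [Fintype M] [DecidableEq M] {R : M × Bool → M × Bool → Prop} {f : M} {z : ℕ}

theorem seg_matching_ex (EX : SimpleGraph (Fin z)) (h3 : 3 ≤ Fintype.card (SegV M z))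
    (h : (segX R f z EX).IsHamiltonian) :
    ∃ ν : M × Bool → M × Bool, (∀ p, ν (ν p) = p) ∧ (∀ p, R p (ν p) ∨ R (ν p) p) ∧
      (∀ X : Set (M × Bool), X.Nonempty → (∀ p ∈ X, ν p ∈ X) → (∀ p ∈ X, flipP p ∈ X) →
        X = Set.univ) := by
  classical
  obtain ⟨σ, hadj, hne, hconn⟩ := exists_perm_of_isHamiltonian h3 h
  -- used neighbours
  let U : SegV M z → SegV M z → Prop := fun v w => σ v = w ∨ σ w = v
  have hUsymm : ∀ v w, U v w → U w v := fun v w h => h.symm
  have hUadjX : ∀ v w, U v w → (segX R f z EX).Adj v w := by
    rintro v w (rfl | rfl)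
    · exact hadj v
    · exact (hadj w).symm
  have hUadj : ∀ x w, U (Sum.inl x) w → (segGraph R f z).Adj (Sum.inl x) w := by
    intro x w hU
    rcases hUadjX _ _ hU with h | h
    · exact h
    · rw [SimpleGraph.map_adj'] at h
      obtain ⟨_, a, b, _, h1, _⟩ := h
      simp at h1
  have hpre : ∀ v, ∃ w, σ w = v := fun v => ⟨σ.symm v, by simp⟩
  -- three pairwise distinct used neighbours are impossible
  have hU2 : ∀ v a b c, U v a → U v b → U v c → a ≠ b → a ≠ c → b = c := by
    intro v a b c ha hb hc hab hac
    rcases ha with ha | ha <;> rcases hb with hb | hb <;> rcases hc with hc | hc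
    · exact absurd (ha.symm.trans hb) hab
    · exact absurd (ha.symm.trans hb) hab
    · exact absurd (ha.symm.trans hc) hac
    · exact σ.injective (hb.trans hc.symm)
    · exact hb.symm.trans hc
    · exact absurd (σ.injective (ha.trans hc.symm)) hac
    · exact absurd (σ.injective (ha.trans hb.symm)) hab
    · exact absurd (σ.injective (ha.trans hb.symm)) hab
  have hdeg2 : ∀ x a b, (∀ w, (segGraph R f z).Adj (Sum.inl x) w → w = a ∨ w = b) →
      U (Sum.inl x) a ∧ U (Sum.inl x) b := by
    intro x a b hw
    obtain ⟨u, hu⟩ := hpre (Sum.inl x)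
    have h1 : U (Sum.inl x) (σ (Sum.inl x)) := Or.inl rfl
    have h2 : U (Sum.inl x) u := Or.inr hu
    have h12 : σ (Sum.inl x) ≠ u := by
      intro h; apply hne u; rw [hu]; exact h
    rcases hw _ (hUadj _ _ h1) with e1 | e1 <;> rcases hw _ (hUadj _ _ h2) with e2 | e2
    · exact absurd (e1.trans e2.symm) h12
    · exact ⟨e1 ▸ h1, e2 ▸ h2⟩
    · exact ⟨e2 ▸ h2, e1 ▸ h1⟩
    · exact absurd (e1.trans e2.symm) h12
  -- the forced neighbour of a port
  have hforced : ∀ p : M × Bool, ∃ w : SegV M z, U (Sum.inl (p.1, some p.2)) w ∧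
      ∀ q : M × Bool, w ≠ Sum.inl (q.1, some q.2) := by
    rintro ⟨m, β⟩
    by_cases hc : m = f ∧ β = true ∧ 0 < z
    · obtain ⟨rfl, rfl, hz⟩ := hc
      refine ⟨Sum.inr ⟨z - 1, by omega⟩, ?_, by simp⟩
      by_contra hnot
      -- the edges that leave the set of fillers
      have hcross : ∀ (j : Fin z) (x : M × Option Bool), U (Sum.inr j) (Sum.inl x) →
          j.val = 0 ∧ x = (m, none) := by
        intro j x hU
        have hw := hUadj _ _ (hUsymm _ _ hU)
        rw [segGraph, SimpleGraph.fromRel_adj] at hw
        obtain ⟨_, hw | hw⟩ := hw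
        · cases hw with
          | midf j hj => exact ⟨hj, rfl⟩
        · cases hw with
          | fp j hj =>
            exfalso
            apply hnot
            have e : (⟨z - 1, by omega⟩ : Fin z) = j := by
              ext
              show z - 1 = j.val
              omega
            rw [e]
            exact hUsymm _ _ hU
      have hout : ∃ j : Fin z, ∃ x, σ (Sum.inr j) = Sum.inl x := by
        by_contra hcon
        push Not at hcon
        have := hconn (Set.range Sum.inr) ⟨Sum.inr ⟨0, hz⟩, ⟨0, hz⟩, rfl⟩ (by
          rintro _ ⟨j, rfl⟩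
          rcases hs : σ (Sum.inr j) with x | j'
          · exact absurd hs (hcon j x)
          · exact ⟨j', rfl⟩)
        have h1 : (Sum.inl (m, none) : SegV M z) ∈ Set.range (Sum.inr : Fin z → SegV M z) := by
          rw [this]; trivial
        obtain ⟨j, hj⟩ := h1
        simp at hj
      have hin : ∃ x, ∃ j : Fin z, σ (Sum.inl x) = Sum.inr j := by
        by_contra hcon
        push Not at hcon
        have := hconn (Set.range Sum.inl) ⟨Sum.inl (m, none), (m, none), rfl⟩ (by
          rintro _ ⟨x, rfl⟩
          rcases hs : σ (Sum.inl x) with x' | j'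
          · exact ⟨x', rfl⟩
          · exact absurd hs (hcon x j'))
        have h1 : (Sum.inr ⟨0, hz⟩ : SegV M z) ∈
            Set.range (Sum.inl : M × Option Bool → SegV M z) := by
          rw [this]; trivial
        obtain ⟨j, hj⟩ := h1
        simp at hj
      obtain ⟨j, x, hjx⟩ := hout
      obtain ⟨x', j', hxj⟩ := hin
      obtain ⟨h1, h2⟩ := hcross j x (Or.inl hjx)
      obtain ⟨h3, h4⟩ := hcross j' x' (Or.inr hxj)
      have e : j = j' := by ext; omega
      apply hne (Sum.inr j)
      rw [hjx, h2, ← h4, hxj, e]
    · refine ⟨Sum.inl (m, none), ?_, by simp⟩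
      apply hUsymm
      by_cases hm : m = f ∧ 0 < z
      · obtain ⟨rfl, hz⟩ := hm
        have hβ : β = false := by
          cases β with
          | false => rfl
          | true => exact absurd ⟨rfl, rfl, hz⟩ hc
        subst hβ
        refine (hdeg2 _ (Sum.inr ⟨0, hz⟩) _ ?_).2
        intro w hw
        rw [segGraph, SimpleGraph.fromRel_adj] at hw
        obtain ⟨_, hw | hw⟩ := hw
        · cases hw with
          | mid m β hβ =>
            right
            cases β with
            | false => rfl
            | true => exact absurd ⟨rfl, rfl, hz⟩ hβ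
          | midf j hj => left; congr 1; ext; simpa using hj
        · cases hw
      · have key := hdeg2 (m, none) (Sum.inl (m, some false)) (Sum.inl (m, some true)) ?_
        · cases β with
          | false => exact key.1
          | true => exact key.2
        intro w hw
        rw [segGraph, SimpleGraph.fromRel_adj] at hw
        obtain ⟨_, hw | hw⟩ := hw
        · cases hw with
          | mid m β hβ =>
            cases β with
            | false => left; rfl
            | true => right; rfl
          | midf j hj => exact absurd ⟨rfl, by have := j.isLt; omega⟩ hm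
        · cases hw
  -- neighbours of a port that are not ports are unique
  have hex : ∀ p : M × Bool, ∃ q : M × Bool, U (Sum.inl (p.1, some p.2)) (Sum.inl (q.1, some q.2)) := by
    rintro ⟨m, β⟩
    by_contra hcon
    push Not at hcon
    -- all used neighbours are the forced ones; but the port has a unique non-port neighbour
    obtain ⟨u, hu⟩ := hpre (Sum.inl (m, some β))
    have h1 : U (Sum.inl (m, some β)) (σ (Sum.inl (m, some β))) := Or.inl rfl
    have h2 : U (Sum.inl (m, some β)) u := Or.inr hu
    have h12 : σ (Sum.inl (m, some β)) ≠ u := by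
      intro h; apply hne u; rw [hu]; exact h
    have huniq : ∀ w w' : SegV M z, U (Sum.inl (m, some β)) w → U (Sum.inl (m, some β)) w' → w = w' := by
      have haux : ∀ w : SegV M z, U (Sum.inl (m, some β)) w →
          (w = Sum.inl (m, none) ∧ ¬ (m = f ∧ β = true ∧ 0 < z)) ∨
          (∃ j : Fin z, w = Sum.inr j ∧ j.val + 1 = z ∧ (m = f ∧ β = true ∧ 0 < z)) := by
        intro w hw
        have hw' := hUadj _ _ hw
        rw [segGraph, SimpleGraph.fromRel_adj] at hw'
        obtain ⟨_, hw' | hw'⟩ := hw'
        · cases hw' with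
          | port m m' β β' hR => exact absurd hw (hcon (m', β'))
        · cases hw' with
          | port m' m β' β hR => exact absurd hw (hcon (m', β'))
          | mid m β hβ => exact Or.inl ⟨rfl, hβ⟩
          | fp j hj => exact Or.inr ⟨j, rfl, hj, rfl, rfl, by have := j.isLt; omega⟩
      intro w w' hw hw'
      rcases haux w hw with ⟨h, h'⟩ | ⟨j, h, hj, h'⟩ <;> rcases haux w' hw' with ⟨g, g'⟩ | ⟨j', g, gj, g'⟩
      · rw [h, g]
      · exact absurd g' h'
      · exact absurd h' g'
      · rw [h, g]; congr 1; ext; omega
    exact h12 (huniq _ _ h1 h2)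
  choose ν hν using hex
  have hun : ∀ p q : M × Bool, U (Sum.inl (p.1, some p.2)) (Sum.inl (q.1, some q.2)) → q = ν p := by
    intro p q hq
    obtain ⟨w, hw, hwp⟩ := hforced p
    have := hU2 _ w _ _ hw hq (hν p) (hwp q) (hwp (ν p))
    simp only [Sum.inl.injEq, Prod.mk.injEq, Option.some.injEq] at this
    exact Prod.ext this.1 this.2
  refine ⟨ν, ?_, ?_, ?_⟩
  · intro p
    exact (hun (ν p) p (hUsymm _ _ (hν p))).symm
  · intro p
    have := hUadj _ _ (hν p)
    rw [segGraph, SimpleGraph.fromRel_adj] at this
    obtain ⟨_, hw | hw⟩ := this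
    · cases hw with
      | port m m' β β' hR => left; exact hR
    · cases hw with
      | port m m' β β' hR => right; exact hR
  · intro X hX hXν hXf
    have hXm : ∀ (m : M) (β β' : Bool), (m, β) ∈ X → (m, β') ∈ X := by
      intro m β β' h
      cases β <;> cases β'
      · exact h
      · exact hXf _ h
      · exact hXf _ h
      · exact h
    let X' : Set (SegV M z) := fun v => match v with
      | Sum.inl (m, some β) => (m, β) ∈ X
      | Sum.inl (m, none) => (m, false) ∈ X
      | Sum.inr _ => (f, false) ∈ X
    have e1 : ∀ m β, (Sum.inl (m, some β) : SegV M z) ∈ X' ↔ (m, β) ∈ X := fun m β => Iff.rfl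
    have e2 : ∀ m, (Sum.inl (m, none) : SegV M z) ∈ X' ↔ (m, false) ∈ X := fun m => Iff.rfl
    have e3 : ∀ j, (Sum.inr j : SegV M z) ∈ X' ↔ (f, false) ∈ X := fun j => Iff.rfl
    have hcl : ∀ v w, U v w → v ∈ X' → w ∈ X' := by
      have hcl1 : ∀ v w, U v w → SegRel R f z v w → (v ∈ X' ↔ w ∈ X') := by
        intro v w hU hw
        cases hw with
        | port m m' β β' hR =>
          rw [e1, e1]
          have h1 := hun (m, β) (m', β') hU
          have h2 := hun (m', β') (m, β) (hUsymm _ _ hU)
          constructor
          · intro h; rw [h1]; exact hXν _ h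
          · intro h; rw [h2]; exact hXν _ h
        | mid m β hβ => rw [e1, e2]; exact ⟨hXm _ _ _, hXm _ _ _⟩
        | midf j hj => rw [e2, e3]
        | ff j j' hj => rw [e3, e3]
        | fp j hj => rw [e3, e1]; exact ⟨hXm _ _ _, hXm _ _ _⟩
      intro v w hU hv
      rcases hUadjX _ _ hU with this | this
      · rw [segGraph, SimpleGraph.fromRel_adj] at this
        obtain ⟨_, hw | hw⟩ := this
        · exact (hcl1 v w hU hw).1 hv
        · exact (hcl1 w v (hUsymm _ _ hU) hw).2 hv
      · rw [SimpleGraph.map_adj'] at this
        obtain ⟨_, a, b, _, rfl, rfl⟩ := this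
        exact hv
    have huniv := hconn X' (by
      obtain ⟨p, hp⟩ := hX
      exact ⟨Sum.inl (p.1, some p.2), hp⟩) (fun v hv => hcl v (σ v) (Or.inl rfl) hv)
    ext p
    simp only [Set.mem_univ, iff_true]
    have : (Sum.inl (p.1, some p.2) : SegV M z) ∈ X' := by rw [huniv]; trivial
    exact this

end forward

end Pool.Agent.H545R2
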