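import Pool.Agent.H545R2.NTab

set_option autoImplicit false
set_option linter.unusedSectionVars false

/-! The table graphs on the vertex set `Fin n`, with prescribed places for the variable pairs. -/

namespace Pool.Agent.H545R2.Neg

open Pool.Agent.H545R2

theorem extend_place {A V W : Type*} [Fintype A] [Fintype V] [Fintype W] [DecidableEq W]
    [DecidableEq V] (hc : Fintype.card V = Fintype.card W) (f : A → V) (g : A → W)
    (hf : Function.Injective f) (hg : Function.Injective g) :
    ∃ e : V ≃ W, ∀ a, e (f a) = g a := by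
  classical
  let h : V → W := fun v => if hv : ∃ a, f a = v then g hv.choose else (Fintype.equivOfCardEq hc) v
  have hh : ∀ a, h (f a) = g a := by
    intro a
    have hv : ∃ a', f a' = f a := ⟨a, rfl⟩
    simp only [h]
    rw [dif_pos hv]
    exact congrArg g (hf hv.choose_spec)
  have hmaps : Set.MapsTo h (Set.range f) ((Finset.univ : Finset W) : Set W) := by
    intro v _
    simp
  have hinj : Set.InjOn h (Set.range f) := by
    rintro _ ⟨a, rfl⟩ _ ⟨a', rfl⟩ heq
    rw [hh, hh] at heq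
    rw [hg heq]
  obtain ⟨e, he⟩ := hmaps.exists_equiv_extend_of_card_eq (by simpa using hc) hinj
  refine ⟨e.trans (Equiv.subtypeUnivEquiv (by simp)), ?_⟩
  intro a
  have := he (f a) ⟨a, rfl⟩
  rw [hh] at this
  exact this

theorem ham_of_hom' {V W : Type*} [Fintype V] [DecidableEq V] [Fintype W] [DecidableEq W]
    {G : SimpleGraph V} {H : SimpleGraph W} (f : G →g H) (hf : Function.Bijective f)
    (h : G.IsHamiltonian) : H.IsHamiltonian := by
  intro hc
  rw [← Fintype.card_of_bijective hf] at hc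
  obtain ⟨a, p, hp⟩ := h hc
  exact ⟨f a, p.map f, hp.map hf⟩

section

variable {s l1 l2 : ℕ} {St Q : Type} [Fintype St] [DecidableEq St] [Fintype Q] [DecidableEq Q]
  {b r : ℕ} {st : Fin s → St} {lit : Q → St → Option Bool} {er : Fin b ≃ Rw l1 l2 St}
    {el : Fin r ≃ Lf s l1 l2 Q}

theorem rel_change {y y' : (Fin l1 → Bool) → (Fin l2 → Bool) → Set (Fin s)} {zf : ℕ}
    {u v : SegV (Sg b r 1 (Lf s l1 l2 Q)) zf}
    (h : SegRel (GR (atl st lit er el) (fun _ _ _ => True) nhs nhe (nhh y) False) .fin zf u v) :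
    SegRel (GR (atl st lit er el) (fun _ _ _ => True) nhs nhe (nhh y') False) .fin zf u v ∨
      ∃ p q e, u = Sum.inl (.leaf (.A p e), some true) ∧
        v = Sum.inl (.leaf (.B q e), some false) ∧ e ∈ y p q := by
  cases h with
  | port m m' β β' h =>
    cases h with
    | rail i x y s t h1 h2 => exact Or.inl (.port _ _ _ _ (.rail _ _ _ _ _ h1 h2))
    | first i x t s h1 h2 => exact Or.inl (.port _ _ _ _ (.first _ _ _ _ h1 h2))
    | dd i i' t t' s h1 h2 h3 => exact Or.inl (.port _ _ _ _ (.dd _ _ _ _ _ h1 h2 h3))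
    | ddf i t s h1 h2 => exact Or.inl (.port _ _ _ _ (.ddf _ _ _ h1 h2))
    | last i x t s h1 h2 => exact Or.inl (.port _ _ _ _ (.last _ _ _ _ h1 h2))
    | unit i t t' s s' h1 h2 => exact Or.inl (.port _ _ _ _ (.unit _ _ _ _ _ h1 h2))
    | att0 i k x a m h1 h2 => exact Or.inl (.port _ _ _ _ (.att0 _ _ _ _ _ h1 h2))
    | att1 i k x a m h1 h2 => exact Or.inl (.port _ _ _ _ (.att1 _ _ _ _ _ h1 h2))
    | hubS a h1 => exact Or.inl (.port _ _ _ _ (.hubS a h1))
    | hubL a a' h1 =>
      cases h1 with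
      | skip e => exact Or.inl (.port _ _ _ _ (.hubL _ _ (nhh.skip e)))
      | toA e p => exact Or.inl (.port _ _ _ _ (.hubL _ _ (nhh.toA e p)))
      | AB p q e h => exact Or.inr ⟨p, q, e, rfl, rfl, h⟩
      | toH q e => exact Or.inl (.port _ _ _ _ (.hubL _ _ (nhh.toH q e)))
    | hubE a i t h1 h2 h3 => exact Or.inl (.port _ _ _ _ (.hubE a i t h1 h2 h3))
    | sE i t h1 h2 h3 => exact h1.elim
  | mid m β h => exact Or.inl (.mid m β h)
  | midf j h => exact Or.inl (.midf j h)
  | ff j j' h => exact Or.inl (.ff j j' h)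
  | fp j h => exact Or.inl (.fp j h)

theorem tab_adj_var {y : (Fin l1 → Bool) → (Fin l2 → Bool) → Set (Fin s)} {zf : ℕ}
    (p : Fin l1 → Bool) (q : Fin l2 → Bool) (e : Fin s) :
    (tabGraph st lit er el y zf).Adj (Sum.inl (.leaf (.A p e), some true))
      (Sum.inl (.leaf (.B q e), some false)) ↔ e ∈ y p q := by
  unfold tabGraph segGraph
  rw [SimpleGraph.fromRel_adj]
  constructor
  · rintro ⟨_, h | h⟩
    · cases h with
      | port m m' β β' h =>
        cases h with
        | hubL a a' h1 =>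
          cases h1 with
          | AB p q e h => exact h
    · cases h with
      | port m m' β β' h => cases h
  · intro h
    exact ⟨by simp, Or.inl (.port _ _ _ _ (.hubL _ _ (nhh.AB p q e h)))⟩

end

/-- the number of segments of the gadget -/
def segN (s l1 l2 nSt nQ : ℕ) : ℕ :=
  (l1 + l2 + nSt) * (3 * (s + 1 + nQ + (2 ^ l1 * s + 2 ^ l2 * s)) + 1) +
    (l1 + l2 + nSt) * 4 + ((s + 1 + nQ + (2 ^ l1 * s + 2 ^ l2 * s)) + 1)

theorem tab_family {n s l1 l2 : ℕ} {St Q : Type} [Fintype St] [Fintype Q]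
    (st : Fin s → St) (lit : Q → St → Option Bool) (hb : 0 < Fintype.card St)
    (hn : 3 * segN s l1 l2 (Fintype.card St) (Fintype.card Q) ≤ n)
    (α : (Fin l1 → Bool) × Fin s → Fin n) (β : (Fin l2 → Bool) × Fin s → Fin n)
    (hα : Function.Injective α) (hβ : Function.Injective β) (hαβ : ∀ x x', α x ≠ β x') :
    ∃ G : ((Fin l1 → Bool) → (Fin l2 → Bool) → Set (Fin s)) → SimpleGraph (Fin n),
      (∀ y p q e, (G y).Adj (α (p, e)) (β (q, e)) ↔ e ∈ y p q) ∧
      (∀ y y' u v, (∀ p q e, ¬ (u = α (p, e) ∧ v = β (q, e)) ∧ ¬ (v = α (p, e) ∧ u = β (q, e))) →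
        (G y).Adj u v → (G y').Adj u v) ∧
      (∀ y, (G y).IsHamiltonian ↔ ∃ p q, TabSat st lit (y p q)) := by
  classical
  set b := Fintype.card (Rw l1 l2 St) with hbdef
  set r := Fintype.card (Lf s l1 l2 Q) with hrdef
  have hbc : b = l1 + l2 + Fintype.card St := by
    rw [hbdef]; simp [Rw, add_assoc]
  have hrc : r = s + 1 + Fintype.card Q + (2 ^ l1 * s + 2 ^ l2 * s) := by
    rw [hrdef, card_nl]
    simp
  let er : Fin b ≃ Rw l1 l2 St := (Fintype.equivFin _).symm
  let el : Fin r ≃ Lf s l1 l2 Q := (Fintype.equivFin _).symm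
  have hcard : Fintype.card (Sg b r 1 (Lf s l1 l2 Q)) = segN s l1 l2 (Fintype.card St) (Fintype.card Q) := by
    rw [card_sg, ← hrdef, hbc, hrc]
    unfold segN
    ring
  obtain ⟨zf, hzf⟩ : ∃ zf, n = 3 * Fintype.card (Sg b r 1 (Lf s l1 l2 Q)) + zf :=
    ⟨n - 3 * Fintype.card (Sg b r 1 (Lf s l1 l2 Q)), by rw [hcard]; omega⟩
  have hcV : Fintype.card (Fin n) = Fintype.card (SegV (Sg b r 1 (Lf s l1 l2 Q)) zf) := by
    simp only [Fintype.card_sum, Fintype.card_prod, Fintype.card_option, Fintype.card_bool,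
      Fintype.card_fin]
    omega
  let f : ((Fin l1 → Bool) × Fin s) ⊕ ((Fin l2 → Bool) × Fin s) → Fin n := Sum.elim α β
  let g : ((Fin l1 → Bool) × Fin s) ⊕ ((Fin l2 → Bool) × Fin s) → SegV (Sg b r 1 (Lf s l1 l2 Q)) zf :=
    Sum.elim (fun x => Sum.inl (.leaf (.A x.1 x.2), some true))
      (fun x => Sum.inl (.leaf (.B x.1 x.2), some false))
  have hf : Function.Injective f := by
    rintro (x | x) (x' | x') h
    · exact congrArg Sum.inl (hα h)
    · exact absurd h (hαβ _ _)
    · exact absurd h.symm (hαβ _ _)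
    · exact congrArg Sum.inr (hβ h)
  have hg : Function.Injective g := by
    rintro (⟨p, e⟩ | ⟨p, e⟩) (⟨p', e'⟩ | ⟨p', e'⟩) h
    · simp only [g, Sum.elim_inl, Sum.inl.injEq, Prod.mk.injEq, Sg.leaf.injEq, NL.A.injEq,
        and_true] at h
      rw [h.1, h.2]
    · simp [g] at h
    · simp [g] at h
    · simp only [g, Sum.elim_inr, Sum.inl.injEq, Prod.mk.injEq, Sg.leaf.injEq, NL.B.injEq,
        and_true] at h
      rw [h.1, h.2]
  obtain ⟨Θ, hΘ⟩ := extend_place hcV f g hf hg
  have hΘα : ∀ x, Θ (α x) = Sum.inl (.leaf (.A x.1 x.2), some true) := fun x => hΘ (Sum.inl x)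
  have hΘβ : ∀ x, Θ (β x) = Sum.inl (.leaf (.B x.1 x.2), some false) := fun x => hΘ (Sum.inr x)
  refine ⟨fun y => (tabGraph st lit er el y zf).comap Θ, ?_, ?_, ?_⟩
  · intro y p q e
    rw [SimpleGraph.comap_adj, hΘα, hΘβ]
    exact tab_adj_var p q e
  · intro y y' u v huv h
    rw [SimpleGraph.comap_adj] at h ⊢
    unfold tabGraph segGraph at h ⊢
    rw [SimpleGraph.fromRel_adj] at h ⊢
    refine ⟨h.1, ?_⟩
    rcases h.2 with h | h
    · rcases rel_change (y' := y') h with h | ⟨p, q, e, h1, h2, _⟩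
      · exact Or.inl h
      · exfalso
        apply (huv p q e).1
        constructor
        · apply Θ.injective
          rw [h1, hΘα]
        · apply Θ.injective
          rw [h2, hΘβ]
    · rcases rel_change (y' := y') h with h | ⟨p, q, e, h1, h2, _⟩
      · exact Or.inr h
      · exfalso
        apply (huv p q e).2
        constructor
        · apply Θ.injective
          rw [h1, hΘα]
        · apply Θ.injective
          rw [h2, hΘβ]
  · intro y
    have hb0 : 0 < b := by omega
    constructor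
    · intro h
      exact tab_forward (st := st) (lit := lit) (er := er) (el := el) (zf := zf)
        (ham_of_hom' (G := (tabGraph st lit er el y zf).comap Θ)
        (H := tabGraph st lit er el y zf) ⟨Θ, fun {a b} h => h⟩ Θ.bijective h)
    · intro h
      have h1 := tab_back (st := st) (lit := lit) (er := er) (el := el) (zf := zf) hb0 h
      refine ham_of_hom' (G := tabGraph st lit er el y zf)
        (H := (tabGraph st lit er el y zf).comap Θ) ⟨Θ.symm, fun {a b} h => ?_⟩
        Θ.symm.bijective h1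
      show (tabGraph st lit er el y zf).Adj (Θ (Θ.symm a)) (Θ (Θ.symm b))
      rwa [Equiv.apply_symm_apply, Equiv.apply_symm_apply]

end Pool.Agent.H545R2.Neg
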