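import Pool.Agent.H545R2.NChain
import Pool.Agent.H560R2.Neg5

set_option autoImplicit false

/-! Choice of the parameters for a rectangle of pairs. -/

namespace Pool.Agent.H545R2.Neg

open Pool.Agent.H545R2 Pool.Agent.H560R2 Pool.Agent.H520R2 Pool.Agent.H520R2.NM

theorem bot_not_ham {n : ℕ} (hn : 2 ≤ n) : ¬ (⊥ : SimpleGraph (Fin n)).IsHamiltonian := by
  intro h
  obtain ⟨a, p, hp⟩ := h (by simp; omega)
  have h3 := hp.isCycle.not_nil
  have := p.adj_snd h3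
  simp at this

theorem exists_exp {a c m : ℕ} (ha : 1 ≤ a) (h : a * (2 * c) ≤ m) :
    ∃ l : ℕ, a ≤ 2 ^ l ∧ 2 ^ l * c ≤ m := by
  refine ⟨Nat.clog 2 a, Nat.le_pow_clog (by norm_num) a, ?_⟩
  refine le_trans ?_ h
  have : 2 ^ Nat.clog 2 a ≤ 2 * a := by
    rcases Nat.lt_or_ge 1 a with h1 | h1
    · have h2 := Nat.pow_pred_clog_lt_self (b := 2) (by norm_num) h1
      have h3 : 0 < Nat.clog 2 a := Nat.clog_pos (by norm_num) h1
      have h4 : 2 ^ Nat.clog 2 a = 2 * 2 ^ (Nat.clog 2 a).pred := by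
        rw [← pow_succ']
        congr 1
        exact (Nat.succ_pred_eq_of_pos h3).symm
      omega
    · have : a = 1 := by omega
      subst this
      simp
  calc 2 ^ Nat.clog 2 a * c ≤ (2 * a) * c := Nat.mul_le_mul_right _ this
    _ = a * (2 * c) := by ring

/-- size condition -/
theorem size_cond {q d l1 l2 n ell : ℕ} (hd : 1 ≤ d) (hqd : 1024 * d ≤ q) (hell : 1 ≤ ell)
    (h1 : l1 ≤ ell) (h2 : l2 ≤ ell) (h3 : 1024 * q ^ 12 * ell ≤ n)
    (h4 : (2 ^ l1 + 2 ^ l2) * (256 * (q ^ 6 * ell)) ≤ n) :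
    3 * segP q (2 * d) l1 l2 ≤ n := by
  have hq : 1 ≤ q := by omega
  have hb : l1 + l2 + 2 * q ^ 4 + 1 ≤ 5 * (q ^ 4 * ell) := by
    have e1 : 1 ≤ q ^ 4 := Nat.one_le_pow _ _ hq
    have e2 : ell ≤ q ^ 4 * ell := Nat.le_mul_of_pos_left _ e1
    have e3 : q ^ 4 ≤ q ^ 4 * ell := Nat.le_mul_of_pos_right _ hell
    omega
  have hS : 18 * q ^ 8 + 5 ≤ 23 * q ^ 8 := by
    have : 1 ≤ q ^ 8 := Nat.one_le_pow _ _ hq
    omega
  have h5 : segP q (2 * d) l1 l2 ≤ 5 * (q ^ 4 * ell) *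
      (23 * q ^ 8 + 3 * ((2 ^ l1 + 2 ^ l2) * q ^ 2)) :=
    (segP_le hd hqd).trans (Nat.mul_le_mul hb (by omega))
  have h6 : 5 * (q ^ 4 * ell) * (23 * q ^ 8 + 3 * ((2 ^ l1 + 2 ^ l2) * q ^ 2)) =
      115 * (q ^ 12 * ell) + 15 * ((2 ^ l1 + 2 ^ l2) * (q ^ 6 * ell)) := by ring
  have h7 : 1024 * q ^ 12 * ell = 1024 * (q ^ 12 * ell) := by ring
  have h8 : (2 ^ l1 + 2 ^ l2) * (256 * (q ^ 6 * ell)) =
      256 * ((2 ^ l1 + 2 ^ l2) * (q ^ 6 * ell)) := by ring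
  omega

theorem exists_inj {X : Type} [Fintype X] {n : ℕ} (A : Finset (Fin n))
    (h : Fintype.card X ≤ A.card) : ∃ f : X → Fin n, Function.Injective f ∧ ∀ x, f x ∈ A := by
  obtain ⟨f⟩ := Function.Embedding.nonempty_of_card_le (α := X) (β := A) (by simpa using h)
  exact ⟨fun x => (f x).1, fun x y hxy => f.injective (Subtype.ext hxy), fun x => (f x).2⟩

/-- The chain theorem for a rectangle. -/
theorem rect_ham (d n : ℕ) (hd : 1 ≤ d)
    (hn : (2 ^ 131 * (Nat.log 2 d + 1) ^ 12 * d ^ 6) ^ 2 * (Nat.log 2 n + 1) ≤ n)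
    (A B : Finset (Fin n)) (hAB : Disjoint A B)
    {L : Type} (lf : L → SimpleGraph (Fin n) → Bool) (hlf : ∀ l, FreeOutB (rect A B hAB) d (lf l))
    {N : ℕ} (C : Circuit L N) (out : Wire L N)
    (hC : ∀ G, out.eval (inp lf G) (C.vals (inp lf G)) = true ↔ G.IsHamiltonian)
    (hsize : C.size + C.fanins.sum < 2 ^ d) (W M : ℕ)
    (hW : W = 2 ^ 135 * (Nat.log 2 d + 1) ^ 12 * d ^ 6 * (Nat.log 2 n + 1))
    (hM : M = (A.card / W) * (B.card / W)) :
    ∃ G : ℕ → SimpleGraph (Fin n),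
      (∀ i < M, G i ≤ G (i + 1) ∧
        (∀ u v, ¬ (rect A B hAB).Adj u v → ((G i).Adj u v ↔ (G (i + 1)).Adj u v)) ∧
        C.probes (inp lf (G i)) ≠ C.probes (inp lf (G (i + 1)))) ∧
      (∀ i ≤ M, ¬ (G i).IsHamiltonian) := by
  classical
  set u := Nat.log 2 d + 1 with hu
  set ell := Nat.log 2 n + 1 with hell
  have hu1 : 1 ≤ u := by omega
  have hell1 : 1 ≤ ell := by omega
  have hn2 : 2 ≤ n := by
    refine le_trans ?_ hn
    have h1 : 1 ≤ u ^ 12 := Nat.one_le_pow _ _ hu1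
    have h2 : 1 ≤ d ^ 6 := Nat.one_le_pow _ _ hd
    calc 2 ≤ (2 * 1 * 1) ^ 2 * 1 := by norm_num
      _ ≤ (2 ^ 131 * u ^ 12 * d ^ 6) ^ 2 * ell := by gcongr; norm_num
  rcases Nat.eq_zero_or_pos M with hM0 | hMpos
  · refine ⟨fun _ => ⊥, fun i hi => ?_, fun i _ => bot_not_ham hn2⟩
    omega
  obtain ⟨lam, h0, h1, h2⟩ := exists_lam2 d hd
  obtain ⟨F, _, _, _, hq⟩ := exists_field lam h0
  set q := 2 ^ lam with hqd
  rw [← hu] at h2
  have hlam : 1 ≤ lam := by omega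
  have hd4 : 1024 * d ≤ q := by
    refine le_trans ?_ h1
    have : 1 ≤ lam * (lam + 1) := Nat.mul_pos hlam (by omega)
    calc 1024 * d = (1024 * d) * 1 := by ring
      _ ≤ (1024 * d) * (lam * (lam + 1)) := Nat.mul_le_mul_left _ this
      _ = _ := by ring
  have hq6 : q ^ 6 ≤ 2 ^ 126 * u ^ 12 * d ^ 6 := by
    calc q ^ 6 ≤ (2 ^ 21 * u ^ 2 * d) ^ 6 := Nat.pow_le_pow_left h2 6
      _ = _ := by ring
  have hq12 : 1024 * q ^ 12 * ell ≤ n := by
    refine le_trans ?_ hn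
    calc 1024 * q ^ 12 * ell = (32 * q ^ 6) ^ 2 * ell := by ring
      _ ≤ (32 * (2 ^ 126 * u ^ 12 * d ^ 6)) ^ 2 * ell := by gcongr
      _ = (2 ^ 131 * u ^ 12 * d ^ 6) ^ 2 * ell := by
        have : 32 * (2 ^ 126 * u ^ 12 * d ^ 6) = 2 ^ 131 * u ^ 12 * d ^ 6 := by ring
        rw [this]
  have hWq : 2 * (256 * (q ^ 6 * ell)) ≤ W := by
    rw [hW]
    calc 2 * (256 * (q ^ 6 * ell)) = 512 * q ^ 6 * ell := by ring
      _ ≤ 512 * (2 ^ 126 * u ^ 12 * d ^ 6) * ell := by gcongr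
      _ = _ := by ring
  have ha : 1 ≤ A.card / W := Nat.pos_of_mul_pos_right (by rw [hM] at hMpos; exact hMpos)
  have hb : 1 ≤ B.card / W := Nat.pos_of_mul_pos_left (by rw [hM] at hMpos; exact hMpos)
  obtain ⟨l1, a1, a2⟩ := exists_exp (c := 256 * (q ^ 6 * ell)) (m := A.card) ha
    ((Nat.mul_le_mul_left _ hWq).trans (Nat.div_mul_le_self _ _))
  obtain ⟨l2, b1, b2⟩ := exists_exp (c := 256 * (q ^ 6 * ell)) (m := B.card) hb
    ((Nat.mul_le_mul_left _ hWq).trans (Nat.div_mul_le_self _ _))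
  have hABn : A.card + B.card ≤ n := by
    rw [← Finset.card_union_of_disjoint hAB]
    simpa using Finset.card_le_univ (A ∪ B)
  have hc1 : 1 ≤ 256 * (q ^ 6 * ell) := by
    have : 1 ≤ q ^ 6 := Nat.one_le_pow _ _ (by omega)
    have := Nat.mul_pos this hell1
    omega
  have hlog : ∀ l m, 2 ^ l * (256 * (q ^ 6 * ell)) ≤ m → m ≤ n → l ≤ ell := by
    intro l m h3 h4
    have : 2 ^ l ≤ n := (Nat.le_mul_of_pos_right _ hc1).trans (h3.trans h4)
    have := Nat.le_log_of_pow_le (b := 2) (by norm_num) this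
    omega
  have hcond : 3 * segP q (2 * d) l1 l2 ≤ n := by
    refine size_cond hd hd4 hell1 (hlog _ _ a2 (by omega)) (hlog _ _ b2 (by omega)) hq12 ?_
    rw [add_mul]
    omega
  have hq2q6 : q ^ 2 ≤ 256 * (q ^ 6 * ell) := by
    have e1 : q ^ 2 ≤ q ^ 6 := Nat.pow_le_pow_right (by omega) (by norm_num)
    have e2 : q ^ 6 ≤ q ^ 6 * ell := Nat.le_mul_of_pos_right _ hell1
    omega
  obtain ⟨α, hα, hαA⟩ := exists_inj (X := (Fin l1 → Bool) × (F × F)) A (by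
    rw [Fintype.card_prod, Fintype.card_prod, hq]
    simp only [Fintype.card_pi, Fintype.card_bool, Finset.prod_const, Finset.card_univ,
      Fintype.card_fin]
    rw [← sq]
    exact (Nat.mul_le_mul_left _ hq2q6).trans a2)
  obtain ⟨β, hβ, hβB⟩ := exists_inj (X := (Fin l2 → Bool) × (F × F)) B (by
    rw [Fintype.card_prod, Fintype.card_prod, hq]
    simp only [Fintype.card_pi, Fintype.card_bool, Finset.prod_const, Finset.card_univ,
      Fintype.card_fin]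
    rw [← sq]
    exact (Nat.mul_le_mul_left _ hq2q6).trans b2)
  obtain ⟨en⟩ := Function.Embedding.nonempty_of_card_le (α := Fin M)
    (β := (Fin l1 → Bool) × (Fin l2 → Bool)) (by
    simp only [Fintype.card_prod, Fintype.card_pi, Fintype.card_bool, Finset.prod_const,
      Finset.card_univ, Fintype.card_fin]
    rw [hM]
    exact Nat.mul_le_mul a1 b1)
  exact ham_chain (F := F) (lam := lam) hd (by rw [hq]) (by rw [hq]; exact h1)
    (by rw [hq]; exact hcond) (rect A B hAB) en en.injective α β hα hβ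
    (fun x x' h => Finset.disjoint_left.mp hAB (hαA x) (by rw [h]; exact hβB x'))
    (fun j e => Or.inl ⟨hαA _, hβB _⟩) lf hlf C out hC hsize

end Pool.Agent.H545R2.Neg
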