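import Pool.Agent.H545R2.Gadget2

set_option autoImplicit false
set_option linter.unusedSectionVars false

/-! A table of copies of a monotone function with CNF witnesses, embedded into Hamiltonicity. -/

namespace Pool.Agent.H545R2.Neg

open Pool.Agent.H545R2

/-- leaves of the gadget -/
inductive NL (s : ℕ) (X Y Q : Type) where
  | H (j : Fin (s + 1))
  | A (p : X) (e : Fin s)
  | B (q : Y) (e : Fin s)
  | cl (c : Q)
  deriving DecidableEq

def nlEquiv (s : ℕ) (X Y Q : Type) :
    NL s X Y Q ≃ (Fin (s + 1) ⊕ Q) ⊕ ((X × Fin s) ⊕ (Y × Fin s)) where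
  toFun := fun a => match a with
    | .H j => Sum.inl (Sum.inl j)
    | .A p e => Sum.inr (Sum.inl (p, e))
    | .B q e => Sum.inr (Sum.inr (q, e))
    | .cl c => Sum.inl (Sum.inr c)
  invFun := fun a => match a with
    | Sum.inl (Sum.inl j) => .H j
    | Sum.inr (Sum.inl (p, e)) => .A p e
    | Sum.inr (Sum.inr (q, e)) => .B q e
    | Sum.inl (Sum.inr c) => .cl c
  left_inv := by rintro (_ | _ | _ | _) <;> rfl
  right_inv := by rintro ((_ | _) | (_ | _)) <;> rfl

instance (s : ℕ) (X Y Q : Type) [Fintype X] [Fintype Y] [Fintype Q] : Fintype (NL s X Y Q) :=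
  Fintype.ofEquiv _ (nlEquiv s X Y Q).symm

theorem card_nl (s : ℕ) (X Y Q : Type) [Fintype X] [Fintype Y] [Fintype Q] :
    Fintype.card (NL s X Y Q) = s + 1 + Fintype.card Q +
      (Fintype.card X * s + Fintype.card Y * s) := by
  rw [Fintype.card_congr (nlEquiv s X Y Q)]
  simp

section

variable {s l1 l2 : ℕ} {St Q : Type} [Fintype St] [DecidableEq St] [Fintype Q] [DecidableEq Q]

/-- the leaves -/
abbrev Lf (s l1 l2 : ℕ) (Q : Type) : Type := NL s (Fin l1 → Bool) (Fin l2 → Bool) Q

instance segDec (b r zf : ℕ) : DecidableEq (SegV (Sg b r 1 (Lf s l1 l2 Q)) zf) :=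
  instDecidableEqSum

/-- the rows -/
abbrev Rw (l1 l2 : ℕ) (St : Type) : Type := Fin l1 ⊕ (Fin l2 ⊕ St)

/-- which mode of a row covers a leaf -/
def att (st : Fin s → St) (lit : Q → St → Option Bool) : Rw l1 l2 St → Lf s l1 l2 Q → Option Bool
  | _, .H _ => none
  | Sum.inl i, .A p _ => some (!(p i))
  | Sum.inl _, .B _ _ => none
  | Sum.inl _, .cl _ => none
  | Sum.inr (Sum.inl _), .A _ _ => none
  | Sum.inr (Sum.inl i), .B q _ => some (!(q i))
  | Sum.inr (Sum.inl _), .cl _ => none
  | Sum.inr (Sum.inr σ), .A _ e => if σ = st e then some false else none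
  | Sum.inr (Sum.inr σ), .B _ e => if σ = st e then some false else none
  | Sum.inr (Sum.inr σ), .cl c => lit c σ

/-- attachment -/
def atl {b r : ℕ} (st : Fin s → St) (lit : Q → St → Option Bool) (er : Fin b ≃ Rw l1 l2 St)
    (el : Fin r ≃ Lf s l1 l2 Q) (i : Fin b) (k : Fin r) : Option (Lf s l1 l2 Q × Bool) :=
  (att st lit (er i) (el k)).map (fun m => (el k, m))

def nhs (a : Lf s l1 l2 Q) : Prop := a = .H 0
def nhe (a : Lf s l1 l2 Q) : Prop := a = .H (Fin.last s)

/-- the hub -/
inductive nhh (y : (Fin l1 → Bool) → (Fin l2 → Bool) → Set (Fin s)) :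
    Lf s l1 l2 Q → Lf s l1 l2 Q → Prop
  | skip (e : Fin s) : nhh y (.H e.castSucc) (.H e.succ)
  | toA (e : Fin s) (p : Fin l1 → Bool) : nhh y (.H e.castSucc) (.A p e)
  | AB (p : Fin l1 → Bool) (q : Fin l2 → Bool) (e : Fin s) : e ∈ y p q → nhh y (.A p e) (.B q e)
  | toH (q : Fin l2 → Bool) (e : Fin s) : nhh y (.B q e) (.H e.succ)

/-- the graph -/
def tabGraph {b r : ℕ} (st : Fin s → St) (lit : Q → St → Option Bool) (er : Fin b ≃ Rw l1 l2 St)
    (el : Fin r ≃ Lf s l1 l2 Q) (y : (Fin l1 → Bool) → (Fin l2 → Bool) → Set (Fin s)) (zf : ℕ) :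
    SimpleGraph (SegV (Sg b r 1 (Lf s l1 l2 Q)) zf) :=
  segGraph (GR (atl st lit er el) (fun _ _ _ => True) nhs nhe (nhh y) False)
    (.fin : Sg b r 1 (Lf s l1 l2 Q)) zf

/-- the function -/
def TabSat (st : Fin s → St) (lit : Q → St → Option Bool) (Y : Set (Fin s)) : Prop :=
  ∃ z : St → Bool, (∀ c, ∃ σ, lit c σ = some (z σ)) ∧ ∀ e, z (st e) = true → e ∈ Y

theorem strand_one (z : ℕ → Bool) : strand z 1 = z 0 := by
  show xor (strand z 0) (z 0) = z 0
  show xor false (z 0) = z 0
  cases z 0 <;> rfl

variable {b r : ℕ} {st : Fin s → St} {lit : Q → St → Option Bool} {er : Fin b ≃ Rw l1 l2 St}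
    {el : Fin r ≃ Lf s l1 l2 Q}

theorem atl_some {i : Fin b} {k : Fin r} {a : Lf s l1 l2 Q} {m : Bool}
    (h : atl st lit er el i k = some (a, m)) : att st lit (er i) a = some m := by
  unfold atl at h
  rw [Option.map_eq_some_iff] at h
  obtain ⟨m', h1, h2⟩ := h
  simp only [Prod.mk.injEq] at h2
  rw [← h2.1, ← h2.2]
  exact h1

theorem tab_forward {y : (Fin l1 → Bool) → (Fin l2 → Bool) → Set (Fin s)} {zf : ℕ}
    (h : (tabGraph st lit er el y zf).IsHamiltonian) : ∃ p q, TabSat st lit (y p q) := by
  classical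
  have h3 : 3 ≤ Fintype.card (SegV (Sg b r 1 (Lf s l1 l2 Q)) zf) := by
    have : 1 ≤ Fintype.card (Sg b r 1 (Lf s l1 l2 Q)) := Fintype.card_pos_iff.mpr ⟨.fin⟩
    simp only [Fintype.card_sum, Fintype.card_prod, Fintype.card_option, Fintype.card_bool,
      Fintype.card_fin]
    omega
  obtain ⟨ν, hν1, hν2, hν3⟩ := seg_matching h3 h
  have hν : Matching (atl st lit er el) (fun _ _ _ => True) nhs nhe (nhh y) False ν :=
    ⟨hν1, hν2, hν3⟩
  obtain ⟨z, _, hmode⟩ := hν.modes
  let w : Rw l1 l2 St → Bool := fun ρ => strand (z (er.symm ρ)) 1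
  have hcov : ∀ a, (∃ i k, atl st lit er el i k = some (a, strand (z i) 1)) →
      ∃ ρ, att st lit ρ a = some (w ρ) := by
    rintro a ⟨i, k, h⟩
    refine ⟨er i, ?_⟩
    rw [atl_some h]
    simp [w]
  have hside := hν.sides hmode
  -- uncovered leaves
  have hA : ∀ e, w (Sum.inr (Sum.inr (st e))) = true →
      ¬ ∃ ρ, att st lit ρ (.A (fun i => w (Sum.inl i)) e : Lf s l1 l2 Q) = some (w ρ) := by
    rintro e he ⟨ρ, hρ⟩
    rcases ρ with i | i | σ
    · simp [att] at hρ
    · simp [att] at hρ
    · simp only [att] at hρ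
      split_ifs at hρ with hσ
      rw [hσ, he] at hρ
      simp at hρ
  have hB : ∀ e, w (Sum.inr (Sum.inr (st e))) = true →
      ¬ ∃ ρ, att st lit ρ (.B (fun i => w (Sum.inr (Sum.inl i))) e : Lf s l1 l2 Q) =
        some (w ρ) := by
    rintro e he ⟨ρ, hρ⟩
    rcases ρ with i | i | σ
    · simp [att] at hρ
    · simp [att] at hρ
    · simp only [att] at hρ
      split_ifs at hρ with hσ
      rw [hσ, he] at hρ
      simp at hρ
  refine ⟨fun i => w (Sum.inl i), fun i => w (Sum.inr (Sum.inl i)),
    fun σ => w (Sum.inr (Sum.inr σ)), ?_, ?_⟩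
  · intro c
    rcases hside (.cl c) with ⟨h1, _, _⟩ | ⟨h1, _⟩
    · obtain ⟨ρ, hρ⟩ := hcov _ h1
      rcases ρ with i | i | σ
      · simp [att] at hρ
      · simp [att] at hρ
      · exact ⟨σ, hρ⟩
    · exfalso
      rcases h1 with ⟨h1, _⟩ | ⟨a', h1, _⟩
      · simp [nhs] at h1
      · cases h1
  · intro e he
    rcases hside (.A (fun i => w (Sum.inl i)) e) with ⟨h1, _, _⟩ | ⟨_, h1⟩
    · exact absurd (hcov _ h1) (hA e he)
    rcases h1 with ⟨h1, _⟩ | ⟨a', h1, h2⟩
    · simp [nhe] at h1
    obtain ⟨q', rfl, hy⟩ : ∃ q', a' = .B q' e ∧ e ∈ y (fun i => w (Sum.inl i)) q' := by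
      cases h1 with
      | AB p q e h => exact ⟨q, rfl, h⟩
    -- the leaf after that one
    rcases hside (.B q' e) with ⟨_, h3, _⟩ | ⟨_, h3⟩
    · obtain ⟨i, x, m, h3⟩ := h3
      have := (hν.eq_comm' h2).symm.trans h3
      simp at this
    rcases h3 with ⟨h3, _⟩ | ⟨a', h3, h4⟩
    · simp [nhe] at h3
    rcases hside (.B (fun i => w (Sum.inr (Sum.inl i))) e) with ⟨h5, _, _⟩ | ⟨_, h5⟩
    · exact absurd (hcov _ h5) (hB e he)
    rcases h5 with ⟨h5, _⟩ | ⟨a'', h5, h6⟩
    · simp [nhe] at h5
    cases h3
    cases h5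
    have := hν.inj (h4.trans h6.symm)
    simp only [Prod.mk.injEq, Sg.leaf.injEq, NL.B.injEq, and_true] at this
    rw [← this]
    exact hy

/-- the part of the hub tour for `e` -/
def blkH (st : Fin s → St) (p : Fin l1 → Bool) (q : Fin l2 → Bool) (z : St → Bool) (e : Fin s) :
    List (Lf s l1 l2 Q) :=
  .H e.castSucc :: (if z (st e) = true then [.A p e, .B q e] else [])

/-- the hub tour -/
def hubL (st : Fin s → St) (p : Fin l1 → Bool) (q : Fin l2 → Bool) (z : St → Bool) :
    List (Lf s l1 l2 Q) :=
  (List.finRange s).flatMap (blkH st p q z) ++ [.H (Fin.last s)]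

theorem mem_hubL (p : Fin l1 → Bool) (q : Fin l2 → Bool) (z : St → Bool) (a : Lf s l1 l2 Q) :
    a ∈ hubL (Q := Q) st p q z ↔ (∃ j, a = .H j) ∨
      ∃ e, z (st e) = true ∧ (a = .A p e ∨ a = .B q e) := by
  unfold hubL blkH
  rw [List.mem_append, List.mem_flatMap, List.mem_singleton]
  constructor
  · rintro (⟨e, _, h⟩ | h)
    · rw [List.mem_cons] at h
      rcases h with h | h
      · left; exact ⟨_, h⟩
      · split_ifs at h with hz
        · right
          refine ⟨e, hz, ?_⟩
          simpa using h
        · simp at h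
    · left; exact ⟨_, h⟩
  · rintro (⟨j, h⟩ | ⟨e, hz, h⟩)
    · rcases Fin.eq_castSucc_or_eq_last j with ⟨j', rfl⟩ | rfl
      · left
        exact ⟨j', List.mem_finRange _, by rw [h]; exact List.mem_cons_self⟩
      · right; exact h
    · left
      refine ⟨e, List.mem_finRange _, ?_⟩
      rw [List.mem_cons]
      right
      rw [if_pos hz]
      simpa using h

theorem hubL_nodup (p : Fin l1 → Bool) (q : Fin l2 → Bool) (z : St → Bool) :
    (hubL (Q := Q) st p q z).Nodup := by
  unfold hubL
  rw [List.nodup_append, List.nodup_flatMap]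
  refine ⟨⟨?_, ?_⟩, by simp, ?_⟩
  · intro e _
    unfold blkH
    split_ifs <;> simp
  · refine (List.nodup_finRange s).imp ?_
    intro e e' hee
    rw [Function.onFun, List.disjoint_left]
    intro a ha ha'
    unfold blkH at ha ha'
    rw [List.mem_cons] at ha ha'
    apply hee
    rcases ha with rfl | ha
    · rcases ha' with h | h
      · simpa using h
      · split_ifs at h <;> simp at h
    · split_ifs at ha with hz
      · simp only [List.mem_cons, List.not_mem_nil, or_false] at ha
        rcases ha' with h | h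
        · rcases ha with rfl | rfl <;> simp at h
        · split_ifs at h with hz'
          · simp only [List.mem_cons, List.not_mem_nil, or_false] at h
            rcases ha with rfl | rfl <;> rcases h with h | h <;> simp at h <;> exact h
          · simp at h
      · simp at ha
  · intro a ha b' hb
    rw [List.mem_singleton] at hb
    subst hb
    rintro rfl
    rw [List.mem_flatMap] at ha
    obtain ⟨e, _, ha⟩ := ha
    unfold blkH at ha
    rw [List.mem_cons] at ha
    rcases ha with h | h
    · simp only [NL.H.injEq] at h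
      exact absurd h.symm (Fin.castSucc_lt_last e).ne
    · split_ifs at h <;> simp at h

theorem hubL_chain {y : (Fin l1 → Bool) → (Fin l2 → Bool) → Set (Fin s)}
    (p : Fin l1 → Bool) (q : Fin l2 → Bool) (z : St → Bool)
    (hy : ∀ e, z (st e) = true → e ∈ y p q) :
    (hubL (Q := Q) st p q z).IsChain (nhh y) := by
  have hlast : ∀ e : Fin s, ∀ a ∈ (blkH (Q := Q) st p q z e).getLast?, nhh y a (.H e.succ) := by
    intro e a ha
    unfold blkH at ha
    split_ifs at ha with hz
    · simp only [List.getLast?_cons_cons, List.getLast?_singleton, Option.mem_def,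
        Option.some.injEq] at ha
      rw [← ha]
      exact nhh.toH q e
    · simp only [List.getLast?_singleton, Option.mem_def, Option.some.injEq] at ha
      rw [← ha]
      exact nhh.skip e
  have hne : ∀ e : Fin s, blkH (Q := Q) st p q z e ≠ [] := by
    intro e
    simp [blkH]
  unfold hubL
  rw [List.isChain_append]
  refine ⟨?_, by simp, ?_⟩
  · apply isChain_flatMap
    · intro e _
      unfold blkH
      split_ifs with hz
      · simp only [List.isChain_cons_cons, List.isChain_singleton, and_true]
        exact ⟨nhh.toA e p, nhh.AB p q e (hy e hz)⟩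
      · simp
    · intro e _; exact hne e
    · refine (finRange_chain s).imp ?_
      intro e e' hee a ha c hc
      have hc' : c = .H e'.castSucc := by
        unfold blkH at hc
        simp only [List.head?_cons, Option.mem_def, Option.some.injEq] at hc
        exact hc.symm
      have h := hlast e a ha
      have e1 : e'.castSucc = e.succ := by
        ext
        simp only [Fin.val_castSucc, Fin.val_succ]
        omega
      rw [hc', e1]
      exact h
  · intro a ha c hc
    simp only [List.head?_cons, Option.mem_def, Option.some.injEq] at hc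
    rw [getLast?_flatMap_ne _ _ (fun e _ => hne e)] at ha
    simp only [Option.mem_def, Option.bind_eq_some_iff] at ha
    obtain ⟨e, he, ha⟩ := ha
    have h := hlast e a (by simpa using ha)
    have e1 : e.succ = Fin.last s := by
      have := finRange_getLast? s e (by simpa using he)
      ext
      simpa using this
    rw [← hc, ← e1]
    exact h

theorem tab_back {y : (Fin l1 → Bool) → (Fin l2 → Bool) → Set (Fin s)} {zf : ℕ} (hb : 0 < b)
    (h : ∃ p q, TabSat st lit (y p q)) : (tabGraph st lit er el y zf).IsHamiltonian := by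
  classical
  obtain ⟨p, q, z, hz, hy⟩ := h
  let w : Rw l1 l2 St → Bool := Sum.elim p (Sum.elim q z)
  let zr : Fin b → ℕ → Bool := fun i _ => w (er i)
  have hex : ∀ a : Lf s l1 l2 Q, a ∉ hubL (Q := Q) st p q z →
      ∃ ik : Fin b × Fin r, atl st lit er el ik.1 ik.2 = some (a, strand (zr ik.1) 1) := by
    intro a ha
    obtain ⟨ρ, hρ⟩ : ∃ ρ, att st lit ρ a = some (w ρ) := by
      rw [mem_hubL] at ha
      push Not at ha
      obtain ⟨h1, h2⟩ := ha
      cases a with
      | H j => exact absurd rfl (h1 j)
      | A p' e =>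
        by_cases hp : p' = p
        · subst hp
          have hze : z (st e) = false := by
            by_contra hcon
            rw [Bool.not_eq_false] at hcon
            exact (h2 e hcon).1 rfl
          exact ⟨Sum.inr (Sum.inr (st e)), by simp [att, w, hze]⟩
        · obtain ⟨i, hi⟩ := Function.ne_iff.mp hp
          refine ⟨Sum.inl i, ?_⟩
          simp only [att, w, Sum.elim_inl, Option.some.injEq]
          revert hi
          cases p' i <;> cases p i <;> simp
      | B q' e =>
        by_cases hp : q' = q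
        · subst hp
          have hze : z (st e) = false := by
            by_contra hcon
            rw [Bool.not_eq_false] at hcon
            exact (h2 e hcon).2 rfl
          exact ⟨Sum.inr (Sum.inr (st e)), by simp [att, w, hze]⟩
        · obtain ⟨i, hi⟩ := Function.ne_iff.mp hp
          refine ⟨Sum.inr (Sum.inl i), ?_⟩
          simp only [att, w, Sum.elim_inl, Sum.elim_inr, Option.some.injEq]
          revert hi
          cases q' i <;> cases q i <;> simp
      | cl c =>
        obtain ⟨σ, hσ⟩ := hz c
        exact ⟨Sum.inr (Sum.inr σ), by simpa [att, w] using hσ⟩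
    refine ⟨(er.symm ρ, el.symm a), ?_⟩
    unfold atl
    simp only [Equiv.apply_symm_apply]
    rw [hρ, strand_one]
    simp [zr]
  haveI : Nonempty (Fin b × Fin r) := ⟨(⟨0, hb⟩, el.symm (.H 0))⟩
  choose! ch hch using hex
  let cov : Lf s l1 l2 Q → Option (Fin b × Fin r) := fun a =>
    if a ∈ hubL (Q := Q) st p q z then none else some (ch a)
  refine gadget_back (l := 1) hb zf zr (fun _ _ _ => trivial) (hubL (Q := Q) st p q z)
    (hubL_nodup p q z) cov ?_ ?_ (hubL_chain p q z hy) ?_ ?_ ?_
  · intro a i k h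
    simp only [cov] at h
    split_ifs at h with ha
    simp only [Option.some.injEq] at h
    have := hch a ha
    rw [h] at this
    exact this
  · intro a
    simp only [cov]
    split_ifs with ha <;> simp [ha]
  · intro a ha
    unfold hubL at ha
    show a = .H 0
    cases s with
    | zero =>
      simp only [List.finRange_zero, List.flatMap_nil, List.nil_append, List.head?_cons,
        Option.mem_def, Option.some.injEq] at ha
      rw [← ha]
      rfl
    | succ s' =>
      rw [List.finRange_succ, List.flatMap_cons] at ha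
      simp only [blkH, List.cons_append, List.head?_cons, Option.mem_def, Option.some.injEq] at ha
      rw [← ha]
      rfl
  · intro a ha
    unfold hubL at ha
    rw [List.getLast?_append] at ha
    simp only [List.getLast?_singleton, Option.some_or, Option.mem_def, Option.some.injEq] at ha
    exact ha.symm
  · intro hnil
    exfalso
    unfold hubL at hnil
    simp at hnil

end

end Pool.Agent.H545R2.Neg
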