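import Pool.Agent.H545R2.NFill

set_option autoImplicit false
set_option linter.unusedSectionVars false

/-! Table graphs with a prescribed number of edges. -/

namespace Pool.Agent.H545R2.Neg

open Pool.Agent.H545R2

section

variable {s l1 l2 : ℕ} {St Q : Type} [Fintype St] [DecidableEq St] [Fintype Q] [DecidableEq Q]
  {b r : ℕ} {st : Fin s → St} {lit : Q → St → Option Bool} {er : Fin b ≃ Rw l1 l2 St}
    {el : Fin r ≃ Lf s l1 l2 Q}

theorem tab_of_matching {y : (Fin l1 → Bool) → (Fin l2 → Bool) → Set (Fin s)}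
    {ν : Sg b r 1 (Lf s l1 l2 Q) × Bool → Sg b r 1 (Lf s l1 l2 Q) × Bool}
    (hν : Matching (atl st lit er el) (fun _ _ _ => True) nhs nhe (nhh y) False ν) :
    ∃ p q, TabSat st lit (y p q) := by
  classical
  obtain ⟨z, _, hmode⟩ := hν.modes
  let w : Rw l1 l2 St → Bool := fun ρ => strand (z (er.symm ρ)) 1
  have hcov : ∀ a, (∃ i k, atl st lit er el i k = some (a, strand (z i) 1)) →
      ∃ ρ, att st lit ρ a = some (w ρ) := by
    rintro a ⟨i, k, h⟩
    refine ⟨er i, ?_⟩
    rw [atl_some h]
    simp [w]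
  have hside := hν.sides hmode
  -- uncovered leaves
  have hA : ∀ e, w (Sum.inr (Sum.inr (st e))) = true →
      ¬ ∃ ρ, att st lit ρ (.A (fun i => w (Sum.inl i)) e : Lf s l1 l2 Q) = some (w ρ) := by
    rintro e he ⟨ρ, hρ⟩
    rcases ρ with i | i | σ
    · simp [att] at hρ
    · simp [att] at hρ
    · simp only [att] at hρ
      split_ifs at hρ with hσ
      rw [hσ, he] at hρ
      simp at hρ
  have hB : ∀ e, w (Sum.inr (Sum.inr (st e))) = true →
      ¬ ∃ ρ, att st lit ρ (.B (fun i => w (Sum.inr (Sum.inl i))) e : Lf s l1 l2 Q) =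
        some (w ρ) := by
    rintro e he ⟨ρ, hρ⟩
    rcases ρ with i | i | σ
    · simp [att] at hρ
    · simp [att] at hρ
    · simp only [att] at hρ
      split_ifs at hρ with hσ
      rw [hσ, he] at hρ
      simp at hρ
  refine ⟨fun i => w (Sum.inl i), fun i => w (Sum.inr (Sum.inl i)),
    fun σ => w (Sum.inr (Sum.inr σ)), ?_, ?_⟩
  · intro c
    rcases hside (.cl c) with ⟨h1, _, _⟩ | ⟨h1, _⟩
    · obtain ⟨ρ, hρ⟩ := hcov _ h1
      rcases ρ with i | i | σ
      · simp [att] at hρ
      · simp [att] at hρ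
      · exact ⟨σ, hρ⟩
    · exfalso
      rcases h1 with ⟨h1, _⟩ | ⟨a', h1, _⟩
      · simp [nhs] at h1
      · cases h1
  · intro e he
    rcases hside (.A (fun i => w (Sum.inl i)) e) with ⟨h1, _, _⟩ | ⟨_, h1⟩
    · exact absurd (hcov _ h1) (hA e he)
    rcases h1 with ⟨h1, _⟩ | ⟨a', h1, h2⟩
    · simp [nhe] at h1
    obtain ⟨q', rfl, hy⟩ : ∃ q', a' = .B q' e ∧ e ∈ y (fun i => w (Sum.inl i)) q' := by
      cases h1 with
      | AB p q e h => exact ⟨q, rfl, h⟩
    -- the leaf after that one
    rcases hside (.B q' e) with ⟨_, h3, _⟩ | ⟨_, h3⟩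
    · obtain ⟨i, x, m, h3⟩ := h3
      have := (hν.eq_comm' h2).symm.trans h3
      simp at this
    rcases h3 with ⟨h3, _⟩ | ⟨a', h3, h4⟩
    · simp [nhe] at h3
    rcases hside (.B (fun i => w (Sum.inr (Sum.inl i))) e) with ⟨h5, _, _⟩ | ⟨_, h5⟩
    · exact absurd (hcov _ h5) (hB e he)
    rcases h5 with ⟨h5, _⟩ | ⟨a'', h5, h6⟩
    · simp [nhe] at h5
    cases h3
    cases h5
    have := hν.inj (h4.trans h6.symm)
    simp only [Prod.mk.injEq, Sg.leaf.injEq, NL.B.injEq, and_true] at this
    rw [← this]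
    exact hy


theorem tabX_iff {y : (Fin l1 → Bool) → (Fin l2 → Bool) → Set (Fin s)} {zf : ℕ} (hb : 0 < b)
    (EX : SimpleGraph (Fin zf)) :
    (tabGraph st lit er el y zf ⊔ EX.map Sum.inr).IsHamiltonian ↔
      ∃ p q, TabSat st lit (y p q) := by
  constructor
  · intro h
    have h3 : 3 ≤ Fintype.card (SegV (Sg b r 1 (Lf s l1 l2 Q)) zf) := by
      have : 1 ≤ Fintype.card (Sg b r 1 (Lf s l1 l2 Q)) := Fintype.card_pos_iff.mpr ⟨.fin⟩
      simp only [Fintype.card_sum, Fintype.card_prod, Fintype.card_option, Fintype.card_bool,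
        Fintype.card_fin]
      omega
    obtain ⟨ν, hν1, hν2, hν3⟩ := seg_matching_ex EX h3 h
    exact tab_of_matching ⟨hν1, hν2, hν3⟩
  · intro h
    exact (tab_back hb h).mono le_sup_left

end

/-! ### counting edges -/

section count

variable {M : Type} [Fintype M] [DecidableEq M] {R : M × Bool → M × Bool → Prop} {f : M} {z : ℕ}

/-- the pairs with a filler that can be edges of the segment graph -/
def fillE (f : M) (z : ℕ) (i : Fin (z + 1)) : Sym2 (SegV M z) :=
  if h0 : i.val = 0 then
    if hz : 0 < z then s(Sum.inl (f, none), Sum.inr ⟨0, hz⟩) else s(Sum.inl (f, none), Sum.inl (f, none))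
  else if h1 : i.val < z then s(Sum.inr ⟨i.val - 1, by omega⟩, Sum.inr ⟨i.val, h1⟩)
  else if hz : 0 < z then s(Sum.inr ⟨z - 1, by omega⟩, Sum.inl (f, some true))
  else s(Sum.inl (f, none), Sum.inl (f, none))

theorem seg_edges_le : (segGraph R f z).edgeSet.ncard ≤ (3 * Fintype.card M) ^ 2 + (z + 1) := by
  classical
  let f1 : (M × Option Bool) × (M × Option Bool) → Sym2 (SegV M z) := fun p =>
    s(Sum.inl p.1, Sum.inl p.2)
  have hsub : (segGraph R f z).edgeSet ⊆
      (((Finset.univ.image f1 ∪ Finset.univ.image (fillE f z)) : Finset _) : Set _) := by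
    intro e
    induction e using Sym2.ind with
    | _ u v =>
      intro he
      rw [SimpleGraph.mem_edgeSet, segGraph, SimpleGraph.fromRel_adj] at he
      have key : ∀ u v : SegV M z, SegRel R f z u v →
          s(u, v) ∈ Finset.univ.image f1 ∪ Finset.univ.image (fillE f z) := by
        intro u v h
        rw [Finset.mem_union, Finset.mem_image, Finset.mem_image]
        cases h with
        | port m m' β β' h =>
          exact Or.inl ⟨((m, some β), (m', some β')), Finset.mem_univ _, rfl⟩
        | mid m β h => exact Or.inl ⟨((m, none), (m, some β)), Finset.mem_univ _, rfl⟩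
        | midf j h =>
          right
          refine ⟨⟨0, by omega⟩, Finset.mem_univ _, ?_⟩
          have hz : 0 < z := j.pos
          have e : j = ⟨0, hz⟩ := by ext; exact h
          have e2 : fillE f z ⟨0, by omega⟩ = s(Sum.inl (f, none), Sum.inr ⟨0, hz⟩) := by
            simp [fillE, hz]
          rw [e2, ← e]
        | ff j j' h =>
          right
          have h1 := j'.isLt
          refine ⟨⟨j'.val, by omega⟩, Finset.mem_univ _, ?_⟩
          have h0 : ¬ (j'.val = 0) := by omega
          have e : (⟨j'.val - 1, by omega⟩ : Fin z) = j := by ext; show j'.val - 1 = j.val; omega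
          simp only [fillE, h0, dite_false, h1, dite_true]
          rw [e]
        | fp j h =>
          right
          have h1 := j.isLt
          refine ⟨⟨z, by omega⟩, Finset.mem_univ _, ?_⟩
          have hz : 0 < z := by omega
          have h0 : ¬ (z = 0) := by omega
          have e : (⟨z - 1, by omega⟩ : Fin z) = j := by ext; show z - 1 = j.val; omega
          simp only [fillE, h0, dite_false, lt_irrefl, hz, dite_true]
          rw [e]
      rcases he.2 with h | h
      · exact key u v h
      · rw [Sym2.eq_swap]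
        exact key v u h
  refine (Set.ncard_le_ncard hsub (Finset.finite_toSet _)).trans ?_
  rw [Set.ncard_coe_finset]
  refine (Finset.card_union_le _ _).trans (Nat.add_le_add ?_ ?_)
  · refine Finset.card_image_le.trans ?_
    rw [Finset.card_univ, Fintype.card_prod, Fintype.card_prod, Fintype.card_option,
      Fintype.card_bool, sq, mul_comm 3]
  · refine Finset.card_image_le.trans ?_
    simp

/-- edges between fillers -/
theorem seg_adj_fill {j j' : Fin z} (h : (segGraph R f z).Adj (Sum.inr j) (Sum.inr j')) :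
    j.val + 1 = j'.val ∨ j'.val + 1 = j.val := by
  rw [segGraph, SimpleGraph.fromRel_adj] at h
  obtain ⟨_, h | h⟩ := h
  · cases h with
    | ff j j' h => exact Or.inl h
  · cases h with
    | ff j j' h => exact Or.inr h

/-- additional edges between fillers, with a prescribed number -/
theorem exists_extra (z x : ℕ) (hz : 4 ≤ z) (hx : 2 * x ≤ (z - 2) ^ 2) :
    ∃ EX : SimpleGraph (Fin z), EX.edgeSet.ncard = x ∧
      ∀ j j' : Fin z, EX.Adj j j' → ¬ (j.val + 1 = j'.val ∨ j'.val + 1 = j.val) := by
  classical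
  let PE : Finset (Sym2 (Fin z)) := Finset.univ.image (fun j : Fin z =>
    if h : j.val + 1 < z then s(j, ⟨j.val + 1, h⟩) else s(j, j))
  have hPE : PE.card ≤ z := Finset.card_image_le.trans (by simp)
  have hchoose : 2 * (z.choose 2) = z * (z - 1) := by
    rw [Nat.choose_two_right]
    exact Nat.mul_div_cancel' (Nat.even_mul_pred_self z).two_dvd
  have hT0 : z.choose 2 - z ≤ ((⊤ : SimpleGraph (Fin z)).edgeFinset \ PE).card := by
    have h1 := Finset.le_card_sdiff PE (⊤ : SimpleGraph (Fin z)).edgeFinset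
    rw [SimpleGraph.card_edgeFinset_top_eq_card_choose_two, Fintype.card_fin] at h1
    omega
  have hxle : x ≤ z.choose 2 - z := by
    obtain ⟨w, rfl⟩ : ∃ w, z = w + 4 := ⟨z - 4, by omega⟩
    have e1 : w + 4 - 2 = w + 2 := by omega
    have e2 : w + 4 - 1 = w + 3 := by omega
    rw [e1] at hx
    rw [e2] at hchoose
    have e3 : (w + 4) * (w + 3) = (w + 2) ^ 2 + 2 * (w + 4) + w := by ring
    omega
  obtain ⟨T, hT1, hT2⟩ := Finset.exists_subset_card_eq (hxle.trans hT0)
  have hdiag : ∀ e ∈ T, ¬ e.IsDiag := by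
    intro e he
    have := (Finset.mem_sdiff.mp (hT1 he)).1
    rw [SimpleGraph.mem_edgeFinset] at this
    exact (⊤ : SimpleGraph (Fin z)).not_isDiag_of_mem_edgeSet this
  refine ⟨SimpleGraph.fromEdgeSet (T : Set (Sym2 (Fin z))), ?_, ?_⟩
  · rw [SimpleGraph.edgeSet_fromEdgeSet]
    have : (T : Set (Sym2 (Fin z))) \ Sym2.diagSet = T := by
      ext e
      constructor
      · exact fun h => h.1
      · intro h
        exact ⟨h, fun hd => hdiag e h (by simpa using hd)⟩
    rw [this, Set.ncard_coe_finset, hT2]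
  · intro j j' h hcon
    rw [SimpleGraph.fromEdgeSet_adj] at h
    have hn := (Finset.mem_sdiff.mp (hT1 h.1)).2
    apply hn
    rw [Finset.mem_image]
    rcases hcon with h1 | h1
    · refine ⟨j, Finset.mem_univ _, ?_⟩
      have h2 : j.val + 1 < z := by have := j'.isLt; omega
      rw [dif_pos h2]
      have e : (⟨j.val + 1, h2⟩ : Fin z) = j' := by ext; exact h1
      rw [e]
    · refine ⟨j', Finset.mem_univ _, ?_⟩
      have h2 : j'.val + 1 < z := by have := j.isLt; omega
      rw [dif_pos h2]
      have e : (⟨j'.val + 1, h2⟩ : Fin z) = j := by ext; exact h1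
      rw [e]
      exact Sym2.eq_swap

end count

end Pool.Agent.H545R2.Neg
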