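import Pool.Agent.H545R2.NWin

set_option autoImplicit false
set_option linter.unusedSectionVars false

/-! Families of graphs with a prescribed number of edges. -/

namespace Pool.Agent.H545R2.Neg

open Pool.Agent.H545R2 Pool.Agent.H560R2

theorem ncard_comap {V W : Type*} (e : V ≃ W) (G : SimpleGraph W) :
    (G.comap e).edgeSet.ncard = G.edgeSet.ncard :=
  Nat.card_congr (SimpleGraph.Iso.comap e G).mapEdgeSet

theorem tab_window {n s l1 l2 m N0 : ℕ} {St Q : Type} [Fintype St] [Fintype Q]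
    (st : Fin s → St) (lit : Q → St → Option Bool) (hb : 0 < Fintype.card St)
    (hN0 : 3 * segN s l1 l2 (Fintype.card St) (Fintype.card Q) ≤ N0)
    (h1 : n + N0 ^ 2 ≤ m) (h2 : 2 * m ≤ (n - N0 - 2) ^ 2) :
    ∃ (α : (Fin l1 → Bool) × Fin s → Fin n) (β : (Fin l2 → Bool) × Fin s → Fin n)
      (G : ((Fin l1 → Bool) → (Fin l2 → Bool) → Set (Fin s)) → SimpleGraph (Fin n)),
      Function.Injective α ∧ Function.Injective β ∧ (∀ x x', α x ≠ β x') ∧
      (∀ y p q e, (G y).Adj (α (p, e)) (β (q, e)) ↔ e ∈ y p q) ∧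
      (∀ y y' u v, (∀ p q e, ¬ (u = α (p, e) ∧ v = β (q, e)) ∧ ¬ (v = α (p, e) ∧ u = β (q, e))) →
        (G y).Adj u v → (G y').Adj u v) ∧
      (∀ y, (G y).IsHamiltonian ↔ ∃ p q, TabSat st lit (y p q)) ∧
      (G (fun _ _ => ∅)).edgeSet.ncard = m := by
  classical
  set b := Fintype.card (Rw l1 l2 St) with hbdef
  set r := Fintype.card (Lf s l1 l2 Q) with hrdef
  have hbc : b = l1 + l2 + Fintype.card St := by
    rw [hbdef]; simp [Rw, add_assoc]
  have hrc : r = s + 1 + Fintype.card Q + (2 ^ l1 * s + 2 ^ l2 * s) := by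
    rw [hrdef, card_nl]
    simp
  let er : Fin b ≃ Rw l1 l2 St := (Fintype.equivFin _).symm
  let el : Fin r ≃ Lf s l1 l2 Q := (Fintype.equivFin _).symm
  have hcard : Fintype.card (Sg b r 1 (Lf s l1 l2 Q)) =
      segN s l1 l2 (Fintype.card St) (Fintype.card Q) := by
    rw [card_sg, ← hrdef, hbc, hrc]
    unfold segN
    ring
  set c := Fintype.card (Sg b r 1 (Lf s l1 l2 Q)) with hc
  have hc1 : 1 ≤ c := Fintype.card_pos_iff.mpr ⟨.fin⟩
  have hcN : 3 * c ≤ N0 := by rw [hcard]; exact hN0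
  have hn4 : 4 ≤ n - N0 := by
    by_contra hcon
    have h3 : n - N0 - 2 ≤ 1 := by omega
    have h4 : (n - N0 - 2) ^ 2 ≤ 1 ^ 2 := Nat.pow_le_pow_left h3 2
    have h5 : 3 ^ 2 ≤ N0 ^ 2 := Nat.pow_le_pow_left (by omega) 2
    omega
  obtain ⟨zf, hzf⟩ : ∃ zf, n = 3 * c + zf := ⟨n - 3 * c, by omega⟩
  have hcV : Fintype.card (Fin n) = Fintype.card (SegV (Sg b r 1 (Lf s l1 l2 Q)) zf) := by
    simp only [Fintype.card_sum, Fintype.card_prod, Fintype.card_option, Fintype.card_bool,
      Fintype.card_fin]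
    omega
  let Θ : Fin n ≃ SegV (Sg b r 1 (Lf s l1 l2 Q)) zf := Fintype.equivOfCardEq hcV
  -- the additional edges
  set e0 := (tabGraph st lit er el (fun _ _ => ∅) zf).edgeSet.ncard with he0
  have he0le : e0 ≤ m := by
    have h3 : e0 ≤ (3 * c) ^ 2 + (zf + 1) := seg_edges_le
    have h4 : (3 * c) ^ 2 ≤ N0 ^ 2 := Nat.pow_le_pow_left hcN 2
    omega
  obtain ⟨EX, hEX1, hEX2⟩ := exists_extra zf (m - e0) (by omega) (by
    have h3 : (n - N0 - 2) ^ 2 ≤ (zf - 2) ^ 2 := Nat.pow_le_pow_left (by omega) 2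
    omega)
  refine ⟨fun x => Θ.symm (Sum.inl (.leaf (.A x.1 x.2), some true)),
    fun x => Θ.symm (Sum.inl (.leaf (.B x.1 x.2), some false)),
    fun y => (tabGraph st lit er el y zf ⊔ EX.map Sum.inr).comap Θ, ?_, ?_, ?_, ?_, ?_, ?_, ?_⟩
  · rintro ⟨p, e⟩ ⟨p', e'⟩ h
    have := Θ.symm.injective h
    simp only [Sum.inl.injEq, Prod.mk.injEq, Sg.leaf.injEq, NL.A.injEq, and_true] at this
    rw [this.1, this.2]
  · rintro ⟨p, e⟩ ⟨p', e'⟩ h
    have := Θ.symm.injective h
    simp only [Sum.inl.injEq, Prod.mk.injEq, Sg.leaf.injEq, NL.B.injEq, and_true] at this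
    rw [this.1, this.2]
  · intro x x' h
    have := Θ.symm.injective h
    simp at this
  · intro y p q e
    rw [SimpleGraph.comap_adj, Equiv.apply_symm_apply, Equiv.apply_symm_apply,
      SimpleGraph.sup_adj]
    constructor
    · rintro (h | h)
      · exact (tab_adj_var p q e).mp h
      · rw [SimpleGraph.map_adj'] at h
        obtain ⟨_, a, b, _, h1, _⟩ := h
        simp at h1
    · intro h
      exact Or.inl ((tab_adj_var p q e).mpr h)
  · intro y y' u v huv h
    rw [SimpleGraph.comap_adj, SimpleGraph.sup_adj] at h ⊢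
    rcases h with h | h
    · left
      unfold tabGraph segGraph at h ⊢
      rw [SimpleGraph.fromRel_adj] at h ⊢
      refine ⟨h.1, ?_⟩
      rcases h.2 with h | h
      · rcases rel_change (y' := y') h with h | ⟨p, q, e, h1, h2, _⟩
        · exact Or.inl h
        · exfalso
          apply (huv p q e).1
          exact ⟨(Equiv.eq_symm_apply Θ).mpr h1, (Equiv.eq_symm_apply Θ).mpr h2⟩
      · rcases rel_change (y' := y') h with h | ⟨p, q, e, h1, h2, _⟩
        · exact Or.inr h
        · exfalso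
          apply (huv p q e).2
          exact ⟨(Equiv.eq_symm_apply Θ).mpr h1, (Equiv.eq_symm_apply Θ).mpr h2⟩
    · exact Or.inr h
  · intro y
    have hb0 : 0 < b := by omega
    rw [← tabX_iff (st := st) (lit := lit) (er := er) (el := el) (y := y) hb0 EX]
    constructor
    · exact ham_of_hom' (G := (tabGraph st lit er el y zf ⊔ EX.map Sum.inr).comap Θ)
        (H := tabGraph st lit er el y zf ⊔ EX.map Sum.inr) ⟨Θ, fun {a b} h => h⟩ Θ.bijective
    · refine ham_of_hom' (G := tabGraph st lit er el y zf ⊔ EX.map Sum.inr)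
        (H := (tabGraph st lit er el y zf ⊔ EX.map Sum.inr).comap Θ)
        ⟨Θ.symm, fun {a b} h => ?_⟩ Θ.symm.bijective
      show (tabGraph st lit er el y zf ⊔ EX.map Sum.inr).Adj (Θ (Θ.symm a)) (Θ (Θ.symm b))
      rwa [Equiv.apply_symm_apply, Equiv.apply_symm_apply]
  · rw [ncard_comap, SimpleGraph.edgeSet_sup, Set.ncard_union_eq _ (Set.toFinite _)
      (Set.toFinite _), ← he0]
    · have : (EX.map (Sum.inr : Fin zf → SegV (Sg b r 1 (Lf s l1 l2 Q)) zf)).edgeSet.ncard =
          EX.edgeSet.ncard := by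
        have h3 : EX.map (Sum.inr : Fin zf → SegV (Sg b r 1 (Lf s l1 l2 Q)) zf) =
          EX.map (Function.Embedding.inr : Fin zf ↪ SegV (Sg b r 1 (Lf s l1 l2 Q)) zf) := rfl
        rw [h3, SimpleGraph.edgeSet_map]
        exact Set.ncard_image_of_injective _
          (Function.Embedding.inr : Fin zf ↪ SegV (Sg b r 1 (Lf s l1 l2 Q)) zf).sym2Map.injective
      rw [this, hEX1]
      omega
    · rw [Set.disjoint_left]
      intro e
      induction e using Sym2.ind with
      | _ u v =>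
        intro h3 h4
        rw [SimpleGraph.mem_edgeSet, SimpleGraph.map_adj'] at h4
        obtain ⟨_, j, j', h5, rfl, rfl⟩ := h4
        rw [SimpleGraph.mem_edgeSet] at h3
        exact hEX2 j j' h5 (seg_adj_fill h3)

end Pool.Agent.H545R2.Neg
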