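import Pool.Agent.H545R2.NWin2

set_option autoImplicit false
set_option linter.unusedSectionVars false

/-! Circuits that are correct on few consecutive numbers of edges only. -/

namespace Pool.Agent.H545R2.Neg

open Pool.Agent.H545R2 Pool.Agent.H560R2 Pool.Agent.H520R2 Pool.Agent.H520R2.NM

variable {F : Type} [Field F] [Fintype F] [DecidableEq F]

/-- copies of POLY with a prescribed number of edges -/
theorem poly_window {n M l1 l2 D N0 m : ℕ} (hD : 1 ≤ D)
    (hN0 : 3 * segP (Fintype.card F) D l1 l2 ≤ N0)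
    (hw1 : n + N0 ^ 2 ≤ m) (hw2 : 2 * m ≤ (n - N0 - 2) ^ 2)
    (en : Fin M → (Fin l1 → Bool) × (Fin l2 → Bool)) (hen : Function.Injective en) :
    ∃ (G : (Fin M → Set (F × F)) → SimpleGraph (Fin n)) (pr : Fin M → F × F → Sym2 (Fin n)),
      (∀ j, Function.Injective (pr j)) ∧
      (∀ y y' u v, (∀ j e, s(u, v) = pr j e → e ∈ y j → e ∈ y' j) →
        (G y).Adj u v → (G y').Adj u v) ∧
      (∀ y, (G y).IsHamiltonian ↔ ∃ j, fPoly D (y j)) ∧
      (G (fun _ => ∅)).edgeSet.ncard = m := by
  classical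
  set q := Fintype.card F with hq
  let eι : Fin (q ^ 2) ≃ F × F := Fintype.equivOfCardEq (by
    rw [Fintype.card_fin, Fintype.card_prod, sq])
  have hSt : Fintype.card (PSt F D) = D * q + (q * D * q ^ 2 + q ^ 2) := by
    simp [PSt, hq, sq]
  have hCl : Fintype.card (PCl F D) = D + (q * D + q) := by
    simp [PCl, hq]
  have hq0 : 0 < q := Fintype.card_pos
  have hSt0 : 0 < Fintype.card (PSt F D) := by
    rw [hSt]
    have : 0 < q ^ 2 := Nat.pow_pos hq0
    omega
  let st' : Fin (q ^ 2) → PSt F D := fun e => pst (eι e)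
  obtain ⟨α, β, G0, hα, hβ, hαβ, g1, g2, g3, g4⟩ := tab_window (n := n) (l1 := l1) (l2 := l2)
    (m := m) (N0 := N0) st' (clit (pcls (F := F) (d := D)) pcmp) hSt0 (by
      refine le_trans ?_ hN0
      apply Nat.mul_le_mul_left
      unfold segP
      rw [hSt]
      apply segN_mono
      rw [← hSt, ← hCl, ← Nat.card_eq_fintype_card (α := CQ _ _)]
      exact card_CQ _ _) hw1 hw2
  -- the table of a family of inputs
  let T : (Fin M → Set (F × F)) → (Fin l1 → Bool) → (Fin l2 → Bool) → Set (Fin (q ^ 2)) :=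
    fun y p r => {e | ∃ j, en j = (p, r) ∧ eι e ∈ y j}
  let pr : Fin M → F × F → Sym2 (Fin n) := fun j e =>
    s(α ((en j).1, eι.symm e), β ((en j).2, eι.symm e))
  have hadj : ∀ y p r e, (G0 (T y)).Adj (α (p, e)) (β (r, e)) ↔
      ∃ j, en j = (p, r) ∧ eι e ∈ y j := by
    intro y p r e
    rw [g1]
    exact Iff.rfl
  refine ⟨fun y => G0 (T y), pr, ?_, ?_, ?_, ?_⟩
  · intro j e e' h
    have h' : s(α ((en j).1, eι.symm e), β ((en j).2, eι.symm e)) =
      s(α ((en j).1, eι.symm e'), β ((en j).2, eι.symm e')) := h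
    rw [Sym2.eq_iff] at h'
    rcases h' with ⟨h1, _⟩ | ⟨h1, _⟩
    · have := hα h1
      simpa using this
    · exact absurd h1 (hαβ _ _)
  · intro y y' u v huv h
    by_cases hv : ∀ p r (e : Fin (q ^ 2)), ¬ (u = α (p, e) ∧ v = β (r, e)) ∧
        ¬ (v = α (p, e) ∧ u = β (r, e))
    · exact g2 _ _ u v hv h
    · push Not at hv
      obtain ⟨p, r, e, hv⟩ := hv
      by_cases h1 : u = α (p, e) ∧ v = β (r, e)
      · rw [h1.1, h1.2, hadj] at h ⊢
        obtain ⟨j, hj, he⟩ := h
        refine ⟨j, hj, huv j (eι e) ?_ he⟩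
        show s(u, v) = s(α ((en j).1, eι.symm (eι e)), β ((en j).2, eι.symm (eι e)))
        rw [Equiv.symm_apply_apply, hj, h1.1, h1.2]
      · obtain ⟨h2, h3⟩ := hv (fun h2 h3 => h1 ⟨h2, h3⟩)
        rw [SimpleGraph.adj_comm, h2, h3, hadj] at h ⊢
        obtain ⟨j, hj, he⟩ := h
        refine ⟨j, hj, huv j (eι e) ?_ he⟩
        show s(u, v) = s(α ((en j).1, eι.symm (eι e)), β ((en j).2, eι.symm (eι e)))
        rw [Equiv.symm_apply_apply, hj, h2, h3]
        exact Sym2.eq_swap
  · intro y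
    rw [g3]
    have hsat : ∀ Y : Set (Fin (q ^ 2)), TabSat st' (clit (pcls (F := F) (d := D)) pcmp) Y ↔
        fPoly D (eι '' Y) := by
      intro Y
      rw [tabSat_iff, ← csp_iff hD]
      constructor
      · rintro ⟨σ, k1, k2, k3⟩
        refine ⟨σ, k1, k2, ?_⟩
        intro e he
        refine ⟨eι.symm e, k3 (eι.symm e) ?_, by simp⟩
        simp only [st', Equiv.apply_symm_apply]
        exact he
      · rintro ⟨σ, k1, k2, k3⟩
        refine ⟨σ, k1, k2, ?_⟩
        intro e he
        obtain ⟨e', he', h⟩ := k3 (eι e) he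
        rw [← eι.injective h]
        exact he'
    constructor
    · rintro ⟨p, r, h⟩
      rw [hsat] at h
      by_cases hj : ∃ j, en j = (p, r)
      · obtain ⟨j, hj⟩ := hj
        refine ⟨j, ?_⟩
        have e1 : eι '' (T y p r) = y j := by
          ext e
          constructor
          · rintro ⟨e', ⟨j', hj', he'⟩, rfl⟩
            have := hen (hj'.trans hj.symm)
            rw [← this]
            exact he'
          · intro he
            exact ⟨eι.symm e, ⟨j, hj, by simpa using he⟩, by simp⟩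
        rw [e1] at h
        exact h
      · exfalso
        have e1 : eι '' (T y p r) = ∅ := by
          rw [Set.image_eq_empty, Set.eq_empty_iff_forall_notMem]
          rintro e ⟨j, hj', _⟩
          exact hj ⟨j, hj'⟩
        rw [e1] at h
        obtain ⟨c, hc⟩ := h
        exact hc 0
    · rintro ⟨j, hj⟩
      refine ⟨(en j).1, (en j).2, ?_⟩
      rw [hsat]
      have e1 : eι '' (T y (en j).1 (en j).2) = y j := by
        ext e
        constructor
        · rintro ⟨e', ⟨j', hj', he'⟩, rfl⟩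
          have := hen hj'
          rw [← this]
          exact he'
        · intro he
          exact ⟨eι.symm e, ⟨j, rfl, by simpa using he⟩, by simp⟩
      rw [e1]
      exact hj
  · have : T (fun _ => ∅) = fun _ _ => ∅ := by
      funext p r
      rw [Set.eq_empty_iff_forall_notMem]
      rintro e ⟨j, _, h⟩
      exact h
    show (G0 (T fun _ => ∅)).edgeSet.ncard = m
    rw [this]
    exact g4

omit F [Field F] [Fintype F] [DecidableEq F] in
/-- The lower bound. -/
theorem window_ham (d t n m R : ℕ) (hd : 1 ≤ d)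
    (hR : R = 2 ^ ((t + 1) / 2) * (t + 1) * (2 ^ 131 * (Nat.log 2 d + 1) ^ 12 * d ^ 6) ^ 2)
    (hw1 : n + R ^ 2 ≤ m) (hw2 : 2 * m ≤ (n - 2 * R) ^ 2)
    {L : Type} (lf : L → SimpleGraph (Fin n) → Bool) (hlf : ∀ l, FreeOutB ⊤ d (lf l))
    {N : ℕ} (C : Circuit L N) (out : Wire L N)
    (hC : ∀ G : SimpleGraph (Fin n), m ≤ G.edgeSet.ncard →
      G.edgeSet.ncard ≤ m + 2 ^ t * (2 ^ 42 * (Nat.log 2 d + 1) ^ 4 * d ^ 2) →
      (out.eval (inp lf G) (C.vals (inp lf G)) = true ↔ G.IsHamiltonian))
    (hprod : (C.fanins.map (· + 1)).prod ≤ 2 ^ t) :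
    2 ^ d ≤ C.size + C.fanins.sum := by
  classical
  by_contra hsize
  rw [not_le] at hsize
  set u := Nat.log 2 d + 1 with hu
  have hu1 : 1 ≤ u := by omega
  obtain ⟨lam, h0, h1, h2⟩ := exists_lam2 d hd
  obtain ⟨F, _, _, _, hq⟩ := exists_field lam h0
  set q := 2 ^ lam with hqd
  rw [← hu] at h2
  have hlam : 1 ≤ lam := by omega
  have hd4 : 1024 * d ≤ q := by
    refine le_trans ?_ h1
    have : 1 ≤ lam * (lam + 1) := Nat.mul_pos hlam (by omega)
    calc 1024 * d = (1024 * d) * 1 := by ring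
      _ ≤ (1024 * d) * (lam * (lam + 1)) := Nat.mul_le_mul_left _ this
      _ = _ := by ring
  have hq1 : 1 ≤ q := by omega
  have hq6 : q ^ 6 ≤ 2 ^ 126 * u ^ 12 * d ^ 6 := by
    calc q ^ 6 ≤ (2 ^ 21 * u ^ 2 * d) ^ 6 := Nat.pow_le_pow_left h2 6
      _ = _ := by ring
  have hq2 : q ^ 2 ≤ 2 ^ 42 * u ^ 4 * d ^ 2 := by
    calc q ^ 2 ≤ (2 ^ 21 * u ^ 2 * d) ^ 2 := Nat.pow_le_pow_left h2 2
      _ = _ := by ring
  have hq12 : 1024 * q ^ 12 ≤ (2 ^ 131 * u ^ 12 * d ^ 6) ^ 2 := by
    calc 1024 * q ^ 12 = (32 * q ^ 6) ^ 2 := by ring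
      _ ≤ (32 * (2 ^ 126 * u ^ 12 * d ^ 6)) ^ 2 := by gcongr
      _ = (2 ^ 131 * u ^ 12 * d ^ 6) ^ 2 := by
        have : 32 * (2 ^ 126 * u ^ 12 * d ^ 6) = 2 ^ 131 * u ^ 12 * d ^ 6 := by ring
        rw [this]
  -- number of address bits
  set l1 := (t + 1) / 2 with hl1
  set l2 := t / 2 with hl2
  have hl : l1 + l2 = t := by omega
  set P := 2 ^ l1 with hP
  have hP1 : 1 ≤ P := Nat.one_le_two_pow
  have hP2 : 2 ^ l2 ≤ P := Nat.pow_le_pow_right (by norm_num) (by omega)
  have hseg : 3 * segP q (2 * d) l1 l2 ≤ R := by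
    have h3 := segP_le (q := q) (d := d) (l1 := l1) (l2 := l2) hd hd4
    have e1 : l1 + l2 + 2 * q ^ 4 + 1 ≤ 3 * (q ^ 4 * (t + 1)) := by
      have : 1 ≤ q ^ 4 := Nat.one_le_pow _ _ hq1
      have e2 : t + 1 ≤ q ^ 4 * (t + 1) := Nat.le_mul_of_pos_left _ this
      have e3 : q ^ 4 ≤ q ^ 4 * (t + 1) := Nat.le_mul_of_pos_right _ (by omega)
      omega
    have e2 : 18 * q ^ 8 + 5 + 3 * ((2 ^ l1 + 2 ^ l2) * q ^ 2) ≤ 29 * (q ^ 8 * P) := by
      have e3 : 1 ≤ q ^ 8 := Nat.one_le_pow _ _ hq1
      have e4 : q ^ 8 ≤ q ^ 8 * P := Nat.le_mul_of_pos_right _ hP1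
      have e5 : (2 ^ l1 + 2 ^ l2) * q ^ 2 ≤ (2 * P) * q ^ 8 :=
        Nat.mul_le_mul (by omega) (Nat.pow_le_pow_right hq1 (by norm_num))
      have e6 : (2 * P) * q ^ 8 = 2 * (q ^ 8 * P) := by ring
      omega
    calc 3 * segP q (2 * d) l1 l2 ≤ 3 * ((3 * (q ^ 4 * (t + 1))) * (29 * (q ^ 8 * P))) :=
          Nat.mul_le_mul_left _ (h3.trans (Nat.mul_le_mul e1 e2))
      _ = 261 * (P * (t + 1) * q ^ 12) := by ring
      _ ≤ 1024 * (P * (t + 1) * q ^ 12) := Nat.mul_le_mul_right _ (by norm_num)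
      _ = P * (t + 1) * (1024 * q ^ 12) := by ring
      _ ≤ P * (t + 1) * (2 ^ 131 * u ^ 12 * d ^ 6) ^ 2 := Nat.mul_le_mul_left _ hq12
      _ = R := hR.symm
  have hR2 : 2 ≤ R := by
    have h3 : 1 ≤ segP q (2 * d) l1 l2 := by
      unfold segP segN
      omega
    omega
  obtain ⟨G, pr, k1, k2, k3, k4⟩ := poly_window (F := F) (n := n) (M := 2 ^ t) (l1 := l1)
    (l2 := l2) (D := 2 * d) (N0 := R) (m := m) (by omega) (by rw [hq]; exact hseg) hw1
    (hw2.trans (Nat.pow_le_pow_left (by omega) 2))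
    (fun i => (Fintype.equivOfCardEq (α := Fin (2 ^ t))
      (β := (Fin l1 → Bool) × (Fin l2 → Bool)) (by
        simp only [Fintype.card_prod, Fintype.card_pi, Fintype.card_bool, Finset.prod_const,
          Finset.card_univ, Fintype.card_fin]
        rw [← pow_add, hl])) i) (Equiv.injective _)
  have hGmono : ∀ y y', (∀ j, y j ⊆ y' j) → G y ≤ G y' :=
    fun y y' hy u v h => k2 y y' u v (fun j e _ he => hy j he) h
  -- number of edges
  have hlow : ∀ y, m ≤ (G y).edgeSet.ncard := by
    intro y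
    rw [← k4]
    refine Set.ncard_le_ncard ?_ (Set.toFinite _)
    rw [SimpleGraph.edgeSet_subset_edgeSet]
    exact hGmono _ _ (fun j => Set.empty_subset _)
  have hup : ∀ y, (G y).edgeSet.ncard ≤ m + 2 ^ t * (2 ^ 42 * u ^ 4 * d ^ 2) := by
    intro y
    have hsub : (G y).edgeSet ⊆ (G (fun _ => ∅)).edgeSet ∪
        ((Finset.univ.image (fun x : Fin (2 ^ t) × (F × F) => pr x.1 x.2) : Finset _) :
          Set (Sym2 (Fin n))) := by
      intro e
      induction e using Sym2.ind with
      | _ a b =>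
        intro he
        by_cases hp : ∃ j e, s(a, b) = pr j e
        · right
          obtain ⟨j, e, hje⟩ := hp
          rw [Finset.mem_coe, Finset.mem_image]
          exact ⟨(j, e), Finset.mem_univ _, hje.symm⟩
        · left
          rw [SimpleGraph.mem_edgeSet] at he ⊢
          refine k2 y _ a b (fun j e hje _ => ?_) he
          exact absurd ⟨j, e, hje⟩ hp
    refine (Set.ncard_le_ncard hsub (Set.toFinite _)).trans ((Set.ncard_union_le _ _).trans ?_)
    rw [k4, Set.ncard_coe_finset]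
    refine Nat.add_le_add_left (Finset.card_image_le.trans ?_) _
    rw [Finset.card_univ, Fintype.card_prod, Fintype.card_fin, Fintype.card_prod, hq, ← sq]
    exact Nat.mul_le_mul_left _ hq2
  have hf0 : ¬ fPoly (F := F) (2 * d) ∅ := by
    rintro ⟨c, hc⟩
    exact hc 0
  have hmon : ∀ y y', (∀ j, y j ⊆ y' j) → inp lf (G y) ≤ inp lf (G y') := by
    intro y y' hyy l
    obtain ⟨S, hS1, hS2, hS3⟩ := hlf l
    show lf l (G y) ≤ lf l (G y')
    rcases hb : lf l (G y) with _ | _
    · exact Bool.false_le _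
    · rw [hS3 (G y) (G y') (fun u v huv => by
        have : u = v := by
          by_contra hne
          exact huv hne
        subst this
        simp) (fun u v _ h => hGmono y y' hyy h) hb]
  obtain ⟨Y, c1, c2, c3⟩ := chain_gen (m := 2 ^ t) (fPoly (2 * d)) hf0
    (id : Fin (2 ^ t) → Fin (2 ^ t)) Function.injective_id (fun y => inp lf (G y)) hmon
    C out (fun y => (hC (G y) (hlow y) (hup y)).trans (k3 y)) (by
      intro y J g hg hgf
      have := mcomp_lower (F := F) d lam hd (by rw [hq]) (by rw [hq]; exact h1)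
        (blockBase (fun y => inp lf (G y)) y J)
        (by
          rintro _ ⟨b, hb, rfl⟩
          rcases hb with ⟨c, rfl⟩ | ⟨l, rfl⟩
          · exact ⟨∅, by simp, fun x x' _ h => h⟩
          · obtain ⟨S, hS1, hS2, hS3⟩ := hlf l
            refine ⟨S.preimage (pr J) (k1 J).injOn, ?_, ?_⟩
            · refine le_trans ?_ hS2
              rw [← Finset.card_image_of_injective _ (k1 J)]
              apply Finset.card_le_card
              intro x hx
              obtain ⟨e, he, rfl⟩ := Finset.mem_image.mp hx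
              exact Finset.mem_preimage.mp he
            · intro X X' hXX h
              refine hS3 _ _ ?_ ?_ h
              · intro u v huv
                have : u = v := by
                  by_contra hne
                  exact huv hne
                subst this
                simp
              · intro u v huv h
                refine k2 _ _ u v ?_ h
                intro j e hje he
                by_cases hj : j = J
                · subst hj
                  rw [Function.update_self] at he ⊢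
                  apply hXX e _ he
                  rw [Finset.mem_preimage, ← hje]
                  exact huv
                · rw [Function.update_of_ne hj] at he ⊢
                  exact he) _ g hg hgf
      have h5 : 2 * 2 ^ d ≤ 4 ^ d := by
        have : (4 : ℕ) ^ d = 2 ^ d * 2 ^ d := by rw [← mul_pow]; norm_num
        rw [this]
        apply Nat.mul_le_mul_right
        calc 2 = 2 ^ 1 := rfl
          _ ≤ 2 ^ d := Nat.pow_le_pow_right (by norm_num) hd
      omega)
  have := C.chain_le (2 ^ t) (fun i => inp lf (G (Y i))) (fun i hi => hmon _ _ (c1 i hi))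
    (fun i hi => c2 i hi)
  omega

end Pool.Agent.H545R2.Neg
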