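import Pool.Agent.H545R2.HamCore

set_option autoImplicit false

/-! Graphs made of segments (paths with three vertices: two ports and a middle vertex), where one
segment may carry `z` more filler vertices, and of edges between ports. -/

namespace Pool.Agent.H545R2

open SimpleGraph

/-- the other port of the same segment -/
def flipP {M : Type*} (p : M × Bool) : M × Bool := (p.1, !p.2)

@[simp] theorem flipP_flipP {M : Type*} (p : M × Bool) : flipP (flipP p) = p := by
  simp [flipP]

/-- Vertices: for each segment `m` two ports and a middle vertex, and `z` fillers. -/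
abbrev SegV (M : Type*) (z : ℕ) := (M × Option Bool) ⊕ Fin z

/-- The generating relation. -/
inductive SegRel {M : Type*} (R : M × Bool → M × Bool → Prop) (f : M) (z : ℕ) :
    SegV M z → SegV M z → Prop
  | port (m m' : M) (β β' : Bool) : R (m, β) (m', β') →
      SegRel R f z (Sum.inl (m, some β)) (Sum.inl (m', some β'))
  | mid (m : M) (β : Bool) : ¬ (m = f ∧ β = true ∧ 0 < z) →
      SegRel R f z (Sum.inl (m, none)) (Sum.inl (m, some β))
  | midf (j : Fin z) : j.val = 0 → SegRel R f z (Sum.inl (f, none)) (Sum.inr j)
  | ff (j j' : Fin z) : j.val + 1 = j'.val → SegRel R f z (Sum.inr j) (Sum.inr j')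
  | fp (j : Fin z) : j.val + 1 = z → SegRel R f z (Sum.inr j) (Sum.inl (f, some true))

/-- The segment graph. -/
def segGraph {M : Type*} (R : M × Bool → M × Bool → Prop) (f : M) (z : ℕ) :
    SimpleGraph (SegV M z) := SimpleGraph.fromRel (SegRel R f z)

section forward

variable {M : Type*} [Fintype M] [DecidableEq M] {R : M × Bool → M × Bool → Prop} {f : M} {z : ℕ}

theorem seg_matching (h3 : 3 ≤ Fintype.card (SegV M z)) (h : (segGraph R f z).IsHamiltonian) :
    ∃ ν : M × Bool → M × Bool, (∀ p, ν (ν p) = p) ∧ (∀ p, R p (ν p) ∨ R (ν p) p) ∧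
      (∀ X : Set (M × Bool), X.Nonempty → (∀ p ∈ X, ν p ∈ X) → (∀ p ∈ X, flipP p ∈ X) →
        X = Set.univ) := by
  classical
  obtain ⟨σ, hadj, hne, hconn⟩ := exists_perm_of_isHamiltonian h3 h
  -- used neighbours
  let U : SegV M z → SegV M z → Prop := fun v w => σ v = w ∨ σ w = v
  have hUsymm : ∀ v w, U v w → U w v := fun v w h => h.symm
  have hUadj : ∀ v w, U v w → (segGraph R f z).Adj v w := by
    rintro v w (rfl | rfl)
    · exact hadj v
    · exact (hadj w).symm
  have hpre : ∀ v, ∃ w, σ w = v := fun v => ⟨σ.symm v, by simp⟩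
  -- three pairwise distinct used neighbours are impossible
  have hU2 : ∀ v a b c, U v a → U v b → U v c → a ≠ b → a ≠ c → b = c := by
    intro v a b c ha hb hc hab hac
    rcases ha with ha | ha <;> rcases hb with hb | hb <;> rcases hc with hc | hc
    · exact absurd (ha.symm.trans hb) hab
    · exact absurd (ha.symm.trans hb) hab
    · exact absurd (ha.symm.trans hc) hac
    · exact σ.injective (hb.trans hc.symm)
    · exact hb.symm.trans hc
    · exact absurd (σ.injective (ha.trans hc.symm)) hac
    · exact absurd (σ.injective (ha.trans hb.symm)) hab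
    · exact absurd (σ.injective (ha.trans hb.symm)) hab
  have hdeg2 : ∀ v a b, (∀ w, (segGraph R f z).Adj v w → w = a ∨ w = b) → U v a ∧ U v b := by
    intro v a b hw
    obtain ⟨u, hu⟩ := hpre v
    have h1 : U v (σ v) := Or.inl rfl
    have h2 : U v u := Or.inr hu
    have h12 : σ v ≠ u := by
      intro h; apply hne u; rw [hu]; exact h
    rcases hw _ (hUadj _ _ h1) with e1 | e1 <;> rcases hw _ (hUadj _ _ h2) with e2 | e2
    · exact absurd (e1.trans e2.symm) h12
    · exact ⟨e1 ▸ h1, e2 ▸ h2⟩
    · exact ⟨e2 ▸ h2, e1 ▸ h1⟩
    · exact absurd (e1.trans e2.symm) h12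
  -- the forced neighbour of a port
  have hforced : ∀ p : M × Bool, ∃ w : SegV M z, U (Sum.inl (p.1, some p.2)) w ∧
      ∀ q : M × Bool, w ≠ Sum.inl (q.1, some q.2) := by
    rintro ⟨m, β⟩
    by_cases hc : m = f ∧ β = true ∧ 0 < z
    · obtain ⟨rfl, rfl, hz⟩ := hc
      refine ⟨Sum.inr ⟨z - 1, by omega⟩, ?_, by simp⟩
      apply hUsymm
      by_cases hz1 : z = 1
      · refine (hdeg2 _ (Sum.inl (m, none)) _ ?_).2
        intro w hw
        rw [segGraph, SimpleGraph.fromRel_adj] at hw
        obtain ⟨_, hw | hw⟩ := hw
        · cases hw with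
          | ff j j' hj => exfalso; have := j'.isLt; simp at hj; omega
          | fp j hj => right; rfl
        · cases hw with
          | midf j hj => left; rfl
          | ff j j' hj => exfalso; simp at hj; omega
      · refine (hdeg2 _ (Sum.inr ⟨z - 2, by omega⟩) _ ?_).2
        intro w hw
        rw [segGraph, SimpleGraph.fromRel_adj] at hw
        obtain ⟨_, hw | hw⟩ := hw
        · cases hw with
          | ff j j' hj => exfalso; have := j'.isLt; simp at hj; omega
          | fp j hj => right; rfl
        · cases hw with
          | midf j hj => exfalso; simp at hj; omega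
          | ff j j' hj =>
            left; congr 1; ext; simp at hj ⊢; omega
    · refine ⟨Sum.inl (m, none), ?_, by simp⟩
      apply hUsymm
      by_cases hm : m = f ∧ 0 < z
      · obtain ⟨rfl, hz⟩ := hm
        have hβ : β = false := by
          cases β with
          | false => rfl
          | true => exact absurd ⟨rfl, rfl, hz⟩ hc
        subst hβ
        refine (hdeg2 _ (Sum.inr ⟨0, hz⟩) _ ?_).2
        intro w hw
        rw [segGraph, SimpleGraph.fromRel_adj] at hw
        obtain ⟨_, hw | hw⟩ := hw
        · cases hw with
          | mid m β hβ =>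
            right
            cases β with
            | false => rfl
            | true => exact absurd ⟨rfl, rfl, hz⟩ hβ
          | midf j hj => left; congr 1; ext; simpa using hj
        · cases hw
      · have key := hdeg2 (Sum.inl (m, none)) (Sum.inl (m, some false)) (Sum.inl (m, some true)) ?_
        · cases β with
          | false => exact key.1
          | true => exact key.2
        intro w hw
        rw [segGraph, SimpleGraph.fromRel_adj] at hw
        obtain ⟨_, hw | hw⟩ := hw
        · cases hw with
          | mid m β hβ =>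
            cases β with
            | false => left; rfl
            | true => right; rfl
          | midf j hj => exact absurd ⟨rfl, by have := j.isLt; omega⟩ hm
        · cases hw
  -- neighbours of a port that are not ports are unique
  have hex : ∀ p : M × Bool, ∃ q : M × Bool, U (Sum.inl (p.1, some p.2)) (Sum.inl (q.1, some q.2)) := by
    rintro ⟨m, β⟩
    by_contra hcon
    push Not at hcon
    -- all used neighbours are the forced ones; but the port has a unique non-port neighbour
    obtain ⟨u, hu⟩ := hpre (Sum.inl (m, some β))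
    have h1 : U (Sum.inl (m, some β)) (σ (Sum.inl (m, some β))) := Or.inl rfl
    have h2 : U (Sum.inl (m, some β)) u := Or.inr hu
    have h12 : σ (Sum.inl (m, some β)) ≠ u := by
      intro h; apply hne u; rw [hu]; exact h
    have huniq : ∀ w w' : SegV M z, U (Sum.inl (m, some β)) w → U (Sum.inl (m, some β)) w' → w = w' := by
      have haux : ∀ w : SegV M z, U (Sum.inl (m, some β)) w →
          (w = Sum.inl (m, none) ∧ ¬ (m = f ∧ β = true ∧ 0 < z)) ∨
          (∃ j : Fin z, w = Sum.inr j ∧ j.val + 1 = z ∧ (m = f ∧ β = true ∧ 0 < z)) := by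
        intro w hw
        have hw' := hUadj _ _ hw
        rw [segGraph, SimpleGraph.fromRel_adj] at hw'
        obtain ⟨_, hw' | hw'⟩ := hw'
        · cases hw' with
          | port m m' β β' hR => exact absurd hw (hcon (m', β'))
        · cases hw' with
          | port m' m β' β hR => exact absurd hw (hcon (m', β'))
          | mid m β hβ => exact Or.inl ⟨rfl, hβ⟩
          | fp j hj => exact Or.inr ⟨j, rfl, hj, rfl, rfl, by have := j.isLt; omega⟩
      intro w w' hw hw'
      rcases haux w hw with ⟨h, h'⟩ | ⟨j, h, hj, h'⟩ <;> rcases haux w' hw' with ⟨g, g'⟩ | ⟨j', g, gj, g'⟩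
      · rw [h, g]
      · exact absurd g' h'
      · exact absurd h' g'
      · rw [h, g]; congr 1; ext; omega
    exact h12 (huniq _ _ h1 h2)
  choose ν hν using hex
  have hun : ∀ p q : M × Bool, U (Sum.inl (p.1, some p.2)) (Sum.inl (q.1, some q.2)) → q = ν p := by
    intro p q hq
    obtain ⟨w, hw, hwp⟩ := hforced p
    have := hU2 _ w _ _ hw hq (hν p) (hwp q) (hwp (ν p))
    simp only [Sum.inl.injEq, Prod.mk.injEq, Option.some.injEq] at this
    exact Prod.ext this.1 this.2
  refine ⟨ν, ?_, ?_, ?_⟩
  · intro p
    exact (hun (ν p) p (hUsymm _ _ (hν p))).symm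
  · intro p
    have := hUadj _ _ (hν p)
    rw [segGraph, SimpleGraph.fromRel_adj] at this
    obtain ⟨_, hw | hw⟩ := this
    · cases hw with
      | port m m' β β' hR => left; exact hR
    · cases hw with
      | port m m' β β' hR => right; exact hR
  · intro X hX hXν hXf
    have hXm : ∀ (m : M) (β β' : Bool), (m, β) ∈ X → (m, β') ∈ X := by
      intro m β β' h
      cases β <;> cases β'
      · exact h
      · exact hXf _ h
      · exact hXf _ h
      · exact h
    let X' : Set (SegV M z) := fun v => match v with
      | Sum.inl (m, some β) => (m, β) ∈ X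
      | Sum.inl (m, none) => (m, false) ∈ X
      | Sum.inr _ => (f, false) ∈ X
    have e1 : ∀ m β, (Sum.inl (m, some β) : SegV M z) ∈ X' ↔ (m, β) ∈ X := fun m β => Iff.rfl
    have e2 : ∀ m, (Sum.inl (m, none) : SegV M z) ∈ X' ↔ (m, false) ∈ X := fun m => Iff.rfl
    have e3 : ∀ j, (Sum.inr j : SegV M z) ∈ X' ↔ (f, false) ∈ X := fun j => Iff.rfl
    have hcl : ∀ v w, U v w → v ∈ X' → w ∈ X' := by
      have hcl1 : ∀ v w, U v w → SegRel R f z v w → (v ∈ X' ↔ w ∈ X') := by
        intro v w hU hw
        cases hw with
        | port m m' β β' hR =>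
          rw [e1, e1]
          have h1 := hun (m, β) (m', β') hU
          have h2 := hun (m', β') (m, β) (hUsymm _ _ hU)
          constructor
          · intro h; rw [h1]; exact hXν _ h
          · intro h; rw [h2]; exact hXν _ h
        | mid m β hβ => rw [e1, e2]; exact ⟨hXm _ _ _, hXm _ _ _⟩
        | midf j hj => rw [e2, e3]
        | ff j j' hj => rw [e3, e3]
        | fp j hj => rw [e3, e1]; exact ⟨hXm _ _ _, hXm _ _ _⟩
      intro v w hU hv
      have := hUadj _ _ hU
      rw [segGraph, SimpleGraph.fromRel_adj] at this
      obtain ⟨_, hw | hw⟩ := this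
      · exact (hcl1 v w hU hw).1 hv
      · exact (hcl1 w v (hUsymm _ _ hU) hw).2 hv
    have huniv := hconn X' (by
      obtain ⟨p, hp⟩ := hX
      exact ⟨Sum.inl (p.1, some p.2), hp⟩) (fun v hv => hcl v (σ v) (Or.inl rfl) hv)
    ext p
    simp only [Set.mem_univ, iff_true]
    have : (Sum.inl (p.1, some p.2) : SegV M z) ∈ X' := by rw [huniv]; trivial
    exact this

end forward

section backward

set_option linter.unusedSectionVars false

variable {M : Type*} [Fintype M] [DecidableEq M] {R : M × Bool → M × Bool → Prop} {f : M} {z : ℕ}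

/-- the block of vertices visited when passing the segment `p.1` starting from the port `p` -/
def blk (f : M) (z : ℕ) (p : M × Bool) : List (SegV M z) :=
  Sum.inl (p.1, some p.2) :: Sum.inl (p.1, none) ::
    ((if p.1 = f then (List.finRange z).map Sum.inr else []) ++ [Sum.inl (p.1, some (!p.2))])

theorem blk_head (p : M × Bool) : (blk f z p).head? = some (Sum.inl (p.1, some p.2)) := rfl

theorem blk_getLast (p : M × Bool) :
    (blk f z p).getLast? = some (Sum.inl (p.1, some (!p.2))) := by
  unfold blk
  rw [← List.cons_append, ← List.cons_append, List.getLast?_append]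
  simp

theorem finRange_map_chain (z : ℕ) :
    ((List.finRange z).map (Sum.inr : Fin z → SegV M z)).IsChain (segGraph R f z).Adj := by
  rw [List.isChain_map]
  rw [List.isChain_iff_getElem]
  intro i hi
  simp only [List.getElem_finRange]
  rw [segGraph, SimpleGraph.fromRel_adj]
  refine ⟨by simp, Or.inl (SegRel.ff _ _ (by simp))⟩

theorem blk_chain (p : M × Bool) (hp : p.1 = f → p.2 = false) :
    (blk f z p).IsChain (segGraph R f z).Adj := by
  obtain ⟨m, β⟩ := p
  simp only at hp
  unfold blk
  by_cases hm : m = f
  · subst hm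
    have hβ := hp rfl
    subst hβ
    simp only [if_true]
    rw [List.isChain_cons_cons]
    refine ⟨?_, ?_⟩
    · rw [segGraph, SimpleGraph.fromRel_adj]
      exact ⟨by simp, Or.inr (SegRel.mid _ _ (by simp))⟩
    · rcases Nat.eq_zero_or_pos z with hz | hz
      · subst hz
        simp only [List.finRange_zero, List.map_nil, List.nil_append]
        rw [List.isChain_cons_cons]
        refine ⟨?_, by simp⟩
        rw [segGraph, SimpleGraph.fromRel_adj]
        exact ⟨by simp, Or.inl (SegRel.mid _ _ (by simp))⟩
      · rw [← List.cons_append, List.isChain_append]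
        refine ⟨?_, by simp, ?_⟩
        · rw [List.isChain_cons]
          refine ⟨?_, finRange_map_chain z⟩
          intro y hy
          obtain ⟨z', rfl⟩ : ∃ z', z = z' + 1 := ⟨z - 1, by omega⟩
          rw [List.finRange_succ] at hy
          simp only [List.map_cons, List.head?_cons, Option.mem_def, Option.some.injEq] at hy
          subst hy
          rw [segGraph, SimpleGraph.fromRel_adj]
          exact ⟨by simp, Or.inl (SegRel.midf _ (by simp))⟩
        · intro x hx y hy
          simp only [List.head?_cons, Option.mem_def, Option.some.injEq] at hy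
          subst hy
          rw [List.getLast?_cons] at hx
          simp only [List.getLast?_map, Option.mem_def, Option.some.injEq] at hx
          have hl : (List.finRange z).getLast? = some ⟨z - 1, by omega⟩ := by
            rw [List.getLast?_eq_getElem?, List.getElem?_eq_getElem (by simp; omega)]
            simp
          rw [hl] at hx
          simp only [Option.map_some, Option.getD_some] at hx
          subst hx
          rw [segGraph, SimpleGraph.fromRel_adj]
          exact ⟨by simp, Or.inl (SegRel.fp _ (by simp; omega))⟩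
  · simp only [hm, if_false, List.nil_append]
    have h1 : (segGraph R f z).Adj (Sum.inl (m, some β)) (Sum.inl (m, none)) := by
      rw [segGraph, SimpleGraph.fromRel_adj]
      exact ⟨by simp, Or.inr (SegRel.mid _ _ (by simp [hm]))⟩
    have h2 : (segGraph R f z).Adj (Sum.inl (m, none)) (Sum.inl (m, some (!β))) := by
      rw [segGraph, SimpleGraph.fromRel_adj]
      exact ⟨by simp, Or.inl (SegRel.mid _ _ (by simp [hm]))⟩
    simp [h1, h2]

theorem mem_blk (p : M × Bool) (v : SegV M z) : v ∈ blk f z p ↔
    (∃ o, v = Sum.inl (p.1, o)) ∨ (p.1 = f ∧ ∃ j, v = Sum.inr j) := by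
  obtain ⟨m, β⟩ := p
  unfold blk
  constructor
  · intro h
    simp only [List.mem_cons, List.mem_append, List.not_mem_nil, or_false] at h
    rcases h with h | h | h | h
    · exact Or.inl ⟨_, h⟩
    · exact Or.inl ⟨_, h⟩
    · by_cases hm : m = f
      · simp only [hm, if_true, List.mem_map] at h
        obtain ⟨j, _, hj⟩ := h
        exact Or.inr ⟨hm, j, hj.symm⟩
      · simp [hm] at h
    · exact Or.inl ⟨_, h⟩
  · rintro (⟨o, rfl⟩ | ⟨hm, j, rfl⟩)
    · rcases o with _ | o
      · simp
      · cases o <;> cases β <;> simp
    · simp only at hm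
      simp [hm]

theorem blk_nodup (p : M × Bool) : (blk f z p).Nodup := by
  obtain ⟨m, β⟩ := p
  unfold blk
  by_cases hm : m = f
  · simp only [hm, if_true]
    rw [List.nodup_cons, List.nodup_cons, List.nodup_append]
    refine ⟨by cases β <;> simp, by simp, ?_, by simp, by simp⟩
    exact (List.nodup_finRange z).map Sum.inr_injective
  · simp only [hm, if_false]
    cases β <;> simp

theorem flatMap_head? (T : List (M × Bool)) :
    (T.flatMap (blk f z)).head? = T.head?.map (fun p => Sum.inl (p.1, some p.2)) := by
  cases T with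
  | nil => rfl
  | cons a T => simp [blk]

theorem flatMap_getLast? (T : List (M × Bool)) :
    (T.flatMap (blk f z)).getLast? = T.getLast?.map (fun p => Sum.inl (p.1, some (!p.2))) := by
  induction T using List.reverseRecOn with
  | nil => rfl
  | append_singleton T a ih =>
    rw [List.flatMap_append, List.getLast?_append]
    simp only [List.flatMap_cons, List.flatMap_nil, List.append_nil, blk_getLast]
    simp

theorem flatMap_chain (T : List (M × Bool)) (hT : T.IsChain (fun a b => R (flipP a) b ∨ R b (flipP a)))
    (hnd : (T.map Prod.fst).Nodup)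
    (hf : ∀ p ∈ T, p.1 = f → p.2 = false) :
    (T.flatMap (blk f z)).IsChain (segGraph R f z).Adj := by
  induction T with
  | nil => simp
  | cons a T ih =>
    rw [List.flatMap_cons, List.isChain_append]
    rw [List.isChain_cons] at hT
    rw [List.map_cons, List.nodup_cons] at hnd
    refine ⟨blk_chain a (hf a (by simp)), ih hT.2 hnd.2 (fun p hp => hf p (by simp [hp])), ?_⟩
    intro x hx y hy
    rw [blk_getLast] at hx
    rw [flatMap_head?] at hy
    simp only [Option.mem_def, Option.some.injEq, Option.map_eq_some_iff] at hx hy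
    obtain ⟨b, hb, rfl⟩ := hy
    subst hx
    have hR := hT.1 b (by simpa using hb)
    rw [segGraph, SimpleGraph.fromRel_adj]
    refine ⟨?_, ?_⟩
    · intro h
      apply hnd.1
      simp only [Sum.inl.injEq, Prod.mk.injEq] at h
      rw [h.1]
      exact List.mem_map_of_mem (List.mem_of_mem_head? hb)
    · rcases hR with hR | hR
      · exact Or.inl (SegRel.port _ _ _ _ hR)
      · exact Or.inr (SegRel.port _ _ _ _ hR)

theorem seg_hamiltonian (T : List (M × Bool))
    (hT : T.IsChain (fun a b => R (flipP a) b ∨ R b (flipP a)))
    (hnd : (T.map Prod.fst).Nodup) (hmem : ∀ m, m ∈ T.map Prod.fst)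
    (hf : ∀ p ∈ T, p.1 = f → p.2 = false)
    (hclose : ∀ x ∈ T.getLast?, ∀ y ∈ T.head?, R (flipP x) y ∨ R y (flipP x)) :
    (segGraph R f z).IsHamiltonian := by
  classical
  have hne : T ≠ [] := by
    rintro rfl
    simpa using hmem f
  apply isHamiltonian_of_list (T.flatMap (blk f z))
  · rw [List.nodup_flatMap]
    refine ⟨fun p _ => blk_nodup p, ?_⟩
    rw [List.Nodup, List.pairwise_map] at hnd
    refine hnd.imp ?_
    intro a b hab
    rw [Function.onFun, List.disjoint_left]
    intro v hva hvb
    rw [mem_blk] at hva hvb
    rcases hva with ⟨o, rfl⟩ | ⟨ha, j, rfl⟩ <;> rcases hvb with ⟨o', ho'⟩ | ⟨hb, j', hj'⟩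
    · simp only [Sum.inl.injEq, Prod.mk.injEq] at ho'
      exact hab ho'.1
    · simp at hj'
    · simp at ho'
    · exact hab (ha.trans hb.symm)
  · intro v
    rw [List.mem_flatMap]
    rcases v with ⟨m, o⟩ | j
    · have := hmem m
      rw [List.mem_map] at this
      obtain ⟨p, hp, rfl⟩ := this
      exact ⟨p, hp, (mem_blk _ _).2 (Or.inl ⟨o, rfl⟩)⟩
    · have := hmem f
      rw [List.mem_map] at this
      obtain ⟨p, hp, hpf⟩ := this
      exact ⟨p, hp, (mem_blk _ _).2 (Or.inr ⟨hpf, j, rfl⟩)⟩
  · cases T with
    | nil => exact absurd rfl hne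
    | cons a T =>
      simp [blk]
      omega
  · exact flatMap_chain T hT hnd hf
  · intro x hx y hy
    rw [flatMap_getLast?] at hx
    rw [flatMap_head?] at hy
    simp only [Option.mem_def, Option.map_eq_some_iff] at hx hy
    obtain ⟨a, ha, rfl⟩ := hx
    obtain ⟨b, hb, rfl⟩ := hy
    have hR := hclose a ha b hb
    rw [segGraph, SimpleGraph.fromRel_adj]
    refine ⟨?_, ?_⟩
    · intro h
      simp only [Sum.inl.injEq, Prod.mk.injEq, Option.some.injEq] at h
      -- then T is a single element
      have hab : a = b := by
        have ha' := List.mem_of_mem_getLast? ha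
        have hb' := List.mem_of_mem_head? hb
        exact List.inj_on_of_nodup_map hnd ha' hb' h.1
      subst hab
      simp at h
    · rcases hR with hR | hR
      · exact Or.inl (SegRel.port _ _ _ _ hR)
      · exact Or.inr (SegRel.port _ _ _ _ hR)

end backward

end Pool.Agent.H545R2
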