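import Pool.Agent.H545R2.SymNet
import Pool.Agent.H545R2.SymAct
import Pool.Agent.H545R2.Support

set_option autoImplicit false
set_option linter.unusedSectionVars false

/-! Locally symmetric networks for Hamiltonicity are large. -/

namespace Pool.Agent.H545R2

open Finset

/-- `p` permutes each block by an even permutation and fixes all vertices outside the blocks. -/
def BlockEven {V : Type*} {r : ℕ} (blk : Fin r × Fin 5 ↪ V) (p : Equiv.Perm V) : Prop :=
  (∃ γ : Fin r → alternatingGroup (Fin 5),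
    ∀ b c, p (blk (b, c)) = blk (b, (γ b : Equiv.Perm (Fin 5)) c)) ∧
  ∀ v, v ∉ Set.range blk → p v = v

/-- the permutation given by even permutations of the blocks -/
noncomputable def bp {V : Type*} {r : ℕ} (blk : Fin r × Fin 5 ↪ V)
    (γ : Fin r → alternatingGroup (Fin 5)) : Equiv.Perm V :=
  Equiv.Perm.viaEmbedding (Equiv.prodShear (Equiv.refl (Fin r))
    (fun j => (γ j : Equiv.Perm (Fin 5)))) blk

section bp

variable {V : Type*} {r : ℕ} (blk : Fin r × Fin 5 ↪ V)

theorem bp_apply (γ : Fin r → alternatingGroup (Fin 5)) (b : Fin r) (c : Fin 5) :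
    bp blk γ (blk (b, c)) = blk (b, (γ b : Equiv.Perm (Fin 5)) c) := by
  unfold bp
  rw [Equiv.Perm.viaEmbedding_apply]
  rfl

theorem bp_notMem (γ : Fin r → alternatingGroup (Fin 5)) {v : V} (hv : v ∉ Set.range blk) :
    bp blk γ v = v :=
  Equiv.Perm.viaEmbedding_apply_of_notMem _ _ _ hv

theorem bp_even (γ : Fin r → alternatingGroup (Fin 5)) : BlockEven blk (bp blk γ) :=
  ⟨⟨γ, bp_apply blk γ⟩, fun _ hv => bp_notMem blk γ hv⟩

theorem bp_mul (γ γ' : Fin r → alternatingGroup (Fin 5)) :
    bp blk (γ * γ') = bp blk γ * bp blk γ' := by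
  ext v
  rw [Equiv.Perm.mul_apply]
  by_cases hv : v ∈ Set.range blk
  · obtain ⟨⟨b, c⟩, rfl⟩ := hv
    rw [bp_apply, bp_apply, bp_apply]
    rfl
  · rw [bp_notMem blk _ hv, bp_notMem blk _ hv, bp_notMem blk _ hv]

theorem bp_one : bp blk (1 : Fin r → alternatingGroup (Fin 5)) = 1 := by
  ext v
  by_cases hv : v ∈ Set.range blk
  · obtain ⟨⟨b, c⟩, rfl⟩ := hv
    rw [bp_apply]
    rfl
  · rw [bp_notMem blk _ hv]
    rfl

theorem bp_inv (γ : Fin r → alternatingGroup (Fin 5)) : bp blk γ⁻¹ = (bp blk γ)⁻¹ := by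
  rw [eq_inv_iff_mul_eq_one, ← bp_mul, inv_mul_cancel, bp_one]

end bp

/-- coordinates of a block -/
def cd (l : ZMod 2 × ZMod 2) : Fin 5 :=
  if l = (0, 0) then 0 else if l = (0, 1) then 1 else if l = (1, 0) then 2 else 3

/-- translations of a block -/
def tr (τ : ZMod 2 × ZMod 2) : Equiv.Perm (Fin 5) :=
  (if τ.2 = 1 then Equiv.swap 0 1 * Equiv.swap 2 3 else 1) *
    (if τ.1 = 1 then Equiv.swap 0 2 * Equiv.swap 1 3 else 1)

theorem cd_inj : Function.Injective cd := by
  unfold Function.Injective cd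
  decide

theorem cd_ne : ∀ l, cd l ≠ 4 := by
  unfold cd
  decide

theorem cd_surj : ∀ c : Fin 5, c = 4 ∨ ∃ l, c = cd l := by
  unfold cd
  decide

theorem tr_cd : ∀ τ l, tr τ (cd l) = cd (l + τ) := by
  unfold tr cd
  decide

theorem tr_four : ∀ τ, tr τ 4 = 4 := by
  unfold tr
  decide

theorem tr_sign : ∀ τ, Equiv.Perm.sign (tr τ) = 1 := by
  unfold tr
  decide

theorem tr_add (τ τ' : ZMod 2 × ZMod 2) : tr (τ + τ') = tr τ * tr τ' := by
  apply Equiv.ext
  intro c
  rw [Equiv.Perm.mul_apply]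
  rcases cd_surj c with rfl | ⟨l, rfl⟩
  · rw [tr_four, tr_four, tr_four]
  · rw [tr_cd, tr_cd, tr_cd, add_comm τ τ', add_assoc]

theorem tr_zero : tr 0 = 1 := by
  unfold tr
  simp

/-- translations as even permutations -/
def trA (τ : ZMod 2 × ZMod 2) : alternatingGroup (Fin 5) :=
  ⟨tr τ, by rw [Equiv.Perm.mem_alternatingGroup]; exact tr_sign τ⟩

theorem trA_add (τ τ' : ZMod 2 × ZMod 2) : trA (τ + τ') = trA τ * trA τ' :=
  Subtype.ext (tr_add τ τ')

theorem trA_zero : trA 0 = 1 := Subtype.ext tr_zero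

theorem extend_two {A V W : Type*} [Fintype V] [Fintype W] (f : A → V) (g : A → W)
    (hf : Function.Injective f) (hg : Function.Injective g)
    (hc : Fintype.card V = Fintype.card W) : ∃ e : V ≃ W, ∀ a, e (f a) = g a := by
  classical
  obtain ⟨e0⟩ : Nonempty (V ≃ W) := Fintype.card_eq.1 hc
  let h : V → W := fun v => if hv : ∃ a, f a = v then g hv.choose else e0 v
  have hh : ∀ a, h (f a) = g a := by
    intro a
    have hv : ∃ a', f a' = f a := ⟨a, rfl⟩
    simp only [h, dif_pos hv]
    rw [hf hv.choose_spec]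
  have hinj : Set.InjOn h (Set.range f) := by
    rintro _ ⟨a, rfl⟩ _ ⟨a', rfl⟩ haa
    rw [hh, hh] at haa
    rw [hg haa]
  have hmaps : Set.MapsTo h (Set.range f) ((Finset.univ : Finset W) : Set W) := by
    intro v _
    simp
  obtain ⟨e, he⟩ := hmaps.exists_equiv_extend_of_card_eq (by simpa using hc) hinj
  refine ⟨e.trans (Equiv.subtypeUnivEquiv (by simp)), ?_⟩
  intro a
  have := he (f a) ⟨a, rfl⟩
  rw [hh] at this
  exact this

theorem ham_of_hom {V W : Type*} [Fintype V] [DecidableEq V] [Fintype W] [DecidableEq W]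
    {G : SimpleGraph V} {H : SimpleGraph W} (f : G →g H) (hf : Function.Bijective f)
    (h : G.IsHamiltonian) : H.IsHamiltonian := by
  intro hc
  rw [← Fintype.card_of_bijective hf] at hc
  obtain ⟨a, p, hp⟩ := h hc
  exact ⟨f a, p.map f, hp.map hf⟩

namespace SB

/-- Blocks used by the gadget. -/
abbrev BI (M : ℕ) := (Ed M × Fin 36) ⊕ (Nd M × Option Bool)

theorem card_BI (M : ℕ) : Fintype.card (BI M) = 3990 * M := by
  have : Fintype.card (Option Bool) = 3 := rfl
  simp only [Fintype.card_sum, Fintype.card_prod, Fintype.card_fin, this]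
  ring

theorem card_Sgm (M : ℕ) : Fintype.card (Sgm M) = 5425 * M + 1 := by
  have h2 : Fintype.card (ZMod 2) = 2 := ZMod.card 2
  rw [Sym.card_sg]
  simp only [Fintype.card_sum, Fintype.card_prod, Fintype.card_fin, h2]
  ring

/-- pairs of swapped vertices of an edge -/
noncomputable def kd : Fin 36 × ZMod 2 ≃ (Fin 22 ⊕ Bool) × Option Bool :=
  Fintype.equivOfCardEq (by
    have : Fintype.card (Option Bool) = 3 := rfl
    simp [this, ZMod.card])

variable {M : ℕ} (π : Fin 35 → Equiv.Perm (Fin M))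

/-- the segments of a row -/
def sgOf (ρ : Rw M) : Fin 22 ⊕ Bool → Sgm M
  | Sum.inl x => .col ρ x
  | Sum.inr false => .lft ρ
  | Sum.inr true => .rgt ρ

/-- the vertices in the blocks -/
noncomputable def iota : BI M × (ZMod 2 × ZMod 2) → Sgm M × Option Bool
  | (Sum.inl (e, b), l) => (sgOf (e, l.2) (kd (b, l.1)).1, (kd (b, l.1)).2)
  | (Sum.inr (v, o), l) => (.leaf (Sum.inl (v, l)), o)

theorem sgOf_inj {ρ ρ' : Rw M} {k k' : Fin 22 ⊕ Bool} (h : sgOf ρ k = sgOf ρ' k') :
    ρ = ρ' ∧ k = k' := by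
  rcases k with x | _ | _ <;> rcases k' with x' | _ | _ <;> simp only [sgOf, reduceCtorEq] at h
  · simp only [Sym.Sg.col.injEq] at h
    exact ⟨h.1, by rw [h.2]⟩
  · simp only [Sym.Sg.lft.injEq] at h
    exact ⟨h, rfl⟩
  · simp only [Sym.Sg.rgt.injEq] at h
    exact ⟨h, rfl⟩

theorem sgOf_ne_leaf (ρ : Rw M) (k : Fin 22 ⊕ Bool) (a : Lf M) : sgOf ρ k ≠ .leaf a := by
  rcases k with x | _ | _ <;> simp [sgOf]

theorem iota_inj : Function.Injective (iota (M := M)) := by
  rintro ⟨⟨e, b⟩ | ⟨v, o⟩, l⟩ ⟨⟨e', b'⟩ | ⟨v', o'⟩, l'⟩ h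
  · simp only [iota, Prod.mk.injEq] at h
    obtain ⟨h1, h2⟩ := h
    obtain ⟨h3, h4⟩ := sgOf_inj h1
    simp only [Prod.mk.injEq] at h3
    have h5 := kd.injective (Prod.ext h4 h2)
    simp only [Prod.mk.injEq] at h5
    have h6 : l = l' := Prod.ext h5.2 h3.2
    rw [h3.1, h5.1, h6]
  · simp only [iota, Prod.mk.injEq] at h
    exact absurd h.1 (sgOf_ne_leaf _ _ _)
  · simp only [iota, Prod.mk.injEq] at h
    exact absurd h.1.symm (sgOf_ne_leaf _ _ _)
  · simp only [iota, Prod.mk.injEq, Sym.Sg.leaf.injEq, Sum.inl.injEq] at h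
    rw [h.1.1, h.1.2, h.2]

/-- translation of a block -/
def tau (y : Ed M → ZMod 2) : BI M → ZMod 2 × ZMod 2
  | Sum.inl (e, _) => (0, y e)
  | Sum.inr (v, _) => dl π y v

theorem tau_add (y y' : Ed M → ZMod 2) (b : BI M) : tau π (y + y') b = tau π y b + tau π y' b := by
  rcases b with ⟨e, b⟩ | ⟨v, o⟩
  · simp [tau]
  · simp only [tau, dl, Pi.add_apply, Prod.mk_add_mk, Prod.mk.injEq, and_true]
    ring

theorem act_iota (y : Ed M → ZMod 2) (b : BI M) (l : ZMod 2 × ZMod 2) :
    (actS π y (iota (b, l)).1, (iota (b, l)).2) = iota (b, l + tau π y b) := by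
  rcases b with ⟨e, b⟩ | ⟨v, o⟩
  · simp only [iota, tau, Prod.fst_add, Prod.snd_add, add_zero, Prod.mk.injEq, and_true]
    rcases (kd (b, l.1)).1 with x | _ | _ <;> simp [sgOf, actS, actR]
  · simp only [iota, tau, actS, actL]

theorem act_fix (y : Ed M → ZMod 2) (m : Sgm M) (o : Option Bool)
    (h : ∀ b l, iota (b, l) ≠ (m, o)) : actS π y m = m := by
  cases m with
  | col ρ x =>
    exfalso
    apply h (Sum.inl (ρ.1, (kd.symm (Sum.inl x, o)).1)) ((kd.symm (Sum.inl x, o)).2, ρ.2)
    simp [iota, sgOf]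
  | lft ρ =>
    exfalso
    apply h (Sum.inl (ρ.1, (kd.symm (Sum.inr false, o)).1)) ((kd.symm (Sum.inr false, o)).2, ρ.2)
    simp [iota, sgOf]
  | rgt ρ =>
    exfalso
    apply h (Sum.inl (ρ.1, (kd.symm (Sum.inr true, o)).1)) ((kd.symm (Sum.inr true, o)).2, ρ.2)
    simp [iota, sgOf]
  | leaf a =>
    rcases a with ⟨v, l⟩ | e
    · exfalso
      exact h (Sum.inr (v, o)) l rfl
    · rfl
  | fin => rfl

/-- the place of a block -/
def loc : BI M → Nd M ⊕ Ed M
  | Sum.inl (e, _) => Sum.inr e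
  | Sum.inr (v, _) => Sum.inl v

theorem tau_avoid {S : Finset (Nd M ⊕ Ed M)} {y : Ed M → ZMod 2} (h : Avoid π S y) (b : BI M)
    (hb : loc b ∈ S) : tau π y b = 0 := by
  rcases b with ⟨e, b⟩ | ⟨v, o⟩
  · simp only [tau]
    rw [h.1 e hb]
    rfl
  · simp only [tau, dl]
    rw [h.2 v hb 1, h.2 v hb 2, add_zero]
    rfl

end SB

open SB in
/-- **Locally symmetric networks for Hamiltonicity are exponentially large.** -/
theorem sym_lower {V : Type*} [Fintype V] [DecidableEq V] {r : ℕ} (blk : Fin r × Fin 5 ↪ V)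
    {Gt : Type*} [Fintype Gt] (N : Net V Gt)
    (hsym : ∀ p : Equiv.Perm V, BlockEven blk p → ∃ φ, N.IsAut p φ)
    (hham : ∀ G : SimpleGraph V, N.val G N.out = true ↔ G.IsHamiltonian) :
    5 ^ (r / 159600) ≤ Fintype.card Gt := by
  classical
  by_contra hcon
  rw [not_le] at hcon
  set m := r / 159600 with hmdef
  have hGt : 0 < Fintype.card Gt := Fintype.card_pos_iff.2 ⟨N.out⟩
  have hm0 : 0 < m := by
    rcases Nat.eq_zero_or_pos m with h | h
    · rw [h] at hcon
      simp at hcon
      omega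
    · exact h
  set M := 40 * m with hMdef
  have hM : 0 < M := by omega
  have hr : 3990 * M ≤ r := by
    have := Nat.div_mul_le_self r 159600
    omega
  obtain ⟨π, hπ⟩ := exists_joining M hM
  -- the blocks
  obtain ⟨ei⟩ : Nonempty (BI M ↪ Fin r) := by
    apply Function.Embedding.nonempty_of_card_le
    rw [card_BI, Fintype.card_fin]
    exact hr
  have hVr : 5 * r ≤ Fintype.card V := by
    have := Fintype.card_le_of_embedding blk
    rw [Fintype.card_prod, Fintype.card_fin, Fintype.card_fin] at this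
    omega
  obtain ⟨z, hz⟩ : ∃ z, Fintype.card V = (5425 * M + 1) * 3 + z :=
    ⟨Fintype.card V - (5425 * M + 1) * 3, by omega⟩
  have hcard : Fintype.card V = Fintype.card (SegV (Sgm M) z) := by
    have h3 : Fintype.card (Option Bool) = 3 := rfl
    unfold SegV
    rw [Fintype.card_sum, Fintype.card_prod, card_Sgm, h3, Fintype.card_fin]
    exact hz
  obtain ⟨Θ, hΘ⟩ := extend_two (A := BI M × (ZMod 2 × ZMod 2)) (V := V) (W := SegV (Sgm M) z)
    (fun q => blk (ei q.1, cd q.2)) (fun q => Sum.inl (iota q))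
    (by
      rintro ⟨b, l⟩ ⟨b', l'⟩ h
      have h1 := blk.injective h
      simp only [Prod.mk.injEq] at h1
      rw [ei.injective h1.1, cd_inj h1.2])
    (by
      intro q q' h
      exact iota_inj (Sum.inl_injective h)) hcard
  -- the action
  let γ : (Ed M → ZMod 2) → (Fin r → alternatingGroup (Fin 5)) := fun y =>
    Function.extend ei (fun b => trA (tau π y b)) 1
  have hγ : ∀ y b, γ y (ei b) = trA (tau π y b) := fun y b => ei.injective.extend_apply _ _ b
  have hγ' : ∀ y j, (¬ ∃ b, ei b = j) → γ y j = 1 := fun y j h => Function.extend_apply' _ _ j h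
  have hγadd : ∀ y y', γ (y + y') = γ y * γ y' := by
    intro y y'
    ext1 j
    rw [Pi.mul_apply]
    by_cases hj : ∃ b, ei b = j
    · obtain ⟨b, rfl⟩ := hj
      rw [hγ, hγ, hγ, tau_add, trA_add]
    · rw [hγ' _ j hj, hγ' _ j hj, hγ' _ j hj, one_mul]
  let P : (Ed M → ZMod 2) → Equiv.Perm V := fun y => bp blk (γ y)
  have hPadd : ∀ y y', P (y + y') = P y * P y' := by
    intro y y'
    show bp blk (γ (y + y')) = _
    rw [hγadd, bp_mul]
  have hΘP : ∀ y x, Θ (P y x) = actV π y (Θ x) := by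
    intro y x
    by_cases h : ∃ b l, x = blk (ei b, cd l)
    · obtain ⟨b, l, rfl⟩ := h
      have h1 : P y (blk (ei b, cd l)) = blk (ei b, cd (l + tau π y b)) := by
        show bp blk (γ y) _ = _
        rw [bp_apply, hγ]
        show blk (ei b, tr (tau π y b) (cd l)) = _
        rw [tr_cd]
      rw [h1]
      have h2 := hΘ (b, l + tau π y b)
      have h3 := hΘ (b, l)
      simp only at h2 h3
      rw [h2, h3, ← act_iota]
      rfl
    · have h1 : P y x = x := by
        show bp blk (γ y) x = x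
        by_cases hx : x ∈ Set.range blk
        · obtain ⟨⟨j, c⟩, rfl⟩ := hx
          rw [bp_apply]
          by_cases hj : ∃ b, ei b = j
          · obtain ⟨b, rfl⟩ := hj
            rcases cd_surj c with rfl | ⟨l, rfl⟩
            · rw [hγ]
              show blk (ei b, tr (tau π y b) 4) = _
              rw [tr_four]
            · exact absurd ⟨b, l, rfl⟩ h
          · rw [hγ' y j hj]
            rfl
        · exact bp_notMem blk _ hx
      rw [h1]
      rcases hx : Θ x with ⟨mm, o⟩ | j
      · have h2 : actS π y mm = mm := by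
          apply act_fix π y mm o
          intro b l hbl
          apply h
          refine ⟨b, l, Θ.injective ?_⟩
          have h3 := hΘ (b, l)
          simp only at h3
          rw [h3, hbl, hx]
        simp only [actV, h2]
      · rfl
  -- the graphs
  let G : (Nd M → ZMod 2) → SimpleGraph V := fun β => (GG π β z).comap Θ
  have hGiso : ∀ β, (G β).IsHamiltonian ↔ (GG π β z).IsHamiltonian := by
    intro β
    constructor
    · exact ham_of_hom (G := G β) (H := GG π β z) ⟨Θ, fun {a b} h => h⟩ Θ.bijective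
    · refine ham_of_hom (G := GG π β z) (H := G β) ⟨Θ.symm, fun {a b} h => ?_⟩ Θ.symm.bijective
      show (GG π β z).Adj (Θ (Θ.symm a)) (Θ (Θ.symm b))
      rwa [Equiv.apply_symm_apply, Equiv.apply_symm_apply]
  have hmain := main_abstract (N := N) π hM hπ m (by omega) P hPadd G
    (by
      intro β y u w
      show (GG π (β + bd π y) z).Adj (Θ (P y u)) (Θ (P y w)) ↔ (GG π β z).Adj (Θ u) (Θ w)
      rw [hΘP, hΘP]
      exact GG_act π y _ _)
    (by
      intro β v u w h y hy heq
      have h1 : ∀ v', v' ≠ v → (β + Pi.single v 1 : Nd M → ZMod 2) v' = β v' := by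
        intro v' hv'
        rw [Pi.add_apply, Pi.single_eq_of_ne hv', add_zero]
      apply act_moves π v h1 (u := Θ u) (w := Θ w) h y hy
      rw [← hΘP, ← hΘP]
      have := congrArg (Sym2.map Θ) heq
      simpa using this)
    (by
      intro g
      let H : Subgroup (Fin r → alternatingGroup (Fin 5)) :=
        { carrier := {γ | ∃ φ, N.IsAut (bp blk γ) φ ∧ φ g = g}
          one_mem' := ⟨1, by rw [bp_one]; exact Net.IsAut.one, rfl⟩
          mul_mem' := by
            rintro a b ⟨φ, h1, h2⟩ ⟨ψ, h3, h4⟩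
            exact ⟨φ * ψ, by rw [bp_mul]; exact h1.mul h3, by
              rw [Equiv.Perm.mul_apply, h4, h2]⟩
          inv_mem' := by
            rintro a ⟨φ, h1, h2⟩
            exact ⟨φ⁻¹, by rw [bp_inv]; exact h1.inv, by
              rw [Equiv.Perm.inv_eq_iff_eq]; exact h2.symm⟩ }
      choose φ hφ using fun γ => hsym _ (bp_even blk γ)
      obtain ⟨S, hS1, hS2⟩ := support_A5 H (fun γ => φ γ g) (by
        intro a b hab
        refine ⟨(φ a)⁻¹ * φ b, ?_, ?_⟩
        · rw [bp_mul, bp_inv]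
          exact (hφ a).inv.mul (hφ b)
        · rw [Equiv.Perm.mul_apply, ← hab, perm_inv_apply]) m hcon
      refine ⟨(Finset.univ.filter (fun b : BI M => ei b ∈ S)).image loc, ?_, ?_⟩
      · refine lt_of_le_of_lt Finset.card_image_le (lt_of_le_of_lt ?_ hS1)
        apply Finset.card_le_card_of_injOn ei
        · intro b hb
          simpa using hb
        · exact ei.injective.injOn
      · intro y hy
        have hmem : γ y ∈ H := by
          apply Subgroup.pi_mem_of_mulSingle_mem
          intro j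
          by_cases hj : j ∈ S
          · have : γ y j = 1 := by
              by_cases hjb : ∃ b, ei b = j
              · obtain ⟨b, rfl⟩ := hjb
                rw [hγ, tau_avoid π hy b, trA_zero]
                rw [Finset.mem_image]
                exact ⟨b, by simpa using hj, rfl⟩
              · exact hγ' y j hjb
            rw [this, Pi.mulSingle_one]
            exact H.one_mem
          · exact hS2 j hj _
        exact hmem)
  obtain ⟨v, hv⟩ := hmain
  have h1 : N.val (G 0) N.out = true := by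
    rw [hham, hGiso]
    exact backward π hM z
  rw [h1] at hv
  have h2 := (hham _).1 hv.symm
  rw [hGiso] at h2
  have h3 := forward π _ z h2
  rw [Finset.sum_pi_single'] at h3
  simp at h3

end Pool.Agent.H545R2
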